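import Pool.Agent.Lib.MP_1d41ea_nt.Defs

namespace Pool.Agent.Lib.MP_1d41ea_nt

open Finset
open scoped Pointwise

private lemma Bridge_mem (x i : ℕ) : i ∈ equivBitIndices x ↔ x.testBit i = true := by
  simp [equivBitIndices]

private lemma Bridge_mem' (x i : ℕ) : i ∈ equivBitIndices x ↔ x / 2 ^ i % 2 = 1 := by
  rw [Bridge_mem, Nat.testBit_eq_decide_div_mod_eq, decide_eq_true_iff]

private lemma Bridge_sup (a c m : ℕ) :
    (range (m + 1)).sup (fun i => min (a / 2 ^ i % 2) (c / 2 ^ (m - i) % 2)) =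
      if m ∈ equivBitIndices a + equivBitIndices c then 1 else 0 := by
  split_ifs with h
  · obtain ⟨i, hi, j, hj, rfl⟩ := mem_add.1 h
    refine le_antisymm (Finset.sup_le fun t _ => (min_le_left _ _).trans (by omega)) ?_
    refine le_trans ?_ (Finset.le_sup (f := fun t => min (a / 2 ^ t % 2) (c / 2 ^ (i + j - t) % 2))
      (mem_range.2 (by omega : i < i + j + 1)))
    rw [Bridge_mem'] at hi hj
    simp only [Nat.add_sub_cancel_left, hi, hj, min_self, le_refl]
  · refine Nat.le_zero.1 (Finset.sup_le fun t ht => ?_)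
    by_contra hc
    refine h (mem_add.2 ⟨t, ?_, m - t, ?_, ?_⟩)
    · rw [Bridge_mem']
      omega
    · rw [Bridge_mem']
      omega
    · have := mem_range.1 ht
      omega

private lemma Bridge_dig (n a c : ℕ) :
    (∀ m : ℕ, n / 2 ^ m % 2 =
      (range (m + 1)).sup (fun i => min (a / 2 ^ i % 2) (c / 2 ^ (m - i) % 2))) ↔
      equivBitIndices n = equivBitIndices a + equivBitIndices c := by
  simp only [Bridge_sup]
  constructor
  · intro h
    ext m
    rw [Bridge_mem', h m]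
    split_ifs with h1
    · exact iff_of_true rfl h1
    · exact iff_of_false id h1
  · intro h m
    rw [← h]
    split_ifs with h1
    · exact (Bridge_mem' _ _).1 h1
    · rw [Bridge_mem'] at h1
      omega

private lemma Bridge_one (a : ℕ) : a = 1 ↔ equivBitIndices a = {0} := by
  have e : equivBitIndices 1 = {0} := by simp [equivBitIndices]
  rw [← e, equivBitIndices.apply_eq_iff_eq]

private lemma Bridge_irr (n : ℕ) :
    (∀ a c : ℕ, (∀ m : ℕ, n / 2 ^ m % 2 =
      (range (m + 1)).sup (fun i => min (a / 2 ^ i % 2) (c / 2 ^ (m - i) % 2))) →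
        a = 1 ∨ c = 1) ↔
      ∀ A B : Finset ℕ, equivBitIndices n = A + B → A = {0} ∨ B = {0} := by
  simp only [Bridge_dig, Bridge_one]
  constructor
  · intro h A B e
    have := h (equivBitIndices.symm A) (equivBitIndices.symm B)
    simp only [Equiv.apply_symm_apply] at this
    exact this e
  · intro h a c e
    exact h _ _ e

private lemma Bridge_red {C : Finset ℕ} {t : ℕ} (ht : 2 ≤ t) (hC : t ∈ C) :
    (∀ A B : Finset ℕ, C = A + B → A = {0} ∨ B = {0}) ↔
      0 ∈ C ∧ ¬ ∃ A B : Finset ℕ, 2 ≤ A.card ∧ 2 ≤ B.card ∧ C = A + B := by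
  constructor
  · intro h
    refine ⟨?_, ?_⟩
    · by_contra h0
      have e : C = {1} + C.image (· - 1) := by
        ext x
        simp only [mem_add, mem_singleton, mem_image]
        constructor
        · intro hx
          have : x ≠ 0 := fun e => h0 (e ▸ hx)
          exact ⟨1, rfl, x - 1, ⟨x, hx, rfl⟩, by omega⟩
        · rintro ⟨_, rfl, _, ⟨y, hy, rfl⟩, rfl⟩
          have : y ≠ 0 := fun e => h0 (e ▸ hy)
          rwa [show 1 + (y - 1) = y by omega]
      rcases h _ _ e with h1 | h1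
      · simp at h1
      · have h2 : t - 1 ∈ C.image (· - 1) := mem_image.2 ⟨t, hC, rfl⟩
        rw [h1, mem_singleton] at h2
        omega
    · rintro ⟨A, B, hA, hB, e⟩
      rcases h A B e with rfl | rfl
      · simp at hA
      · simp at hB
  · rintro ⟨h0, h⟩ A B e
    rw [e] at h0
    obtain ⟨a, ha, b, hb, hab⟩ := mem_add.1 h0
    obtain rfl : a = 0 := by omega
    obtain rfl : b = 0 := by omega
    by_contra hc
    rw [not_or] at hc
    refine h ⟨A, B, ?_, ?_, e⟩
    · by_contra h1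
      exact hc.1 (eq_singleton_iff_unique_mem.2
        ⟨ha, fun x hx => card_le_one.1 (by omega) x hx 0 ha⟩)
    · by_contra h1
      exact hc.2 (eq_singleton_iff_unique_mem.2
        ⟨hb, fun x hx => card_le_one.1 (by omega) x hx 0 hb⟩)

private lemma Bridge_rng {n t : ℕ} : (2 ^ t ≤ n ∧ n < 2 ^ (t + 1)) ↔
    equivBitIndices n ⊆ range (t + 1) ∧ t ∈ equivBitIndices n := by
  constructor
  · rintro ⟨h1, h2⟩
    refine ⟨fun i hi => mem_range.2 ?_, ?_⟩
    · have h3 := Nat.ge_two_pow_of_testBit ((Bridge_mem _ _).1 hi)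
      exact (Nat.pow_lt_pow_iff_right (by norm_num : 1 < 2)).1 (lt_of_le_of_lt h3 h2)
    · exact (Bridge_mem _ _).2 (Nat.testBit_of_two_pow_le_and_two_pow_add_one_gt h1 h2)
  · rintro ⟨h1, h2⟩
    refine ⟨Nat.ge_two_pow_of_testBit ((Bridge_mem _ _).1 h2), Nat.lt_pow_two_of_testBit _ ?_⟩
    intro i hi
    by_contra hc
    have h3 := mem_range.1 (h1 ((Bridge_mem n i).2 (by simpa using hc)))
    omega

private lemma Bridge_card {t : ℕ} (ht : 1 ≤ t) :
    ((range (t + 1)).powerset.filter (fun C => 0 ∈ C ∧ t ∈ C)).card = 2 ^ (t - 1) := by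
  have e : (range (t + 1)).powerset.filter (fun C => 0 ∈ C ∧ t ∈ C) =
      Icc ({0, t} : Finset ℕ) (range (t + 1)) := by
    ext C
    simp only [mem_filter, mem_powerset, mem_Icc, insert_subset_iff, singleton_subset_iff]
    exact and_comm
  have h1 : ({0, t} : Finset ℕ) ⊆ range (t + 1) := by
    simp [insert_subset_iff]
  rw [e, card_Icc_finset h1, card_range, card_pair (by omega)]
  rfl

theorem bridge (k : ℕ) (hk : 3 ≤ k) :
    ({n : ℕ | 2 ^ (k - 1) ≤ n ∧ n < 2 ^ k ∧ n ≠ 1 ∧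
        ∀ a c : ℕ,
          (∀ m : ℕ, n / 2 ^ m % 2 =
            (Finset.range (m + 1)).sup (fun i => min (a / 2 ^ i % 2) (c / 2 ^ (m - i) % 2))) →
          a = 1 ∨ c = 1} : Set ℕ).ncard + (Red (k - 1)).card = 2 ^ (k - 2) := by
  classical
  obtain ⟨t, rfl⟩ : ∃ t, k = t + 1 := ⟨k - 1, by omega⟩
  have ht : 2 ≤ t := by omega
  simp only [Nat.add_sub_cancel, Bridge_irr]
  set O := (range (t + 1)).powerset.filter (fun C => 0 ∈ C ∧ t ∈ C) with hO
  set R : Finset ℕ → Prop := fun C => ∃ A B : Finset ℕ, 2 ≤ A.card ∧ 2 ≤ B.card ∧ C = A + B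
    with hR
  have e1 : Red t = O.filter R := by
    ext C
    simp only [Red, hO, hR, mem_filter, and_assoc]
  have e2 : equivBitIndices '' {n : ℕ | 2 ^ t ≤ n ∧ n < 2 ^ (t + 1) ∧ n ≠ 1 ∧
      ∀ A B : Finset ℕ, equivBitIndices n = A + B → A = {0} ∨ B = {0}} =
      ↑(O.filter fun C => ¬ R C) := by
    ext C
    simp only [Set.mem_image, Set.mem_ofPred_eq, coe_filter, hO, mem_filter, mem_powerset]
    constructor
    · rintro ⟨n, ⟨h1, h2, -, h3⟩, rfl⟩
      obtain ⟨h4, h5⟩ := Bridge_rng.1 ⟨h1, h2⟩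
      obtain ⟨h6, h7⟩ := (Bridge_red ht h5).1 h3
      exact ⟨⟨h4, h6, h5⟩, h7⟩
    · rintro ⟨⟨h4, h6, h5⟩, h7⟩
      obtain ⟨n, rfl⟩ := equivBitIndices.surjective C
      obtain ⟨h1, h2⟩ := Bridge_rng.2 ⟨h4, h5⟩
      refine ⟨n, ⟨h1, h2, ?_, (Bridge_red ht h5).2 ⟨h6, h7⟩⟩, rfl⟩
      have : 2 ^ 2 ≤ 2 ^ t := Nat.pow_le_pow_right (by norm_num) ht
      omega
  rw [← Set.ncard_image_of_injective _ equivBitIndices.injective, e2, Set.ncard_coe_finset, e1,
    add_comm, card_filter_add_card_filter_not, hO, Bridge_card (by omega)]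
  rfl

end Pool.Agent.Lib.MP_1d41ea_nt
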