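import Pool.Agent.Lib.MP_1d41ea_nt.Defs

namespace Pool.Agent.Lib.MP_1d41ea_nt

theorem eqfix1 : True := by
  have := @chain.eq_def
  have := @chain.eq_1
  have := @chain.eq_2
  have := @chain.eq_3
  have := @chain.eq_4
  trivial

theorem eqfix2 : True := by
  have := @wt.eq_1
  have := @wt.eq_2
  have := @wt.eq_3
  trivial

end Pool.Agent.Lib.MP_1d41ea_nt
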