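import Pool.Agent.Lib.MP_1d41ea_nt.Defs
import Pool.Agent.Lib.MP_1d41ea_nt.EqFix

namespace Pool.Agent.Lib.MP_1d41ea_nt

open Finset Filter Topology

theorem root_gt (lam : ℝ) (h : lam ^ 3 - 2 * lam ^ 2 + lam - 1 = 0) :
    mu < lam ∧ lam < 1755 / 1000 := by
  have e : lam * (lam - 1) ^ 2 = 1 := by linear_combination h
  have h1 : 1 < lam := by
    by_contra hc
    push Not at hc
    have h0 : 0 < lam := by
      by_contra h0
      push Not at h0
      have := mul_nonpos_of_nonpos_of_nonneg h0 (sq_nonneg (lam - 1))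
      linarith
    have h2 : (lam - 1) ^ 2 < 1 := by nlinarith
    nlinarith [sq_nonneg (lam - 1)]
  constructor
  · by_contra hc
    push Not at hc
    unfold mu at hc
    have h2 : (lam - 1) ^ 2 ≤ (3773 / 5000) ^ 2 :=
      pow_le_pow_left₀ (by linarith) (by linarith) 2
    have h3 : lam * (lam - 1) ^ 2 ≤ 8773 / 5000 * (3773 / 5000) ^ 2 :=
      mul_le_mul hc h2 (sq_nonneg _) (by norm_num)
    rw [e] at h3
    norm_num at h3
  · by_contra hc
    push Not at hc
    have h2 : ((755 : ℝ) / 1000) ^ 2 ≤ (lam - 1) ^ 2 :=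
      pow_le_pow_left₀ (by norm_num) (by linarith) 2
    have h3 : 1755 / 1000 * ((755 : ℝ) / 1000) ^ 2 ≤ lam * (lam - 1) ^ 2 :=
      mul_le_mul hc h2 (sq_nonneg _) (by linarith)
    rw [e] at h3
    norm_num at h3

theorem ChainAn_rec (L : ℕ) : chain (L + 3) = 2 * chain (L + 2) - chain (L + 1) + chain L := by
  rw [chain]

theorem ChainAn_rec4 (L : ℕ) : chain (L + 4) = chain (L + 3) + chain (L + 2) + chain L := by
  have h1 := ChainAn_rec (L + 1)
  have h2 := ChainAn_rec L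
  have e1 : L + 1 + 3 = L + 4 := rfl
  have e2 : L + 1 + 2 = L + 3 := rfl
  have e3 : L + 1 + 1 = L + 2 := rfl
  rw [e1, e2, e3] at h1
  linarith

theorem ChainAn_v0 : chain 0 = 1 := by rw [chain]
theorem ChainAn_v1 : chain 1 = 1 := by rw [chain]
theorem ChainAn_v2 : chain 2 = 2 := by rw [chain]
theorem ChainAn_v3 : chain 3 = 4 := by
  have := ChainAn_rec 0
  rw [zero_add, zero_add, zero_add, ChainAn_v0, ChainAn_v1, ChainAn_v2] at this
  rw [this]; norm_num
theorem ChainAn_v4 : chain 4 = 7 := by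
  have := ChainAn_rec4 0
  rw [zero_add, zero_add, zero_add, ChainAn_v0, ChainAn_v2, ChainAn_v3] at this
  rw [this]; norm_num

theorem ChainAn_nonneg4 (L : ℕ) :
    0 ≤ chain L ∧ 0 ≤ chain (L + 1) ∧ 0 ≤ chain (L + 2) ∧ 0 ≤ chain (L + 3) := by
  induction L with
  | zero =>
    rw [zero_add, zero_add, zero_add, ChainAn_v0, ChainAn_v1, ChainAn_v2, ChainAn_v3]
    norm_num
  | succ L ih =>
    obtain ⟨h0, h1, h2, h3⟩ := ih
    refine ⟨h1, h2, h3, ?_⟩
    have := ChainAn_rec4 L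
    have e1 : L + 1 + 3 = L + 4 := rfl
    rw [e1]
    linarith

theorem ChainAn_nonneg (L : ℕ) : 0 ≤ chain L := (ChainAn_nonneg4 L).1

theorem ChainAn_mono (L : ℕ) : chain L ≤ chain (L + 1) := by
  match L with
  | 0 => rw [zero_add, ChainAn_v0, ChainAn_v1]
  | 1 => rw [ChainAn_v1, show 1 + 1 = 2 from rfl, ChainAn_v2]; norm_num
  | 2 => rw [ChainAn_v2, show 2 + 1 = 3 from rfl, ChainAn_v3]; norm_num
  | (L + 3) =>
    have := ChainAn_rec4 L
    have h1 := ChainAn_nonneg L
    have h2 := ChainAn_nonneg (L + 2)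
    have e1 : L + 3 + 1 = L + 4 := rfl
    rw [e1]
    linarith

theorem ChainAn_upper (lam : ℝ) (h : lam ^ 3 - 2 * lam ^ 2 + lam - 1 = 0) (L : ℕ) :
    (chain (L + 1) : ℝ) ≤ 3 / 4 * lam ^ (L + 1) := by
  have hl : (8773 : ℝ) / 5000 < lam := (root_gt lam h).1
  have hl0 : 0 < lam := by linarith
  have key : ∀ L : ℕ, (chain (L + 1) : ℝ) ≤ 3 / 4 * lam ^ (L + 1) ∧
      (chain (L + 2) : ℝ) ≤ 3 / 4 * lam ^ (L + 2) ∧ (chain (L + 3) : ℝ) ≤ 3 / 4 * lam ^ (L + 3) ∧
      (chain (L + 4) : ℝ) ≤ 3 / 4 * lam ^ (L + 4) := by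
    intro L
    induction L with
    | zero =>
      have p2 : ((8773 : ℝ) / 5000) ^ 2 ≤ lam ^ 2 := pow_le_pow_left₀ (by norm_num) hl.le 2
      have p3 : ((8773 : ℝ) / 5000) ^ 3 ≤ lam ^ 3 := pow_le_pow_left₀ (by norm_num) hl.le 3
      have p4 : ((8773 : ℝ) / 5000) ^ 4 ≤ lam ^ 4 := pow_le_pow_left₀ (by norm_num) hl.le 4
      rw [zero_add, zero_add, zero_add, zero_add, ChainAn_v1, ChainAn_v2, ChainAn_v3, ChainAn_v4]
      norm_num at p2 p3 p4 ⊢
      refine ⟨?_, ?_, ?_, ?_⟩ <;> linarith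
    | succ L ih =>
      obtain ⟨h1, h2, h3, h4⟩ := ih
      refine ⟨h2, h3, h4, ?_⟩
      have e0 := ChainAn_rec4 (L + 1)
      have e1 : L + 1 + 3 = L + 4 := rfl
      have e2 : L + 1 + 2 = L + 3 := rfl
      rw [e1, e2] at e0
      have e3 : lam ^ (L + 1 + 4) = lam ^ (L + 4) + lam ^ (L + 3) + lam ^ (L + 1) := by
        linear_combination lam ^ (L + 1) * (lam + 1) * h
      rw [e0, e3]
      push_cast
      linarith
  exact (key L).1

theorem ChainAn_wt (s e : Bool) (L : ℕ) (h1 : 1 ≤ L) (h3 : s = true → e = true → 3 ≤ L) :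
    0 ≤ wt s e L ∧ wt s e L ≤ chain L := by
  have hone : 0 ≤ chain L - chain (L - 1) ∧ chain L - chain (L - 1) ≤ chain L := by
    obtain ⟨m, rfl⟩ : ∃ m, L = m + 1 := ⟨L - 1, by omega⟩
    have a1 := ChainAn_mono m
    have a2 := ChainAn_nonneg m
    rw [Nat.add_sub_cancel]
    constructor <;> linarith
  cases s <;> cases e
  · exact ⟨ChainAn_nonneg L, le_rfl⟩
  · exact hone
  · exact hone
  · obtain ⟨m, rfl⟩ : ∃ m, L = m + 3 := ⟨L - 3, by have := h3 rfl rfl; omega⟩
    have a0 := ChainAn_rec m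
    have a1 := ChainAn_mono m
    have a2 := ChainAn_mono (m + 1)
    have a3 := ChainAn_mono (m + 2)
    have a4 := ChainAn_nonneg m
    have e1 : m + 1 + 1 = m + 2 := rfl
    have e2 : m + 2 + 1 = m + 3 := rfl
    rw [e1] at a2
    rw [e2] at a3
    have e3 : wt true true (m + 3) = chain (m + 3) - 2 * chain (m + 2) + chain (m + 1) := rfl
    rw [e3]
    constructor <;> linarith

theorem ChainAn_lim (lam : ℝ) (h : lam ^ 3 - 2 * lam ^ 2 + lam - 1 = 0) :
    Tendsto (fun L : ℕ => (chain L : ℝ) / lam ^ L) atTop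
      (𝓝 ((lam ^ 2 + 1) / (2 * lam ^ 2 - 2 * lam + 3))) := by
  obtain ⟨hl, hu⟩ := root_gt lam h
  have hl' : (8773 : ℝ) / 5000 < lam := hl
  have hl0 : 0 < lam := by linarith
  have hden : 0 < 2 * lam ^ 2 - 2 * lam + 3 := by nlinarith
  set c := (lam ^ 2 + 1) / (2 * lam ^ 2 - 2 * lam + 3) with hc
  have hc1 : c * (2 * lam ^ 2 - 2 * lam + 3) = lam ^ 2 + 1 := div_mul_cancel₀ _ hden.ne'
  have hc2 : c * (2 * lam ^ 2 - 2 * lam + (lam - 1) ^ 2) = lam + (lam - 1) ^ 2 := by
    apply mul_left_cancel₀ hl0.ne'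
    linear_combination hc1 + (3 * c - 1) * h
  have hs : ∀ L : ℕ, (chain (L + 2) : ℝ) + (lam - 2) * chain (L + 1) + (lam - 1) ^ 2 * chain L =
      lam ^ L * (lam + (lam - 1) ^ 2) := by
    intro L
    induction L with
    | zero =>
      rw [zero_add, zero_add, ChainAn_v0, ChainAn_v1, ChainAn_v2]
      push_cast
      ring
    | succ L ih =>
      have e0 := ChainAn_rec L
      have e1 : L + 1 + 2 = L + 3 := rfl
      have e2 : L + 1 + 1 = L + 2 := rfl
      rw [e1, e2, e0]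
      push_cast
      linear_combination lam * ih - (chain L : ℝ) * h
  set e : ℕ → ℝ := fun L => (chain L : ℝ) - c * lam ^ L with he
  have hrec : ∀ L : ℕ, e (L + 2) = (2 - lam) * e (L + 1) - (lam - 1) ^ 2 * e L := by
    intro L
    simp only [he]
    linear_combination hs L - lam ^ L * hc2
  have hq : (lam - 1) ^ 2 ≤ 3 / 5 := by nlinarith
  have hbd : ∀ L : ℕ, |e L| ≤ |e 0| + |e 1| ∧ |e (L + 1)| ≤ |e 0| + |e 1| := by
    intro L
    induction L with
    | zero =>
      have a0 := abs_nonneg (e 0)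
      have a1 := abs_nonneg (e 1)
      rw [zero_add]
      constructor <;> linarith
    | succ L ih =>
      obtain ⟨a0, a1⟩ := ih
      refine ⟨a1, ?_⟩
      have e1 : L + 1 + 1 = L + 2 := rfl
      rw [e1, hrec L]
      have b0 := abs_sub ((2 - lam) * e (L + 1)) ((lam - 1) ^ 2 * e L)
      rw [abs_mul, abs_mul, abs_of_nonneg (show 0 ≤ 2 - lam by linarith),
        abs_of_nonneg (sq_nonneg (lam - 1))] at b0
      have b1 : (2 - lam) * |e (L + 1)| ≤ 2 / 5 * (|e 0| + |e 1|) :=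
        mul_le_mul (by linarith) a1 (abs_nonneg _) (by norm_num)
      have b2 : (lam - 1) ^ 2 * |e L| ≤ 3 / 5 * (|e 0| + |e 1|) :=
        mul_le_mul hq a0 (abs_nonneg _) (by norm_num)
      linarith
  have hz : Tendsto (fun L : ℕ => e L / lam ^ L) atTop (𝓝 0) := by
    have t1 : Tendsto (fun L : ℕ => (|e 0| + |e 1|) / lam ^ L) atTop (𝓝 0) :=
      (tendsto_pow_atTop_atTop_of_one_lt (by linarith)).const_div_atTop _
    refine squeeze_zero_norm (fun L => ?_) t1
    rw [Real.norm_eq_abs, abs_div, abs_of_pos (pow_pos hl0 L)]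
    exact div_le_div_of_nonneg_right (hbd L).1 (pow_pos hl0 L).le
  have t2 := hz.add_const c
  rw [zero_add] at t2
  refine t2.congr fun L => ?_
  simp only [he]
  have := (pow_pos hl0 L).ne'
  field_simp
  ring

/-- the factor lost by a forced letter -/
noncomputable def ChainAn_P (lam : ℝ) (b : Bool) : ℝ := if b then 1 - 1 / lam else 1

theorem ChainAn_wt_lim (lam : ℝ) (h : lam ^ 3 - 2 * lam ^ 2 + lam - 1 = 0) (s e : Bool) :
    Tendsto (fun L : ℕ => (wt s e L : ℝ) / lam ^ L / (ChainAn_P lam s * ChainAn_P lam e)) atTop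
      (𝓝 ((lam ^ 2 + 1) / (2 * lam ^ 2 - 2 * lam + 3))) := by
  have hl : (8773 : ℝ) / 5000 < lam := (root_gt lam h).1
  have hl0 : 0 < lam := by linarith
  have hl1 : lam - 1 ≠ 0 := by linarith
  have hp : 1 - 1 / lam ≠ 0 := by
    have : 1 - 1 / lam = (lam - 1) / lam := by field_simp
    rw [this]
    exact div_ne_zero hl1 hl0.ne'
  have t0 := ChainAn_lim lam h
  set c := (lam ^ 2 + 1) / (2 * lam ^ 2 - 2 * lam + 3) with hc
  have t1 : Tendsto (fun L : ℕ => (chain (L - 1) : ℝ) / lam ^ L) atTop (𝓝 (c / lam)) := by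
    rw [← tendsto_add_atTop_iff_nat 1]
    refine (t0.div_const lam).congr fun L => ?_
    rw [Nat.add_sub_cancel, pow_succ, div_div]
  have t2 : Tendsto (fun L : ℕ => (chain (L - 2) : ℝ) / lam ^ L) atTop (𝓝 (c / lam ^ 2)) := by
    rw [← tendsto_add_atTop_iff_nat 2]
    refine (t0.div_const (lam ^ 2)).congr fun L => ?_
    rw [Nat.add_sub_cancel, pow_add, div_div]
  have t3 : Tendsto (fun L : ℕ => ((chain L - chain (L - 1) : ℤ) : ℝ) / lam ^ L / (1 - 1 / lam))
      atTop (𝓝 c) := by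
    have a := (t0.sub t1).div_const (1 - 1 / lam)
    have e1 : (c - c / lam) / (1 - 1 / lam) = c := by
      rw [div_eq_iff hp]; ring
    rw [e1] at a
    refine a.congr fun L => ?_
    push_cast
    rw [sub_div (chain L : ℝ)]
  cases s <;> cases e
  · simpa [ChainAn_P, wt] using t0
  · simpa only [ChainAn_P, wt, Bool.false_eq_true, if_false, if_true, one_mul] using t3
  · simpa only [ChainAn_P, wt, Bool.false_eq_true, if_false, if_true, mul_one] using t3
  · have a := ((t0.sub (t1.const_mul 2)).add t2).div_const ((1 - 1 / lam) * (1 - 1 / lam))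
    have e1 : (c - 2 * (c / lam) + c / lam ^ 2) / ((1 - 1 / lam) * (1 - 1 / lam)) = c := by
      rw [div_eq_iff (mul_ne_zero hp hp)]; ring
    rw [e1] at a
    refine a.congr fun L => ?_
    simp only [ChainAn_P, wt, if_true]
    push_cast
    ring

theorem ChainAn_mix {f : Bool → ℕ → ℝ} {c : ℝ} (hf : ∀ b, Tendsto (f b) atTop (𝓝 c))
    {L : ℕ → ℕ} (hL : Tendsto L atTop atTop) (e : ℕ → Bool) :
    Tendsto (fun n => f (e n) (L n)) atTop (𝓝 c) := by
  intro s hs
  have h1 := ((hf true).comp hL) hs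
  have h2 := ((hf false).comp hL) hs
  rw [Filter.mem_map] at h1 h2 ⊢
  filter_upwards [h1, h2] with n a1 a2
  show f (e n) (L n) ∈ s
  cases e n
  · exact a2
  · exact a1

theorem ChainAn_len_sum (d n : ℕ) (hd : 1 ≤ d) : ∑ r ∈ range d, (n + d - r) / d = n + 1 := by
  have hj : n % d < d := Nat.mod_lt _ hd
  have hn : d * (n / d) + n % d = n := Nat.div_add_mod n d
  have h1 : ∀ r ∈ range d, (n + d - r) / d = n / d + if r ≤ n % d then 1 else 0 := by
    intro r hr
    have hr' : r < d := mem_range.1 hr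
    have e1 : n + d - r = (n % d + d - r) + d * (n / d) := by omega
    rw [e1, Nat.add_mul_div_left _ _ hd, add_comm]
    congr 1
    split_ifs with hc
    · exact Nat.div_eq_of_lt_le (by omega) (by omega)
    · exact Nat.div_eq_of_lt (by omega)
  rw [sum_congr rfl h1, sum_add_distrib, sum_const, card_range, smul_eq_mul, sum_boole]
  have h2 : (range d).filter (fun r => r ≤ n % d) = range (n % d + 1) := by
    ext r
    simp only [mem_filter, mem_range]
    omega
  rw [h2, card_range, Nat.cast_id]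
  omega

theorem ChainAn_split (lam : ℝ) (d n : ℕ) (hd : 1 ≤ d) :
    ((∏ r ∈ range d, wt (decide (r = 0)) (decide (r = n % d)) ((n + d - r) / d) : ℤ) : ℝ)
        / lam ^ (n + 1) =
      ∏ r ∈ range d, ((wt (decide (r = 0)) (decide (r = n % d)) ((n + d - r) / d) : ℝ)
        / lam ^ ((n + d - r) / d)) := by
  rw [prod_div_distrib, prod_pow_eq_pow_sum, ChainAn_len_sum d n hd]
  push_cast
  rfl

theorem ChainAn_term_le (lam : ℝ) (h : lam ^ 3 - 2 * lam ^ 2 + lam - 1 = 0) (d n : ℕ)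
    (hd : 1 ≤ d) (hn : d < n) :
    ‖((∏ r ∈ range d, wt (decide (r = 0)) (decide (r = n % d)) ((n + d - r) / d) : ℤ) : ℝ)
        / lam ^ (n + 1)‖ ≤ (3 / 4) ^ d := by
  have hl : (8773 : ℝ) / 5000 < lam := (root_gt lam h).1
  have hl0 : 0 < lam := by linarith
  have key : ∀ r ∈ range d,
      0 ≤ (wt (decide (r = 0)) (decide (r = n % d)) ((n + d - r) / d) : ℝ)
        / lam ^ ((n + d - r) / d) ∧
      (wt (decide (r = 0)) (decide (r = n % d)) ((n + d - r) / d) : ℝ)
        / lam ^ ((n + d - r) / d) ≤ 3 / 4 := by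
    intro r hr
    have hr' : r < d := mem_range.1 hr
    have h1 : 1 ≤ (n + d - r) / d := (Nat.le_div_iff_mul_le hd).2 (by omega)
    have h3 : decide (r = 0) = true → decide (r = n % d) = true → 3 ≤ (n + d - r) / d := by
      intro a b
      have a' : r = 0 := of_decide_eq_true a
      have b' : r = n % d := of_decide_eq_true b
      have hdn : d * (n / d) + n % d = n := Nat.div_add_mod n d
      have h2 : 2 ≤ n / d := by
        by_contra hc
        have : d * (n / d) ≤ d * 1 := Nat.mul_le_mul_left d (by omega)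
        omega
      have : d * 2 ≤ d * (n / d) := Nat.mul_le_mul_left d h2
      exact (Nat.le_div_iff_mul_le hd).2 (by omega)
    obtain ⟨a0, a1⟩ := ChainAn_wt _ _ _ h1 h3
    obtain ⟨m, hm⟩ : ∃ m, (n + d - r) / d = m + 1 := ⟨(n + d - r) / d - 1, by omega⟩
    rw [hm] at a0 a1 ⊢
    have a2 := ChainAn_upper lam h m
    have a0' : (0 : ℝ) ≤ (wt (decide (r = 0)) (decide (r = n % d)) (m + 1) : ℝ) := by
      exact_mod_cast a0
    have a1' : (wt (decide (r = 0)) (decide (r = n % d)) (m + 1) : ℝ) ≤ (chain (m + 1) : ℝ) := by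
      exact_mod_cast a1
    refine ⟨div_nonneg a0' (pow_pos hl0 _).le, ?_⟩
    rw [div_le_iff₀ (pow_pos hl0 _)]
    linarith
  rw [ChainAn_split lam d n hd, Real.norm_eq_abs,
    abs_of_nonneg (prod_nonneg fun r hr => (key r hr).1)]
  refine (prod_le_prod (fun r hr => (key r hr).1) fun r hr => (key r hr).2).trans ?_
  rw [prod_const, card_range]

theorem ChainAn_prod_P (lam : ℝ) (d j : ℕ) (hj : j < d) :
    ∏ r ∈ range d, ChainAn_P lam (decide (r = j)) = 1 - 1 / lam := by
  rw [prod_eq_single j]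
  · simp [ChainAn_P]
  · intro b _ hb
    simp [ChainAn_P, hb]
  · intro hb
    exact absurd (mem_range.2 hj) hb

theorem ChainAn_term_lim (lam : ℝ) (h : lam ^ 3 - 2 * lam ^ 2 + lam - 1 = 0) (d : ℕ)
    (hd : 1 ≤ d) :
    Tendsto (fun n : ℕ =>
      ((∏ r ∈ range d, wt (decide (r = 0)) (decide (r = n % d)) ((n + d - r) / d) : ℤ) : ℝ)
        / lam ^ (n + 1)) atTop
      (𝓝 ((1 - 1 / lam) ^ 2 * ((lam ^ 2 + 1) / (2 * lam ^ 2 - 2 * lam + 3)) ^ d)) := by
  have hl : (8773 : ℝ) / 5000 < lam := (root_gt lam h).1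
  have hl0 : 0 < lam := by linarith
  have hl1 : lam - 1 ≠ 0 := by linarith
  have hp : 1 - 1 / lam ≠ 0 := by
    have : 1 - 1 / lam = (lam - 1) / lam := by field_simp
    rw [this]
    exact div_ne_zero hl1 hl0.ne'
  have hP : ∀ b, ChainAn_P lam b ≠ 0 := by
    intro b
    cases b
    · simp [ChainAn_P]
    · simpa only [ChainAn_P, if_true] using hp
  set c := (lam ^ 2 + 1) / (2 * lam ^ 2 - 2 * lam + 3) with hc
  have t1 : ∀ r ∈ range d, Tendsto (fun n : ℕ =>
      (wt (decide (r = 0)) (decide (r = n % d)) ((n + d - r) / d) : ℝ) / lam ^ ((n + d - r) / d) /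
        (ChainAn_P lam (decide (r = 0)) * ChainAn_P lam (decide (r = n % d)))) atTop (𝓝 c) := by
    intro r hr
    have hr' : r < d := mem_range.1 hr
    have hL : Tendsto (fun n : ℕ => (n + d - r) / d) atTop atTop := by
      refine tendsto_atTop.2 fun b => ?_
      filter_upwards [eventually_ge_atTop (b * d)] with n hn
      exact (Nat.le_div_iff_mul_le hd).2 (by omega)
    exact ChainAn_mix (f := fun e L => (wt (decide (r = 0)) e L : ℝ) / lam ^ L /
      (ChainAn_P lam (decide (r = 0)) * ChainAn_P lam e))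
      (fun e => ChainAn_wt_lim lam h _ e) hL fun n => decide (r = n % d)
  have t2 := (tendsto_finsetProd (range d) t1).const_mul ((1 - 1 / lam) ^ 2)
  rw [prod_const, card_range] at t2
  refine t2.congr fun n => ?_
  rw [ChainAn_split lam d n hd, prod_div_distrib, prod_mul_distrib,
    ChainAn_prod_P lam d 0 hd, ChainAn_prod_P lam d (n % d) (Nat.mod_lt _ hd)]
  field_simp

theorem prod_limit (lam : ℝ) (h : lam ^ 3 - 2 * lam ^ 2 + lam - 1 = 0) :
    Tendsto (fun n : ℕ => (∑ d ∈ Ico 1 n,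
        ((∏ r ∈ range d, wt (decide (r = 0)) (decide (r = n % d)) ((n + d - r) / d) : ℤ) : ℝ))
          / lam ^ (n + 1)) atTop (𝓝 ((lam ^ 2 + 1) / (lam ^ 2 * (lam + 1)))) := by
  have hl : (8773 : ℝ) / 5000 < lam := (root_gt lam h).1
  have hl0 : 0 < lam := by linarith
  have hden : 0 < 2 * lam ^ 2 - 2 * lam + 3 := by nlinarith
  have hden2 : 0 < lam ^ 2 - 2 * lam + 2 := by nlinarith
  set c := (lam ^ 2 + 1) / (2 * lam ^ 2 - 2 * lam + 3) with hc
  have hc0 : 0 ≤ c := by positivity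
  have hc1 : c < 1 := by
    rw [hc, div_lt_one hden]
    linarith
  set X : ℕ → ℕ → ℝ := fun n d =>
    ((∏ r ∈ range d, wt (decide (r = 0)) (decide (r = n % d)) ((n + d - r) / d) : ℤ) : ℝ)
      / lam ^ (n + 1) with hX
  have hsum : Summable fun k : ℕ => ((3 : ℝ) / 4) ^ (1 + k) := by
    have := (summable_geometric_of_lt_one (r := (3 : ℝ) / 4) (by norm_num) (by norm_num)).mul_left
      ((3 : ℝ) / 4)
    refine this.congr fun k => ?_
    rw [pow_add, pow_one]
  have hlim : ∀ k : ℕ, Tendsto (fun n : ℕ => if 1 + k < n then X n (1 + k) else 0) atTop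
      (𝓝 ((1 - 1 / lam) ^ 2 * c ^ (1 + k))) := by
    intro k
    refine (ChainAn_term_lim lam h (1 + k) (by omega)).congr' ?_
    filter_upwards [eventually_gt_atTop (1 + k)] with n hn
    rw [if_pos hn]
  have hbd : ∀ᶠ n : ℕ in atTop, ∀ k : ℕ,
      ‖if 1 + k < n then X n (1 + k) else 0‖ ≤ ((3 : ℝ) / 4) ^ (1 + k) := by
    refine Eventually.of_forall fun n k => ?_
    split_ifs with hk
    · exact ChainAn_term_le lam h (1 + k) n (by omega) hk
    · rw [norm_zero]; positivity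
  have t := tendsto_tsum_of_dominated_convergence hsum hlim hbd
  have e1 : ∑' k : ℕ, (1 - 1 / lam) ^ 2 * c ^ (1 + k) = (lam ^ 2 + 1) / (lam ^ 2 * (lam + 1)) := by
    have a1 : ∀ k : ℕ, (1 - 1 / lam) ^ 2 * c ^ (1 + k) = ((1 - 1 / lam) ^ 2 * c) * c ^ k := by
      intro k; ring
    rw [tsum_congr a1, tsum_mul_left, tsum_geometric_of_lt_one hc0 hc1]
    have a2 : 1 - c = (lam ^ 2 - 2 * lam + 2) / (2 * lam ^ 2 - 2 * lam + 3) := by
      rw [hc, eq_div_iff hden.ne', sub_mul, div_mul_cancel₀ _ hden.ne']; ring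
    have a3 : c * (1 - c)⁻¹ = (lam ^ 2 + 1) / (lam ^ 2 - 2 * lam + 2) := by
      rw [a2, hc, inv_div, div_mul_div_comm, mul_comm (2 * lam ^ 2 - 2 * lam + 3),
        mul_div_mul_right _ _ hden.ne']
    have a4 : (1 - 1 / lam) ^ 2 = (lam - 1) ^ 2 / lam ^ 2 := by
      rw [← div_pow]
      congr 1
      field_simp
    rw [mul_assoc, a3, a4, div_mul_div_comm,
      div_eq_div_iff (mul_pos (by positivity) hden2).ne' (by positivity)]
    linear_combination (lam ^ 2 + 1) * lam ^ 2 * h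
  rw [e1] at t
  refine t.congr fun n => ?_
  rw [sum_div, sum_Ico_eq_sum_range, tsum_eq_sum (s := range (n - 1))]
  · refine sum_congr rfl fun k hk => ?_
    have : 1 + k < n := by have := mem_range.1 hk; omega
    rw [if_pos this]
  · intro k hk
    have : ¬ 1 + k < n := by
      intro a
      exact hk (mem_range.2 (by omega))
    rw [if_neg this]

end Pool.Agent.Lib.MP_1d41ea_nt
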