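import Pool.Agent.Lib.MP_1d41ea_nt.Defs
import Pool.Agent.Lib.MP_1d41ea_nt.EqFix

namespace Pool.Agent.Lib.MP_1d41ea_nt

open Finset

/-- open subsets of `range L`, with `0` and / or `L - 1` forced -/
private def Tc (s e : Bool) (L : ℕ) : Finset (Finset ℕ) :=
  (range L).powerset.filter fun S => IsOpn 1 S ∧ (s = true → 0 ∈ S) ∧ (e = true → L - 1 ∈ S)

private theorem mem_Tc {s e : Bool} {L : ℕ} {S : Finset ℕ} : S ∈ Tc s e L ↔
    (∀ c ∈ S, c < L) ∧ IsOpn 1 S ∧ (s = true → 0 ∈ S) ∧ (e = true → L - 1 ∈ S) := by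
  simp only [Tc, mem_filter, mem_powerset, subset_iff, mem_range]

private theorem card_succ (s : Bool) (L : ℕ) :
    (Tc s false (L + 1)).card = (Tc s false L).card + (Tc s true (L + 1)).card := by
  rw [← card_filter_add_card_filter_not (s := Tc s false (L + 1)) (fun S => L ∈ S), add_comm]
  congr 2
  · ext S
    simp only [mem_filter, mem_Tc, Bool.false_eq_true, false_imp_iff, and_true]
    constructor
    · rintro ⟨⟨h1, h2, h3⟩, h4⟩
      refine ⟨fun c hc => ?_, h2, h3⟩
      have := h1 c hc
      have : c ≠ L := fun e => h4 (e ▸ hc)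
      omega
    · rintro ⟨h1, h2, h3⟩
      exact ⟨⟨fun c hc => (h1 c hc).trans (Nat.lt_succ_self L), h2, h3⟩,
        fun hL => lt_irrefl _ (h1 L hL)⟩
  · ext S
    simp only [mem_filter, mem_Tc, Bool.false_eq_true, false_imp_iff, and_true, true_imp_iff,
      Nat.add_sub_cancel, and_assoc]

private theorem top_mem {s : Bool} {L : ℕ} {S : Finset ℕ} (h : S ∈ Tc s true (L + 3)) :
    L + 2 ∈ S ∧ L + 1 ∈ S := by
  obtain ⟨h1, h2, -, h4⟩ := mem_Tc.1 h
  have h5 : L + 2 ∈ S := h4 rfl
  refine ⟨h5, ?_⟩
  rcases h2 _ h5 with k | k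
  · exact absurd (h1 _ k) (lt_irrefl _)
  · exact k.2

private theorem card_top (s : Bool) (L : ℕ) :
    (Tc s true (L + 3)).card = (Tc s true (L + 2)).card + (Tc s false L).card := by
  rw [← card_filter_add_card_filter_not (s := Tc s true (L + 3)) (fun S => L ∈ S)]
  congr 1
  · refine card_nbij' (fun S => S.erase (L + 2)) (fun S => insert (L + 2) S) ?_ ?_ ?_ ?_
    · intro S hS
      obtain ⟨hS, hL⟩ := mem_filter.1 hS
      obtain ⟨t1, t2⟩ := top_mem hS
      obtain ⟨h1, h2, h3, -⟩ := mem_Tc.1 hS
      refine mem_coe.2 (mem_Tc.2 ⟨fun c hc => ?_, fun c hc => ?_, fun hs => ?_, fun _ => ?_⟩)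
      · have := h1 c (mem_erase.1 hc).2
        have := (mem_erase.1 hc).1
        omega
      · obtain ⟨c1, c2⟩ := mem_erase.1 hc
        have c3 := h1 c c2
        by_cases e : c = L + 1
        · subst e
          exact Or.inr ⟨by omega, mem_erase.2 ⟨by omega, hL⟩⟩
        · exact (h2 c c2).imp (fun k => mem_erase.2 ⟨by omega, k⟩)
            fun k => ⟨k.1, mem_erase.2 ⟨by omega, k.2⟩⟩
      · exact mem_erase.2 ⟨by omega, h3 hs⟩
      · exact mem_erase.2 ⟨by omega, t2⟩
    · intro S hS
      obtain ⟨h1, h2, h3, h4⟩ := mem_Tc.1 (mem_coe.1 hS)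
      have h5 : L + 1 ∈ S := h4 rfl
      refine mem_coe.2 (mem_filter.2 ⟨mem_Tc.2 ⟨fun c hc => ?_, fun c hc => ?_, fun hs => ?_,
        fun _ => mem_insert_self _ _⟩, ?_⟩)
      · rcases mem_insert.1 hc with e | e
        · omega
        · exact (h1 c e).trans (Nat.lt_succ_self _)
      · rcases mem_insert.1 hc with e | e
        · subst e
          exact Or.inr ⟨by omega, mem_insert_of_mem h5⟩
        · exact (h2 c e).imp mem_insert_of_mem fun k => ⟨k.1, mem_insert_of_mem k.2⟩
      · exact mem_insert_of_mem (h3 hs)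
      · rcases h2 _ h5 with k | k
        · exact absurd (h1 _ k) (lt_irrefl _)
        · exact mem_insert_of_mem k.2
    · intro S hS
      exact insert_erase (top_mem (mem_filter.1 hS).1).1
    · intro S hS
      exact erase_insert fun k => lt_irrefl _ ((mem_Tc.1 (mem_coe.1 hS)).1 _ k)
  · refine card_nbij' (fun S => S.filter (· < L)) (fun S => insert (L + 2) (insert (L + 1) S))
      ?_ ?_ ?_ ?_
    · intro S hS
      obtain ⟨hS, hL⟩ := mem_filter.1 hS
      obtain ⟨h1, h2, h3, -⟩ := mem_Tc.1 hS
      refine mem_coe.2 (mem_Tc.2 ⟨fun c hc => (mem_filter.1 hc).2, fun c hc => ?_, fun hs => ?_,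
        fun hh => absurd hh Bool.false_ne_true⟩)
      · obtain ⟨c1, c2⟩ := mem_filter.1 hc
        refine (h2 c c1).imp (fun k => mem_filter.2 ⟨k, ?_⟩)
          fun k => ⟨k.1, mem_filter.2 ⟨k.2, by omega⟩⟩
        have : c + 1 ≠ L := fun e => hL (e ▸ k)
        omega
      · exact mem_filter.2 ⟨h3 hs, Nat.pos_of_ne_zero fun e => hL (e ▸ h3 hs)⟩
    · intro S hS
      obtain ⟨h1, h2, h3, -⟩ := mem_Tc.1 (mem_coe.1 hS)
      refine mem_coe.2 (mem_filter.2 ⟨mem_Tc.2 ⟨fun c hc => ?_, fun c hc => ?_, fun hs => ?_,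
        fun _ => mem_insert_self _ _⟩, fun k => ?_⟩)
      · simp only [mem_insert] at hc
        rcases hc with e | e | e
        · omega
        · omega
        · have := h1 c e
          omega
      · simp only [mem_insert] at hc ⊢
        rcases hc with e | e | e
        · exact Or.inr ⟨by omega, Or.inr (Or.inl (by omega))⟩
        · exact Or.inl (Or.inl (by omega))
        · exact (h2 c e).imp (fun k => Or.inr (Or.inr k)) fun k => ⟨k.1, Or.inr (Or.inr k.2)⟩
      · exact mem_insert_of_mem (mem_insert_of_mem (h3 hs))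
      · simp only [mem_insert] at k
        rcases k with e | e | e
        · omega
        · omega
        · exact lt_irrefl _ (h1 L e)
    · intro S hS
      obtain ⟨hS, hL⟩ := mem_filter.1 hS
      obtain ⟨t1, t2⟩ := top_mem hS
      ext c
      simp only [mem_insert, mem_filter]
      constructor
      · rintro (e | e | e)
        exacts [e ▸ t1, e ▸ t2, e.1]
      · intro hc
        have := (mem_Tc.1 hS).1 c hc
        have : c ≠ L := fun e => hL (e ▸ hc)
        by_cases k : c < L
        · exact Or.inr (Or.inr ⟨hc, k⟩)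
        · omega
    · intro S hS
      ext c
      simp only [mem_insert, mem_filter]
      constructor
      · rintro ⟨e | e | e, k⟩
        · omega
        · omega
        · exact e
      · exact fun hc => ⟨Or.inr (Or.inr hc), (mem_Tc.1 (mem_coe.1 hS)).1 c hc⟩

private theorem card_rec (s : Bool) (L : ℕ) : ((Tc s false (L + 3)).card : ℤ) =
    2 * (Tc s false (L + 2)).card - (Tc s false (L + 1)).card + (Tc s false L).card := by
  have h1 := card_succ s (L + 2)
  have h2 := card_succ s (L + 1)
  have h3 := card_top s L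
  simp only [Nat.add_assoc, Nat.reduceAdd] at h1 h2
  omega

private theorem card_ff : ∀ L, ((Tc false false L).card : ℤ) = chain L
  | 0 => by decide
  | 1 => by decide
  | 2 => by decide
  | L + 3 => by rw [card_rec, card_ff (L + 2), card_ff (L + 1), card_ff L, chain]

private theorem card_tf : ∀ L, ((Tc true false (L + 1)).card : ℤ) = chain (L + 1) - chain L
  | 0 => by decide
  | 1 => by decide
  | 2 => by decide
  | L + 3 => by
    have h := card_rec true (L + 1)
    have h1 := card_tf (L + 2)
    have h2 := card_tf (L + 1)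
    have h3 := card_tf L
    have e1 : chain (L + 1 + 3) = 2 * chain (L + 1 + 2) - chain (L + 1 + 1) + chain (L + 1) := rfl
    have e2 : chain (L + 3) = 2 * chain (L + 2) - chain (L + 1) + chain L := rfl
    simp only [Nat.add_assoc, Nat.reduceAdd] at *
    omega

private theorem card_Tc (s e : Bool) (L : ℕ) (h1 : 1 ≤ L) (h2 : s = true → 2 ≤ L) :
    ((Tc s e L).card : ℤ) = wt s e L := by
  cases s <;> cases e
  · exact card_ff L
  · obtain ⟨L, rfl⟩ := Nat.exists_eq_add_of_le' h1
    have := card_succ false L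
    have a := card_ff (L + 1)
    have b := card_ff L
    simp only [wt, Nat.add_sub_cancel]
    omega
  · obtain ⟨L, rfl⟩ := Nat.exists_eq_add_of_le' h1
    exact card_tf L
  · obtain ⟨L, rfl⟩ := Nat.exists_eq_add_of_le' (h2 rfl)
    have := card_succ true (L + 1)
    have a := card_tf (L + 1)
    have b := card_tf L
    have e : wt true true (L + 2) = chain (L + 2) - 2 * chain (L + 1) + chain L := rfl
    simp only [Nat.add_assoc, Nat.reduceAdd] at *
    omega

private theorem lt_len {d n r q : ℕ} (hr : r < d) : q < (n + d - r) / d ↔ r + d * q ≤ n := by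
  rw [← Nat.succ_le_iff, Nat.le_div_iff_mul_le (by omega), Nat.succ_mul, mul_comm q d]
  omega

private theorem len_top {d n : ℕ} (hd : 1 ≤ d) : (n + d - n % d) / d - 1 = n / d := by
  have h := Nat.div_add_mod n d
  have e : n + d - n % d = d * (n / d + 1) := by
    rw [mul_add]
    omega
  rw [e, Nat.mul_div_cancel_left _ hd, Nat.add_sub_cancel]

theorem Oset_card (d n : ℕ) (hd : 1 ≤ d) (hn : d < n) :
    ((Oset d n).card : ℤ) =
      ∏ r ∈ range d, wt (decide (r = 0)) (decide (r = n % d)) ((n + d - r) / d) := by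
  have hmod : ∀ c, c % d ∈ range d := fun c => mem_range.2 (Nat.mod_lt c hd)
  have m1 : ∀ r q, r < d → (r + d * q) % d = r := fun r q hr => by
    rw [Nat.add_mul_mod_self_left, Nat.mod_eq_of_lt hr]
  have m2 : ∀ r q, r < d → (r + d * q) / d = q := fun r q hr => by
    rw [Nat.add_mul_div_left _ _ hd, Nat.div_eq_of_lt hr, zero_add]
  have tr : ∀ (f : ∀ r ∈ range d, Finset ℕ) (r : ℕ) (hr : r ∈ range d) (q : ℕ),
      (r + d * q) / d ∈ f ((r + d * q) % d) (hmod _) ↔ q ∈ f r hr := fun f r hr q => by
    have e := m1 r q (mem_range.1 hr)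
    rw [m2 r q (mem_range.1 hr)]
    congr! 2
  have key : (Oset d n).card = ((range d).pi fun r =>
      Tc (decide (r = 0)) (decide (r = n % d)) ((n + d - r) / d)).card := by
    refine card_nbij' (fun C r _ => (range ((n + d - r) / d)).filter fun q => r + d * q ∈ C)
      (fun f => (range (n + 1)).filter fun c => c / d ∈ f (c % d) (hmod c)) ?_ ?_ ?_ ?_
    · intro C hC
      obtain ⟨hC, h0, hnC, ho⟩ := mem_filter.1 (mem_coe.1 hC)
      have hle : ∀ c ∈ C, c ≤ n := fun c hc =>
        Nat.lt_succ_iff.1 (mem_range.1 (mem_powerset.1 hC hc))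
      refine mem_coe.2 (mem_pi.2 fun r hr => ?_)
      have hr' := mem_range.1 hr
      have mem : ∀ q, q ∈ ((range ((n + d - r) / d)).filter fun q => r + d * q ∈ C) ↔
          r + d * q ∈ C := fun q => by
        rw [mem_filter, mem_range, lt_len hr']
        exact ⟨fun k => k.2, fun k => ⟨hle _ k, k⟩⟩
      refine mem_Tc.2 ⟨fun q hq => mem_range.1 (mem_filter.1 hq).1, fun q hq => ?_, fun hs => ?_,
        fun he => ?_⟩
      · rw [mem, mem]
        rcases ho _ ((mem q).1 hq) with k | k
        · exact Or.inl (by rwa [mul_add, mul_one, ← add_assoc])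
        · obtain ⟨q, rfl⟩ : ∃ q', q = q' + 1 := by
            rcases q with _ | q
            · omega
            · exact ⟨q, rfl⟩
          refine Or.inr ⟨by omega, ?_⟩
          have e : r + d * (q + 1) - d = r + d * (q + 1 - 1) := by
            rw [mul_add, Nat.add_sub_cancel]
            omega
          exact e ▸ k.2
      · rw [mem, of_decide_eq_true hs]
        exact h0
      · rw [mem, of_decide_eq_true he, len_top hd, Nat.mod_add_div]
        exact hnC
    · intro f hf
      have hf' := mem_pi.1 (mem_coe.1 hf)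
      have mem : ∀ r (hr : r ∈ range d) q,
          r + d * q ∈ ((range (n + 1)).filter fun c => c / d ∈ f (c % d) (hmod c)) ↔
            q ∈ f r hr := fun r hr q => by
        rw [mem_filter, tr f r hr, mem_range, Nat.lt_succ_iff, ← lt_len (mem_range.1 hr)]
        exact ⟨fun k => k.2, fun k => ⟨(mem_Tc.1 (hf' r hr)).1 q k, k⟩⟩
      refine mem_coe.2 (mem_filter.2 ⟨mem_powerset.2 (filter_subset _ _), ?_, ?_, fun c hc => ?_⟩)
      · exact (mem 0 (mem_range.2 hd) 0).2
          ((mem_Tc.1 (hf' 0 (mem_range.2 hd))).2.2.1 (decide_eq_true rfl))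
      · have := (mem_Tc.1 (hf' _ (hmod n))).2.2.2 (decide_eq_true rfl)
        rw [len_top hd] at this
        have k := (mem _ (hmod n) _).2 this
        rwa [Nat.mod_add_div] at k
      · have e := Nat.mod_add_div c d
        rcases (mem_Tc.1 (hf' _ (hmod c))).2.1 _ (mem_filter.1 hc).2 with k | k
        · have k' := (mem _ (hmod c) _).2 k
          rw [mul_add, mul_one, ← add_assoc, e] at k'
          exact Or.inl k'
        · have k' := (mem _ (hmod c) _).2 k.2
          obtain ⟨q, hq⟩ := Nat.exists_eq_add_of_le' k.1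
          rw [hq, mul_add, mul_one] at e
          rw [hq, Nat.add_sub_cancel] at k'
          have e' : c % d + d * q = c - d := by omega
          exact Or.inr ⟨by omega, e' ▸ k'⟩
    · intro C hC
      obtain ⟨hC, -⟩ := mem_filter.1 (mem_coe.1 hC)
      ext c
      simp only [mem_filter, mem_range, lt_len (Nat.mod_lt c hd), Nat.mod_add_div]
      exact ⟨fun k => k.2.2, fun k =>
        have := mem_range.1 (mem_powerset.1 hC k)
        ⟨this, Nat.lt_succ_iff.1 this, k⟩⟩
    · intro f hf
      have hf' := mem_pi.1 (mem_coe.1 hf)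
      funext r hr
      ext q
      simp only [mem_filter, mem_range]
      rw [tr f r hr, Nat.lt_succ_iff, ← lt_len (mem_range.1 hr)]
      exact ⟨fun k => k.2.2, fun k =>
        have := (mem_Tc.1 (hf' r hr)).1 q k
        ⟨this, this, k⟩⟩
  rw [key, card_pi, Nat.cast_prod]
  refine prod_congr rfl fun r hr => card_Tc _ _ _ ?_ fun hs => ?_
  · have := mem_range.1 hr
    exact (lt_len (q := 0) this).2 (by omega)
  · have := of_decide_eq_true hs
    exact (lt_len (q := 1) (mem_range.1 hr)).2 (by omega)

end Pool.Agent.Lib.MP_1d41ea_nt
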