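import Pool.Agent.Lib.MP_1d41ea_nt.CfgAll

namespace Pool.Agent.Lib.MP_1d41ea_nt

open Finset
open scoped Pointwise

private theorem Reduce_mu_pos : 0 < mu := by unfold mu; norm_num

/-- supermultiplicativity kills the constant -/
private theorem Reduce_super (N : ℕ → ℕ) (hsup : ∀ a b, N a * N b ≤ N (a + b)) (h0 : 1 ≤ N 0)
    (K : ℝ) (hK : ∀ M, (N M : ℝ) ≤ K * mu ^ M) (m : ℕ) : (N m : ℝ) ≤ mu ^ m := by
  have hpow : ∀ j : ℕ, N m ^ j ≤ N (j * m) := by
    intro j
    induction j with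
    | zero => simpa using h0
    | succ j ih =>
      calc N m ^ (j + 1) = N m ^ j * N m := pow_succ _ _
        _ ≤ N (j * m) * N m := Nat.mul_le_mul_right _ ih
        _ ≤ N (j * m + m) := hsup _ _
        _ = N ((j + 1) * m) := by rw [Nat.succ_mul]
  by_contra hc
  rw [not_le] at hc
  have hm : 0 < mu ^ m := pow_pos Reduce_mu_pos m
  have hr : 1 < (N m : ℝ) / mu ^ m := (one_lt_div hm).2 hc
  obtain ⟨j, hj⟩ := pow_unbounded_of_one_lt K hr
  have h1 : ((N m : ℝ)) ^ j ≤ K * (mu ^ m) ^ j := by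
    calc ((N m : ℝ)) ^ j = ((N m ^ j : ℕ) : ℝ) := by push_cast; rfl
      _ ≤ (N (j * m) : ℝ) := by exact_mod_cast hpow j
      _ ≤ K * mu ^ (j * m) := hK _
      _ = K * (mu ^ m) ^ j := by rw [mul_comm j m, pow_mul]
  rw [div_pow, lt_div_iff₀ (pow_pos hm j)] at hj
  linarith

/-- families closed under concatenation are supermultiplicative -/
private theorem Reduce_concat (G : ℕ → Finset (Finset ℕ)) (P : Finset ℕ → Prop)
    (hG : ∀ m C, C ∈ G m ↔ C ⊆ range m ∧ P C)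
    (hP : ∀ C1 C2 a, P C1 → P C2 → P (C1 ∪ C2.image (· + a))) (a b : ℕ) :
    (G a).card * (G b).card ≤ (G (a + b)).card := by
  rw [← card_product]
  refine card_le_card_of_injOn (fun p => p.1 ∪ p.2.image (· + a)) ?_ ?_
  · rintro ⟨C1, C2⟩ hp
    have hp' := mem_product.1 (mem_coe.1 hp)
    obtain ⟨h1, h1'⟩ := (hG _ _).1 hp'.1
    obtain ⟨h2, h2'⟩ := (hG _ _).1 hp'.2
    refine mem_coe.2 ((hG _ _).2 ⟨?_, hP _ _ _ h1' h2'⟩)
    intro x hx
    rcases mem_union.1 hx with hx | hx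
    · have := mem_range.1 (h1 hx)
      exact mem_range.2 (by omega)
    · obtain ⟨y, hy, rfl⟩ := mem_image.1 hx
      have := mem_range.1 (h2 hy)
      exact mem_range.2 (by omega)
  · have key1 : ∀ C1 C2 D1 D2 : Finset ℕ, C1 ⊆ range a →
        C1 ∪ C2.image (· + a) = D1 ∪ D2.image (· + a) → C1 ⊆ D1 := by
      intro C1 C2 D1 D2 h1 he x hx
      have hxa := mem_range.1 (h1 hx)
      have : x ∈ D1 ∪ D2.image (· + a) := he ▸ mem_union_left _ hx
      rcases mem_union.1 this with h | h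
      · exact h
      · obtain ⟨y, -, rfl⟩ := mem_image.1 h
        omega
    have key2 : ∀ C1 C2 D1 D2 : Finset ℕ, D1 ⊆ range a →
        C1 ∪ C2.image (· + a) = D1 ∪ D2.image (· + a) → C2 ⊆ D2 := by
      intro C1 C2 D1 D2 h1 he x hx
      have : x + a ∈ D1 ∪ D2.image (· + a) :=
        he ▸ mem_union_right _ (mem_image.2 ⟨x, hx, rfl⟩)
      rcases mem_union.1 this with h | h
      · have := mem_range.1 (h1 h)
        omega
      · obtain ⟨y, hy, hyx⟩ := mem_image.1 h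
        have : y = x := by omega
        exact this ▸ hy
    rintro ⟨C1, C2⟩ hp ⟨D1, D2⟩ hq he
    have hp' := mem_product.1 (mem_coe.1 hp)
    have hq' := mem_product.1 (mem_coe.1 hq)
    have h1 := ((hG _ _).1 hp'.1).1
    have h2 := ((hG _ _).1 hq'.1).1
    have he' : C1 ∪ C2.image (· + a) = D1 ∪ D2.image (· + a) := he
    exact Prod.ext (Subset.antisymm (key1 _ _ _ _ h1 he') (key1 _ _ _ _ h2 he'.symm))
      (Subset.antisymm (key2 _ _ _ _ h2 he') (key2 _ _ _ _ h1 he'.symm))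

/-! ### the doubly open sets -/

private theorem Reduce_mem_Iset (d d' m : ℕ) (C : Finset ℕ) :
    C ∈ Iset d d' m ↔ C ⊆ range m ∧ (IsOpn d C ∧ IsOpn d' C) := by
  unfold Iset
  rw [mem_filter, mem_powerset]

private theorem Reduce_opn_concat (d : ℕ) (C1 C2 : Finset ℕ) (a : ℕ) (h1 : IsOpn d C1)
    (h2 : IsOpn d C2) : IsOpn d (C1 ∪ C2.image (· + a)) := by
  intro c hc
  rcases mem_union.1 hc with hc | hc
  · rcases h1 c hc with h | ⟨h, h'⟩
    · exact Or.inl (mem_union_left _ h)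
    · exact Or.inr ⟨h, mem_union_left _ h'⟩
  · obtain ⟨y, hy, rfl⟩ := mem_image.1 hc
    rcases h2 y hy with h | ⟨h, h'⟩
    · exact Or.inl (mem_union_right _ (mem_image.2 ⟨y + d, h, by omega⟩))
    · exact Or.inr ⟨by omega, mem_union_right _ (mem_image.2 ⟨y - d, h', by omega⟩)⟩

private theorem Reduce_opn_mirror (d M : ℕ) (C : Finset ℕ) (hC : C ⊆ range M) (h : IsOpn d C) :
    IsOpn d (C.image (fun c => M - 1 - c)) := by
  intro c hc
  obtain ⟨y, hy, rfl⟩ := mem_image.1 hc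
  have hyM := mem_range.1 (hC hy)
  rcases h y hy with h1 | ⟨h1, h1'⟩
  · have := mem_range.1 (hC h1)
    exact Or.inr ⟨by omega, mem_image.2 ⟨y + d, h1, by omega⟩⟩
  · exact Or.inl (mem_image.2 ⟨y - d, h1', by omega⟩)

/-- the indicator of a set of naturals on the integers -/
private def Reduce_ind (C : Finset ℕ) (z : ℤ) : Bool := decide (∃ c ∈ C, (c : ℤ) = z)

private theorem Reduce_ind_iff (C : Finset ℕ) (z : ℤ) :
    Reduce_ind C z = true ↔ ∃ c ∈ C, (c : ℤ) = z := by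
  unfold Reduce_ind
  exact decide_eq_true_iff

private theorem Reduce_ind_nat (C : Finset ℕ) (n : ℕ) : Reduce_ind C n = true ↔ n ∈ C := by
  rw [Reduce_ind_iff]
  constructor
  · rintro ⟨c, hc, h⟩
    have : c = n := by exact_mod_cast h
    exact this ▸ hc
  · intro h
    exact ⟨n, h, rfl⟩

private theorem Reduce_ind_neg (C : Finset ℕ) (z : ℤ) (hz : z < 0) : Reduce_ind C z = false := by
  rw [← Bool.not_eq_true, Reduce_ind_iff]
  rintro ⟨c, -, h⟩
  omega

private theorem Reduce_ind_opn (d : ℕ) (C : Finset ℕ) (h : IsOpn d C) :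
    Opn (d : ℤ) (Reduce_ind C, Reduce_ind C) := by
  intro a ha
  obtain ⟨c, hc, rfl⟩ := (Reduce_ind_iff C a).1 ha
  rcases h c hc with h1 | ⟨h1, h1'⟩
  · exact Or.inl ((Reduce_ind_iff _ _).2 ⟨c + d, h1, by push_cast; rfl⟩)
  · exact Or.inr ((Reduce_ind_iff _ _).2 ⟨c - d, h1', by omega⟩)

private theorem Reduce_ind_inj (C D : Finset ℕ) (M : ℕ) (hC : C ⊆ range M) (hD : D ⊆ range M)
    (h : ∀ z : ℕ, z < M → Reduce_ind C z = Reduce_ind D z) : C = D := by
  ext x
  constructor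
  · intro hx
    rw [← Reduce_ind_nat, ← h x (mem_range.1 (hC hx)), Reduce_ind_nat]
    exact hx
  · intro hx
    rw [← Reduce_ind_nat, h x (mem_range.1 (hD hx)), Reduce_ind_nat]
    exact hx

private theorem Reduce_Iset_slow (d d' : ℕ) (h1 : 0 < d) (h2 : d < d') :
    ∃ K : ℝ, ∀ M, ((Iset d d' M).card : ℝ) ≤ K * mu ^ M := by
  classical
  obtain ⟨K, hK⟩ := cfgI (d : ℤ) (d' : ℤ) (by exact_mod_cast h1) (by exact_mod_cast h2)
  refine ⟨K, fun M => ?_⟩
  have hcard : ((Iset d d' M).image (fun C => ((Reduce_ind C, Reduce_ind C) : Cfg))).card =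
      (Iset d d' M).card := by
    refine card_image_of_injOn ?_
    intro C hC D hD he
    have hC' := ((Reduce_mem_Iset _ _ _ _).1 (mem_coe.1 hC)).1
    have hD' := ((Reduce_mem_Iset _ _ _ _).1 (mem_coe.1 hD)).1
    have he1 : Reduce_ind C = Reduce_ind D := congrArg Prod.fst he
    exact Reduce_ind_inj C D M hC' hD' (fun z _ => by rw [he1])
  rw [← hcard]
  refine hK M _ ⟨?_, ?_, ?_⟩ ?_
  · intro I hI
    obtain ⟨C, hC, rfl⟩ := mem_image.1 hI
    obtain ⟨hC1, hC2, hC3⟩ := (Reduce_mem_Iset _ _ _ _).1 hC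
    have hm : Reduce_ind (C.image (fun c => M - 1 - c)) =
        fun z => Reduce_ind C ((M : ℤ) - 1 - z) := by
      funext z
      rw [Bool.eq_iff_iff, Reduce_ind_iff, Reduce_ind_iff]
      constructor
      · rintro ⟨c, hc, rfl⟩
        obtain ⟨y, hy, rfl⟩ := mem_image.1 hc
        have := mem_range.1 (hC1 hy)
        exact ⟨y, hy, by omega⟩
      · rintro ⟨c, hc, h⟩
        have := mem_range.1 (hC1 hc)
        exact ⟨M - 1 - c, mem_image.2 ⟨c, hc, rfl⟩, by omega⟩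
    refine mem_image.2 ⟨C.image (fun c => M - 1 - c), (Reduce_mem_Iset _ _ _ _).2
      ⟨?_, Reduce_opn_mirror _ _ _ hC1 hC2, Reduce_opn_mirror _ _ _ hC1 hC3⟩, ?_⟩
    · intro x hx
      obtain ⟨y, hy, rfl⟩ := mem_image.1 hx
      have := mem_range.1 (hC1 hy)
      exact mem_range.2 (by omega)
    · rw [hm]
      rfl
  · intro I hI J hJ a _ hz z hza
    obtain ⟨C, -, rfl⟩ := mem_image.1 hI
    obtain ⟨D, -, rfl⟩ := mem_image.1 hJ
    have : Reduce_ind C z = Reduce_ind D z := by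
      rcases lt_or_ge z 0 with h | h
      · rw [Reduce_ind_neg C z h, Reduce_ind_neg D z h]
      · obtain ⟨n, rfl⟩ := Int.eq_ofNat_of_zero_le h
        exact hz n (by exact_mod_cast hza)
    exact ⟨this, this⟩
  · intro I hI J hJ hz
    obtain ⟨C, hC, rfl⟩ := mem_image.1 hI
    obtain ⟨D, hD, rfl⟩ := mem_image.1 hJ
    have hC' := ((Reduce_mem_Iset _ _ _ _).1 hC).1
    have hD' := ((Reduce_mem_Iset _ _ _ _).1 hD).1
    rw [Reduce_ind_inj C D M hC' hD' hz]
  · intro I hI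
    obtain ⟨C, hC, rfl⟩ := mem_image.1 hI
    obtain ⟨-, hC2, hC3⟩ := (Reduce_mem_Iset _ _ _ _).1 hC
    exact ⟨Reduce_ind_opn _ _ hC2, Reduce_ind_opn _ _ hC3⟩

theorem Iset_le (d d' m : ℕ) (h1 : 0 < d) (h2 : d < d') :
    ((Iset d d' m).card : ℝ) ≤ mu ^ m := by
  obtain ⟨K, hK⟩ := Reduce_Iset_slow d d' h1 h2
  refine Reduce_super (fun m => (Iset d d' m).card) ?_ ?_ K hK m
  · exact Reduce_concat (Iset d d') (fun C => IsOpn d C ∧ IsOpn d' C) (Reduce_mem_Iset d d')
      (fun C1 C2 a h h' => ⟨Reduce_opn_concat _ _ _ _ h.1 h'.1, Reduce_opn_concat _ _ _ _ h.2 h'.2⟩)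
  · refine card_pos.2 ⟨∅, (Reduce_mem_Iset _ _ _ _).2 ⟨empty_subset _, ?_, ?_⟩⟩
    · intro c hc
      exact absurd hc (notMem_empty c)
    · intro c hc
      exact absurd hc (notMem_empty c)

/-! ### sumsets with a fixed summand -/

private theorem Reduce_mem_Nset (B : Finset ℕ) (m : ℕ) (C : Finset ℕ) :
    C ∈ Nset B m ↔ C ⊆ range m ∧ ∃ A : Finset ℕ, C = A + B := by
  classical
  unfold Nset
  simp only [mem_filter, mem_powerset]

private theorem Reduce_Nset_concat (B C1 C2 : Finset ℕ) (a : ℕ) (h1 : ∃ A : Finset ℕ, C1 = A + B)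
    (h2 : ∃ A : Finset ℕ, C2 = A + B) : ∃ A : Finset ℕ, C1 ∪ C2.image (· + a) = A + B := by
  obtain ⟨A1, rfl⟩ := h1
  obtain ⟨A2, rfl⟩ := h2
  refine ⟨A1 ∪ A2.image (· + a), ?_⟩
  ext x
  simp only [mem_union, mem_image, mem_add]
  constructor
  · rintro (⟨y, hy, b, hb, rfl⟩ | ⟨_, ⟨y, hy, b, hb, rfl⟩, rfl⟩)
    · exact ⟨y, Or.inl hy, b, hb, rfl⟩
    · exact ⟨y + a, Or.inr ⟨y, hy, rfl⟩, b, hb, by omega⟩
  · rintro ⟨_, hy | ⟨y, hy, rfl⟩, b, hb, rfl⟩
    · exact Or.inl ⟨_, hy, b, hb, rfl⟩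
    · exact Or.inr ⟨y + b, ⟨y, hy, b, hb, rfl⟩, by omega⟩

/-- the configurations that code sumsets inside `[0, M)` -/
private def Reduce_Good (L : List ℤ) (M : ℕ) (I : Cfg) : Prop :=
  (∀ z : ℤ, z < 0 → I.1 z = false) ∧ (∀ z : ℤ, (M : ℤ) ≤ z → I.1 z = true) ∧
    Edge L I ∧ PMax L I ∧ QMax L I

private theorem Reduce_second (L : List ℤ) (I : Cfg) (hE : Edge L I) (hQ : QMax L I) (c : ℤ) :
    I.2 c = true ↔ ¬ ∃ b ∈ L, I.1 (c - b) = true := by
  constructor
  · rintro h ⟨b, hb, h'⟩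
    exact hE (c - b) b hb ⟨h', by rwa [sub_add_cancel]⟩
  · intro h
    exact (hQ c).resolve_right h

private theorem Reduce_good_det (L : List ℤ) (hL : ∀ b ∈ L, 0 ≤ b) (M : ℕ) (I J : Cfg)
    (hI : Reduce_Good L M I) (hJ : Reduce_Good L M J) (a : ℤ)
    (h : ∀ z : ℕ, (z : ℤ) < a → z < M → I.1 z = J.1 z) (z : ℤ) (hz : z < a) :
    I.1 z = J.1 z ∧ I.2 z = J.2 z := by
  have h1 : ∀ w : ℤ, w < a → I.1 w = J.1 w := by
    intro w hw
    rcases lt_or_ge w 0 with h0 | h0
    · rw [hI.1 w h0, hJ.1 w h0]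
    · rcases lt_or_ge w M with hM | hM
      · obtain ⟨n, rfl⟩ := Int.eq_ofNat_of_zero_le h0
        exact h n hw (by exact_mod_cast hM)
      · rw [hI.2.1 w hM, hJ.2.1 w hM]
  refine ⟨h1 z hz, ?_⟩
  rw [Bool.eq_iff_iff, Reduce_second L I hI.2.2.1 hI.2.2.2.2,
    Reduce_second L J hJ.2.2.1 hJ.2.2.2.2]
  refine not_congr (exists_congr fun b => and_congr_right fun hb => ?_)
  have := hL b hb
  rw [h1 (z - b) (by omega)]

private theorem Reduce_good_inj (L : List ℤ) (hL : ∀ b ∈ L, 0 ≤ b) (M : ℕ) (I J : Cfg)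
    (hI : Reduce_Good L M I) (hJ : Reduce_Good L M J)
    (h : ∀ z : ℕ, z < M → I.1 z = J.1 z) : I = J := by
  have key := fun z : ℤ =>
    Reduce_good_det L hL M I J hI hJ (z + 1) (fun w _ hw => h w hw) z (by omega)
  exact Prod.ext (funext fun z => (key z).1) (funext fun z => (key z).2)

private theorem Reduce_good_star (L : List ℤ) (hL : ∀ b ∈ L, 0 ≤ b) (h0 : (0 : ℤ) ∈ L) (M : ℕ)
    (I : Cfg) (hI : Reduce_Good L M I) : Reduce_Good L M (star M I) := by
  obtain ⟨h1, h2, hE, hP, hQ⟩ := hI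
  refine ⟨?_, ?_, ?_, ?_, ?_⟩
  · intro z hz
    show I.2 ((M : ℤ) - 1 - z) = false
    rw [← Bool.not_eq_true, Reduce_second L I hE hQ, not_not]
    exact ⟨0, h0, h2 _ (by omega)⟩
  · intro z hz
    show I.2 ((M : ℤ) - 1 - z) = true
    rw [Reduce_second L I hE hQ]
    rintro ⟨b, hb, h⟩
    have := hL b hb
    rw [h1 _ (by omega)] at h
    exact Bool.false_ne_true h
  · rintro a b hb ⟨h, h'⟩
    have h3 : I.2 ((M : ℤ) - 1 - a) = true := h
    have h4 : I.1 ((M : ℤ) - 1 - (a + b)) = true := h'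
    refine hE ((M : ℤ) - 1 - (a + b)) b hb ⟨h4, ?_⟩
    rwa [show (M : ℤ) - 1 - (a + b) + b = (M : ℤ) - 1 - a by ring]
  · intro a
    rcases hQ ((M : ℤ) - 1 - a) with h | ⟨b, hb, h⟩
    · exact Or.inl h
    · refine Or.inr ⟨b, hb, ?_⟩
      show I.1 ((M : ℤ) - 1 - (a + b)) = true
      rwa [show (M : ℤ) - 1 - (a + b) = (M : ℤ) - 1 - a - b by ring]
  · intro c
    rcases hP ((M : ℤ) - 1 - c) with h | ⟨b, hb, h⟩
    · exact Or.inl h
    · refine Or.inr ⟨b, hb, ?_⟩
      show I.2 ((M : ℤ) - 1 - (c - b)) = true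
      rwa [show (M : ℤ) - 1 - (c - b) = (M : ℤ) - 1 - c + b by ring]

private theorem Reduce_good_finite (L : List ℤ) (hL : ∀ b ∈ L, 0 ≤ b) (M : ℕ) :
    {I : Cfg | Reduce_Good L M I}.Finite := by
  refine Set.Finite.of_finite_image (f := fun I : Cfg => fun z : Fin M => I.1 (z : ℕ))
    (Set.toFinite _) ?_
  intro I hI J hJ he
  exact Reduce_good_inj L hL M I J hI hJ (fun z hz => congrFun he ⟨z, hz⟩)

/-- the configuration of a sumset -/
private def Reduce_cfg (L : List ℤ) (M : ℕ) (C : Finset ℕ) : Cfg :=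
  (fun a => decide (∀ b ∈ L, (M : ℤ) ≤ a + b ∨ ∃ c ∈ C, (c : ℤ) = a + b),
    fun z => decide (¬ ((M : ℤ) ≤ z ∨ ∃ c ∈ C, (c : ℤ) = z)))

private theorem Reduce_cfg1 (L : List ℤ) (M : ℕ) (C : Finset ℕ) (a : ℤ) :
    (Reduce_cfg L M C).1 a = true ↔ ∀ b ∈ L, (M : ℤ) ≤ a + b ∨ ∃ c ∈ C, (c : ℤ) = a + b := by
  unfold Reduce_cfg
  exact decide_eq_true_iff

private theorem Reduce_cfg2 (L : List ℤ) (M : ℕ) (C : Finset ℕ) (z : ℤ) :
    (Reduce_cfg L M C).2 z = true ↔ ¬ ((M : ℤ) ≤ z ∨ ∃ c ∈ C, (c : ℤ) = z) := by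
  unfold Reduce_cfg
  exact decide_eq_true_iff

private theorem Reduce_cfg_good (B : Finset ℕ) (h0 : 0 ∈ B) (L : List ℤ)
    (hL : ∀ b : ℤ, b ∈ L ↔ ∃ n ∈ B, (n : ℤ) = b) (M : ℕ) (A : Finset ℕ) :
    Reduce_Good L M (Reduce_cfg L M (A + B)) := by
  have h0' : (0 : ℤ) ∈ L := (hL 0).2 ⟨0, h0, rfl⟩
  have hge : ∀ z : ℤ, (M : ℤ) ≤ z → (Reduce_cfg L M (A + B)).1 z = true := by
    intro z hz
    rw [Reduce_cfg1]
    intro b hb
    obtain ⟨n, -, rfl⟩ := (hL b).1 hb
    exact Or.inl (by omega)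
  refine ⟨?_, hge, ?_, ?_, ?_⟩
  · intro z hz
    rw [← Bool.not_eq_true, Reduce_cfg1]
    intro h
    rcases h 0 h0' with h | ⟨c, -, h⟩ <;> omega
  · rintro a b hb ⟨h, h'⟩
    exact (Reduce_cfg2 _ _ _ _).1 h' ((Reduce_cfg1 _ _ _ _).1 h b hb)
  · intro a
    by_cases h : (Reduce_cfg L M (A + B)).1 a = true
    · exact Or.inl h
    · rw [Reduce_cfg1, not_forall] at h
      obtain ⟨b, hb⟩ := h
      rw [Classical.not_imp] at hb
      exact Or.inr ⟨b, hb.1, (Reduce_cfg2 _ _ _ _).2 hb.2⟩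
  · intro c
    by_cases h : (Reduce_cfg L M (A + B)).2 c = true
    · exact Or.inl h
    · rw [Reduce_cfg2, not_not] at h
      rcases h with h | ⟨s, hs, rfl⟩
      · exact Or.inr ⟨0, h0', hge _ (by omega)⟩
      · obtain ⟨a, ha, b, hb, rfl⟩ := mem_add.1 hs
        refine Or.inr ⟨b, (hL b).2 ⟨b, hb, rfl⟩, ?_⟩
        rw [Reduce_cfg1]
        intro b' hb'
        obtain ⟨n, hn, rfl⟩ := (hL b').1 hb'
        exact Or.inr ⟨a + n, add_mem_add ha hn, by push_cast; ring⟩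

private theorem Reduce_Nset_le (B : Finset ℕ) (h0 : 0 ∈ B) (L : List ℤ)
    (hL : ∀ b : ℤ, b ∈ L ↔ ∃ n ∈ B, (n : ℤ) = b)
    (hS : Slow (fun I => Edge L I ∧ PMax L I ∧ QMax L I)) (m : ℕ) :
    ((Nset B m).card : ℝ) ≤ mu ^ m := by
  have h0' : (0 : ℤ) ∈ L := (hL 0).2 ⟨0, h0, rfl⟩
  have hpos : ∀ b ∈ L, (0 : ℤ) ≤ b := by
    intro b hb
    obtain ⟨n, -, rfl⟩ := (hL b).1 hb
    exact Int.natCast_nonneg n
  obtain ⟨K, hK⟩ := hS
  refine Reduce_super (fun m => (Nset B m).card) ?_ ?_ K ?_ m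
  · exact Reduce_concat (Nset B) (fun C => ∃ A : Finset ℕ, C = A + B) (Reduce_mem_Nset B)
      (fun C1 C2 a h h' => Reduce_Nset_concat B C1 C2 a h h')
  · exact card_pos.2 ⟨∅, (Reduce_mem_Nset _ _ _).2 ⟨empty_subset _, ∅, (empty_add B).symm⟩⟩
  · intro M
    have hmem : ∀ I, I ∈ (Reduce_good_finite L hpos M).toFinset ↔ Reduce_Good L M I :=
      fun I => Set.Finite.mem_toFinset _
    have hle : (Nset B M).card ≤ (Reduce_good_finite L hpos M).toFinset.card := by
      refine card_le_card_of_injOn (Reduce_cfg L M) ?_ ?_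
      · intro C hC
        obtain ⟨-, A, rfl⟩ := (Reduce_mem_Nset _ _ _).1 (mem_coe.1 hC)
        exact mem_coe.2 ((hmem _).2 (Reduce_cfg_good B h0 L hL M A))
      · have key : ∀ C D : Finset ℕ, C ⊆ range M → Reduce_cfg L M C = Reduce_cfg L M D →
            C ⊆ D := by
          intro C D hC he x hx
          have hxM := mem_range.1 (hC hx)
          have h1 : ¬ (Reduce_cfg L M C).2 x = true := by
            rw [Reduce_cfg2, not_not]
            exact Or.inr ⟨x, hx, rfl⟩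
          rw [he, Reduce_cfg2, not_not] at h1
          rcases h1 with h1 | ⟨c, hc, h1⟩
          · omega
          · have : c = x := by exact_mod_cast h1
            exact this ▸ hc
        intro C hC D hD he
        have hC' := ((Reduce_mem_Nset _ _ _).1 (mem_coe.1 hC)).1
        have hD' := ((Reduce_mem_Nset _ _ _).1 (mem_coe.1 hD)).1
        exact Subset.antisymm (key C D hC' he) (key D C hD' he.symm)
    refine le_trans (by exact_mod_cast hle) (hK M _ ⟨?_, ?_, ?_⟩ ?_)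
    · intro I hI
      exact (hmem _).2 (Reduce_good_star L hpos h0' M I ((hmem _).1 hI))
    · intro I hI J hJ a _ hz z hza
      exact Reduce_good_det L hpos M I J ((hmem _).1 hI) ((hmem _).1 hJ) a
        (fun w hw _ => hz w (by exact_mod_cast hw)) z hza
    · intro I hI J hJ hz
      exact Reduce_good_inj L hpos M I J ((hmem _).1 hI) ((hmem _).1 hJ) hz
    · intro I hI
      exact ((hmem _).1 hI).2.2

/-- reflection of the fixed summand -/
private theorem Reduce_mirror (B B' : Finset ℕ) (t : ℕ) (ht : t ∈ B) (hle : ∀ b ∈ B, b ≤ t)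
    (hB' : ∀ c, c ∈ B' ↔ ∃ b ∈ B, t - b = c) (m : ℕ) : (Nset B m).card ≤ (Nset B' m).card := by
  refine card_le_card_of_injOn (fun C => C.image (fun c => m - 1 - c)) ?_ ?_
  · intro C hC
    obtain ⟨hC1, A, rfl⟩ := (Reduce_mem_Nset _ _ _).1 (mem_coe.1 hC)
    refine mem_coe.2 ((Reduce_mem_Nset _ _ _).2 ⟨?_, A.image (fun a => m - 1 - t - a), ?_⟩)
    · intro x hx
      obtain ⟨y, hy, rfl⟩ := mem_image.1 hx
      have := mem_range.1 (hC1 hy)
      exact mem_range.2 (by omega)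
    · ext x
      constructor
      · intro hx
        obtain ⟨y, hy, rfl⟩ := mem_image.1 hx
        obtain ⟨a, ha, b, hb, rfl⟩ := mem_add.1 hy
        have h1 := mem_range.1 (hC1 (add_mem_add ha ht))
        have h2 := hle b hb
        exact mem_add.2 ⟨m - 1 - t - a, mem_image.2 ⟨a, ha, rfl⟩, t - b, (hB' _).2 ⟨b, hb, rfl⟩,
          by omega⟩
      · intro hx
        obtain ⟨a', ha', b', hb', rfl⟩ := mem_add.1 hx
        obtain ⟨a, ha, rfl⟩ := mem_image.1 ha'
        obtain ⟨b, hb, rfl⟩ := (hB' _).1 hb'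
        have h1 := mem_range.1 (hC1 (add_mem_add ha ht))
        have h2 := hle b hb
        exact mem_image.2 ⟨a + b, add_mem_add ha hb, by omega⟩
  · have key : ∀ C D : Finset ℕ, C ⊆ range m → D ⊆ range m →
        C.image (fun c => m - 1 - c) = D.image (fun c => m - 1 - c) → C ⊆ D := by
      intro C D hC hD he x hx
      have h1 : m - 1 - x ∈ D.image (fun c => m - 1 - c) := he ▸ mem_image.2 ⟨x, hx, rfl⟩
      obtain ⟨y, hy, h2⟩ := mem_image.1 h1
      have h3 := mem_range.1 (hC hx)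
      have h4 := mem_range.1 (hD hy)
      have : y = x := by omega
      exact this ▸ hy
    intro C hC D hD he
    have hC' := ((Reduce_mem_Nset _ _ _).1 (mem_coe.1 hC)).1
    have hD' := ((Reduce_mem_Nset _ _ _).1 (mem_coe.1 hD)).1
    exact Subset.antisymm (key C D hC' hD' he) (key D C hD' hC' he.symm)

private theorem Reduce_three (x y : ℕ) (h1 : 0 < x) (h2 : 2 * x < y) (m : ℕ) :
    ((Nset {0, x, y} m).card : ℝ) ≤ mu ^ m := by
  refine Reduce_Nset_le _ (by simp) [0, x, y] ?_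
    (cfg3 x y (by exact_mod_cast h1) (by exact_mod_cast h2)) m
  intro b
  simp [eq_comm]

private theorem Reduce_four (x y z : ℕ) (h1 : 0 < x) (h2 : x < y) (h3 : x + y < z) (m : ℕ) :
    ((Nset {0, x, y, z} m).card : ℝ) ≤ mu ^ m := by
  refine Reduce_Nset_le _ (by simp) [0, x, y, z] ?_
    (cfg4 x y z (by exact_mod_cast h1) (by exact_mod_cast h2) (by exact_mod_cast h3)) m
  intro b
  simp [eq_comm]

theorem Nset_dichotomy (B : Finset ℕ) (h0 : 0 ∈ B) (h2 : 2 ≤ B.card) :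
    (∃ x : ℕ, 0 < x ∧ ∃ B' : Finset ℕ, B = B' + {0, x}) ∨
      ∀ m : ℕ, ((Nset B m).card : ℝ) ≤ mu ^ m := by
  obtain ⟨l, hl1, hl2, hl3⟩ : ∃ l : List ℕ, l.Pairwise (· < ·) ∧ (∀ x, x ∈ B ↔ x ∈ l) ∧
      l.length = B.card :=
    ⟨B.sort (· ≤ ·), (B.sortedLT_sort).pairwise, fun x => (mem_sort _).symm, length_sort _⟩
  rcases l with _ | ⟨a, l⟩
  · simp at hl3
    omega
  have ha : a = 0 := by
    rcases List.mem_cons.1 ((hl2 0).1 h0) with h | h
    · exact h.symm
    · exact absurd ((List.pairwise_cons.1 hl1).1 0 h) (Nat.not_lt_zero a)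
  subst ha
  rcases l with _ | ⟨x, _ | ⟨y, _ | ⟨z, _ | ⟨w, _ | ⟨v, l⟩⟩⟩⟩⟩
  · simp at hl3
    omega
  · have hx : 0 < x := by simpa using hl1
    refine Or.inl ⟨x, hx, {0}, ?_⟩
    ext c
    simp only [hl2, mem_add, mem_singleton, mem_insert, List.mem_cons, List.not_mem_nil, or_false]
    constructor
    · rintro (h | h)
      · exact ⟨0, rfl, 0, Or.inl rfl, by omega⟩
      · exact ⟨0, rfl, x, Or.inr rfl, by omega⟩
    · rintro ⟨_, rfl, _, rfl | rfl, h⟩ <;> omega
  · have hB : B = {0, x, y} := by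
      ext c
      simp [hl2]
    obtain ⟨hx, hxy⟩ : 0 < x ∧ x < y := by
      simp only [List.pairwise_cons, List.mem_cons, List.not_mem_nil, or_false,
        forall_eq_or_imp, forall_eq] at hl1
      omega
    rcases lt_trichotomy (2 * x) y with h | h | h
    · exact Or.inr (hB ▸ Reduce_three x y hx h)
    · refine Or.inl ⟨x, hx, {0, x}, ?_⟩
      rw [hB]
      ext c
      simp only [mem_add, mem_singleton, mem_insert]
      constructor
      · rintro (h' | h' | h')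
        · exact ⟨0, Or.inl rfl, 0, Or.inl rfl, by omega⟩
        · exact ⟨0, Or.inl rfl, x, Or.inr rfl, by omega⟩
        · exact ⟨x, Or.inr rfl, x, Or.inr rfl, by omega⟩
      · rintro ⟨_, rfl | rfl, _, rfl | rfl, h'⟩ <;> omega
    · refine Or.inr fun m => le_trans ?_ (Reduce_three (y - x) y (by omega) (by omega) m)
      have := Reduce_mirror B {0, y - x, y} y (by simp [hB]) (by
        intro b hb
        simp only [hB, mem_insert, mem_singleton] at hb
        omega) (by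
        intro c
        simp only [hB, mem_insert, mem_singleton, exists_eq_or_imp, exists_eq_left]
        omega) m
      exact_mod_cast this
  · have hB : B = {0, x, y, z} := by
      ext c
      simp [hl2]
    obtain ⟨hx, hxy, hyz⟩ : 0 < x ∧ x < y ∧ y < z := by
      simp only [List.pairwise_cons, List.mem_cons, List.not_mem_nil, or_false,
        forall_eq_or_imp, forall_eq] at hl1
      omega
    rcases lt_trichotomy (x + y) z with h | h | h
    · exact Or.inr (hB ▸ Reduce_four x y z hx hxy h)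
    · refine Or.inl ⟨x, hx, {0, y}, ?_⟩
      rw [hB]
      ext c
      simp only [mem_add, mem_singleton, mem_insert]
      constructor
      · rintro (h' | h' | h' | h')
        · exact ⟨0, Or.inl rfl, 0, Or.inl rfl, by omega⟩
        · exact ⟨0, Or.inl rfl, x, Or.inr rfl, by omega⟩
        · exact ⟨y, Or.inr rfl, 0, Or.inl rfl, by omega⟩
        · exact ⟨y, Or.inr rfl, x, Or.inr rfl, by omega⟩
      · rintro ⟨_, rfl | rfl, _, rfl | rfl, h'⟩ <;> omega
    · refine Or.inr fun m =>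
        le_trans ?_ (Reduce_four (z - y) (z - x) z (by omega) (by omega) (by omega) m)
      have := Reduce_mirror B {0, z - y, z - x, z} z (by simp [hB]) (by
        intro b hb
        simp only [hB, mem_insert, mem_singleton] at hb
        omega) (by
        intro c
        simp only [hB, mem_insert, mem_singleton, exists_eq_or_imp, exists_eq_left]
        omega) m
      exact_mod_cast this
  · obtain ⟨hx, hxy, hyz, hzw⟩ : 0 < x ∧ x < y ∧ y < z ∧ z < w := by
      simp only [List.pairwise_cons, List.mem_cons, List.not_mem_nil, or_false,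
        forall_eq_or_imp, forall_eq] at hl1
      omega
    refine Or.inr (Reduce_Nset_le B h0 [0, x, y, z, w] ?_
      (cfg5 x y z w (by exact_mod_cast hx) (by exact_mod_cast hxy) (by exact_mod_cast hyz)
        (by exact_mod_cast hzw)))
    intro b
    simp [hl2, eq_comm]
  · obtain ⟨hx, hxy, hyz, hzw, hwv⟩ : 0 < x ∧ x < y ∧ y < z ∧ z < w ∧ w < v := by
      simp only [List.pairwise_cons, List.mem_cons, forall_eq_or_imp] at hl1
      omega
    obtain ⟨K, hK⟩ := cfg6 x y z w v (by exact_mod_cast hx) (by exact_mod_cast hxy)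
      (by exact_mod_cast hyz) (by exact_mod_cast hzw) (by exact_mod_cast hwv)
    refine Or.inr (Reduce_Nset_le B h0 ((0 :: x :: y :: z :: w :: v :: l).map (fun n : ℕ => (n : ℤ)))
      ?_ ⟨K, fun M F hF hP => hK M F hF fun I hI => ?_⟩)
    · intro b
      simp only [List.mem_map, hl2]
    · intro a b hb
      refine (hP I hI).1 a b ?_
      simp only [List.mem_cons, List.not_mem_nil, or_false] at hb
      simp only [List.map_cons, List.mem_cons, Nat.cast_zero]
      tauto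

end Pool.Agent.Lib.MP_1d41ea_nt
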