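import Pool.Agent.Lib.MP_1d41ea_nt.Containers
import Pool.Agent.Lib.MP_1d41ea_nt.ChainComb
import Pool.Agent.Lib.MP_1d41ea_nt.ChainAn
import Pool.Agent.Lib.MP_1d41ea_nt.Bridge
import Pool.Agent.Lib.MP_1d41ea_nt.Reduce

namespace Pool.Agent.Lib.MP_1d41ea_nt

open Finset Filter Topology
open scoped Pointwise

private lemma bonf {α : Type} [DecidableEq α] (f : ℕ → Finset α) (b : ℝ) (hb : 0 ≤ b)
    (s : Finset ℕ) (h : ∀ d ∈ s, ∀ d' ∈ s, d ≠ d' → ((f d ∩ f d').card : ℝ) ≤ b) :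
    ∑ d ∈ s, ((f d).card : ℝ) ≤ ((s.biUnion f).card : ℝ) + (s.card : ℝ) ^ 2 * b := by
  induction s using Finset.induction_on with
  | empty => simp
  | insert a s ha ih =>
    have ih' := ih fun d hd d' hd' => h d (mem_insert_of_mem hd) d' (mem_insert_of_mem hd')
    have e1 : ((f a ∪ s.biUnion f).card : ℝ) + ((f a ∩ s.biUnion f).card : ℝ) =
        (f a).card + (s.biUnion f).card := by exact_mod_cast card_union_add_card_inter _ _
    have e2 : ((f a ∩ s.biUnion f).card : ℝ) ≤ ∑ d ∈ s, ((f a ∩ f d).card : ℝ) := by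
      rw [inter_biUnion]
      exact_mod_cast card_biUnion_le
    have e3 : ∑ d ∈ s, ((f a ∩ f d).card : ℝ) ≤ s.card * b := by
      have := sum_le_card_nsmul s (fun d => ((f a ∩ f d).card : ℝ)) b fun d hd =>
        h a (mem_insert_self _ _) d (mem_insert_of_mem hd) fun e => ha (e ▸ hd)
      simpa using this
    rw [sum_insert ha, biUnion_insert, card_insert_of_notMem ha]
    push_cast
    have e4 : (0 : ℝ) ≤ s.card * b := by positivity
    nlinarith

private lemma Oset_sub {d n : ℕ} (hd : 1 ≤ d) (hn : d < n) : Oset d n ⊆ Red n := by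
  classical
  intro C hC
  obtain ⟨h1, h0, h2, h3⟩ := mem_filter.1 hC
  have hle : ∀ c ∈ C, c ≤ n := fun c hc => by
    have := mem_range.1 (mem_powerset.1 h1 hc)
    omega
  refine mem_filter.2 ⟨h1, h0, h2, C.filter fun a => a + d ∈ C, {0, d}, ?_, ?_, ?_⟩
  · refine one_lt_card.2 ⟨0, mem_filter.2 ⟨h0, ?_⟩, n - d, mem_filter.2 ⟨?_, ?_⟩, by omega⟩
    · rcases h3 0 h0 with k | k
      · exact k
      · omega
    · rcases h3 n h2 with k | k
      · have := hle _ k
        omega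
      · exact k.2
    · rwa [show n - d + d = n by omega]
  · rw [card_pair (by omega)]
  · ext c
    simp only [Finset.mem_add, mem_filter, mem_insert, mem_singleton]
    constructor
    · intro hc
      rcases h3 c hc with k | k
      · exact ⟨c, ⟨hc, k⟩, 0, Or.inl rfl, rfl⟩
      · exact ⟨c - d, ⟨k.2, by rwa [show c - d + d = c by omega]⟩, d, Or.inr rfl, by omega⟩
    · rintro ⟨a, ⟨ha, ha'⟩, b, rfl | rfl, rfl⟩
      · exact ha
      · exact ha'

open Classical in
/-- the small summands with few multiples -/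
private noncomputable def Good (N n : ℕ) : Finset (Finset ℕ) :=
  ((range N).biUnion fun j => powersetCard j (range (n + 1))).filter
    fun B => ∀ m : ℕ, ((Nset B m).card : ℝ) ≤ mu ^ m

private lemma Good_card (N n k : ℕ) (hk : N ≤ k) : (Good N n).card ≤ N * (n + 2) ^ k := by
  classical
  refine (card_filter_le _ _).trans (card_biUnion_le.trans ?_)
  have := sum_le_card_nsmul (range N) (fun j => (powersetCard j (range (n + 1))).card)
    ((n + 2) ^ k) fun j hj => by
      rw [card_powersetCard, card_range]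
      refine (Nat.choose_le_pow _ _).trans ((Nat.pow_le_pow_left (Nat.le_succ _) _).trans ?_)
      exact Nat.pow_le_pow_right (by omega) (by have := mem_range.1 hj; omega)
  rwa [card_range, smul_eq_mul] at this

private lemma mem_Good {N n : ℕ} {B : Finset ℕ} (h1 : B.card < N) (h2 : B ⊆ range (n + 1))
    (h3 : ∀ m : ℕ, ((Nset B m).card : ℝ) ≤ mu ^ m) : B ∈ Good N n := by
  classical
  exact mem_filter.2 ⟨mem_biUnion.2 ⟨B.card, mem_range.2 h1, mem_powersetCard.2 ⟨h2, rfl⟩⟩, h3⟩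

private lemma of_Good {N n : ℕ} {B : Finset ℕ} (h : B ∈ Good N n) (m : ℕ) :
    ((Nset B m).card : ℝ) ≤ mu ^ m := by
  classical
  exact (mem_filter.1 h).2 m

private lemma sq_le_big (n k : ℕ) (hk : 2 ≤ k) : n ^ 2 ≤ (n + 2) ^ k :=
  (Nat.pow_le_pow_left (Nat.le_add_right n 2) _).trans (Nat.pow_le_pow_right (by omega) hk)

private lemma Red_aux {N n : ℕ} (hN : 1024 ≤ N) {A B : Finset ℕ} (h1 : A + B ∈ (range (n + 1)).powerset)
    (h0 : 0 ∈ A + B) (h2 : n ∈ A + B) (hB : 2 ≤ B.card) (hAB : B.card ≤ A.card) :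
    A + B ∈ (Ico 1 n).biUnion (fun d => Oset d n) ∪
      (Good N n).biUnion (fun B => Nset B (n + 1)) ∪ Big (n + 1) := by
  classical
  have hle : ∀ c ∈ A + B, c ≤ n := fun c hc => by
    have := mem_range.1 (mem_powerset.1 h1 hc)
    omega
  obtain ⟨a0, ha0, b0, hb0, e0⟩ := mem_add.1 h0
  obtain rfl : a0 = 0 := by omega
  obtain rfl : b0 = 0 := by omega
  rcases Nat.lt_or_ge B.card 1024 with hc | hc
  · refine mem_union_left _ ?_
    rcases Nset_dichotomy B hb0 hB with ⟨x, hx, B', hB'⟩ | hg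
    · refine mem_union_left _ (mem_biUnion.2 ⟨x, mem_Ico.2 ⟨hx, ?_⟩, ?_⟩)
      · obtain ⟨a, ha, ha'⟩ := exists_mem_ne (s := A) (by omega) 0
        obtain ⟨b', hb', -⟩ := mem_add.1 (hB' ▸ hb0)
        have k1 : b' + x ∈ B := hB' ▸ add_mem_add hb' (by simp)
        have := hle _ (add_mem_add ha k1)
        omega
      · refine mem_filter.2 ⟨h1, h0, h2, fun c hc => ?_⟩
        obtain ⟨a, ha, b, hb, rfl⟩ := mem_add.1 hc
        obtain ⟨b', hb', t, ht, rfl⟩ := mem_add.1 (hB' ▸ hb)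
        simp only [mem_insert, mem_singleton] at ht
        rcases ht with rfl | rfl
        · left
          have k1 : b' + x ∈ B := hB' ▸ add_mem_add hb' (by simp)
          have := add_mem_add ha k1
          rwa [show a + (b' + 0) + x = a + (b' + x) by omega]
        · right
          have k1 : b' + 0 ∈ B := hB' ▸ add_mem_add hb' (by simp)
          have := add_mem_add ha k1
          exact ⟨by omega, by rwa [show a + (b' + t) - t = a + (b' + 0) by omega]⟩
    · refine mem_union_right _ (mem_biUnion.2 ⟨B, mem_Good (hc.trans_le hN) (fun b hb => ?_) hg,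
        mem_filter.2 ⟨h1, A, rfl⟩⟩)
      have := hle _ (add_mem_add ha0 hb)
      exact mem_range.2 (by omega)
  · exact mem_union_right _ (mem_filter.2 ⟨h1, A, B, by omega, hc, rfl⟩)

private lemma Red_sub {N : ℕ} (hN : 1024 ≤ N) (n : ℕ) : Red n ⊆ (Ico 1 n).biUnion (fun d => Oset d n) ∪
    (Good N n).biUnion (fun B => Nset B (n + 1)) ∪ Big (n + 1) := by
  classical
  intro C hC
  obtain ⟨h1, h0, h2, A, B, hA, hB, rfl⟩ := mem_filter.1 hC
  rcases le_total B.card A.card with k | k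
  · exact Red_aux hN h1 h0 h2 hB k
  · rw [add_comm A B] at h1 h0 h2 ⊢
    exact Red_aux hN h1 h0 h2 hA k

private lemma mu_pos : 0 < mu := by unfold mu; norm_num

private lemma Red_close {N : ℕ} (hN : N = 1024) (n : ℕ) :
    |((Red n).card : ℝ) - ∑ d ∈ Ico 1 n, ((Oset d n).card : ℝ)| ≤
      1027 * (((n + 2 : ℕ) : ℝ) ^ 2048 * mu ^ (n + 1)) := by
  classical
  have hmu : 0 < mu ^ (n + 1) := pow_pos mu_pos _
  have hP : ((n : ℝ)) ^ 2 ≤ ((n + 2 : ℕ) : ℝ) ^ 2048 := by
    rw [← Nat.cast_pow, ← Nat.cast_pow]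
    exact Nat.cast_le.2 (sq_le_big n 2048 (by omega))
  have hG : ((Good N n).card : ℝ) ≤ 1024 * ((n + 2 : ℕ) : ℝ) ^ 2048 := by
    have := (Nat.cast_le (α := ℝ)).2 (Good_card N n 2048 (by omega))
    rwa [Nat.cast_mul, Nat.cast_pow, show (N : ℝ) = 1024 by rw [hN, Nat.cast_ofNat]] at this
  have hB : ((Big (n + 1)).card : ℝ) ≤ 3 * ((n + 2 : ℕ) : ℝ) ^ 2048 * mu ^ (n + 1) := by
    have := big_card (n + 1)
    rwa [show (((n + 1 : ℕ) : ℝ) + 1) = ((n + 2 : ℕ) : ℝ) by push_cast; ring] at this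
  generalize ((n + 2 : ℕ) : ℝ) ^ 2048 = P at hP hG hB ⊢
  set U := (Ico 1 n).biUnion (fun d => Oset d n) with hU
  have u1 : (U.card : ℝ) ≤ ∑ d ∈ Ico 1 n, ((Oset d n).card : ℝ) := by
    exact_mod_cast card_biUnion_le
  have u2 : (U.card : ℝ) ≤ (Red n).card := by
    refine Nat.cast_le.2 (card_le_card (biUnion_subset.2 fun d hd => ?_))
    exact Oset_sub (mem_Ico.1 hd).1 (mem_Ico.1 hd).2
  have key : ∀ d d', 0 < d → d < d' → ((Oset d n ∩ Oset d' n).card : ℝ) ≤ mu ^ (n + 1) := by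
    intro d d' k1 k2
    refine le_trans (Nat.cast_le.2 (card_le_card fun C hC => ?_)) (Iset_le d d' (n + 1) k1 k2)
    obtain ⟨a, b⟩ := mem_inter.1 hC
    exact mem_filter.2 ⟨(mem_filter.1 a).1, (mem_filter.1 a).2.2.2, (mem_filter.1 b).2.2.2⟩
  have u3 := bonf (fun d => Oset d n) (mu ^ (n + 1)) hmu.le (Ico 1 n) fun d hd d' hd' hne => by
    rcases Nat.lt_or_gt_of_ne hne with k | k
    · exact key d d' (mem_Ico.1 hd).1 k
    · rw [inter_comm]
      exact key d' d (mem_Ico.1 hd').1 k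
  have u4 : ((Ico 1 n).card : ℝ) ^ 2 ≤ P := by
    refine le_trans (pow_le_pow_left₀ (Nat.cast_nonneg _) (Nat.cast_le.2 ?_) 2) hP
    rw [Nat.card_Ico]
    omega
  have u5 : (((Good N n).biUnion fun B => Nset B (n + 1)).card : ℝ) ≤
      (Good N n).card * mu ^ (n + 1) := by
    have e1 : (((Good N n).biUnion fun B => Nset B (n + 1)).card : ℝ) ≤
        ∑ B ∈ Good N n, ((Nset B (n + 1)).card : ℝ) := by exact_mod_cast card_biUnion_le
    have e2 := sum_le_card_nsmul (Good N n) (fun B => ((Nset B (n + 1)).card : ℝ)) (mu ^ (n + 1))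
      fun B hB => of_Good hB (n + 1)
    rw [nsmul_eq_mul] at e2
    exact e1.trans e2
  have u6 : ((Red n).card : ℝ) ≤ U.card +
      ((Good N n).biUnion fun B => Nset B (n + 1)).card + (Big (n + 1)).card := by
    have e1 := (card_le_card (Red_sub hN.ge n)).trans ((card_union_le _ _).trans
      (Nat.add_le_add_right (card_union_le _ _) _))
    exact_mod_cast e1
  have u7 := mul_le_mul_of_nonneg_right u4 hmu.le
  have u8 := mul_le_mul_of_nonneg_right hG hmu.le
  have u9 : 0 ≤ P * mu ^ (n + 1) := mul_nonneg ((sq_nonneg _).trans u4) hmu.le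
  rw [abs_le]
  constructor <;> linarith

private lemma err_lim {r : ℝ} (h0 : 0 < r) (h1 : r < 1) (k : ℕ) :
    Tendsto (fun n : ℕ => 1027 * (((n + 2 : ℕ) : ℝ) ^ k * r ^ (n + 1))) atTop (𝓝 0) := by
  have e1 := (tendsto_pow_const_mul_const_pow_of_abs_lt_one k
    (r := r) (by rwa [abs_of_pos h0])).comp (tendsto_add_atTop_nat 2)
  have e2 := e1.const_mul (1027 / r)
  rw [mul_zero] at e2
  refine e2.congr fun n => ?_
  simp only [Function.comp]
  rw [show n + 2 = n + 1 + 1 from rfl, pow_succ r (n + 1)]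
  field_simp

theorem red_limit (lam : ℝ) (h : lam ^ 3 - 2 * lam ^ 2 + lam - 1 = 0) :
    Tendsto (fun n : ℕ => ((Red n).card : ℝ) / lam ^ (n + 1)) atTop
      (𝓝 ((lam ^ 2 + 1) / (lam ^ 2 * (lam + 1)))) := by
  have hl := (root_gt lam h).1
  have hl0 : 0 < lam := mu_pos.trans hl
  have e1 : Tendsto (fun n : ℕ => (∑ d ∈ Ico 1 n, ((Oset d n).card : ℝ)) / lam ^ (n + 1)) atTop
      (𝓝 ((lam ^ 2 + 1) / (lam ^ 2 * (lam + 1)))) := by
    refine (prod_limit lam h).congr fun n => ?_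
    congr 1
    refine sum_congr rfl fun d hd => ?_
    rw [← Oset_card d n (mem_Ico.1 hd).1 (mem_Ico.1 hd).2, Int.cast_natCast]
  have e2 : Tendsto (fun n : ℕ => (((Red n).card : ℝ) -
      ∑ d ∈ Ico 1 n, ((Oset d n).card : ℝ)) / lam ^ (n + 1)) atTop (𝓝 0) := by
    refine squeeze_zero_norm (fun n => ?_)
      (err_lim (div_pos mu_pos hl0) ((div_lt_one hl0).2 hl) 2048)
    have hp : 0 < lam ^ (n + 1) := pow_pos hl0 _
    rw [Real.norm_eq_abs, abs_div, abs_of_pos hp, div_pow, ← mul_div_assoc, ← mul_div_assoc]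
    exact div_le_div_of_nonneg_right (Red_close rfl n) hp.le
  have e3 := e1.add e2
  rw [add_zero] at e3
  refine e3.congr fun n => ?_
  rw [← add_div, add_sub_cancel]

theorem second_order :
    ∃ lam : ℝ, 1.7548 < lam ∧ lam < 1.7549 ∧ lam ^ 3 - 2 * lam ^ 2 + lam - 1 = 0 ∧
      Tendsto (fun k : ℕ =>
        ((2 : ℝ) ^ ((k : ℤ) - 2) -
          (({n : ℕ | 2 ^ (k - 1) ≤ n ∧ n < 2 ^ k ∧ n ≠ 1 ∧
            ∀ a c : ℕ,
              (∀ m : ℕ, n / 2 ^ m % 2 =
                (Finset.range (m + 1)).sup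
                  (fun i => min (a / 2 ^ i % 2) (c / 2 ^ (m - i) % 2))) →
              a = 1 ∨ c = 1} : Set ℕ).ncard : ℝ)) / lam ^ k)
        atTop (𝓝 ((lam ^ 2 + 1) / (lam ^ 2 * (lam + 1)))) := by
  have hc : ContinuousOn (fun x : ℝ => x ^ 3 - 2 * x ^ 2 + x - 1) (Set.Icc 1.7548 1.7549) := by
    fun_prop
  obtain ⟨lam, ⟨h1, h2⟩, h⟩ := intermediate_value_Ioo (by norm_num : (1.7548 : ℝ) ≤ 1.7549) hc
    (show (0 : ℝ) ∈ Set.Ioo _ _ by constructor <;> norm_num)
  refine ⟨lam, h1, h2, h, ?_⟩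
  refine ((red_limit lam h).comp (tendsto_sub_atTop_nat 1)).congr' ?_
  filter_upwards [eventually_ge_atTop 3] with k hk
  have e1 := congrArg (Nat.cast : ℕ → ℝ) (bridge k hk)
  rw [Nat.cast_add, Nat.cast_pow, Nat.cast_ofNat] at e1
  have e2 : (2 : ℝ) ^ ((k : ℤ) - 2) = 2 ^ (k - 2) := by
    rw [← zpow_natCast]
    congr 1
    omega
  simp only [Function.comp]
  rw [e2, ← e1, add_sub_cancel_left, show k - 1 + 1 = k by omega]

end Pool.Agent.Lib.MP_1d41ea_nt
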