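import Pool.Agent.Lib.MP_1d41ea_nt.Dat4

namespace Pool.Agent.Lib.MP_1d41ea_nt

namespace D4

theorem r0 : run Gtab 495609 s14 fs [false, false] ps 0 0 = true := by decide +kernel

theorem r1 : run Gtab 495609 s14 fs [false, true] ps 0 0 = true := by decide +kernel

theorem r2 : run Gtab 495609 s14 fs [true, false] ps 0 0 = true := by decide +kernel

theorem r3 : run Gtab 495609 s14 fs [true, true] ps 0 0 = true := by decide +kernel

end D4

end Pool.Agent.Lib.MP_1d41ea_nt
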