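import Pool.Agent.Lib.MP_1d41ea_nt.Dat5

namespace Pool.Agent.Lib.MP_1d41ea_nt

namespace D5

theorem r0 : run Gtab 1478634 s14 fs [false, false, false, false] ps 0 0 = true := by decide +kernel

theorem r1 : run Gtab 1478634 s14 fs [false, false, false, true] ps 0 0 = true := by decide +kernel

theorem r2 : run Gtab 1478634 s14 fs [false, false, true, false] ps 0 0 = true := by decide +kernel

theorem r3 : run Gtab 1478634 s14 fs [false, false, true, true] ps 0 0 = true := by decide +kernel

theorem r4 : run Gtab 1478634 s14 fs [false, true, false, false] ps 0 0 = true := by decide +kernel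

theorem r5 : run Gtab 1478634 s14 fs [false, true, false, true] ps 0 0 = true := by decide +kernel

theorem r6 : run Gtab 1478634 s14 fs [false, true, true, false] ps 0 0 = true := by decide +kernel

theorem r7 : run Gtab 1478634 s14 fs [false, true, true, true] ps 0 0 = true := by decide +kernel

theorem r8 : run Gtab 1478634 s14 fs [true, false, false, false] ps 0 0 = true := by decide +kernel

theorem r9 : run Gtab 1478634 s14 fs [true, false, false, true] ps 0 0 = true := by decide +kernel

theorem r10 : run Gtab 1478634 s14 fs [true, false, true, false] ps 0 0 = true := by decide +kernel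

theorem r11 : run Gtab 1478634 s14 fs [true, false, true, true] ps 0 0 = true := by decide +kernel

theorem r12 : run Gtab 1478634 s14 fs [true, true, false, false] ps 0 0 = true := by decide +kernel

theorem r13 : run Gtab 1478634 s14 fs [true, true, false, true] ps 0 0 = true := by decide +kernel

theorem r14 : run Gtab 1478634 s14 fs [true, true, true, false] ps 0 0 = true := by decide +kernel

theorem r15 : run Gtab 1478634 s14 fs [true, true, true, true] ps 0 0 = true := by decide +kernel

end D5

end Pool.Agent.Lib.MP_1d41ea_nt
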