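import Pool.Agent.Lib.MP_1d41ea_nt.Dat6

namespace Pool.Agent.Lib.MP_1d41ea_nt

namespace D6

theorem r16 : run Gtab 561144 s15 fs [true, false, false, false, false] ps 0 0 = true := by decide +kernel

theorem r17 : run Gtab 561144 s15 fs [true, false, false, false, true] ps 0 0 = true := by decide +kernel

theorem r18 : run Gtab 561144 s15 fs [true, false, false, true, false] ps 0 0 = true := by decide +kernel

theorem r19 : run Gtab 561144 s15 fs [true, false, false, true, true] ps 0 0 = true := by decide +kernel

theorem r20 : run Gtab 561144 s15 fs [true, false, true, false, false] ps 0 0 = true := by decide +kernel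

theorem r21 : run Gtab 561144 s15 fs [true, false, true, false, true] ps 0 0 = true := by decide +kernel

theorem r22 : run Gtab 561144 s15 fs [true, false, true, true, false] ps 0 0 = true := by decide +kernel

theorem r23 : run Gtab 561144 s15 fs [true, false, true, true, true] ps 0 0 = true := by decide +kernel

theorem r24 : run Gtab 561144 s15 fs [true, true, false, false, false] ps 0 0 = true := by decide +kernel

theorem r25 : run Gtab 561144 s15 fs [true, true, false, false, true] ps 0 0 = true := by decide +kernel

theorem r26 : run Gtab 561144 s15 fs [true, true, false, true, false] ps 0 0 = true := by decide +kernel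

theorem r27 : run Gtab 561144 s15 fs [true, true, false, true, true] ps 0 0 = true := by decide +kernel

theorem r28 : run Gtab 561144 s15 fs [true, true, true, false, false] ps 0 0 = true := by decide +kernel

theorem r29 : run Gtab 561144 s15 fs [true, true, true, false, true] ps 0 0 = true := by decide +kernel

theorem r30 : run Gtab 561144 s15 fs [true, true, true, true, false] ps 0 0 = true := by decide +kernel

theorem r31 : run Gtab 561144 s15 fs [true, true, true, true, true] ps 0 0 = true := by decide +kernel

end D6

end Pool.Agent.Lib.MP_1d41ea_nt
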