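import Pool.Agent.Lib.MP_1d41ea_nt.DatI

namespace Pool.Agent.Lib.MP_1d41ea_nt

namespace DI

theorem r0 : run Gtab 299004 s7 fs [] ps 0 0 = true := by decide +kernel

end DI

end Pool.Agent.Lib.MP_1d41ea_nt
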