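import Pool.Agent.Lib.MP_1d41ea_nt.Frame
import Pool.Agent.Lib.MP_1d41ea_nt.Run3_0
import Pool.Agent.Lib.MP_1d41ea_nt.Run4_0
import Pool.Agent.Lib.MP_1d41ea_nt.Run5_0
import Pool.Agent.Lib.MP_1d41ea_nt.Run6_0
import Pool.Agent.Lib.MP_1d41ea_nt.Run6_1
import Pool.Agent.Lib.MP_1d41ea_nt.RunI_0

namespace Pool.Agent.Lib.MP_1d41ea_nt

theorem past3 : past Gtab D3.cert.c D3.cert.cur D3.cert.fs D3.cert.ps 0 0 = true := by
  refine run_all _ _ _ _ 0 _ _ _ (fun pre hp => ?_)
  match pre, hp with
  | [], _ => exact D3.r0

theorem past4 : past Gtab D4.cert.c D4.cert.cur D4.cert.fs D4.cert.ps 0 0 = true := by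
  refine run_all _ _ _ _ 2 _ _ _ (fun pre hp => ?_)
  match pre, hp with
  | [false, false], _ => exact D4.r0
  | [false, true], _ => exact D4.r1
  | [true, false], _ => exact D4.r2
  | [true, true], _ => exact D4.r3

theorem past5 : past Gtab D5.cert.c D5.cert.cur D5.cert.fs D5.cert.ps 0 0 = true := by
  refine run_all _ _ _ _ 4 _ _ _ (fun pre hp => ?_)
  match pre, hp with
  | [false, false, false, false], _ => exact D5.r0
  | [false, false, false, true], _ => exact D5.r1
  | [false, false, true, false], _ => exact D5.r2
  | [false, false, true, true], _ => exact D5.r3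
  | [false, true, false, false], _ => exact D5.r4
  | [false, true, false, true], _ => exact D5.r5
  | [false, true, true, false], _ => exact D5.r6
  | [false, true, true, true], _ => exact D5.r7
  | [true, false, false, false], _ => exact D5.r8
  | [true, false, false, true], _ => exact D5.r9
  | [true, false, true, false], _ => exact D5.r10
  | [true, false, true, true], _ => exact D5.r11
  | [true, true, false, false], _ => exact D5.r12
  | [true, true, false, true], _ => exact D5.r13
  | [true, true, true, false], _ => exact D5.r14
  | [true, true, true, true], _ => exact D5.r15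

theorem past6 : past Gtab D6.cert.c D6.cert.cur D6.cert.fs D6.cert.ps 0 0 = true := by
  refine run_all _ _ _ _ 5 _ _ _ (fun pre hp => ?_)
  match pre, hp with
  | [false, false, false, false, false], _ => exact D6.r0
  | [false, false, false, false, true], _ => exact D6.r1
  | [false, false, false, true, false], _ => exact D6.r2
  | [false, false, false, true, true], _ => exact D6.r3
  | [false, false, true, false, false], _ => exact D6.r4
  | [false, false, true, false, true], _ => exact D6.r5
  | [false, false, true, true, false], _ => exact D6.r6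
  | [false, false, true, true, true], _ => exact D6.r7
  | [false, true, false, false, false], _ => exact D6.r8
  | [false, true, false, false, true], _ => exact D6.r9
  | [false, true, false, true, false], _ => exact D6.r10
  | [false, true, false, true, true], _ => exact D6.r11
  | [false, true, true, false, false], _ => exact D6.r12
  | [false, true, true, false, true], _ => exact D6.r13
  | [false, true, true, true, false], _ => exact D6.r14
  | [false, true, true, true, true], _ => exact D6.r15
  | [true, false, false, false, false], _ => exact D6.r16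
  | [true, false, false, false, true], _ => exact D6.r17
  | [true, false, false, true, false], _ => exact D6.r18
  | [true, false, false, true, true], _ => exact D6.r19
  | [true, false, true, false, false], _ => exact D6.r20
  | [true, false, true, false, true], _ => exact D6.r21
  | [true, false, true, true, false], _ => exact D6.r22
  | [true, false, true, true, true], _ => exact D6.r23
  | [true, true, false, false, false], _ => exact D6.r24
  | [true, true, false, false, true], _ => exact D6.r25
  | [true, true, false, true, false], _ => exact D6.r26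
  | [true, true, false, true, true], _ => exact D6.r27
  | [true, true, true, false, false], _ => exact D6.r28
  | [true, true, true, false, true], _ => exact D6.r29
  | [true, true, true, true, false], _ => exact D6.r30
  | [true, true, true, true, true], _ => exact D6.r31

theorem pastI : past Gtab DI.cert.c DI.cert.cur DI.cert.fs DI.cert.ps 0 0 = true := by
  refine run_all _ _ _ _ 0 _ _ _ (fun pre hp => ?_)
  match pre, hp with
  | [], _ => exact DI.r0

theorem cfg3 (x y : ℤ) (h1 : 0 < x) (h2 : 2 * x < y) :
    Slow (fun I => Edge [0, x, y] I ∧ PMax [0, x, y] I ∧ QMax [0, x, y] I) := by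
  have h := cert_slow D3.cert D3.Bv true true false Gtab D3.wf Gtab_ok past3
    (y - 2 * x, x, 1, 1, 1) ⟨by simp only; omega, h1, one_pos, one_pos, one_pos⟩
  have e : D3.Bv.map (ev (y - 2 * x, x, 1, 1, 1)) = [0, x, y] := by
    simp [D3.Bv, ev]
    ring
  refine h.mono (fun I hI => ?_)
  unfold Hyp
  rw [e]
  exact ⟨fun _ => hI.1, fun _ => hI.2, fun h => absurd h (by simp)⟩

theorem cfg4 (x y z : ℤ) (h1 : 0 < x) (h2 : x < y) (h3 : x + y < z) :
    Slow (fun I => Edge [0, x, y, z] I ∧ PMax [0, x, y, z] I ∧ QMax [0, x, y, z] I) := by
  have h := cert_slow D4.cert D4.Bv true true false Gtab D4.wf Gtab_ok past4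
    (z - x - y, y - x, x, 1, 1) ⟨by simp only; omega, by simp only; omega, h1, one_pos, one_pos⟩
  have e : D4.Bv.map (ev (z - x - y, y - x, x, 1, 1)) = [0, x, y, z] := by
    simp [D4.Bv, ev]
    ring
  refine h.mono (fun I hI => ?_)
  unfold Hyp
  rw [e]
  exact ⟨fun _ => hI.1, fun _ => hI.2, fun h => absurd h (by simp)⟩

theorem cfg5 (x y z w : ℤ) (h1 : 0 < x) (h2 : x < y) (h3 : y < z) (h4 : z < w) :
    Slow (fun I => Edge [0, x, y, z, w] I ∧ PMax [0, x, y, z, w] I ∧ QMax [0, x, y, z, w] I) := by
  have h := cert_slow D5.cert D5.Bv true true false Gtab D5.wf Gtab_ok past5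
    (x, y - x, z - y, w - z, 1)
    ⟨h1, by simp only; omega, by simp only; omega, by simp only; omega, one_pos⟩
  have e : D5.Bv.map (ev (x, y - x, z - y, w - z, 1)) = [0, x, y, z, w] := by
    simp [D5.Bv, ev]
  refine h.mono (fun I hI => ?_)
  unfold Hyp
  rw [e]
  exact ⟨fun _ => hI.1, fun _ => hI.2, fun h => absurd h (by simp)⟩

theorem cfg6 (x y z w v : ℤ) (h1 : 0 < x) (h2 : x < y) (h3 : y < z) (h4 : z < w) (h5 : w < v) :
    Slow (fun I => Edge [0, x, y, z, w, v] I) := by
  have h := cert_slow D6.cert D6.Bv true false false Gtab D6.wf Gtab_ok past6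
    (x, y - x, z - y, w - z, v - w)
    ⟨h1, by simp only; omega, by simp only; omega, by simp only; omega, by simp only; omega⟩
  have e : D6.Bv.map (ev (x, y - x, z - y, w - z, v - w)) = [0, x, y, z, w, v] := by
    simp [D6.Bv, ev]
  refine h.mono (fun I hI => ?_)
  unfold Hyp
  rw [e]
  exact ⟨fun _ => hI, fun h => absurd h (by simp), fun h => absurd h (by simp)⟩

theorem cfgI (x y : ℤ) (h1 : 0 < x) (h2 : x < y) :
    Slow (fun I => Opn x I ∧ Opn y I) := by
  have h := cert_slow DI.cert DI.Bv false false true Gtab DI.wf Gtab_ok pastI
    (x, y - x, 1, 1, 1) ⟨h1, by simp only; omega, one_pos, one_pos, one_pos⟩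
  refine h.mono (fun I hI => ⟨fun h => absurd h (by simp), fun h => absurd h (by simp),
    fun _ b hb => ?_⟩)
  simp only [DI.Bv, List.mem_cons, List.not_mem_nil, or_false] at hb
  rcases hb with rfl | rfl
  · simpa [ev] using hI.1
  · simpa [ev] using hI.2

end Pool.Agent.Lib.MP_1d41ea_nt
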