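import Pool.Agent.Lib.MP_1d41ea_nt.Defs

namespace Pool.Agent.Lib.MP_1d41ea_nt

/-- the number whose binary digits are the values of `f` along the list -/
def mk (f : ℕ → Bool) : List ℕ → ℕ
  | [] => 0
  | i :: l => (f i).toNat + 2 * mk f l

/-- entry number `i` of a table of 16-bit entries -/
def look (T i : ℕ) : ℕ := Nat.mod (Nat.shiftRight T (Nat.mul 16 i)) 65536

structure Lane where
  off : ℕ
  md : ℕ
  dat : ℕ
  vars : List ℕ

structure Step where
  w : ℕ
  c0 : List Lane
  c1 : List Lane
  ad : List Lane
  sb : List Lane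

noncomputable def force {α : Type} (n : ℕ) (k : ℕ → α) : α :=
  Nat.rec (motive := fun _ => α) (k 0) (fun m _ => k m) (Nat.add n 1)

noncomputable def viol (S : ℕ) (ls : List Lane) : Bool :=
  List.rec (motive := fun _ => Bool) false
    (fun l _ ih => Lane.rec (motive := fun _ => Bool)
      (fun off md dat _ => Bool.rec (motive := fun _ => Bool) ih true
        (Nat.beq (Nat.mod (Nat.shiftRight S off) md) dat)) l) ls

noncomputable def accA (S : ℕ) (ls : List Lane) : ℕ → ℕ :=
  List.rec (motive := fun _ => ℕ → ℕ) (fun acc => acc)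
    (fun l _ ih acc => Lane.rec (motive := fun _ => ℕ)
      (fun off md dat _ => ih (Nat.add acc
        (Nat.mod (Nat.shiftRight dat (Nat.mul 16 (Nat.mod (Nat.shiftRight S off) md))) 65536))) l) ls

noncomputable def accB (S : ℕ) (ls : List Lane) : ℕ → ℕ :=
  List.rec (motive := fun _ => ℕ → ℕ) (fun acc => acc)
    (fun l _ ih acc => Lane.rec (motive := fun _ => ℕ)
      (fun off md dat _ => ih (Nat.add acc (Nat.sub 65535
        (Nat.mod (Nat.shiftRight dat (Nat.mul 16 (Nat.mod (Nat.shiftRight S off) md))) 65536)))) l)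
    ls

/-- one branch: prune on a violated clause, otherwise continue with the updated total -/
noncomputable def br {α : Type} (S acc : ℕ) (cs ad sb : List Lane) (dflt : α) (k : ℕ → α) : α :=
  Bool.rec (motive := fun _ => α) (force (accB S sb (accA S ad acc)) k) dflt (viol S cs)

noncomputable def mx (a b : ℕ) : ℕ :=
  force a (fun a => force b (fun b => Bool.rec (motive := fun _ => ℕ) a b (Nat.ble a b)))

noncomputable def fut (fs : List Step) : ℕ → ℕ → ℕ :=
  List.rec (motive := fun _ => ℕ → ℕ → ℕ) (fun _ acc => acc)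
    (fun st _ ih S acc => Step.rec (motive := fun _ => ℕ)
      (fun w c0 c1 ad sb => mx (br S acc c0 ad sb 0 (ih S))
        (force (Nat.add S w) (fun S' => br S' acc c1 ad sb 0 (ih S')))) st) fs

noncomputable def kr2 (G a b : ℕ) : Bool :=
  Bool.rec (motive := fun _ => Bool)
    (Bool.rec (motive := fun _ => Bool)
      (Bool.rec (motive := fun _ => Bool)
        (Bool.rec (motive := fun _ => Bool) true (Nat.ble (look G b) a) (Nat.ble b 710))
        (Nat.ble (look G a) b) (Nat.ble a 710))
      false (Nat.beq b 0))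
    false (Nat.beq a 0)

noncomputable def kr (G c m0 m1 : ℕ) : Bool :=
  force (Nat.div (Nat.sub c m0) 64) (fun a => force (Nat.div (Nat.sub c m1) 64) (fun b => kr2 G a b))

noncomputable def past (G c : ℕ) (cur : Step) (fs ps : List Step) : ℕ → ℕ → Bool :=
  List.rec (motive := fun _ => ℕ → ℕ → Bool)
    (fun S acc => Step.rec (motive := fun _ => Bool)
      (fun w c0 c1 ad sb => kr G c (br S acc c0 ad sb 0 (fut fs S))
        (force (Nat.add S w) (fun S' => br S' acc c1 ad sb 0 (fut fs S')))) cur)
    (fun st _ ih S acc => Step.rec (motive := fun _ => Bool)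
      (fun w c0 c1 ad sb => Bool.rec (motive := fun _ => Bool) false
        (force (Nat.add S w) (fun S' => br S' acc c1 ad sb true (ih S')))
        (br S acc c0 ad sb true (ih S))) st) ps

/-- follow a prescribed list of choices, then check everything below -/
noncomputable def run (G c : ℕ) (cur : Step) (fs : List Step) :
    List Bool → List Step → ℕ → ℕ → Bool
  | [], ps, S, acc => past G c cur fs ps S acc
  | _ :: _, [], S, acc => past G c cur fs [] S acc
  | false :: pre, st :: ps, S, acc =>
      br S acc st.c0 st.ad st.sb true (run G c cur fs pre ps S)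
  | true :: pre, st :: ps, S, acc =>
      force (Nat.add S st.w) (fun S' => br S' acc st.c1 st.ad st.sb true (run G c cur fs pre ps S'))

abbrev V := ℤ × ℤ × ℤ × ℤ × ℤ

abbrev Site := Bool × V

structure Trm where
  refl : Bool
  s : V
  us : List ℕ
  vs : List ℕ
  T : ℕ

structure Cert where
  sites : List Site
  L : List ℕ
  ps : List Step
  cur : Step
  fs : List Step
  terms : List Trm
  c : ℕ

def site (ss : List Site) (i : ℕ) : Site := ss.getD i (false, 0)

def laneOK (L : List ℕ) (k : ℕ) (l : Lane) : Bool :=
  decide (l.md = 2 ^ l.vars.length) && decide ((L.drop l.off).take l.vars.length = l.vars) &&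
    l.vars.all (fun i => decide (i ≤ k))

def stepsOK (L : List ℕ) : ℕ → List Step → Bool
  | _, [] => true
  | k, st :: r => decide (st.w = mk (fun i => decide (i = k)) L) &&
      (st.c0 ++ st.c1 ++ st.ad ++ st.sb).all (laneOK L k) && stepsOK L (k + 1) r

def mv (refl : Bool) (s : V) (p : Site) : Site :=
  if refl then (!p.1, s - p.2) else (p.1, p.2 + s)

def trmOK (ss : List Site) (t : Trm) : Bool :=
  decide (t.vs.map (site ss) = t.us.map (fun i => mv t.refl t.s (site ss i)))

def pastV (p : V) : Bool :=
  decide (p.1 ≤ 0) && decide (p.2.1 ≤ 0) && decide (p.2.2.1 ≤ 0) && decide (p.2.2.2.1 ≤ 0) &&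
    decide (p.2.2.2.2 ≤ 0) && decide (p.1 + p.2.1 + p.2.2.1 + p.2.2.2.1 + p.2.2.2.2 < 0)

def clOK (ss : List Site) (Bv : List V) (e m o : Bool) (l : Lane) : Bool :=
  match l.vars with
  | [] => false
  | i :: js =>
    (e && decide (l.dat = 3) && !(site ss i).1 &&
      Bv.any (fun b => decide (js.map (site ss) = [(true, (site ss i).2 + b)]))) ||
    (m && decide (l.dat = 0) && !(site ss i).1 &&
      decide (js.map (site ss) = Bv.map (fun b => (true, (site ss i).2 + b)))) ||
    (m && decide (l.dat = 0) && (site ss i).1 &&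
      decide (js.map (site ss) = Bv.map (fun b => (false, (site ss i).2 - b)))) ||
    (o && decide (l.dat = 1) && !(site ss i).1 &&
      Bv.any (fun b => decide (js.map (site ss) =
        [(false, (site ss i).2 + b), (false, (site ss i).2 - b)])))

def Cert.steps (C : Cert) : List Step := C.ps ++ C.cur :: C.fs

def Cert.wf (C : Cert) (Bv : List V) (e m o : Bool) : Bool :=
  stepsOK C.L 0 C.steps &&
  C.terms.all (trmOK C.sites) &&
  decide (((C.steps.flatMap Step.ad).map (fun l => (l.vars, l.dat))).Perm
    (C.terms.map (fun t => (t.us, t.T)))) &&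
  decide (((C.steps.flatMap Step.sb).map (fun l => (l.vars, l.dat))).Perm
    (C.terms.map (fun t => (t.vs, t.T)))) &&
  (List.range C.ps.length).all (fun i => pastV (site C.sites i).2) &&
  decide (site C.sites C.ps.length = (false, 0)) &&
  decide (C.c = 65535 * C.terms.length + 64 * 576) &&
  (C.steps.flatMap (fun st => st.c0 ++ st.c1)).all (clOK C.sites Bv e m o)

def Gok (G : ℕ) : Bool :=
  (List.range 710).all (fun a => Nat.ble
    (1024 ^ (a + 1) * 1025 ^ look G (a + 1) + 1024 ^ look G (a + 1) * 1025 ^ (a + 1))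
    (1025 ^ (a + 1 + look G (a + 1))))

end Pool.Agent.Lib.MP_1d41ea_nt
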