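import Pool.Agent.Lib.MP_1d41ea_nt.Defs

namespace Pool.Agent.Lib.MP_1d41ea_nt

open Finset
open scoped Pointwise

private lemma two_pow_le {k j t m : ℕ} {x : ℝ} (hk : k ≠ 0) (hx0 : 0 ≤ x) (hx : 2 ^ j ≤ x ^ k)
    (h : k * t ≤ j * m) : (2 : ℝ) ^ t ≤ x ^ m := by
  refine le_of_pow_le_pow_left₀ hk (by positivity) ?_
  calc ((2 : ℝ) ^ t) ^ k = 2 ^ (k * t) := by rw [← pow_mul, mul_comm]
    _ ≤ 2 ^ (j * m) := pow_le_pow_right₀ (by norm_num) h
    _ = (2 ^ j) ^ m := pow_mul _ _ _
    _ ≤ (x ^ k) ^ m := pow_le_pow_left₀ (by positivity) hx m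
    _ = (x ^ m) ^ k := by rw [← pow_mul, ← pow_mul, mul_comm]

private def Sm (m : ℕ) : Finset (Finset ℕ) := (range m).powerset.filter fun F => 256 * F.card ≤ m

private lemma Sm_card (m : ℕ) : ((Sm m).card : ℝ) ≤ (1026 / 1000) ^ m := by
  have h1 := Finset.sum_pow_mul_eq_add_pow (1 / 256 : ℝ) 1 (range m)
  simp only [one_pow, mul_one, card_range] at h1
  calc ((Sm m).card : ℝ) = ∑ _F ∈ Sm m, (1 : ℝ) := by simp
    _ ≤ ∑ F ∈ Sm m, (1022 / 1000 : ℝ) ^ m * (1 / 256) ^ F.card := by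
      refine sum_le_sum fun F hF => ?_
      have h := (mem_filter.1 hF).2
      have h2 : (2 : ℝ) ^ (8 * F.card) ≤ (1022 / 1000) ^ m :=
        two_pow_le (k := 32) (j := 1) (by norm_num) (by norm_num) (by norm_num) (by omega)
      rw [pow_mul] at h2
      rw [one_div, inv_pow, ← div_eq_mul_inv, le_div_iff₀ (by positivity), one_mul]
      norm_num at h2 ⊢
      exact h2
    _ ≤ ∑ F ∈ (range m).powerset, (1022 / 1000 : ℝ) ^ m * (1 / 256) ^ F.card :=
      sum_le_sum_of_subset_of_nonneg (filter_subset _ _) fun _ _ _ => by positivity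
    _ = (1022 / 1000 * (1 / 256 + 1)) ^ m := by rw [← mul_sum, h1, mul_pow]
    _ ≤ _ := pow_le_pow_left₀ (by norm_num) (by norm_num) m

private def Sc (m : ℕ) (q : Finset ℕ × Finset ℕ) : Finset ℕ :=
  (range m).filter fun a => ((q.2.image (a + ·)) \ (q.1 + q.2)).card ≤ 256

private lemma cont {m : ℕ} {A B : Finset ℕ} (hA : A ⊆ range m) (hAB : A + B ⊆ range m) :
    ∃ F ⊆ A, 256 * F.card ≤ m ∧ A ⊆ Sc m (F, B) := by
  obtain ⟨F, hF, hmax⟩ := exists_max_image A.powerset
    (fun F => ((F + B).card : ℤ) - 256 * F.card) ⟨∅, empty_mem_powerset _⟩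
  have hFA := mem_powerset.1 hF
  refine ⟨F, hFA, ?_, fun a ha => mem_filter.2 ⟨hA ha, ?_⟩⟩
  · have h1 := hmax ∅ (empty_mem_powerset _)
    have h2 := card_le_card ((add_subset_add_right hFA).trans hAB)
    simp only [empty_add, card_empty, card_range] at h1 h2
    omega
  · have h1 := hmax (insert a F) (mem_powerset.2 (insert_subset ha hFA))
    have h2 := card_insert_le a F
    have h3 := card_sdiff_add_card (B.image (a + ·)) (F + B)
    rw [insert_eq, union_add, singleton_add, ← insert_eq,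
      show a +ᵥ B = B.image (a + ·) from rfl] at h1
    simp only at h1 ⊢
    omega

private lemma double (m : ℕ) (q : Finset ℕ × Finset ℕ) (h : q.2.card = 1024) :
    (Sc m q).card * 768 ≤ (q.1 + q.2).card * 1024 := by
  refine card_mul_le_card_mul (fun a w => w ∈ q.2.image (a + ·)) (fun a ha => ?_) fun w _ => ?_
  · have h1 := (mem_filter.1 ha).2
    have h2 := card_sdiff_add_card_inter (q.2.image (a + ·)) (q.1 + q.2)
    rw [card_image_of_injective _ (add_right_injective a), h] at h2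
    rw [bipartiteAbove, filter_mem_eq_inter, inter_comm]
    omega
  · refine le_trans (card_le_card (t := q.2.image (w - ·)) fun a ha => ?_) (card_image_le.trans h.le)
    obtain ⟨b, hb, rfl⟩ := mem_image.1 (mem_filter.1 ha).2
    exact mem_image.2 ⟨b, hb, by simp⟩

private def X1 (m : ℕ) (q : Finset ℕ × Finset ℕ) : Finset (Finset ℕ) :=
  if m ≤ 4 * (q.1 + q.2).card ∧ q.1 + q.2 ⊆ range m then
    (range m \ (q.1 + q.2)).powerset.image fun D => (q.1 + q.2) ∪ D else ∅

private def X2 (m : ℕ) (q : Finset ℕ × Finset ℕ) : Finset (Finset ℕ) :=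
  if 4 * (q.1 + q.2).card < m then (Sc m q).powerset else ∅

private lemma X1_card (m : ℕ) (q : Finset ℕ × Finset ℕ) :
    ((X1 m q).card : ℝ) ≤ (1682 / 1000) ^ m := by
  unfold X1
  split_ifs with h
  · have h1 := card_sdiff_add_card_eq_card h.2
    rw [card_range] at h1
    have h2 : (2 : ℝ) ^ (range m \ (q.1 + q.2)).card ≤ (1682 / 1000) ^ m :=
      two_pow_le (k := 4) (j := 3) (by norm_num) (by norm_num) (by norm_num) (by omega)
    refine le_trans ?_ h2
    exact_mod_cast card_image_le.trans (card_powerset _).le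
  · simp only [card_empty, Nat.cast_zero]; positivity

private lemma X2_card (m : ℕ) (q : Finset ℕ × Finset ℕ) (hq : q.2.card = 1024) :
    ((X2 m q).card : ℝ) ≤ (126 / 100) ^ m := by
  unfold X2
  split_ifs with h
  · have h1 := double m q hq
    rw [card_powerset]
    push_cast
    exact two_pow_le (k := 3) (j := 1) (by norm_num) (by norm_num) (by norm_num) (by omega)
  · simp only [card_empty, Nat.cast_zero]; positivity

private def Idx (m : ℕ) : Finset (Finset ℕ × Finset ℕ) := Sm m ×ˢ powersetCard 1024 (range m)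

private lemma bi_card (m : ℕ) (X : Finset ℕ × Finset ℕ → Finset (Finset ℕ)) {x : ℝ}
    (hx : 0 ≤ x) (h : ∀ q ∈ Idx m, ((X q).card : ℝ) ≤ x ^ m) :
    (((Idx m).biUnion X).card : ℝ) ≤ ((m : ℝ) + 1) ^ 1024 * (1026 / 1000 * x) ^ m := by
  have h1 : ((powersetCard 1024 (range m)).card : ℝ) ≤ ((m : ℝ) + 1) ^ 1024 := by
    rw [card_powersetCard, card_range]
    generalize 1024 = k
    exact_mod_cast (Nat.choose_le_pow m k).trans (Nat.pow_le_pow_left (Nat.le_succ m) _)
  calc (((Idx m).biUnion X).card : ℝ) ≤ ∑ q ∈ Idx m, ((X q).card : ℝ) := by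
        exact_mod_cast card_biUnion_le
    _ ≤ ∑ _q ∈ Idx m, x ^ m := sum_le_sum h
    _ = ((Sm m).card * (powersetCard 1024 (range m)).card) * x ^ m := by
        rw [sum_const, nsmul_eq_mul, Idx, card_product, Nat.cast_mul]
    _ ≤ ((1026 / 1000) ^ m * ((m : ℝ) + 1) ^ 1024) * x ^ m :=
        mul_le_mul_of_nonneg_right (mul_le_mul (Sm_card m) h1 (by positivity) (by positivity))
          (by positivity)
    _ = _ := by rw [mul_pow, mul_comm ((1026 / 1000 : ℝ) ^ m), mul_assoc]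

private lemma side {m : ℕ} {A B : Finset ℕ} (hA : 1024 ≤ A.card) (hB : 1024 ≤ B.card)
    (h : A + B ⊆ range m) : A + B ∈ (Idx m).biUnion (X1 m) ∨ A ∈ (Idx m).biUnion (X2 m) := by
  obtain ⟨B', hB', hc⟩ := exists_subset_card_eq hB
  obtain ⟨a0, ha0⟩ := card_pos.1 (show 0 < A.card by omega)
  obtain ⟨b0, hb0⟩ := card_pos.1 (show 0 < B.card by omega)
  have hAm : A ⊆ range m := fun a ha => by
    have := mem_range.1 (h (add_mem_add ha hb0))
    exact mem_range.2 (by omega)
  have hBm : B' ⊆ range m := fun b hb => by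
    have := mem_range.1 (h (add_mem_add ha0 (hB' hb)))
    exact mem_range.2 (by omega)
  obtain ⟨F, hF, h1, h2⟩ := cont hAm ((add_subset_add_left hB').trans h)
  have hq : (F, B') ∈ Idx m := mem_product.2
    ⟨mem_filter.2 ⟨mem_powerset.2 (hF.trans hAm), h1⟩, mem_powersetCard.2 ⟨hBm, hc⟩⟩
  have hW : F + B' ⊆ A + B := add_subset_add hF hB'
  by_cases hm : m ≤ 4 * (F + B').card
  · refine Or.inl (mem_biUnion.2 ⟨_, hq, ?_⟩)
    rw [X1, if_pos ⟨hm, hW.trans h⟩]
    exact mem_image.2 ⟨(A + B) \ (F + B'), mem_powerset.2 (sdiff_subset_sdiff h Subset.rfl),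
      union_sdiff_of_subset hW⟩
  · refine Or.inr (mem_biUnion.2 ⟨_, hq, ?_⟩)
    rw [X2, if_pos (not_le.1 hm)]
    exact mem_powerset.2 h2

private lemma final (m : ℕ) {p x y z : ℝ} (hz : 0 ≤ z) (hp : 1 ≤ p)
    (h1 : y ≤ p * (1026 / 1000 * (1682 / 1000)) ^ m)
    (h2 : z ≤ p * (1026 / 1000 * (126 / 100)) ^ m) (h3 : x ≤ y + z * z) :
    x ≤ 3 * (p * p) * mu ^ m := by
  have h4 := mul_le_mul h2 h2 hz (by positivity)
  have m1 : ((1026 / 1000 * (1682 / 1000) : ℝ)) ^ m ≤ mu ^ m :=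
    pow_le_pow_left₀ (by norm_num) (by unfold mu; norm_num) m
  have m2 : ((1026 / 1000 * (126 / 100) : ℝ)) ^ m * (1026 / 1000 * (126 / 100)) ^ m ≤ mu ^ m := by
    rw [← mul_pow]
    exact pow_le_pow_left₀ (by norm_num) (by unfold mu; norm_num) m
  have m0 : 0 ≤ mu ^ m := le_trans (by positivity) m1
  have a1 : p * (1026 / 1000 * (1682 / 1000) : ℝ) ^ m ≤ p * p * mu ^ m :=
    mul_le_mul (by nlinarith) m1 (by positivity) (by positivity)
  have a2 := mul_le_mul_of_nonneg_left m2 (show 0 ≤ p * p by positivity)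
  have a3 : 0 ≤ p * p * mu ^ m := by positivity
  rw [mul_mul_mul_comm] at h4
  linarith

theorem big_card (m : ℕ) :
    ((Big m).card : ℝ) ≤ 3 * ((m : ℝ) + 1) ^ 2048 * mu ^ m := by
  have hsub : Big m ⊆ (Idx m).biUnion (X1 m) ∪
      image₂ (· + ·) ((Idx m).biUnion (X2 m)) ((Idx m).biUnion (X2 m)) := fun C hC => by
    classical
    obtain ⟨hC, A, B, hA, hB, rfl⟩ := mem_filter.1 hC
    have h := mem_powerset.1 hC
    rcases side hA hB h with h1 | h1
    · exact mem_union_left _ h1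
    rcases side hB hA (by rwa [add_comm]) with h2 | h2
    · exact mem_union_left _ (by rwa [add_comm])
    · exact mem_union_right _ (mem_image₂_of_mem h1 h2)
  have h1 := bi_card m (X1 m) (by norm_num) fun q _ => X1_card m q
  have h2 := bi_card m (X2 m) (by norm_num) fun q hq =>
    X2_card m q (mem_powersetCard.1 (mem_product.1 hq).2).2
  have h3 : ((Big m).card : ℝ) ≤ ((Idx m).biUnion (X1 m)).card +
      ((Idx m).biUnion (X2 m)).card * ((Idx m).biUnion (X2 m)).card := by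
    exact_mod_cast (card_le_card hsub).trans ((card_union_le _ _).trans
      (Nat.add_le_add_left (card_image₂_le _ _ _) _))
  have e : ((m : ℝ) + 1) ^ 2048 = ((m : ℝ) + 1) ^ 1024 * ((m : ℝ) + 1) ^ 1024 :=
    pow_add ((m : ℝ) + 1) 1024 1024
  rw [e]
  exact final m (Nat.cast_nonneg _) (one_le_pow₀ (le_add_of_nonneg_left (Nat.cast_nonneg m)))
    h1 h2 h3

end Pool.Agent.Lib.MP_1d41ea_nt
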