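import Pool.Agent.Lib.MP_1d41ea_nt.Gtab

namespace Pool.Agent.Lib.MP_1d41ea_nt

namespace D6

def T0 : ℕ := 0x15770000

def T1 : ℕ := 0xc480c6421dc0000

def T2 : ℕ := 0x100e1034101310291012102932060000

def T3 : ℕ := 0x1900dd000600cf000800d0000000c7000a00d1000100c7000100c727ec03a5

def T4 : ℕ := 0x9730a85096c0a7e096c0a7f096c0a7a096d0a7f096c0a7a096b0a7a0000004409410a4f093f0a4d093f0a4d093e0a4a09400a4e093f0a4a093f0a4a1ae91ae8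

def T5 : ℕ := 0x30971a601d131aad1d241a501d031aa11d1d1a521d041aa21d1e1a491d001a991d191a531d061aa31d1e1a4a1d001a9a1d191a4a1cff1a9b1d182471272149d20000

def T6 : ℕ := 0x30c1000000001b161b40000000000000362b056a00001aec1b16

def T7 : ℕ := 0x3b7300001dba

def s0 : Step := ⟨0x4000000400008109,
  [],
  [],
  [⟨0, 2, T0, [0]⟩],
  []⟩

def s1 : Step := ⟨0x1000000200004084,
  [],
  [],
  [⟨2, 4, T1, [1, 0]⟩],
  []⟩

def s2 : Step := ⟨0x400000100002040,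
  [],
  [],
  [⟨6, 8, T2, [2, 1, 0]⟩],
  []⟩

def s3 : Step := ⟨0x100000082001000,
  [],
  [],
  [⟨12, 16, T3, [3, 2, 1, 0]⟩],
  []⟩

def s4 : Step := ⟨0x400000010010000000,
  [],
  [],
  [],
  []⟩

def s5 : Step := ⟨0x100000008008000000,
  [],
  [],
  [],
  []⟩

def s6 : Step := ⟨0x10000002020000000,
  [],
  [],
  [],
  []⟩

def s7 : Step := ⟨0x40000004004000000,
  [],
  [],
  [],
  [⟨25, 32, T4, [3, 7, 5, 4, 6]⟩]⟩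

def s8 : Step := ⟨0x440000,
  [],
  [],
  [],
  []⟩

def s9 : Step := ⟨0x220000,
  [],
  [],
  [],
  []⟩

def s10 : Step := ⟨0x42040040100000,
  [],
  [],
  [],
  []⟩

def s11 : Step := ⟨0x400,
  [],
  [],
  [],
  []⟩

def s12 : Step := ⟨0x800,
  [],
  [],
  [],
  []⟩

def s13 : Step := ⟨0x880000,
  [],
  [],
  [],
  []⟩

def s14 : Step := ⟨0x20,
  [],
  [],
  [],
  []⟩

def s15 : Step := ⟨0x1000025081001010212,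
  [],
  [],
  [⟨20, 32, T4, [10, 9, 8, 13, 15]⟩],
  [⟨1, 2, T0, [15]⟩, ⟨4, 4, T1, [15, 14]⟩, ⟨9, 8, T2, [15, 11, 12]⟩, ⟨16, 16, T3, [15, 9, 8, 13]⟩]⟩

def s16 : Step := ⟨0x200aa80900800000000,
  [],
  [⟨54, 4, 3, [10, 16]⟩, ⟨56, 4, 3, [3, 16]⟩, ⟨58, 4, 3, [2, 16]⟩, ⟨60, 4, 3, [1, 16]⟩, ⟨62, 4, 3, [0, 16]⟩, ⟨72, 4, 3, [15, 16]⟩],
  [⟨30, 64, T5, [10, 3, 2, 1, 0, 16]⟩],
  []⟩

def s17 : Step := ⟨0xaa0018620000000000,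
  [],
  [⟨64, 4, 3, [6, 17]⟩, ⟨66, 4, 3, [7, 17]⟩, ⟨68, 4, 3, [5, 17]⟩, ⟨70, 4, 3, [4, 17]⟩, ⟨50, 4, 3, [15, 17]⟩],
  [⟨42, 16, T6, [10, 15, 16, 17]⟩, ⟨50, 4, T7, [15, 17]⟩],
  [⟨36, 64, T5, [15, 6, 7, 5, 4, 17]⟩, ⟨46, 16, T6, [17, 16, 15, 10]⟩, ⟨52, 4, T7, [17, 15]⟩]⟩

def ps : List Step := [s0, s1, s2, s3, s4, s5, s6, s7, s8, s9, s10, s11, s12, s13, s14]

def fs : List Step := [s16, s17]

def cert : Cert where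
  sites := [(false, (-1, -1, -1, -1, -1)), (false, (-1, -1, -1, -1, 0)), (false, (-1, -1, -1, 0, 0)), (false, (-1, -1, 0, 0, 0)), (false, (0, -1, -1, -1, -1)), (false, (0, -1, -1, -1, 0)), (false, (0, -1, 0, 0, 0)), (false, (0, -1, -1, 0, 0)), (false, (0, 0, -1, -1, 0)), (false, (0, 0, -1, 0, 0)), (false, (-1, 0, 0, 0, 0)), (false, (0, 0, 0, -1, 0)), (false, (0, 0, 0, -1, -1)), (false, (0, 0, -1, -1, -1)), (false, (0, 0, 0, 0, -1)), (false, (0, 0, 0, 0, 0)), (true, (0, 0, 0, 0, 0)), (true, (1, 0, 0, 0, 0))]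
  L := [0, 15, 1, 0, 15, 14, 2, 1, 0, 15, 11, 12, 3, 2, 1, 0, 15, 9, 8, 13, 10, 9, 8, 13, 15, 3, 7, 5, 4, 6, 10, 3, 2, 1, 0, 16, 15, 6, 7, 5, 4, 17, 10, 15, 16, 17, 17, 16, 15, 10, 15, 17, 17, 15, 10, 16, 3, 16, 2, 16, 1, 16, 0, 16, 6, 17, 7, 17, 5, 17, 4, 17, 15, 16]
  ps := ps
  cur := s15
  fs := fs
  terms := [⟨false, (1, 1, 1, 1, 1), [0], [15], T0⟩,
    ⟨false, (1, 1, 1, 1, 0), [1, 0], [15, 14], T1⟩,
    ⟨false, (1, 1, 1, 0, 0), [2, 1, 0], [15, 11, 12], T2⟩,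
    ⟨false, (1, 1, 0, 0, 0), [3, 2, 1, 0], [15, 9, 8, 13], T3⟩,
    ⟨false, (0, -1, 0, 0, 0), [10, 9, 8, 13, 15], [3, 7, 5, 4, 6], T4⟩,
    ⟨false, (1, 0, 0, 0, 0), [10, 3, 2, 1, 0, 16], [15, 6, 7, 5, 4, 17], T5⟩,
    ⟨true, (0, 0, 0, 0, 0), [10, 15, 16, 17], [17, 16, 15, 10], T6⟩,
    ⟨true, (1, 0, 0, 0, 0), [15, 17], [17, 15], T7⟩]
  c := 561144

def Bv : List V := [(0, 0, 0, 0, 0), (1, 0, 0, 0, 0), (1, 1, 0, 0, 0), (1, 1, 1, 0, 0), (1, 1, 1, 1, 0), (1, 1, 1, 1, 1)]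

theorem wf : cert.wf Bv true false false = true := by decide +kernel

end D6

end Pool.Agent.Lib.MP_1d41ea_nt
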