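import Pool.Agent.Lib.MP_1d41ea_nt.Gtab

namespace Pool.Agent.Lib.MP_1d41ea_nt

namespace DI

def T0 : ℕ := 0x194f16ac245111ff198e28c224980cf217c50000192b6cb213100000148118c02c5a16a5251b12e02c8228b3255b21e71ed9000018303e9d1c6200001554175128b01a8f27b4000028f0000027fa243b272800001c8a00002276000017e7126b1ebe1a71287200001ee6000028b11c1e114d00001ba200000ec6000018a7

def T1 : ℕ := 0x247f21530f512a6c4d3a0ad04b0816304a6b380f0f452a5d1f1756fe4afe164529f01acf174e2b7a66f90000679115ed3d4a3e7918232c21030145d3685f1690098541e4240240e5000034fd00002c070000000023f640d30000000000002c120ede3b52141141d200002a1b00002c2d0000000014e7427d0000000000002cd4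

def T2 : ℕ := 0x18c701810e1c0a3f34ed3b480de40a200f6000001b6c180b13ab214a1f491bf4

def T3 : ℕ := 0x8ee17ed62432aa90000147644e32a0e

def s0 : Step := ⟨0x80408010008,
  [],
  [],
  [],
  []⟩

def s1 : Step := ⟨0x10004101101200,
  [],
  [],
  [],
  []⟩

def s2 : Step := ⟨0x10200004000,
  [],
  [],
  [⟨32, 8, T3, [1, 2, 0]⟩],
  []⟩

def s3 : Step := ⟨0x80120002402101,
  [],
  [],
  [],
  []⟩

def s4 : Step := ⟨0x400004008004,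
  [],
  [],
  [⟨24, 16, T2, [1, 3, 4, 0]⟩],
  []⟩

def s5 : Step := ⟨0x842040080402,
  [⟨41, 8, 1, [3, 5, 0]⟩],
  [],
  [],
  []⟩

def s6 : Step := ⟨0x2000000200010,
  [],
  [],
  [],
  []⟩

def s7 : Step := ⟨0x24209080060060,
  [⟨38, 8, 1, [1, 7, 2]⟩, ⟨44, 8, 1, [3, 7, 4]⟩],
  [],
  [⟨0, 64, T0, [3, 5, 4, 0, 6, 7]⟩, ⟨12, 64, T1, [1, 3, 2, 4, 0, 7]⟩],
  []⟩

def s8 : Step := ⟨0x9000820800080,
  [⟨47, 8, 1, [5, 8, 6]⟩, ⟨50, 8, 1, [7, 8, 1]⟩],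
  [],
  [],
  [⟨18, 64, T1, [7, 5, 1, 6, 3, 8]⟩, ⟨35, 8, T3, [8, 7, 5]⟩]⟩

def s9 : Step := ⟨0x40000010000800,
  [⟨53, 8, 1, [7, 9, 3]⟩],
  [],
  [],
  [⟨6, 64, T0, [7, 8, 3, 1, 5, 9]⟩, ⟨28, 16, T2, [9, 8, 5, 7]⟩]⟩

def ps : List Step := [s0, s1, s2, s3, s4, s5, s6]

def fs : List Step := [s8, s9]

def cert : Cert where
  sites := [(false, (-2, -1, 0, 0, 0)), (false, (-1, 0, 0, 0, 0)), (false, (-2, 0, 0, 0, 0)), (false, (-1, -1, 0, 0, 0)), (false, (-2, -2, 0, 0, 0)), (false, (0, -1, 0, 0, 0)), (false, (-1, -2, 0, 0, 0)), (false, (0, 0, 0, 0, 0)), (false, (1, 0, 0, 0, 0)), (false, (1, 1, 0, 0, 0))]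
  L := [3, 5, 4, 0, 6, 7, 7, 8, 3, 1, 5, 9, 1, 3, 2, 4, 0, 7, 7, 5, 1, 6, 3, 8, 1, 3, 4, 0, 9, 8, 5, 7, 1, 2, 0, 8, 7, 5, 1, 7, 2, 3, 5, 0, 3, 7, 4, 5, 8, 6, 7, 8, 1, 7, 9, 3]
  ps := ps
  cur := s7
  fs := fs
  terms := [⟨false, (1, 1, 0, 0, 0), [3, 5, 4, 0, 6, 7], [7, 8, 3, 1, 5, 9], T0⟩,
    ⟨false, (1, 0, 0, 0, 0), [1, 3, 2, 4, 0, 7], [7, 5, 1, 6, 3, 8], T1⟩,
    ⟨false, (2, 1, 0, 0, 0), [1, 3, 4, 0], [9, 8, 5, 7], T2⟩,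
    ⟨false, (2, 0, 0, 0, 0), [1, 2, 0], [8, 7, 5], T3⟩]
  c := 299004

def Bv : List V := [(1, 0, 0, 0, 0), (1, 1, 0, 0, 0)]

theorem wf : cert.wf Bv false false true = true := by decide +kernel

end DI

end Pool.Agent.Lib.MP_1d41ea_nt
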