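import Mathlib

namespace Pool.Agent.Lib.MP_1d41ea_nt

open Finset
open scoped Pointwise

/-- every element of `C` has a neighbour in `C` at distance `d` -/
def IsOpn (d : ℕ) (C : Finset ℕ) : Prop := ∀ c ∈ C, c + d ∈ C ∨ (d ≤ c ∧ c - d ∈ C)

instance (d : ℕ) (C : Finset ℕ) : Decidable (IsOpn d C) := by unfold IsOpn; infer_instance

/-- `d`-open subsets of `[0,n]` containing `0` and `n` -/
def Oset (d n : ℕ) : Finset (Finset ℕ) :=
  (range (n + 1)).powerset.filter (fun C => 0 ∈ C ∧ n ∈ C ∧ IsOpn d C)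

/-- subsets of `range m` that are both `d`-open and `d'`-open -/
def Iset (d d' m : ℕ) : Finset (Finset ℕ) :=
  (range m).powerset.filter (fun C => IsOpn d C ∧ IsOpn d' C)

open Classical in
/-- reducible subsets of `[0,n]` containing `0` and `n` -/
noncomputable def Red (n : ℕ) : Finset (Finset ℕ) :=
  (range (n + 1)).powerset.filter
    (fun C => 0 ∈ C ∧ n ∈ C ∧ ∃ A B : Finset ℕ, 2 ≤ A.card ∧ 2 ≤ B.card ∧ C = A + B)

open Classical in
/-- subsets of `range m` of the form `A + B` for the given `B` -/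
noncomputable def Nset (B : Finset ℕ) (m : ℕ) : Finset (Finset ℕ) :=
  (range m).powerset.filter (fun C => ∃ A : Finset ℕ, C = A + B)

open Classical in
/-- subsets of `range m` that are sums of two large sets -/
noncomputable def Big (m : ℕ) : Finset (Finset ℕ) :=
  (range m).powerset.filter
    (fun C => ∃ A B : Finset ℕ, 1024 ≤ A.card ∧ 1024 ≤ B.card ∧ C = A + B)

/-- the growth rate of all error terms -/
noncomputable def mu : ℝ := 8773 / 5000

/-- number of binary strings of length `L` with no isolated one -/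
def chain : ℕ → ℤ
  | 0 => 1
  | 1 => 1
  | 2 => 2
  | (L + 3) => 2 * chain (L + 2) - chain (L + 1) + chain L

/-- the same with the first (`s`) and / or the last (`e`) letter forced to be one -/
def wt (s e : Bool) (L : ℕ) : ℤ :=
  match s, e with
  | false, false => chain L
  | true, true => chain L - 2 * chain (L - 1) + chain (L - 2)
  | _, _ => chain L - chain (L - 1)

/-- two-layer configurations -/
abbrev Cfg := (ℤ → Bool) × (ℤ → Bool)

/-- reflection that swaps the layers -/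
def star (M : ℕ) (I : Cfg) : Cfg :=
  (fun z => I.2 ((M : ℤ) - 1 - z), fun z => I.1 ((M : ℤ) - 1 - z))

/-- a family of configurations coded by the first layer on `[0,M)` -/
structure Fam (M : ℕ) (F : Finset Cfg) : Prop where
  star_mem : ∀ I ∈ F, star M I ∈ F
  det : ∀ I ∈ F, ∀ J ∈ F, ∀ a : ℕ, a ≤ M → (∀ z : ℕ, z < a → I.1 z = J.1 z) →
    ∀ z : ℤ, z < a → I.1 z = J.1 z ∧ I.2 z = J.2 z
  inj : ∀ I ∈ F, ∀ J ∈ F, (∀ z : ℕ, z < M → I.1 z = J.1 z) → I = J

def Edge (L : List ℤ) (I : Cfg) : Prop :=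
  ∀ a : ℤ, ∀ b ∈ L, ¬ (I.1 a = true ∧ I.2 (a + b) = true)

def PMax (L : List ℤ) (I : Cfg) : Prop :=
  ∀ a : ℤ, I.1 a = true ∨ ∃ b ∈ L, I.2 (a + b) = true

def QMax (L : List ℤ) (I : Cfg) : Prop :=
  ∀ c : ℤ, I.2 c = true ∨ ∃ b ∈ L, I.1 (c - b) = true

def Opn (b : ℤ) (I : Cfg) : Prop :=
  ∀ a : ℤ, I.1 a = true → I.1 (a + b) = true ∨ I.1 (a - b) = true

/-- every family of configurations with property `P` grows at most like `mu ^ M` -/
def Slow (P : Cfg → Prop) : Prop :=
  ∃ K : ℝ, ∀ (M : ℕ) (F : Finset Cfg), Fam M F → (∀ I ∈ F, P I) → (F.card : ℝ) ≤ K * mu ^ M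

end Pool.Agent.Lib.MP_1d41ea_nt
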