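import Pool.Agent.Lib.MP_1d41ea_nt.Defs

namespace Pool.Agent.Lib.MP_1d41ea_nt

open Finset

theorem kraft_aux {ι : Type} (x : ι → ℕ → Bool) (v : ι → ℕ → ℝ) (M : ℕ) :
    ∀ (j k : ℕ), k + j = M → ∀ S : Finset ι,
      (∀ I ∈ S, ∀ J ∈ S, ∀ a < k, x I a = x J a) →
      (∀ I ∈ S, ∀ J ∈ S, (∀ a < M, x I a = x J a) → I = J) →
      (∀ I ∈ S, ∀ a, 0 ≤ v I a) → (∀ I ∈ S, ∀ a < M, v I a ≤ 1) →
      (∀ I ∈ S, ∀ J ∈ S, ∀ a < M, (∀ a' < a, x I a' = x J a') → x I a = false → x J a = true →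
        v I a + v J a ≤ 1) →
      ∑ I ∈ S, ∏ a ∈ Ico k M, v I a ≤ 1 := by
  intro j
  induction j with
  | zero =>
    intro k hk S hag hinj _ _ _
    have hkM : k = M := by omega
    subst hkM
    have hc : S.card ≤ 1 := Finset.card_le_one.2 (fun I hI J hJ => hinj I hI J hJ (hag I hI J hJ))
    simp only [Ico_self, prod_empty, sum_const, nsmul_eq_mul, mul_one]
    exact_mod_cast hc
  | succ j ih =>
    intro k hk S hag hinj h0 h1 hp
    have hkM : k < M := by omega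
    have key : ∀ b : Bool, ∀ m : ℝ, 0 ≤ m → (∀ I ∈ S, x I k = b → v I k ≤ m) →
        ∑ I ∈ S.filter (fun I => x I k = b), ∏ a ∈ Ico k M, v I a ≤ m := by
      intro b m hm hb
      have h := ih (k + 1) (by omega) (S.filter (fun I => x I k = b))
        (by
          intro I hI J hJ a ha
          rw [mem_filter] at hI hJ
          rcases Nat.lt_succ_iff_lt_or_eq.1 ha with h | h
          · exact hag I hI.1 J hJ.1 a h
          · rw [h, hI.2, hJ.2])
        (fun I hI J hJ => hinj I (mem_filter.1 hI).1 J (mem_filter.1 hJ).1)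
        (fun I hI => h0 I (mem_filter.1 hI).1) (fun I hI => h1 I (mem_filter.1 hI).1)
        (fun I hI J hJ => hp I (mem_filter.1 hI).1 J (mem_filter.1 hJ).1)
      calc ∑ I ∈ S.filter (fun I => x I k = b), ∏ a ∈ Ico k M, v I a
          ≤ ∑ I ∈ S.filter (fun I => x I k = b), m * ∏ a ∈ Ico (k + 1) M, v I a := by
            refine sum_le_sum (fun I hI => ?_)
            rw [mem_filter] at hI
            rw [Finset.prod_eq_prod_Ico_succ_bot hkM]
            exact mul_le_mul_of_nonneg_right (hb I hI.1 hI.2)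
              (prod_nonneg (fun a _ => h0 I hI.1 a))
        _ = m * ∑ I ∈ S.filter (fun I => x I k = b), ∏ a ∈ Ico (k + 1) M, v I a := by
            rw [mul_sum]
        _ ≤ m := by nlinarith
    have hsplit : ∑ I ∈ S, ∏ a ∈ Ico k M, v I a =
        ∑ I ∈ S.filter (fun I => x I k = false), ∏ a ∈ Ico k M, v I a +
        ∑ I ∈ S.filter (fun I => x I k = true), ∏ a ∈ Ico k M, v I a := by
      rw [← sum_filter_add_sum_filter_not S (fun I => x I k = false)]
      simp only [Bool.not_eq_false]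
    rw [hsplit]
    rcases (S.filter (fun I => x I k = false)).eq_empty_or_nonempty with he | hne
    · rw [he, sum_empty, zero_add]
      exact key true 1 zero_le_one (fun I hI _ => h1 I hI k hkM)
    · obtain ⟨I0, hI0, hmax⟩ := exists_max_image _ (fun I => v I k) hne
      rw [mem_filter] at hI0
      have e0 := key false (v I0 k) (h0 I0 hI0.1 k) (fun I hI hx => hmax I (mem_filter.2 ⟨hI, hx⟩))
      have e1 := key true (1 - v I0 k) (by linarith [h1 I0 hI0.1 k hkM]) (fun J hJ hx => by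
        have := hp I0 hI0.1 J hJ k hkM (hag I0 hI0.1 J hJ) hI0.2 hx
        linarith)
      linarith

theorem kraft {ι : Type} (x : ι → ℕ → Bool) (v : ι → ℕ → ℝ) (M : ℕ) (S : Finset ι)
    (hinj : ∀ I ∈ S, ∀ J ∈ S, (∀ a < M, x I a = x J a) → I = J)
    (h0 : ∀ I ∈ S, ∀ a, 0 ≤ v I a) (h1 : ∀ I ∈ S, ∀ a < M, v I a ≤ 1)
    (hp : ∀ I ∈ S, ∀ J ∈ S, ∀ a < M, (∀ a' < a, x I a' = x J a') → x I a = false →
      x J a = true → v I a + v J a ≤ 1) :
    ∑ I ∈ S, ∏ a ∈ range M, v I a ≤ 1 := by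
  have h := kraft_aux x v M M 0 (by omega) S (fun _ _ _ _ a ha => absurd ha (Nat.not_lt_zero a))
    hinj h0 h1 hp
  rwa [← range_eq_Ico] at h

theorem sum_shift_one (φ : ℤ → ℕ) (K : ℕ) (hK : ∀ z, φ z ≤ K) (M : ℕ) (s : ℤ) :
    ∑ a ∈ range M, φ (a + (s + 1)) ≤ ∑ a ∈ range M, φ (a + s) + K ∧
    ∑ a ∈ range M, φ (a + s) ≤ ∑ a ∈ range M, φ (a + (s + 1)) + K := by
  have h1 := sum_range_succ (fun a : ℕ => φ (a + s)) M
  have h2 := sum_range_succ' (fun a : ℕ => φ (a + s)) M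
  have h3 : ∑ a ∈ range M, φ (((a + 1 : ℕ) : ℤ) + s) = ∑ a ∈ range M, φ (a + (s + 1)) := by
    refine sum_congr rfl (fun a _ => ?_)
    congr 1
    push_cast
    ring
  rw [h3] at h2
  have := hK ((M : ℤ) + s)
  have := hK (((0 : ℕ) : ℤ) + s)
  omega

theorem sum_shift (φ : ℤ → ℕ) (K : ℕ) (hK : ∀ z, φ z ≤ K) (M : ℕ) (s : ℤ) :
    ∑ a ∈ range M, φ (a + s) ≤ ∑ a ∈ range M, φ a + K * s.natAbs := by
  induction s using Int.induction_on with
  | zero => simp
  | succ i ih =>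
    have h := (sum_shift_one φ K hK M i).1
    have e : ((i : ℤ) + 1).natAbs = (i : ℤ).natAbs + 1 := by omega
    rw [e, mul_add]
    omega
  | pred i ih =>
    have h := (sum_shift_one φ K hK M (-(i : ℤ) - 1)).2
    have e : (-(i : ℤ) - 1).natAbs = (-(i : ℤ)).natAbs + 1 := by omega
    have e2 : -(i : ℤ) - 1 + 1 = -(i : ℤ) := by ring
    rw [e2] at h
    rw [e, mul_add]
    omega

end Pool.Agent.Lib.MP_1d41ea_nt
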