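import Pool.Agent.Lib.MP_1d41ea_nt.Sound
import Pool.Agent.Lib.MP_1d41ea_nt.Kraft

namespace Pool.Agent.Lib.MP_1d41ea_nt

open Finset

def ev (t p : V) : ℤ :=
  t.1 * p.1 + t.2.1 * p.2.1 + t.2.2.1 * p.2.2.1 + t.2.2.2.1 * p.2.2.2.1 + t.2.2.2.2 * p.2.2.2.2

theorem ev_add (t p q : V) : ev t (p + q) = ev t p + ev t q := by
  simp only [ev, Prod.fst_add, Prod.snd_add]; ring

theorem ev_sub (t p q : V) : ev t (p - q) = ev t p - ev t q := by
  simp only [ev, Prod.fst_sub, Prod.snd_sub]; ring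

theorem ev_zero (t : V) : ev t 0 = 0 := by simp [ev]

def Pos (t : V) : Prop := 0 < t.1 ∧ 0 < t.2.1 ∧ 0 < t.2.2.1 ∧ 0 < t.2.2.2.1 ∧ 0 < t.2.2.2.2

theorem ev_past (t p : V) (ht : Pos t) (hp : pastV p = true) : ev t p < 0 := by
  simp only [pastV, Bool.and_eq_true, decide_eq_true_eq] at hp
  obtain ⟨⟨⟨⟨⟨h1, h2⟩, h3⟩, h4⟩, h5⟩, h6⟩ := hp
  obtain ⟨t1, t2, t3, t4, t5⟩ := ht
  have e : ∀ a b : ℤ, 0 < a → b ≤ 0 → a * b ≤ b := fun a b ha hb => by nlinarith
  have := e _ _ t1 h1
  have := e _ _ t2 h2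
  have := e _ _ t3 h3
  have := e _ _ t4 h4
  have := e _ _ t5 h5
  unfold ev
  omega

def sv (t : V) (I : Cfg) (a : ℤ) (p : Site) : Bool :=
  if p.1 then I.2 (a + ev t p.2) else I.1 (a + ev t p.2)

def asg (ss : List Site) (t : V) (I : Cfg) (a : ℤ) : ℕ → Bool := fun i => sv t I a (site ss i)

def mkB : List Bool → ℕ
  | [] => 0
  | b :: l => b.toNat + 2 * mkB l

theorem mk_eq (f : ℕ → Bool) : ∀ l : List ℕ, mk f l = mkB (l.map f)
  | [] => rfl
  | i :: l => by simp only [mk, List.map_cons, mkB, mk_eq f l]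

theorem mk_asg (ss : List Site) (t : V) (I : Cfg) (a : ℤ) (l : List ℕ) :
    mk (asg ss t I a) l = mkB ((l.map (site ss)).map (sv t I a)) := by
  rw [mk_eq, List.map_map]; rfl

theorem mkB_zero : ∀ l : List Bool, mkB l = 0 → ∀ b ∈ l, b = false
  | [], _, b, hb => absurd hb (by simp)
  | c :: l, h, b, hb => by
    simp only [mkB] at h
    rcases List.mem_cons.1 hb with rfl | hb
    · cases b
      · rfl
      · simp at h
    · exact mkB_zero l (by omega) b hb

theorem sv_shift (t s : V) (I : Cfg) (a : ℤ) (p : Site) :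
    sv t I a (mv false s p) = sv t I (a + ev t s) p := by
  have e : a + (ev t p.2 + ev t s) = a + ev t s + ev t p.2 := by ring
  simp only [sv, mv, Bool.false_eq_true, if_false, ev_add, e]

theorem sv_refl (t s : V) (M : ℕ) (I : Cfg) (a : ℤ) (p : Site) :
    sv t I a (mv true s p) = sv t (star M I) ((M : ℤ) - 1 - a - ev t s) p := by
  have e : (M : ℤ) - 1 - ((M : ℤ) - 1 - a - ev t s + ev t p.2) = a + (ev t s - ev t p.2) := by ring
  obtain ⟨b, p⟩ := p
  cases b <;> simp only [sv, mv, star, if_true, ev_sub, Bool.not_false, Bool.not_true,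
    Bool.false_eq_true, if_false] <;> simp only at e <;> rw [e]

theorem star_star (M : ℕ) (I : Cfg) : star M (star M I) = I := by
  obtain ⟨X, Y⟩ := I
  simp only [star, sub_sub_cancel]

/-- the hypotheses on a configuration used by a certificate -/
def Hyp (t : V) (Bv : List V) (e m o : Bool) (I : Cfg) : Prop :=
  (e = true → Edge (Bv.map (ev t)) I) ∧
  (m = true → PMax (Bv.map (ev t)) I ∧ QMax (Bv.map (ev t)) I) ∧
  (o = true → ∀ b ∈ Bv, Opn (ev t b) I)

theorem clause_ok (ss : List Site) (t : V) (Bv : List V) (e m o : Bool) (I : Cfg)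
    (hI : Hyp t Bv e m o I) (a : ℤ) (l : Lane) (h : clOK ss Bv e m o l = true) :
    mk (asg ss t I a) l.vars ≠ l.dat := by
  obtain ⟨off, md, dat, vars⟩ := l
  rcases vars with _ | ⟨i, js⟩
  · simp [clOK] at h
  simp only [clOK, Bool.or_eq_true, Bool.and_eq_true, decide_eq_true_eq, List.any_eq_true,
    Bool.not_eq_true'] at h
  simp only [mk_asg, List.map_cons]
  generalize site ss i = p at h ⊢
  obtain ⟨ty, p⟩ := p
  simp only at h
  rcases h with ((⟨⟨⟨he, hd⟩, hty⟩, b, hb, hj⟩ | ⟨⟨⟨hm, hd⟩, hty⟩, hj⟩) |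
    ⟨⟨⟨hm, hd⟩, hty⟩, hj⟩) | ⟨⟨⟨ho, hd⟩, hty⟩, b, hb, hj⟩
  · subst hty
    rw [hj, hd]
    have hE := hI.1 he (a + ev t p) (ev t b) (List.mem_map_of_mem hb)
    simp only [List.map_cons, List.map_nil, sv, ev_add, ← add_assoc, mkB, if_true,
      Bool.false_eq_true, if_false]
    intro hh
    apply hE
    cases h1 : I.1 (a + ev t p) <;> cases h2 : I.2 (a + ev t p + ev t b) <;>
      simp [h1, h2] at hh ⊢
  · subst hty
    rw [hj, hd]
    intro hh
    have hz := mkB_zero _ hh
    rcases (hI.2.1 hm).1 (a + ev t p) with h1 | ⟨b', hb', h1⟩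
    · have := hz _ (List.mem_cons_self ..)
      simp [sv, h1] at this
    · obtain ⟨b, hb, rfl⟩ := List.mem_map.1 hb'
      have := hz (sv t I a (true, p + b)) (List.mem_cons_of_mem _
        (List.mem_map_of_mem (List.mem_map_of_mem (f := fun b => ((true, p + b) : Site)) hb)))
      simp [sv, ev_add, ← add_assoc, h1] at this
  · subst hty
    rw [hj, hd]
    intro hh
    have hz := mkB_zero _ hh
    rcases (hI.2.1 hm).2 (a + ev t p) with h1 | ⟨b', hb', h1⟩
    · have := hz _ (List.mem_cons_self ..)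
      simp [sv, h1] at this
    · obtain ⟨b, hb, rfl⟩ := List.mem_map.1 hb'
      have := hz (sv t I a (false, p - b)) (List.mem_cons_of_mem _
        (List.mem_map_of_mem (List.mem_map_of_mem (f := fun b => ((false, p - b) : Site)) hb)))
      simp [sv, ev_sub, ← add_sub_assoc, h1] at this
  · subst hty
    rw [hj, hd]
    have hO := hI.2.2 ho b hb (a + ev t p)
    simp only [List.map_cons, List.map_nil, sv, ev_add, ev_sub, ← add_assoc, ← add_sub_assoc, mkB,
      Bool.false_eq_true, if_false]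
    intro hh
    cases h1 : I.1 (a + ev t p) <;> cases h2 : I.1 (a + ev t p + ev t b) <;>
      cases h3 : I.1 (a + ev t p - ev t b) <;> simp [h1, h2, h3] at hh hO

theorem look_le (T i : ℕ) : look T i ≤ 65535 := by
  have : look T i < 65536 := Nat.mod_lt _ (by norm_num)
  omega

/-- the total of the potentials of a list of terms -/
def tv (x : ℕ → Bool) (terms : List Trm) : ℕ :=
  (terms.map (fun τ => look τ.T (mk x τ.us))).sum +
    (terms.map (fun τ => 65535 - look τ.T (mk x τ.vs))).sum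

theorem tot_flat (x : ℕ → Bool) : ∀ steps : List Step, tot x steps =
    ((steps.flatMap Step.ad).map (lv x)).sum +
      ((steps.flatMap Step.sb).map (fun l => 65535 - lv x l)).sum
  | [] => rfl
  | st :: r => by
    have ih := tot_flat x r
    simp only [tot, List.map_cons, List.sum_cons, List.flatMap_cons, List.map_append,
      List.sum_append, contrib] at ih ⊢
    omega

theorem tot_eq (x : ℕ → Bool) (steps : List Step) (terms : List Trm)
    (h1 : ((steps.flatMap Step.ad).map (fun l => (l.vars, l.dat))).Perm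
      (terms.map (fun t => (t.us, t.T))))
    (h2 : ((steps.flatMap Step.sb).map (fun l => (l.vars, l.dat))).Perm
      (terms.map (fun t => (t.vs, t.T)))) : tot x steps = tv x terms := by
  have e1 := (h1.map (fun p : List ℕ × ℕ => look p.2 (mk x p.1))).sum_eq
  have e2 := (h2.map (fun p : List ℕ × ℕ => 65535 - look p.2 (mk x p.1))).sum_eq
  rw [List.map_map, List.map_map] at e1 e2
  rw [tot_flat, tv]
  exact congrArg₂ (· + ·) e1 e2

theorem trm_sum (ss : List Site) (t : V) (τ : Trm) (h : trmOK ss τ = true) (M : ℕ) (I : Cfg) :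
    ∑ a ∈ range M, look τ.T (mk (asg ss t I a) τ.vs) +
      ∑ a ∈ range M, look τ.T (mk (asg ss t (star M I) a) τ.vs) ≤
    ∑ a ∈ range M, look τ.T (mk (asg ss t I a) τ.us) +
      ∑ a ∈ range M, look τ.T (mk (asg ss t (star M I) a) τ.us) +
      2 * (65535 * (ev t τ.s).natAbs) := by
  simp only [trmOK, decide_eq_true_eq] at h
  cases hr : τ.refl
  · have key : ∀ J : Cfg, ∑ a ∈ range M, look τ.T (mk (asg ss t J a) τ.vs) ≤
        ∑ a ∈ range M, look τ.T (mk (asg ss t J a) τ.us) + 65535 * (ev t τ.s).natAbs := by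
      intro J
      have := sum_shift (fun z => look τ.T (mk (asg ss t J z) τ.us)) 65535
        (fun _ => look_le _ _) M (ev t τ.s)
      refine le_trans (le_of_eq (sum_congr rfl (fun a _ => ?_))) this
      simp only [mk_asg, h, hr, List.map_map]
      congr 2
      refine List.map_congr_left (fun i _ => ?_)
      simp only [Function.comp, sv_shift]
    have := key I
    have := key (star M I)
    omega
  · have key : ∀ J : Cfg, ∑ a ∈ range M, look τ.T (mk (asg ss t J a) τ.vs) ≤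
        ∑ a ∈ range M, look τ.T (mk (asg ss t (star M J) a) τ.us) +
          65535 * (ev t τ.s).natAbs := by
      intro J
      have := sum_shift (fun z => look τ.T (mk (asg ss t (star M J) z) τ.us)) 65535
        (fun _ => look_le _ _) M (-ev t τ.s)
      rw [Int.natAbs_neg, ← sum_range_reflect] at this
      refine le_trans (le_of_eq (sum_congr rfl (fun a ha => ?_))) this
      have ha' := mem_range.1 ha
      have e : ((M - 1 - a : ℕ) : ℤ) + -ev t τ.s = (M : ℤ) - 1 - a - ev t τ.s := by omega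
      simp only [mk_asg, h, hr, List.map_map, e]
      congr 2
      refine List.map_congr_left (fun i _ => ?_)
      simp only [Function.comp, sv_refl t τ.s M]
    have := key I
    have h2 := key (star M I)
    rw [star_star] at h2
    omega

theorem tv_sum (ss : List Site) (t : V) : ∀ terms : List Trm,
    (∀ τ ∈ terms, trmOK ss τ = true) → ∃ K : ℕ, ∀ (M : ℕ) (I : Cfg),
      2 * (65535 * terms.length * M) ≤ ∑ a ∈ range M, tv (asg ss t I a) terms +
        ∑ a ∈ range M, tv (asg ss t (star M I) a) terms + K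
  | [], _ => ⟨0, fun M I => by simp⟩
  | τ :: r, h => by
    obtain ⟨K, hK⟩ := tv_sum ss t r (fun s hs => h s (List.mem_cons_of_mem _ hs))
    refine ⟨K + 2 * (65535 * (ev t τ.s).natAbs), fun M I => ?_⟩
    have h1 := trm_sum ss t τ (h τ (List.mem_cons_self ..)) M I
    have h2 := hK M I
    have key : ∀ J : Cfg, ∑ a ∈ range M, tv (asg ss t J a) (τ :: r) +
        ∑ a ∈ range M, look τ.T (mk (asg ss t J a) τ.vs) =
        ∑ a ∈ range M, tv (asg ss t J a) r +
          ∑ a ∈ range M, look τ.T (mk (asg ss t J a) τ.us) + 65535 * M := by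
      intro J
      have e : 65535 * M = ∑ _a ∈ range M, 65535 := by simp [mul_comm]
      rw [e, ← sum_add_distrib, ← sum_add_distrib, ← sum_add_distrib]
      refine sum_congr rfl (fun a _ => ?_)
      have := look_le τ.T (mk (asg ss t J a) τ.vs)
      simp only [tv, List.map_cons, List.sum_cons]
      omega
    have := key I
    have := key (star M I)
    have e : 65535 * (τ :: r).length * M = 65535 * r.length * M + 65535 * M := by
      simp only [List.length_cons]; ring
    omega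

theorem G_bound (G : ℕ) (hG : Gok G = true) (a b : ℕ) (h1 : 1 ≤ a) (h2 : a ≤ 710)
    (h3 : look G a ≤ b) : ((1024 : ℝ) / 1025) ^ a + ((1024 : ℝ) / 1025) ^ b ≤ 1 := by
  simp only [Gok, List.all_eq_true, List.mem_range] at hG
  have h := Nat.le_of_ble_eq_true (hG (a - 1) (by omega))
  rw [Nat.sub_add_cancel h1] at h
  have hb : ((1024 : ℝ) / 1025) ^ b ≤ ((1024 : ℝ) / 1025) ^ look G a :=
    pow_le_pow_of_le_one (by norm_num) (by norm_num) h3
  have h' : (1024 : ℝ) ^ a * 1025 ^ look G a + 1024 ^ look G a * 1025 ^ a ≤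
      1025 ^ (a + look G a) := by exact_mod_cast h
  have e : ((1024 : ℝ) / 1025) ^ a + ((1024 : ℝ) / 1025) ^ look G a ≤ 1 := by
    rw [div_pow, div_pow, div_add_div _ _ (by positivity) (by positivity),
      div_le_one (by positivity), ← pow_add]
    linarith
  linarith

theorem half_bound (a : ℕ) (h : 711 ≤ a) : ((1024 : ℝ) / 1025) ^ a ≤ 1 / 2 := by
  have hb : ((1024 : ℝ) / 1025) ^ a ≤ ((1024 : ℝ) / 1025) ^ 711 :=
    pow_le_pow_of_le_one (by norm_num) (by norm_num) h
  have hn : 1024 ^ 711 * 2 ≤ 1 * 1025 ^ 711 := by decide +kernel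
  have hr : (1024 : ℝ) ^ 711 * 2 ≤ 1 * 1025 ^ 711 := by exact_mod_cast hn
  have : ((1024 : ℝ) / 1025) ^ 711 ≤ 1 / 2 := by
    rw [div_pow, div_le_div_iff₀ (by positivity) (by positivity)]
    exact hr
  exact le_trans hb this

theorem kr_sound (G c m0 m1 : ℕ) (hG : Gok G = true) (h : kr G c m0 m1 = true) :
    ∃ a b : ℕ, 64 * a + m0 ≤ c ∧ 64 * b + m1 ≤ c ∧
      ((1024 : ℝ) / 1025) ^ a + ((1024 : ℝ) / 1025) ^ b ≤ 1 := by
  change kr2 G ((c - m0) / 64) ((c - m1) / 64) = true at h
  generalize ha : (c - m0) / 64 = a at h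
  generalize hb : (c - m1) / 64 = b at h
  unfold kr2 at h
  cases ea : Nat.beq a 0
  swap
  · rw [ea] at h; exact absurd h (by simp)
  cases eb : Nat.beq b 0
  swap
  · rw [ea, eb] at h; exact absurd h (by simp)
  have ha0 : a ≠ 0 := Nat.ne_of_beq_eq_false ea
  have hb0 : b ≠ 0 := Nat.ne_of_beq_eq_false eb
  refine ⟨a, b, by omega, by omega, ?_⟩
  rw [ea, eb] at h
  cases e1 : Nat.ble a 710
  · rw [e1] at h
    have a1 : ¬ a ≤ 710 := fun h' => by rw [Nat.ble_eq_true_of_le h'] at e1; exact absurd e1 (by simp)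
    cases e2 : Nat.ble b 710
    · have b1 : ¬ b ≤ 710 := fun h' => by
        rw [Nat.ble_eq_true_of_le h'] at e2; exact absurd e2 (by simp)
      have := half_bound a (by omega)
      have := half_bound b (by omega)
      linarith
    · rw [e2] at h
      have := G_bound G hG b a (by omega) (Nat.le_of_ble_eq_true e2) (Nat.le_of_ble_eq_true h)
      linarith
  · rw [e1] at h
    exact G_bound G hG a b (by omega) (Nat.le_of_ble_eq_true e1) (Nat.le_of_ble_eq_true h)

theorem mu_bound : 1 ≤ ((1024 : ℝ) / 1025) ^ 576 * mu := by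
  have hn : 1025 ^ 576 * 5000 ≤ 1024 ^ 576 * 8773 := by decide +kernel
  have hr : (1025 : ℝ) ^ 576 * 5000 ≤ 1024 ^ 576 * 8773 := by exact_mod_cast hn
  unfold mu
  rw [div_pow, div_mul_div_comm, one_le_div (by positivity)]
  exact hr

theorem cert_slow (C : Cert) (Bv : List V) (e m o : Bool) (G : ℕ) (hwf : C.wf Bv e m o = true)
    (hG : Gok G = true) (hrun : past G C.c C.cur C.fs C.ps 0 0 = true) (t : V) (ht : Pos t) :
    Slow (Hyp t Bv e m o) := by
  simp only [Cert.wf, Bool.and_eq_true, decide_eq_true_eq, List.all_eq_true, List.mem_range,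
    List.mem_flatMap] at hwf
  obtain ⟨⟨⟨⟨⟨⟨⟨hst, htr⟩, hp1⟩, hp2⟩, hpast⟩, hcur⟩, hc⟩, hcl⟩ := hwf
  obtain ⟨K, hK⟩ := tv_sum C.sites t C.terms htr
  obtain ⟨ρ, hρ0, hρ⟩ : ∃ ρ : ℝ, 0 < ρ ∧ ρ ^ 64 = 1024 / 1025 :=
    ⟨((1024 : ℝ) / 1025) ^ (((64 : ℕ) : ℝ)⁻¹), by positivity,
      Real.rpow_inv_natCast_pow (by norm_num) (by norm_num)⟩
  have hρ1 : ρ ≤ 1 := by
    by_contra hh
    have := one_le_pow₀ (n := 64) (le_of_lt (not_le.1 hh))
    rw [hρ] at this
    norm_num at this
  refine ⟨2 / ρ ^ K, fun M F hF hP => ?_⟩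
  have hsat : ∀ I ∈ F, ∀ a : ℤ, Sat (asg C.sites t I a) C.steps := fun I hI a st hs l hl =>
    clause_ok C.sites t Bv e m o I (hP I hI) a l (hcl l ⟨st, hs, hl⟩)
  have hcurv : ∀ (I : Cfg) (a : ℤ), asg C.sites t I a C.ps.length = I.1 a := by
    intro I a
    simp [asg, hcur, sv, ev_zero]
  have main : ∀ I ∈ F, ∀ z : ℤ, ∃ a b : ℕ,
      ((1024 : ℝ) / 1025) ^ a + ((1024 : ℝ) / 1025) ^ b ≤ 1 ∧
      ∀ J ∈ F, (∀ w < z, I.1 w = J.1 w ∧ I.2 w = J.2 w) →
        (J.1 z = false → 64 * a + tv (asg C.sites t J z) C.terms ≤ C.c) ∧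
        (J.1 z = true → 64 * b + tv (asg C.sites t J z) C.terms ≤ C.c) := by
    intro I hI z
    have hr : past G C.c C.cur C.fs C.ps (mk (rs (asg C.sites t I z) 0) C.L) 0 = true := by
      rw [mk_rs_zero]; exact hrun
    obtain ⟨m0, m1, hkr, hy⟩ := past_sound G C.c C.cur C.fs (asg C.sites t I z) C.L C.ps 0 0 hst
      (fun s hs => hsat I hI z s (List.mem_append_left _ hs)) hr
    obtain ⟨a, b, h1, h2, h3⟩ := kr_sound G C.c m0 m1 hG hkr
    refine ⟨a, b, h3, fun J hJ hag => ?_⟩
    have := hy (asg C.sites t J z) (by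
      intro i hi
      have hneg := ev_past t _ ht (hpast i (by omega))
      have hw := hag (z + ev t (site C.sites i).2) (by omega)
      simp only [asg, sv, hw.1, hw.2]) (hsat J hJ z)
    rw [zero_add, zero_add, hcurv] at this
    have e := tot_eq (asg C.sites t J z) C.steps C.terms hp1 hp2
    unfold Cert.steps at e
    rw [e] at this
    exact ⟨fun h => by have := this.1 h; omega, fun h => by have := this.2 h; omega⟩
  have hle : ∀ I ∈ F, ∀ z : ℤ, tv (asg C.sites t I z) C.terms ≤ C.c := by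
    intro I hI z
    obtain ⟨a, b, _, h⟩ := main I hI z
    have := h I hI (fun _ _ => ⟨rfl, rfl⟩)
    cases hz : I.1 z
    · have := this.1 hz; omega
    · have := this.2 hz; omega
  set D : Cfg → ℕ → ℕ := fun I a => C.c - tv (asg C.sites t I a) C.terms with hD
  have hkraft := kraft (fun (I : Cfg) (a : ℕ) => I.1 a) (fun I a => ρ ^ D I a) M F hF.inj
    (fun _ _ _ => by positivity) (fun _ _ _ _ => pow_le_one₀ hρ0.le hρ1) (by
      intro I hI J hJ z hz hag h0 h1
      obtain ⟨a, b, hab, h⟩ := main I hI z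
      have e0 := (h I hI (fun _ _ => ⟨rfl, rfl⟩)).1 h0
      have e1 := (h J hJ (hF.det I hI J hJ z hz.le hag)).2 h1
      have f0 : ρ ^ D I z ≤ ρ ^ (64 * a) :=
        pow_le_pow_of_le_one hρ0.le hρ1 (by simp only [hD]; omega)
      have f1 : ρ ^ D J z ≤ ρ ^ (64 * b) :=
        pow_le_pow_of_le_one hρ0.le hρ1 (by simp only [hD]; omega)
      rw [pow_mul, hρ] at f0 f1
      linarith)
  simp only [prod_pow_eq_pow_sum] at hkraft
  have hstar : ∑ I ∈ F, ρ ^ (∑ a ∈ range M, D (star M I) a) =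
      ∑ I ∈ F, ρ ^ (∑ a ∈ range M, D I a) :=
    sum_nbij' (star M) (star M) hF.star_mem hF.star_mem (fun I _ => star_star M I)
      (fun I _ => star_star M I) (fun _ _ => rfl)
  have hDs : ∀ I ∈ F, ∑ a ∈ range M, D I a + ∑ a ∈ range M, tv (asg C.sites t I a) C.terms =
      C.c * M := by
    intro I hI
    have e : C.c * M = ∑ _a ∈ range M, C.c := by simp [mul_comm]
    rw [e, ← sum_add_distrib]
    refine sum_congr rfl (fun a _ => ?_)
    have := hle I hI a
    simp only [hD]
    omega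
  have hone : ∀ I ∈ F, ρ ^ (64 * 576 * M + K) ≤
      ρ ^ (∑ a ∈ range M, D I a) + ρ ^ (∑ a ∈ range M, D (star M I) a) := by
    intro I hI
    have e1 := hDs I hI
    have e2 := hDs _ (hF.star_mem I hI)
    have e3 := hK M I
    have e4 : C.c * M = 65535 * C.terms.length * M + 64 * 576 * M := by rw [hc]; ring
    rw [e4] at e1 e2
    generalize 64 * 576 * M = W at e1 e2 ⊢
    generalize 65535 * C.terms.length * M = A at e1 e2 e3
    generalize ∑ a ∈ range M, D I a = u at e1 ⊢
    generalize ∑ a ∈ range M, D (star M I) a = w at e2 ⊢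
    have p1 : 0 ≤ ρ ^ u := by positivity
    have p2 : 0 ≤ ρ ^ w := by positivity
    rcases le_total u w with h | h
    · have hu : u ≤ W + K := by omega
      have : ρ ^ (W + K) ≤ ρ ^ u := pow_le_pow_of_le_one hρ0.le hρ1 hu
      linarith
    · have hu : w ≤ W + K := by omega
      have : ρ ^ (W + K) ≤ ρ ^ w := pow_le_pow_of_le_one hρ0.le hρ1 hu
      linarith
  have hsum := sum_le_sum hone
  rw [sum_add_distrib, hstar, sum_const, nsmul_eq_mul] at hsum
  have e5 : ρ ^ (64 * 576 * M + K) = (((1024 : ℝ) / 1025) ^ 576) ^ M * ρ ^ K := by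
    rw [pow_add, pow_mul, pow_mul, hρ]
  have e6 : 1 ≤ (((1024 : ℝ) / 1025) ^ 576) ^ M * mu ^ M := by
    rw [← mul_pow]; exact one_le_pow₀ mu_bound
  rw [e5] at hsum
  generalize (((1024 : ℝ) / 1025) ^ 576) ^ M = q at hsum e6
  have hmu : 0 ≤ mu ^ M := by unfold mu; positivity
  have hk : 0 < ρ ^ K := by positivity
  have hcard : (0 : ℝ) ≤ F.card := Nat.cast_nonneg _
  rw [div_mul_eq_mul_div, le_div_iff₀ hk]
  have s1 : (F.card : ℝ) * (q * ρ ^ K) ≤ 2 := by linarith
  calc (F.card : ℝ) * ρ ^ K ≤ (F.card : ℝ) * ρ ^ K * (q * mu ^ M) :=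
        le_mul_of_one_le_right (mul_nonneg hcard hk.le) e6
    _ = (F.card : ℝ) * (q * ρ ^ K) * mu ^ M := by ring
    _ ≤ 2 * mu ^ M := mul_le_mul_of_nonneg_right s1 hmu

theorem Slow.mono {P Q : Cfg → Prop} (h : Slow P) (hQ : ∀ I, Q I → P I) : Slow Q := by
  obtain ⟨K, hK⟩ := h
  exact ⟨K, fun M F hF hP => hK M F hF (fun I hI => hQ I (hP I hI))⟩

end Pool.Agent.Lib.MP_1d41ea_nt
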