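import Pool.Agent.Lib.MP_1d41ea_nt.Check

namespace Pool.Agent.Lib.MP_1d41ea_nt

def Gtab : ℕ := 0x2c702c802c902ca02cb02cc02cd02ce02cf02d002d102d202d302d402d502d602d702d802d902da02db02dc02dd02de02df02e002e102e202e402e502e602e702e802e902ea02eb02ec02ed02ee02ef02f002f102f302f402f502f602f702f802f902fa02fb02fc02fe02ff030003010302030303040305030703080309030a030b030c030d030e031003110312031303140315031703180319031a031b031c031e031f032003210322032303250326032703280329032b032c032d032e033003310332033303340336033703380339033b033c033d033e03400341034203430345034603470348034a034b034c034d034f03500351035303540355035603580359035a035c035d035e03600361036203640365036603680369036a036c036d036e03700371037203740375037703780379037b037c037e037f0380038203830385038603870389038a038c038d038e0390039103930394039603970399039a039b039d039e03a003a103a303a403a603a703a903aa03ac03ad03af03b003b203b303b503b603b803b903bb03bc03be03c003c103c303c403c603c703c903cb03cc03ce03cf03d103d203d403d603d703d903db03dc03de03df03e103e303e403e603e803e903eb03ed03ee03f003f203f303f503f703f803fa03fc03fd03ff040104030404040604080409040b040d040f041004120414041604180419041b041d041f04210422042404260428042a042b042d042f043104330435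04370438043a043c043e044004420444044604480449044b044d044f04510453045504570459045b045d045f04610463046504670469046b046d046f04710473047504770479047b047d047f0481048304860488048a048c048e04900492049404960499049b049d049f04a104a304a604a804aa04ac04ae04b104b304b504b704ba04bc04be04c004c304c504c704ca04cc04ce04d104d304d504d804da04dc04df04e104e304e604e804eb04ed04f004f204f404f704f904fc04fe0501050305060508050b050d0510051205150518051a051d051f052205240527052a052c052f053205340537053a053c053f054205440547054a054d054f055205550558055b055d0560056305660569056c056f057105740577057a057d0580058305860589058c058f059205950598059b059e05a105a405a705ab05ae05b105b405b705ba05bd05c105c405c705ca05ce05d105d405d705db05de05e105e505e805ec05ef05f205f605f905fd060006040607060b060e061206150619061c062006240627062b062f06320636063a063d064106450649064d065006540658065c066006640668066c067006740678067c068006840688068c069006950699069d06a106a506aa06ae06b206b706bb06bf06c406c806cd06d106d606da06df06e306e806ed06f106f606fb06ff07040709070e07120717071c07210726072b07300735073a073f0744074a074f07540759075f07640769076f07740779077f0784078a07900795079b07a107a607ac07b207b807be07c407ca07d007d607dc07e207e807ee07f507fb08010808080e0815081b08220829082f0836083d0844084b0852085908600867086e0875087c0884088b0893089a08a208aa08b108b908c108c908d108d908e108e908f208fa0903090b0914091c0925092e0937094009490952095c0965096f09780982098c099609a009aa09b409be09c909d309de09e909f409ff0a0a0a160a210a2d0a380a440a500a5d0a690a760a820a8f0a9c0aaa0ab70ac50ad20ae10aef0afd0b0c0b1b0b2a0b390b490b590b690b790b8a0b9b0bad0bbe0bd00be20bf50c080c1c0c2f0c440c580c6d0c830c990caf0cc60cde0cf60d0f0d280d430d5d0d790d950db20dd10df00e100e310e530e760e9b0ec10ee90f120f3d0f6a0f9a0fcb0fff1036107010ae10ef1136118111d2122b128c12f8137013f8149615501634175a18f91bbf0000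

theorem Gtab_ok : Gok Gtab = true := by decide +kernel

end Pool.Agent.Lib.MP_1d41ea_nt
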