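import Mathlib

/-!
Digit words, a Kraft type inequality with potentials, reversal.
-/

set_option autoImplicit false

open Finset Function

namespace Pool.Agent.Lib.MP_1d41ea_nt.L

noncomputable section
open Classical

/-- put the digit `a` in front -/
def cons (a : ℕ) (h : ℕ → ℕ) : ℕ → ℕ
  | 0 => a
  | i + 1 => h i

/-- drop the first `c` digits -/
def sh (c : ℕ) (h : ℕ → ℕ) : ℕ → ℕ := fun i => h (c + i)

/-- words of length `k` over the digits `0, …, b - 1`, padded with zeros -/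
def W (b : ℕ) : ℕ → Finset (ℕ → ℕ)
  | 0 => {0}
  | k + 1 => (range b ×ˢ W b k).image fun p => cons p.1 p.2

def rev (k : ℕ) (w : ℕ → ℕ) : ℕ → ℕ := fun i => if i < k then w (k - 1 - i) else 0

def mu (β : ℕ) : ℝ := β + 1 / β

/-- a digit `≥ hi` at `y` forces a digit `≥ lo` at `y + c` -/
def Sup (c : ℤ) (lo hi : ℕ) (w : ℕ → ℕ) : Prop :=
  ∀ y : ℕ, hi ≤ w y → ∃ z : ℕ, (z : ℤ) = y + c ∧ lo ≤ w z

/-- the level set `j` has no isolated point along the step `d` -/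
def NoIso (d j : ℕ) (w : ℕ → ℕ) : Prop :=
  ∀ y : ℕ, j ≤ w y → j ≤ w (y + d) ∨ (d ≤ y ∧ j ≤ w (y - d))

def IsProd (w P Q : ℕ → ℕ) : Prop :=
  (∀ i j, min (P i) (Q j) ≤ w (i + j)) ∧ ∀ m, ∃ i j, i + j = m ∧ w m ≤ min (P i) (Q j)

def unit (β : ℕ) : ℕ → ℕ := cons β 0

def Red (β : ℕ) (w : ℕ → ℕ) : Prop :=
  ∃ P Q : ℕ → ℕ, (∀ i, P i ≤ β) ∧ (∀ i, Q i ≤ β) ∧ P ≠ unit β ∧ Q ≠ unit β ∧ IsProd w P Q

/-- reducible words with both end digits nonzero -/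
def R (β k : ℕ) : Finset (ℕ → ℕ) :=
  (W (β + 1) k).filter fun w => 1 ≤ w 0 ∧ 1 ≤ w (k - 1) ∧ Red β w

/-- the main families -/
def F (β k : ℕ) (c : ℤ) : Finset (ℕ → ℕ) :=
  (W (β + 1) k).filter fun w => 1 ≤ w 0 ∧ 1 ≤ w (k - 1) ∧ Sup c 1 2 w ∧ NoIso c.natAbs 1 w

def H (β k d : ℕ) : Finset (ℕ → ℕ) :=
  (W (β + 1) k).filter fun w => Sup d 1 2 w ∧ NoIso d 1 w

/-- subsets of `range k` with at most `m` elements -/
def Sub (k m : ℕ) : Finset (Finset ℕ) := (range k).powerset.filter fun A => A.card ≤ m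

def Three (β k c₁ c₂ : ℕ) (Ψ : (ℕ → ℕ) → ℕ → Prop) (w : ℕ → ℕ) : Prop :=
  ∃ X ∈ W 2 k, (∀ y < c₂, X y = 0) ∧ (∀ y, w y = β ↔ Ψ X y) ∧
    ∀ y, X y = 1 ∨ X (y + c₁) = 1 ∨ X (y + c₂) = 1 → β - 1 ≤ w y

/-- the top level set is `A + B`, where `X` is the indicator of `e + B` -/
def Psi (A : Finset ℕ) (e : ℕ) (X : ℕ → ℕ) (y : ℕ) : Prop :=
  ∃ a ∈ A, ∃ z, X z = 1 ∧ a + z = y + e

/-- nonzero offsets of size at most `r` -/
def Off (r : ℕ) : Finset ℤ := (Icc (-(r : ℤ)) r).erase 0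

def Big (β m : ℕ) (w : ℕ → ℕ) : Prop :=
  ∃ A B : Finset ℕ, m ≤ A.card ∧ m ≤ B.card ∧ ∀ y, w y = β ↔ ∃ a ∈ A, ∃ f ∈ B, a + f = y

/-- the exceptional words -/
def Bad (β k m : ℕ) (w : ℕ → ℕ) : Prop :=
  (∀ y, w y ≠ β) ∨
  (∃ c ∈ Off k ×ˢ Off k, c.1 ≠ c.2 ∧ Sup c.1 1 2 w ∧ Sup c.2 1 2 w) ∨
  (∃ c ∈ range β ×ˢ Off k, 2 ≤ c.1 ∧ c.1 + 2 ≤ β ∧ Sup c.2 c.1 (c.1 + 1) w) ∨
  (∃ c ∈ Off k, 3 ≤ β ∧ Sup c (β - 1) β w ∧ NoIso c.natAbs (β - 1) w) ∨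
  (∃ d ∈ range k, 1 ≤ d ∧ NoIso d β w ∧ NoIso d (β - 1) w) ∨
  (∃ c ∈ Sub k m ×ˢ range k ×ˢ range k ×ˢ range k, 1 ≤ c.2.2.1 ∧ c.2.2.1 < c.2.2.2 ∧
    Three β k c.2.2.1 c.2.2.2 (Psi c.1 c.2.1) w) ∨
  Big β m w

/-- the chain counts: `(z, o, n)` after `L` steps -/
def vec (β : ℕ) : ℕ → ℝ × ℝ × ℝ
  | 0 => (1, 0, 1)
  | L + 1 => ((vec β L).1 + (vec β L).2.1, β * (vec β L).2.2, (vec β L).1 + β * (vec β L).2.2)

@[simp] theorem cons_zero (a : ℕ) (h : ℕ → ℕ) : cons a h 0 = a := rfl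
@[simp] theorem cons_succ (a : ℕ) (h : ℕ → ℕ) (i : ℕ) : cons a h (i + 1) = h i := rfl
@[simp] theorem sh_apply (c : ℕ) (h : ℕ → ℕ) (i : ℕ) : sh c h i = h (c + i) := rfl
@[simp] theorem sh_zero (h : ℕ → ℕ) : sh 0 h = h := by funext i; simp
theorem sh_sh (c y : ℕ) (h : ℕ → ℕ) : sh c (sh y h) = sh (y + c) h := by
  funext i; simp [add_assoc]
@[simp] theorem sh_succ_cons (c a : ℕ) (h : ℕ → ℕ) : sh (c + 1) (cons a h) = sh c h := by
  funext i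
  have : c + 1 + i = (c + i) + 1 := by omega
  simp [this]
theorem cons_sh (w : ℕ → ℕ) : cons (w 0) (sh 1 w) = w := by
  funext i
  cases i with
  | zero => rfl
  | succ i => simp [add_comm]
theorem update_cons (a a' : ℕ) (h : ℕ → ℕ) : update (cons a' h) 0 a = cons a h := by
  funext i
  cases i with
  | zero => simp
  | succ i => simp
theorem sh_update {c : ℕ} (hc : 1 ≤ c) (h : ℕ → ℕ) (a : ℕ) : sh c (update h 0 a) = sh c h := by
  funext i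
  have : c + i ≠ 0 := by omega
  simp [update_of_ne this]

theorem mem_W {b : ℕ} : ∀ {k : ℕ} {w : ℕ → ℕ},
    w ∈ W b k ↔ (∀ i < k, w i < b) ∧ ∀ i, k ≤ i → w i = 0
  | 0, w => by simp [W, funext_iff]
  | k + 1, w => by
    simp only [W, mem_image, mem_product, mem_range, Prod.exists, mem_W (k := k)]
    constructor
    · rintro ⟨a, h, ⟨ha, h1, h2⟩, rfl⟩
      refine ⟨fun i hi => ?_, fun i hi => ?_⟩
      · cases i with
        | zero => exact ha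
        | succ i => exact h1 i (by omega)
      · cases i with
        | zero => omega
        | succ i => exact h2 i (by omega)
    · rintro ⟨h1, h2⟩
      exact ⟨w 0, sh 1 w, ⟨h1 0 (by omega), fun i hi => h1 _ (by omega),
        fun i hi => h2 _ (by omega)⟩, cons_sh w⟩

theorem lt_of_mem_W {b k : ℕ} {w : ℕ → ℕ} (hw : w ∈ W b k) {i : ℕ} (hi : 1 ≤ w i) : i < k := by
  by_contra h
  have := (mem_W.1 hw).2 i (by omega)
  omega

theorem le_of_mem_W {β k : ℕ} {w : ℕ → ℕ} (hw : w ∈ W (β + 1) k) (i : ℕ) : w i ≤ β := by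
  by_cases h : i < k
  · have := (mem_W.1 hw).1 i h
    omega
  · have := (mem_W.1 hw).2 i (by omega)
    omega

theorem sum_W_succ {M : Type} [AddCommMonoid M] (b k : ℕ) (f : (ℕ → ℕ) → M) :
    ∑ w ∈ W b (k + 1), f w = ∑ h ∈ W b k, ∑ a ∈ range b, f (cons a h) := by
  rw [W, sum_image, sum_product_right]
  rintro ⟨a, h⟩ - ⟨a', h'⟩ - e
  have h0 : a = a' := congrFun e 0
  have h1 : h = h' := funext fun i => congrFun e (i + 1)
  rw [h0, h1]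

theorem card_W (b : ℕ) : ∀ k, (W b k).card = b ^ k
  | 0 => by simp [W]
  | k + 1 => by
    rw [card_eq_sum_ones, sum_W_succ]
    simp [card_W b k, pow_succ]

/-- Kraft type inequality, position dependent. -/
theorem kraft (b : ℕ) : ∀ (k : ℕ) (g : ℕ → (ℕ → ℕ) → ℝ) (μ : ℕ → ℝ), (∀ y h, 0 ≤ g y h) →
    (∀ y < k, ∀ h, ∑ a ∈ range b, g y (update h 0 a) ≤ μ y) →
    ∑ w ∈ W b k, ∏ y ∈ range k, g y (sh y w) ≤ ∏ y ∈ range k, μ y
  | 0, g, μ, _, _ => by simp [W]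
  | k + 1, g, μ, h0, h1 => by
    have hμ : 0 ≤ μ 0 := (sum_nonneg fun a _ => h0 _ _).trans (h1 0 (by omega) 0)
    have ih := kraft b k (fun y => g (y + 1)) (fun y => μ (y + 1)) (fun y h => h0 _ _)
      (fun y hy h => h1 (y + 1) (by omega) h)
    rw [sum_W_succ, prod_range_succ' μ]
    refine le_trans (sum_le_sum fun h _ => ?_)
      ((sum_mul _ _ _).symm.le.trans (mul_le_mul_of_nonneg_right ih hμ))
    simp only [prod_range_succ', sh_succ_cons, sh_zero]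
    rw [← mul_sum]
    refine mul_le_mul_of_nonneg_left ?_ (prod_nonneg fun y _ => h0 _ _)
    simpa only [update_cons] using h1 0 (by omega) (cons 0 h)

theorem tele {b k : ℕ} {w : ℕ → ℕ} (hw : w ∈ W b k) {φ : (ℕ → ℕ) → ℝ} (hφ : ∀ h, 0 < φ h)
    (h0 : φ 0 = 1) (c : ℕ) (ht : ∀ y < c, 1 ≤ φ (sh y w)) :
    1 ≤ ∏ y ∈ range k, φ (sh y w) / φ (sh c (sh y w)) := by
  have e1 : ∏ y ∈ range (k + c), φ (sh y w) = ∏ y ∈ range k, φ (sh y w) := by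
    rw [prod_range_add, prod_eq_one (s := range c), mul_one]
    intro y _
    have : sh (k + y) w = 0 := funext fun i => (mem_W.1 hw).2 _ (by omega)
    rw [this, h0]
  have e2 : ∏ y ∈ range (k + c), φ (sh y w) =
      (∏ y ∈ range c, φ (sh y w)) * ∏ y ∈ range k, φ (sh c (sh y w)) := by
    rw [add_comm k c, prod_range_add]
    simp only [sh_sh, add_comm]
  rw [prod_div_distrib, one_le_div (prod_pos fun y _ => hφ _), ← e1, e2]
  refine le_mul_of_one_le_left (prod_pos fun y _ => hφ _).le ?_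
  calc (1 : ℝ) = ∏ _y ∈ range c, (1 : ℝ) := by simp
    _ ≤ _ := prod_le_prod (fun _ _ => zero_le_one) fun y hy => ht y (mem_range.1 hy)

/-- Counting with three potentials at offsets `c₁, c₂, c₃`. -/
theorem pot3 {b k : ℕ} {S : Finset (ℕ → ℕ)} (hS : S ⊆ W b k) (g φ₁ φ₂ φ₃ : (ℕ → ℕ) → ℝ)
    {c₁ c₂ c₃ : ℕ} (hc₁ : 1 ≤ c₁) (hc₂ : 1 ≤ c₂) (hc₃ : 1 ≤ c₃) (μ : ℝ) (hg : ∀ h, 0 ≤ g h)
    (p₁ : ∀ h, 0 < φ₁ h) (p₂ : ∀ h, 0 < φ₂ h) (p₃ : ∀ h, 0 < φ₃ h)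
    (z₁ : φ₁ 0 = 1) (z₂ : φ₂ 0 = 1) (z₃ : φ₃ 0 = 1)
    (t₁ : ∀ w ∈ S, ∀ y < c₁, 1 ≤ φ₁ (sh y w)) (t₂ : ∀ w ∈ S, ∀ y < c₂, 1 ≤ φ₂ (sh y w))
    (t₃ : ∀ w ∈ S, ∀ y < c₃, 1 ≤ φ₃ (sh y w))
    (loc : ∀ h, ∑ a ∈ range b, g (update h 0 a) *
      (φ₁ (update h 0 a) * φ₂ (update h 0 a) * φ₃ (update h 0 a)) ≤
        μ * (φ₁ (sh c₁ h) * φ₂ (sh c₂ h) * φ₃ (sh c₃ h))) :
    ∑ w ∈ S, ∏ y ∈ range k, g (sh y w) ≤ μ ^ k := by
  have hG : ∀ h, 0 ≤ g h * (φ₁ h / φ₁ (sh c₁ h) * (φ₂ h / φ₂ (sh c₂ h)) * (φ₃ h / φ₃ (sh c₃ h))) :=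
    fun h => mul_nonneg (hg h) (mul_pos (mul_pos (div_pos (p₁ _) (p₁ _)) (div_pos (p₂ _) (p₂ _)))
      (div_pos (p₃ _) (p₃ _))).le
  have hk := kraft b k (fun _ h => g h *
    (φ₁ h / φ₁ (sh c₁ h) * (φ₂ h / φ₂ (sh c₂ h)) * (φ₃ h / φ₃ (sh c₃ h)))) (fun _ => μ)
    (fun _ h => hG h) (fun _ _ h => by
      have hp : 0 < φ₁ (sh c₁ h) * φ₂ (sh c₂ h) * φ₃ (sh c₃ h) :=
        mul_pos (mul_pos (p₁ _) (p₂ _)) (p₃ _)
      refine le_trans (le_of_eq ?_) ((div_le_iff₀ hp).2 (loc h))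
      rw [sum_div]
      refine sum_congr rfl fun a _ => ?_
      simp only [sh_update hc₁, sh_update hc₂, sh_update hc₃]
      have := (p₁ (sh c₁ h)).ne'
      have := (p₂ (sh c₂ h)).ne'
      have := (p₃ (sh c₃ h)).ne'
      field_simp)
  rw [prod_const, card_range] at hk
  refine le_trans ?_ ((sum_le_sum_of_subset_of_nonneg hS
    fun w _ _ => prod_nonneg fun y _ => hG _).trans hk)
  refine sum_le_sum fun w hw => ?_
  rw [prod_mul_distrib, prod_mul_distrib, prod_mul_distrib]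
  refine le_mul_of_one_le_right (prod_nonneg fun y _ => hg _) ?_
  exact one_le_mul_of_one_le_of_one_le (one_le_mul_of_one_le_of_one_le
    (tele (hS hw) p₁ z₁ c₁ (t₁ w hw)) (tele (hS hw) p₂ z₂ c₂ (t₂ w hw)))
    (tele (hS hw) p₃ z₃ c₃ (t₃ w hw))

/-- The counting form: `ok` is a local condition met at every position. -/
theorem card_pot3 {b k : ℕ} {S : Finset (ℕ → ℕ)} (hS : S ⊆ W b k) (ok : (ℕ → ℕ) → Prop)
    (φ₁ φ₂ φ₃ : (ℕ → ℕ) → ℝ)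
    {c₁ c₂ c₃ : ℕ} (hc₁ : 1 ≤ c₁) (hc₂ : 1 ≤ c₂) (hc₃ : 1 ≤ c₃) (μ : ℝ)
    (hok : ∀ w ∈ S, ∀ y, ok (sh y w))
    (p₁ : ∀ h, 0 < φ₁ h) (p₂ : ∀ h, 0 < φ₂ h) (p₃ : ∀ h, 0 < φ₃ h)
    (z₁ : φ₁ 0 = 1) (z₂ : φ₂ 0 = 1) (z₃ : φ₃ 0 = 1)
    (t₁ : ∀ w ∈ S, ∀ y < c₁, 1 ≤ φ₁ (sh y w)) (t₂ : ∀ w ∈ S, ∀ y < c₂, 1 ≤ φ₂ (sh y w))
    (t₃ : ∀ w ∈ S, ∀ y < c₃, 1 ≤ φ₃ (sh y w))
    (loc : ∀ h, ∑ a ∈ range b, (if ok (update h 0 a) then 1 else 0) *
      (φ₁ (update h 0 a) * φ₂ (update h 0 a) * φ₃ (update h 0 a)) ≤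
        μ * (φ₁ (sh c₁ h) * φ₂ (sh c₂ h) * φ₃ (sh c₃ h))) :
    (S.card : ℝ) ≤ μ ^ k := by
  refine le_trans (le_of_eq ?_) (pot3 hS (fun h => if ok h then 1 else 0) φ₁ φ₂ φ₃ hc₁ hc₂ hc₃ μ
    (fun h => by split_ifs <;> norm_num) p₁ p₂ p₃ z₁ z₂ z₃ t₁ t₂ t₃ loc)
  rw [card_eq_sum_ones, Nat.cast_sum]
  refine sum_congr rfl fun w hw => ?_
  simp [hok w hw]

/-- Words whose digit at `y` lies in a set of at most `m y` digits. -/
theorem card_le_prod {b k : ℕ} {S : Finset (ℕ → ℕ)} (hS : S ⊆ W b k) (T : ℕ → ℕ → Prop)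
    (m : ℕ → ℝ) (hT : ∀ w ∈ S, ∀ y < k, T y (w y))
    (hm : ∀ y < k, (((range b).filter (T y)).card : ℝ) ≤ m y) :
    (S.card : ℝ) ≤ ∏ y ∈ range k, m y := by
  have hk := kraft b k (fun y h => if T y (h 0) then 1 else 0) m
    (fun y h => by split_ifs <;> norm_num) (fun y hy h => by simpa using hm y hy)
  refine le_trans ?_ ((sum_le_sum_of_subset_of_nonneg hS fun w _ _ =>
    prod_nonneg fun y _ => by split_ifs <;> norm_num).trans hk)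
  rw [card_eq_sum_ones, Nat.cast_sum]
  refine sum_le_sum fun w hw => le_of_eq ?_
  rw [prod_eq_one, Nat.cast_one]
  intro y hy
  simp [hT w hw y (mem_range.1 hy)]

/-- A sum over the digits of a function with three values. -/
theorem sum3 {β a : ℕ} (ha : a ≤ β) (f : ℕ → ℝ) {A B C : ℝ} (hA : ∀ i < a, f i = A)
    (hB : f a = B) (hC : ∀ i, a < i → f i = C) :
    ∑ i ∈ range (β + 1), f i = a * A + B + (β - a) * C := by
  obtain ⟨r, rfl⟩ := Nat.exists_eq_add_of_le ha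
  have e : a + r + 1 = (a + 1) + r := by omega
  rw [e, sum_range_add, sum_range_succ, hB, sum_congr rfl fun i hi => hA i (mem_range.1 hi),
    sum_congr rfl fun i _ => hC (a + 1 + i) (by omega)]
  simp

theorem rev_mem {b k : ℕ} {w : ℕ → ℕ} (hw : w ∈ W b k) : rev k w ∈ W b k := by
  refine mem_W.2 ⟨fun i hi => ?_, fun i hi => ?_⟩
  · simp only [rev, if_pos hi]
    exact (mem_W.1 hw).1 _ (by omega)
  · simp only [rev, if_neg (not_lt.2 hi)]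

theorem rev_rev {b k : ℕ} {w : ℕ → ℕ} (hw : w ∈ W b k) : rev k (rev k w) = w := by
  funext i
  by_cases hi : i < k
  · have h1 : k - 1 - i < k := by omega
    have h2 : k - 1 - (k - 1 - i) = i := by omega
    simp only [rev, if_pos hi, if_pos h1, h2]
  · simp only [rev, if_neg hi]
    exact ((mem_W.1 hw).2 i (by omega)).symm

theorem card_le_of_rev {b k : ℕ} {p q : (ℕ → ℕ) → Prop}
    (h : ∀ w ∈ W b k, p w → q (rev k w)) :
    ((W b k).filter p).card ≤ ((W b k).filter q).card := by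
  refine card_le_card_of_injOn (rev k) (fun w hw => ?_) fun w hw w' hw' e => ?_
  · have hw := mem_filter.1 (mem_coe.1 hw)
    exact mem_coe.2 (mem_filter.2 ⟨rev_mem hw.1, h w hw.1 hw.2⟩)
  · rw [← rev_rev (mem_filter.1 (mem_coe.1 hw)).1, e, rev_rev (mem_filter.1 (mem_coe.1 hw')).1]

theorem Sup.rev {b k lo hi : ℕ} {c : ℤ} {w : ℕ → ℕ} (hw : w ∈ W b k) (hlo : 1 ≤ lo)
    (hhi : 1 ≤ hi) (h : Sup c lo hi w) : Sup (-c) lo hi (rev k w) := by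
  intro y hy
  have hyk : y < k := lt_of_mem_W (rev_mem hw) (hhi.trans hy)
  simp only [L.rev, if_pos hyk] at hy
  obtain ⟨z, hz, hz'⟩ := h _ hy
  have hzk : z < k := lt_of_mem_W hw (hlo.trans hz')
  refine ⟨k - 1 - z, by omega, ?_⟩
  have h1 : k - 1 - z < k := by omega
  have h2 : k - 1 - (k - 1 - z) = z := by omega
  simpa only [L.rev, if_pos h1, h2] using hz'

theorem NoIso.rev {b k d j : ℕ} {w : ℕ → ℕ} (hw : w ∈ W b k) (hj : 1 ≤ j) (h : NoIso d j w) :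
    NoIso d j (rev k w) := by
  intro y hy
  have hyk : y < k := lt_of_mem_W (rev_mem hw) (hj.trans hy)
  simp only [L.rev, if_pos hyk] at hy
  rcases h _ hy with h1 | ⟨h1, h2⟩
  · have := lt_of_mem_W hw (hj.trans h1)
    refine Or.inr ⟨by omega, ?_⟩
    have h3 : y - d < k := by omega
    have h4 : k - 1 - (y - d) = k - 1 - y + d := by omega
    simpa only [L.rev, if_pos h3, h4] using h1
  · left
    have h3 : y + d < k := by omega
    have h4 : k - 1 - (y + d) = k - 1 - y - d := by omega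
    simpa only [L.rev, if_pos h3, h4] using h2

theorem card_exists_le {ι α : Type} (I : Finset ι) (S : Finset α) (p : ι → α → Prop) {M : ℝ}
    (h : ∀ i ∈ I, ((S.filter (p i)).card : ℝ) ≤ M) :
    ((S.filter fun w => ∃ i ∈ I, p i w).card : ℝ) ≤ I.card * M := by
  have : (S.filter fun w => ∃ i ∈ I, p i w) ⊆ I.biUnion fun i => S.filter (p i) := by
    intro w hw
    obtain ⟨h1, i, hi, h2⟩ := mem_filter.1 hw
    exact mem_biUnion.2 ⟨i, hi, mem_filter.2 ⟨h1, h2⟩⟩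
  have h2 : ((S.filter fun w => ∃ i ∈ I, p i w).card : ℝ) ≤
      ∑ i ∈ I, ((S.filter (p i)).card : ℝ) := by
    exact_mod_cast (card_le_card this).trans card_biUnion_le
  refine h2.trans ((sum_le_sum h).trans (le_of_eq ?_))
  simp

theorem card_Sub (k m : ℕ) : (Sub k m).card ≤ (k + 1) ^ m := by
  have h1 : Sub k m ⊆ (range (m + 1)).biUnion fun j => (range k).powersetCard j := by
    intro A hA
    obtain ⟨h1, h2⟩ := mem_filter.1 hA
    exact mem_biUnion.2 ⟨A.card, mem_range.2 (by omega),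
      mem_powersetCard.2 ⟨mem_powerset.1 h1, rfl⟩⟩
  refine ((card_le_card h1).trans card_biUnion_le).trans ?_
  rw [add_pow]
  refine sum_le_sum fun j hj => ?_
  rw [card_powersetCard, card_range, one_pow, mul_one]
  refine (Nat.choose_le_pow k j).trans (Nat.le_mul_of_pos_right _ ?_)
  exact Nat.choose_pos (by have := mem_range.1 hj; omega)

theorem le_mu (β : ℕ) : (β : ℝ) ≤ mu β := by
  unfold mu
  have : (0 : ℝ) ≤ 1 / β := by positivity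
  linarith

end

end Pool.Agent.Lib.MP_1d41ea_nt.L
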