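import Pool.Agent.Lib.MP_1d41ea_nt.Reduce
import Pool.Agent.Lib.MP_1d41ea_nt.LBasic

/-!
Sumsets with a fixed summand of at least three elements.
-/

set_option autoImplicit false

namespace Pool.Agent.Lib.MP_1d41ea_nt.H22

open Finset Function
open scoped Pointwise

lemma mem_Nset {B : Finset ℕ} {m : ℕ} {C : Finset ℕ} :
    C ∈ Nset B m ↔ C ⊆ range m ∧ ∃ A : Finset ℕ, C = A + B := by
  classical
  unfold Nset
  simp only [mem_filter, mem_powerset]

lemma Nset_add (B' B : Finset ℕ) (m : ℕ) : Nset (B' + B) m ⊆ Nset B m := by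
  intro C hC
  obtain ⟨h, A, rfl⟩ := mem_Nset.1 hC
  exact mem_Nset.2 ⟨h, A + B', (add_assoc _ _ _).symm⟩

lemma opn_add (A : Finset ℕ) (x : ℕ) : IsOpn x (A + {0, x}) := by
  intro c hc
  obtain ⟨a, ha, b, hb, rfl⟩ := mem_add.1 hc
  rcases mem_insert.1 hb with rfl | hb
  · exact Or.inl (mem_add.2 ⟨a, ha, x, by simp, by omega⟩)
  · obtain rfl := mem_singleton.1 hb
    exact Or.inr ⟨by omega, mem_add.2 ⟨a, ha, 0, by simp, by omega⟩⟩

lemma two_steps {x y : ℕ} (m : ℕ) : Nset ({0, y} + {0, x}) m ⊆ Iset x y m := by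
  intro C hC
  obtain ⟨h, A, rfl⟩ := mem_Nset.1 hC
  unfold Iset
  refine mem_filter.2 ⟨mem_powerset.2 h, ?_, ?_⟩
  · rw [← add_assoc]
    exact opn_add _ x
  · rw [add_comm {0, y}, ← add_assoc]
    exact opn_add _ y

lemma run3 {x : ℕ} {A : Finset ℕ} {c : ℕ} (hc : c ∈ A + ({0, x} + {0, x})) :
    (c + x ∈ A + ({0, x} + {0, x}) ∧ c + (x + x) ∈ A + ({0, x} + {0, x})) ∨
      (x ≤ c ∧ c - x ∈ A + ({0, x} + {0, x})) := by
  have h0 : (0 : ℕ) ∈ ({0, x} : Finset ℕ) := by simp
  have h1 : x ∈ ({0, x} : Finset ℕ) := by simp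
  obtain ⟨a, ha, b, hb, rfl⟩ := mem_add.1 hc
  obtain ⟨u, hu, v, hv, rfl⟩ := mem_add.1 hb
  have k0 : a + (0 + 0) ∈ A + ({0, x} + {0, x}) := add_mem_add ha (add_mem_add h0 h0)
  have k1 : a + (0 + x) ∈ A + ({0, x} + {0, x}) := add_mem_add ha (add_mem_add h0 h1)
  have k2 : a + (x + x) ∈ A + ({0, x} + {0, x}) := add_mem_add ha (add_mem_add h1 h1)
  simp only [mem_insert, mem_singleton] at hu hv
  rcases hu with rfl | rfl <;> rcases hv with rfl | hv
  · exact Or.inl ⟨by simpa using k1, by simpa using k2⟩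
  · exact Or.inr ⟨by omega, by rwa [show a + (0 + v) - x = a + (0 + 0) by omega]⟩
  · exact Or.inr ⟨by omega, by rwa [show a + (u + 0) - u = a + (0 + 0) by omega]⟩
  · exact Or.inr ⟨by omega, by rwa [show a + (u + v) - u = a + (0 + u) by omega]⟩

/-- the indicator word of a set -/
def wd (C : Finset ℕ) : ℕ → ℕ := fun i => if i ∈ C then 1 else 0

lemma wd_eq_zero {C : Finset ℕ} {i : ℕ} : wd C i = 0 ↔ i ∉ C := by
  unfold wd
  split_ifs with h <;> simp [h]

lemma wd_inj : Injective wd := by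
  intro C D h
  ext i
  have := congrFun h i
  rw [← not_iff_not, ← wd_eq_zero, ← wd_eq_zero, this]

theorem ap3 {x : ℕ} (hx : 0 < x) (m : ℕ) : ((Nset ({0, x} + {0, x}) m).card : ℝ) ≤ mu ^ m := by
  classical
  rw [← card_image_of_injective _ wd_inj]
  have hx0 : x ≠ 0 := by omega
  have hx2 : x + x ≠ 0 := by omega
  have hx3 : x + (x + x) ≠ 0 := by omega
  refine L.card_pot3 (b := 2) ?_
    (fun h => h 0 = 0 → h x ≠ 0 → h (x + x) ≠ 0 ∧ h (x + (x + x)) ≠ 0)
    (fun h => if h 0 = 0 then 1 else if h x = 0 then 3 / 4 else if h (x + x) = 0 then 13 / 10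
      else 2) (fun _ => 1) (fun _ => 1) hx le_rfl le_rfl _ ?_
    (fun h => by split_ifs <;> norm_num) (fun _ => one_pos) (fun _ => one_pos) (by simp) rfl rfl
    ?_ (fun _ _ _ _ => le_rfl) (fun _ _ _ _ => le_rfl) ?_
  · intro w hw
    obtain ⟨C, hC, rfl⟩ := mem_image.1 hw
    refine L.mem_W.2 ⟨fun i _ => ?_, fun i hi => wd_eq_zero.2 fun h => ?_⟩
    · unfold wd
      split_ifs <;> omega
    · have := mem_range.1 ((mem_Nset.1 hC).1 h)
      omega
  · intro w hw y
    obtain ⟨C, hC, rfl⟩ := mem_image.1 hw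
    obtain ⟨-, A, rfl⟩ := mem_Nset.1 hC
    simp only [L.sh_apply, add_zero, ne_eq, wd_eq_zero, not_not]
    intro h0 h1
    rcases run3 h1 with h | h
    · exact ⟨by rw [← add_assoc y]; exact h.1, by rw [← add_assoc y]; exact h.2⟩
    · rw [Nat.add_sub_cancel] at h
      exact absurd h.2 h0
  · intro w hw y hy
    obtain ⟨C, hC, rfl⟩ := mem_image.1 hw
    obtain ⟨-, A, rfl⟩ := mem_Nset.1 hC
    simp only [L.sh_apply, add_zero, wd_eq_zero]
    by_cases h0 : y ∈ A + ({0, x} + {0, x})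
    · rcases run3 h0 with h | h
      · rw [if_neg (not_not.2 h0), if_neg (not_not.2 h.1), if_neg (not_not.2 h.2)]
        norm_num
      · omega
    · rw [if_pos h0]
  · intro h
    simp only [sum_range_succ, range_zero, sum_empty, update_self, update_of_ne hx0,
      update_of_ne hx2, update_of_ne hx3, L.sh_apply, add_zero, mul_one, zero_add]
    unfold mu
    by_cases h1 : h x = 0 <;> by_cases h2 : h (x + x) = 0 <;>
      by_cases h3 : h (x + (x + x)) = 0 <;> simp [h1, h2, h3] <;> norm_num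

theorem fixed0 (B : Finset ℕ) (h0 : 0 ∈ B) (h3 : 3 ≤ B.card) (m : ℕ) :
    ((Nset B m).card : ℝ) ≤ mu ^ m := by
  rcases Nset_dichotomy B h0 (by omega) with ⟨x, hx, B', rfl⟩ | h
  · have h0' : 0 ∈ B' := by
      obtain ⟨a, ha, b, -, hab⟩ := mem_add.1 h0
      have : a = 0 := by omega
      exact this ▸ ha
    have h2 : 2 ≤ B'.card := by
      have h4 : (B' + {0, x}).card ≤ B'.card * ({0, x} : Finset ℕ).card := card_add_le
      have h5 : ({0, x} : Finset ℕ).card ≤ 2 := card_le_two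
      have h6 := Nat.mul_le_mul_left B'.card h5
      omega
    rcases Nset_dichotomy B' h0' h2 with ⟨y, hy, B'', rfl⟩ | h
    · rw [add_assoc]
      refine le_trans (b := ((Nset ({0, y} + {0, x}) m).card : ℝ))
        (by exact_mod_cast card_le_card (Nset_add B'' _ m)) ?_
      rcases lt_trichotomy x y with hxy | rfl | hxy
      · exact le_trans (by exact_mod_cast card_le_card (two_steps m)) (Iset_le x y m hx hxy)
      · exact ap3 hx m
      · rw [add_comm]
        exact le_trans (by exact_mod_cast card_le_card (two_steps m)) (Iset_le y x m hy hxy)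
    · rw [add_comm]
      exact le_trans (by exact_mod_cast card_le_card (Nset_add _ B' m)) (h m)
  · exact h m

theorem fixed (B : Finset ℕ) (h3 : 3 ≤ B.card) (m : ℕ) : ((Nset B m).card : ℝ) ≤ mu ^ m := by
  have hne : B.Nonempty := card_pos.1 (by omega)
  have hle : ∀ b ∈ B, B.min' hne ≤ b := fun b hb => min'_le B b hb
  have hmem := min'_mem B hne
  generalize B.min' hne = t at hle hmem
  have e : B = {t} + B.image (· - t) := by
    ext c
    simp only [mem_add, mem_singleton, mem_image]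
    constructor
    · intro hc
      have := hle c hc
      exact ⟨t, rfl, c - t, ⟨c, hc, rfl⟩, by omega⟩
    · rintro ⟨a, ha, _, ⟨b, hb, rfl⟩, rfl⟩
      have := hle b hb
      rwa [show a + (b - t) = b by omega]
  have hc : (B.image (· - t)).card = B.card := card_image_of_injOn fun a ha b hb hab => by
    have h1 := hle a ha
    have h2 := hle b hb
    have h3 : a - t = b - t := hab
    omega
  have h := fixed0 (B.image (· - t)) (mem_image.2 ⟨t, hmem, Nat.sub_self t⟩) (by omega) m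
  refine le_trans ?_ h
  have := Nset_add {t} (B.image (· - t)) m
  rw [← e] at this
  exact_mod_cast card_le_card this

end Pool.Agent.Lib.MP_1d41ea_nt.H22
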