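import Mathlib

set_option autoImplicit false

namespace Pool.Agent.Lib.MP_1d41ea_nt.H68

open scoped Pointwise

section Gen
variable {M : Type} [AddCommMonoid M]

/-- Atoms of the monoid of sets containing zero under the sumset. -/
def Atm (X : Set M) : Prop :=
  0 ∈ X ∧ X ≠ {0} ∧ ∀ U V : Set M, 0 ∈ U → 0 ∈ V → U + V = X → U = {0} ∨ V = {0}

/-- `Z` is a sum of `k` atoms. -/
def Len : ℕ → Set M → Prop
  | 0, Z => Z = {0}
  | k + 1, Z => ∃ X Y : Set M, Len k X ∧ Atm Y ∧ X + Y = Z

theorem Len.zero_mem : ∀ {k : ℕ} {Z : Set M}, Len k Z → 0 ∈ Z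
  | 0, _, h => by rw [show _ = _ from h]; rfl
  | k + 1, _, ⟨X, Y, h1, h2, h3⟩ => by
    rw [← h3]; exact ⟨0, Len.zero_mem h1, 0, h2.1, add_zero 0⟩

theorem sub_left {X Y : Set M} (hY : 0 ∈ Y) : X ⊆ X + Y :=
  fun x hx => ⟨x, hx, 0, hY, add_zero x⟩

theorem sub_right {X Y : Set M} (hX : 0 ∈ X) : Y ⊆ X + Y :=
  fun y hy => ⟨0, hX, y, hy, zero_add y⟩

theorem zero_mem_add {X Y : Set M} (hX : 0 ∈ X) (hY : 0 ∈ Y) : 0 ∈ X + Y :=
  ⟨0, hX, 0, hY, add_zero 0⟩

theorem sing_add (X : Set M) : ({0} : Set M) + X = X := zero_add X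

theorem add_sing (X : Set M) : X + ({0} : Set M) = X := add_zero X

end Gen

variable {D : Type} [DecidableEq D]

/-- The cube with generators in `I`. -/
def K (I : Finset D) : Set (D → ℕ) := {x | ∀ d, x d ≤ 1 ∧ (d ∉ I → x d = 0)}

theorem zero_mem_K (I : Finset D) : (0 : D → ℕ) ∈ K I := fun d => by simp

theorem K_empty : K (∅ : Finset D) = {0} := by
  ext x
  constructor
  · intro h
    funext d
    exact (h d).2 (Finset.notMem_empty d)
  · rintro rfl
    exact zero_mem_K _

theorem single_mem_K {I : Finset D} {e : D} : (Pi.single e 1 : D → ℕ) ∈ K I ↔ e ∈ I := by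
  constructor
  · intro h
    by_contra he
    have := (h e).2 he
    simp at this
  · intro he d
    by_cases hd : d = e
    · subst hd
      simp [he]
    · simp [hd]

theorem K_inj {I J : Finset D} (h : K I ⊆ K J) : I ⊆ J :=
  fun _ he => single_mem_K.1 (h (single_mem_K.2 he))

theorem K_ne {I : Finset D} (h : I.Nonempty) : K I ≠ {0} := by
  intro h0
  rw [← K_empty] at h0
  exact h.ne_empty (Finset.subset_empty.1 (K_inj h0.subset))

theorem K_add_K {I J : Finset D} (h : Disjoint I J) : K I + K J = K (I ∪ J) := by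
  ext x
  constructor
  · rintro ⟨u, hu, v, hv, rfl⟩ d
    have h1 := hu d
    have h2 := hv d
    have h3 : d ∉ I ∨ d ∉ J := by
      by_contra hh
      push Not at hh
      exact Finset.disjoint_left.1 h hh.1 hh.2
    simp only [Pi.add_apply, Finset.mem_union, not_or]
    refine ⟨?_, fun hh => by rw [h1.2 hh.1, h2.2 hh.2]⟩
    rcases h3 with h3 | h3
    · have := h1.2 h3; omega
    · have := h2.2 h3; omega
  · intro hx
    refine ⟨fun d => if d ∈ I then x d else 0, fun d => ?_, fun d => if d ∈ I then 0 else x d,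
      fun d => ?_, ?_⟩
    · have := hx d
      by_cases hd : d ∈ I <;> simp [hd, this.1]
    · have := hx d
      by_cases hd : d ∈ I
      · simp [hd]
      · simp only [hd, if_false]
        exact ⟨this.1, fun hj => this.2 (by simp [hd, hj])⟩
    · funext d
      by_cases hd : d ∈ I <;> simp [hd]

theorem single_split {x y : D → ℕ} {e : D} (h : x + y = Pi.single e 1) :
    x = Pi.single e 1 ∨ y = Pi.single e 1 := by
  have h1 := congrFun h e
  simp only [Pi.add_apply, Pi.single_eq_same] at h1
  have h2 : ∀ d, d ≠ e → x d = 0 ∧ y d = 0 := fun d hd => by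
    have := congrFun h d
    simp only [Pi.add_apply, Pi.single_eq_of_ne hd] at this
    omega
  by_cases hx : x e = 1
  · left
    funext d
    by_cases hd : d = e
    · subst hd; simp [hx]
    · simp [hd, (h2 d hd).1]
  · right
    funext d
    by_cases hd : d = e
    · subst hd; simp only [Pi.single_eq_same]; omega
    · simp [hd, (h2 d hd).2]

/-- The only splittings of a cube are into complementary subcubes. -/
theorem K_split {X Y : Set (D → ℕ)} {I : Finset D} (hX : 0 ∈ X) (hY : 0 ∈ Y)
    (h : X + Y = K I) : ∃ J ⊆ I, X = K J ∧ Y = K (I \ J) := by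
  classical
  have hs : ∀ x ∈ X, ∀ y ∈ Y, ∀ d, x d + y d ≤ 1 ∧ (d ∉ I → x d + y d = 0) := by
    intro x hx y hy d
    have : x + y ∈ K I := h ▸ Set.add_mem_add hx hy
    exact this d
  have hor : ∀ e ∈ I, (Pi.single e 1 : D → ℕ) ∉ X → (Pi.single e 1 : D → ℕ) ∈ Y := by
    intro e he hn
    have : (Pi.single e 1 : D → ℕ) ∈ X + Y := h ▸ single_mem_K.2 he
    obtain ⟨x, hx, y, hy, hxy⟩ := this
    rcases single_split hxy with h1 | h1
    · exact absurd (h1 ▸ hx) hn
    · exact h1 ▸ hy
  set J := I.filter (fun e => (Pi.single e 1 : D → ℕ) ∈ X) with hJ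
  have hXJ : ∀ x ∈ X, ∀ d, d ∉ J → x d = 0 := by
    intro x hx d hd
    by_cases hI : d ∈ I
    · have h1 : (Pi.single d 1 : D → ℕ) ∉ X := fun hh => hd (Finset.mem_filter.2 ⟨hI, hh⟩)
      have := (hs x hx _ (hor d hI h1) d).1
      simp only [Pi.single_eq_same] at this
      omega
    · have := (hs x hx 0 hY d).2 hI
      omega
  have hYJ : ∀ y ∈ Y, ∀ d, d ∉ I \ J → y d = 0 := by
    intro y hy d hd
    by_cases hI : d ∈ I
    · have h1 : d ∈ J := by
        by_contra hh
        exact hd (Finset.mem_sdiff.2 ⟨hI, hh⟩)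
      have := (hs _ (Finset.mem_filter.1 h1).2 y hy d).1
      simp only [Pi.single_eq_same] at this
      omega
    · have := (hs 0 hX y hy d).2 hI
      omega
  have hJI : J ⊆ I := Finset.filter_subset _ _
  refine ⟨J, hJI, ?_, ?_⟩
  · ext x
    constructor
    · intro hx d
      have := (hs x hx 0 hY d).1
      exact ⟨by omega, hXJ x hx d⟩
    · intro hx
      have : x ∈ X + Y := h ▸ fun d => ⟨(hx d).1, fun hd => (hx d).2 fun hh => hd (hJI hh)⟩
      obtain ⟨u, hu, v, hv, huv⟩ := this
      have hv0 : v = 0 := by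
        funext d
        by_cases hd : d ∈ J
        · exact hYJ v hv d (fun hh => (Finset.mem_sdiff.1 hh).2 hd)
        · have h1 := (hx d).2 hd
          have h2 := congrFun huv d
          simp only [Pi.add_apply] at h2
          simp only [Pi.zero_apply]
          omega
      rw [hv0] at huv
      simp only [add_zero] at huv
      exact huv ▸ hu
  · ext y
    constructor
    · intro hy d
      have := (hs 0 hX y hy d).1
      exact ⟨by omega, hYJ y hy d⟩
    · intro hy
      have : y ∈ X + Y := h ▸ fun d =>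
        ⟨(hy d).1, fun hd => (hy d).2 fun hh => hd (Finset.mem_sdiff.1 hh).1⟩
      obtain ⟨u, hu, v, hv, huv⟩ := this
      have hu0 : u = 0 := by
        funext d
        by_cases hd : d ∈ J
        · have h1 := (hy d).2 (fun hh => (Finset.mem_sdiff.1 hh).2 hd)
          have h2 := congrFun huv d
          simp only [Pi.add_apply] at h2
          simp only [Pi.zero_apply]
          omega
        · exact hXJ u hu d hd
      rw [hu0] at huv
      simp only [zero_add] at huv
      exact huv ▸ hv

theorem atm_K {I : Finset D} : Atm (K I) ↔ I.card = 1 := by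
  constructor
  · rintro ⟨-, h1, h2⟩
    obtain ⟨e, he⟩ : I.Nonempty := by
      rw [Finset.nonempty_iff_ne_empty]
      rintro rfl
      exact h1 K_empty
    have h3 : K {e} + K (I.erase e) = K I := by
      rw [K_add_K (by simp)]
      congr 1
      ext d
      by_cases hd : d = e <;> simp [hd, he]
    rcases h2 _ _ (zero_mem_K _) (zero_mem_K _) h3 with h4 | h4
    · exact absurd h4 (K_ne (Finset.singleton_nonempty e))
    · have h5 : I.erase e = ∅ := by
        by_contra hh
        exact K_ne (Finset.nonempty_iff_ne_empty.2 hh) h4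
      have := Finset.card_erase_add_one he
      rw [h5] at this
      simpa using this.symm
  · intro h
    obtain ⟨e, rfl⟩ := Finset.card_eq_one.1 h
    refine ⟨zero_mem_K _, K_ne (Finset.singleton_nonempty e), fun U V hU hV hUV => ?_⟩
    obtain ⟨J, hJ, rfl, rfl⟩ := K_split hU hV hUV
    rcases Finset.subset_singleton_iff.1 hJ with rfl | rfl
    · exact Or.inl K_empty
    · right
      rw [Finset.sdiff_self]
      exact K_empty

theorem len_K : ∀ (k : ℕ) (I : Finset D), Len k (K I) ↔ k = I.card
  | 0, I => by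
    constructor
    · intro h
      by_contra hh
      exact K_ne (Finset.card_pos.1 (by omega)) h
    · intro h
      rw [Finset.card_eq_zero.1 h.symm]
      exact K_empty
  | k + 1, I => by
    constructor
    · rintro ⟨X, Y, h1, h2, h3⟩
      obtain ⟨J, hJ, rfl, rfl⟩ := K_split h1.zero_mem h2.1 h3
      have h4 := (len_K k J).1 h1
      have h5 := atm_K.1 h2
      have h6 := Finset.card_sdiff_add_card_eq_card hJ
      omega
    · intro h
      obtain ⟨e, he⟩ : I.Nonempty := Finset.card_pos.1 (by omega)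
      have h4 := Finset.card_erase_add_one he
      refine ⟨K (I.erase e), K {e}, (len_K k _).2 (by omega), atm_K.2 (by simp), ?_⟩
      rw [K_add_K (by simp)]
      congr 1
      ext d
      by_cases hd : d = e <;> simp [hd, he]

theorem mem_K_single {x : D → ℕ} {e : D} (h : x ∈ K {e}) : x = 0 ∨ x = Pi.single e 1 := by
  have h1 := (h e).1
  have h2 : ∀ d, d ≠ e → x d = 0 := fun d hd => (h d).2 (by simpa using hd)
  by_cases hx : x e = 0
  · left
    funext d
    by_cases hd : d = e
    · subst hd; exact hx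
    · exact h2 d hd
  · right
    funext d
    by_cases hd : d = e
    · subst hd; simp only [Pi.single_eq_same]; omega
    · simp [hd, h2 d hd]

/-- The cofactor of an edge is unique when no two points differ by three steps along it. -/
theorem edge_cancel {S Y Y' : Set (D → ℕ)} {e : D}
    (hF : ∀ a ∈ S, a + Pi.single e 3 ∉ S) (h1 : K {e} + Y = S) (h2 : K {e} + Y' = S) :
    Y ⊆ Y' := by
  intro y hy
  by_contra hn
  have he : (Pi.single e 1 : D → ℕ) ∈ K {e} := single_mem_K.2 (by simp)
  have a1 : y ∈ K {e} + Y' := by rw [h2, ← h1]; exact sub_right (zero_mem_K _) hy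
  have a2 : Pi.single e 1 + y ∈ K {e} + Y' := by rw [h2, ← h1]; exact Set.add_mem_add he hy
  obtain ⟨u, hu, y1, hy1, e1⟩ := a1
  obtain ⟨v, hv, y2, hy2, e2⟩ := a2
  simp only at e1 e2
  rcases mem_K_single hu with rfl | rfl
  · rw [zero_add] at e1
    exact hn (e1 ▸ hy1)
  rcases mem_K_single hv with rfl | rfl
  · rw [zero_add] at e2
    refine hF y1 (h2 ▸ sub_right (zero_mem_K _) hy1) ?_
    have e3 : y1 + Pi.single e 3 = Pi.single e 1 + y2 := by
      rw [e2, ← e1]
      funext d
      by_cases hd : d = e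
      · subst hd; simp only [Pi.add_apply, Pi.single_eq_same]; omega
      · simp [hd]
    rw [e3, ← h2]
    exact Set.add_mem_add he hy2
  · exact hn (add_left_cancel e2 ▸ hy2)

theorem cube_cancel (I : Finset D) : ∀ {S Y Y' : Set (D → ℕ)},
    (∀ e ∈ I, ∀ a ∈ S, a + Pi.single e 3 ∉ S) → K I + Y = S → K I + Y' = S → Y = Y' := by
  induction I using Finset.induction_on with
  | empty =>
    intro S Y Y' _ h1 h2
    rw [K_empty, sing_add] at h1 h2
    rw [h1, h2]
  | insert e I he ih =>
    intro S Y Y' hF h1 h2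
    have h3 : K (insert e I) = K {e} + K I := by
      rw [K_add_K (by simpa using he)]
      rfl
    rw [h3, add_assoc] at h1 h2
    have h4 := hF e (Finset.mem_insert_self e I)
    have h5 : K I + Y' = K I + Y :=
      Set.Subset.antisymm (edge_cancel h4 h2 h1) (edge_cancel h4 h1 h2)
    have h6 : K I + Y ⊆ S := h1 ▸ sub_right (zero_mem_K _)
    exact ih (fun f hf a ha hh => hF f (Finset.mem_insert_of_mem hf) a (h6 ha) (h6 hh)) rfl h5

end Pool.Agent.Lib.MP_1d41ea_nt.H68
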