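import Mathlib
import Pool.Agent.Lib.MP_1d41ea_nt.H68Cube

set_option autoImplicit false

namespace Pool.Agent.Lib.MP_1d41ea_nt.H68

open scoped Pointwise

/-- A planar set of nine points: rows and columns are intervals of two or three points, and the
point with coordinates 2 and 1 lies in no unit square of the set. -/
def gad (x y : ℕ) : Prop :=
  (x ≤ 1 ∧ y ≤ 1) ∨ (x = 2 ∧ y = 1) ∨ (2 ≤ x ∧ x ≤ 3 ∧ 2 ≤ y ∧ y ≤ 3)

theorem gad_row {x y : ℕ} (h : gad x y) :
    ∃ x', (x' = x ∨ x' + 1 = x) ∧ gad x' y ∧ gad (x' + 1) y := by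
  unfold gad at *
  by_cases h1 : x = 0 ∨ (x = 2 ∧ 2 ≤ y)
  · exact ⟨x, by omega⟩
  · exact ⟨x - 1, by omega⟩

theorem gad_col {x y : ℕ} (h : gad x y) :
    ∃ y', (y' = y ∨ y' + 1 = y) ∧ gad x y' ∧ gad x (y' + 1) := by
  unfold gad at *
  by_cases h1 : y = 0 ∨ y = 2 ∨ (x = 2 ∧ y = 1)
  · exact ⟨y, by omega⟩
  · exact ⟨y - 1, by omega⟩

/-- The data of the construction: a level coordinate `z`, blocks `β`, and levels `lam`. -/
structure Dat (D : Type) where
  z : D
  β : D → ℕ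
  lam : D → D → ℕ
  N : ℕ
  hN : 0 < N
  h1 : ∀ e e', N < lam e e' ∧ lam e e' < 2 * N
  h2 : ∀ e e' f f', lam e e' = lam f f' → e = f ∧ e' = f'

variable {D : Type} [Fintype D] [DecidableEq D] (c : Dat D)

def Dat.Bad (e e' : D) : Prop := e ≠ c.z ∧ e' ≠ c.z ∧ c.β e ≠ c.β e'

def Dat.A : Set (D → ℕ) :=
  {x | ((x c.z = 0 ∨ x c.z = c.N) ∧ ∀ f, f ≠ c.z → x f ≤ 1) ∨
    ∃ e e', c.Bad e e' ∧ x c.z = c.lam e e' ∧ gad (x e) (x e') ∧
      ∀ f, f ≠ c.z → f ≠ e → f ≠ e' → x f ≤ 1}

def Dat.R (I : Finset D) : Set (D → ℕ) := {y | ∀ u ∈ K I, u + y ∈ c.A}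

def Dat.Good (I : Finset D) : Prop := c.z ∉ I ∧ ∀ e ∈ I, ∀ e' ∈ I, c.β e = c.β e'

def Dat.Mx (I : Finset D) : Prop :=
  c.Good I ∧ ∀ f, f ≠ c.z → (∀ e ∈ I, c.β e = c.β f) → f ∈ I

set_option linter.unusedSectionVars false

namespace Dat

theorem Bad.ne {c : Dat D} {e e' : D} (h : c.Bad e e') : e ≠ e' := by
  rintro rfl
  exact h.2.2 rfl

theorem lev0 {x : D → ℕ} (hx : x ∈ c.A) (h0 : x c.z = 0) : x ∈ K (Finset.univ.erase c.z) := by
  rcases hx with ⟨-, h⟩ | ⟨e, e', -, h, -⟩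
  · intro d
    by_cases hd : d = c.z
    · subst hd
      exact ⟨by omega, fun _ => h0⟩
    · exact ⟨h d hd, fun hh => absurd (by simp [hd]) hh⟩
  · have := c.h1 e e'
    omega

theorem K_sub {I : Finset D} (hI : c.z ∉ I) : K I ⊆ c.A :=
  fun _ hx => Or.inl ⟨Or.inl ((hx c.z).2 hI), fun f _ => (hx f).1⟩

theorem levels {x : D → ℕ} (hx : x ∈ c.A) :
    x c.z = 0 ∨ (c.N ≤ x c.z ∧ x c.z < 2 * c.N) := by
  have := c.hN
  rcases hx with ⟨h, -⟩ | ⟨e, e', -, h, -⟩
  · omega
  · have := c.h1 e e'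
    omega

theorem level {X Y : Set (D → ℕ)} (h : X + Y ⊆ c.A) (hX : 0 ∈ X) (hY : 0 ∈ Y) :
    (∀ x ∈ X, x c.z = 0) ∨ ∀ y ∈ Y, y c.z = 0 := by
  by_contra hh
  push Not at hh
  obtain ⟨⟨x, hx, hx0⟩, y, hy, hy0⟩ := hh
  have h1 := c.levels (h (sub_left hY hx))
  have h2 := c.levels (h (sub_right hX hy))
  have h3 := c.levels (h (Set.add_mem_add hx hy))
  simp only [Pi.add_apply] at h3
  omega

theorem gad_of {x : D → ℕ} {e e' : D} (hx : x ∈ c.A) (h : x c.z = c.lam e e') :
    gad (x e) (x e') := by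
  rcases hx with ⟨h1, -⟩ | ⟨f, f', -, h1, h2, -⟩
  · have := c.h1 e e'
    omega
  · obtain ⟨rfl, rfl⟩ := c.h2 e e' f f' (h.symm.trans h1)
    exact h2

theorem noThree {f : D} (hf : f ≠ c.z) (a : D → ℕ) (ha : a ∈ c.A) :
    a + Pi.single f 3 ∉ c.A := by
  intro hb
  rcases hb with ⟨-, h⟩ | ⟨e, e', hB, h1, h2, h3⟩
  · have := h f hf
    simp only [Pi.add_apply, Pi.single_eq_same] at this
    omega
  · simp only [Pi.add_apply, Pi.single_eq_of_ne hf.symm, add_zero] at h1
    have h4 := c.gad_of ha h1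
    by_cases he : f = e
    · subst he
      simp only [Pi.add_apply, Pi.single_eq_same, Pi.single_eq_of_ne hB.ne.symm] at h2
      unfold gad at h2 h4
      omega
    by_cases he' : f = e'
    · subst he'
      simp only [Pi.add_apply, Pi.single_eq_same, Pi.single_eq_of_ne hB.ne] at h2
      unfold gad at h2 h4
      omega
    have := h3 f hf he he'
    simp only [Pi.add_apply, Pi.single_eq_same] at this
    omega

theorem top_mem : (Pi.single c.z c.N : D → ℕ) ∈ c.A :=
  Or.inl ⟨Or.inr (by simp), fun f hf => by simp [hf]⟩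

theorem zero_mem : (0 : D → ℕ) ∈ c.A := c.K_sub (Finset.notMem_empty _) (zero_mem_K ∅)

theorem bound {x : D → ℕ} (hx : x ∈ c.A) (d : D) : x d ≤ 2 * c.N + 3 := by
  by_cases hd : d = c.z
  · subst hd
    have := c.levels hx
    omega
  rcases hx with ⟨-, h⟩ | ⟨e, e', -, -, h2, h3⟩
  · have := h d hd
    omega
  · unfold gad at h2
    by_cases he : d = e
    · subst he; omega
    by_cases he' : d = e'
    · subst he'; omega
    have := h3 d hd he he'
    omega

theorem KR {I : Finset D} (hI : c.Good I) : K I + c.R I = c.A := by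
  ext a
  constructor
  · rintro ⟨u, hu, y, hy, rfl⟩
    exact hy u hu
  intro ha
  have hz : ∀ d ∈ I, d ≠ c.z := fun d hd hh => hI.1 (hh ▸ hd)
  rcases ha with ⟨h1, h2⟩ | ⟨e, e', hB, h1, h2, h3⟩
  · refine ⟨fun d => if d ∈ I then a d else 0, fun d => ?_, fun d => if d ∈ I then 0 else a d,
      fun u hu => Or.inl ⟨?_, fun f hf => ?_⟩, ?_⟩
    · by_cases hd : d ∈ I
      · simp [hd, h2 d (hz d hd)]
      · simp [hd]
    · simpa [hI.1, (hu c.z).2 hI.1] using h1
    · by_cases hd : f ∈ I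
      · simp [hd, (hu f).1]
      · simp [hd, (hu f).2 hd, h2 f hf]
    · funext d
      by_cases hd : d ∈ I <;> simp [hd]
  · obtain ⟨x', hx1, hx2, hx3⟩ := gad_row h2
    obtain ⟨y', hy1, hy2, hy3⟩ := gad_col h2
    have hne := hB.ne
    have hnb : e ∈ I → e' ∉ I := fun h4 h5 => hB.2.2 (hI.2 e h4 e' h5)
    refine ⟨fun d => if d ∈ I then (if d = e then a d - x' else if d = e' then a d - y' else a d)
      else 0, fun d => ?_,
      fun d => if d ∈ I then (if d = e then x' else if d = e' then y' else 0) else a d,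
      fun u hu => Or.inr ⟨e, e', hB, ?_, ?_, fun f hf hfe hfe' => ?_⟩, ?_⟩
    · by_cases hd : d ∈ I
      · refine ⟨?_, fun hh => absurd hd hh⟩
        simp only [hd, if_true]
        split_ifs with h4 h5
        · subst h4; omega
        · subst h5; omega
        · exact h3 d (hz d hd) h4 h5
      · simp [hd]
    · simpa [hI.1, (hu c.z).2 hI.1] using h1
    · have u1 := hu e
      have u2 := hu e'
      by_cases he : e ∈ I
      · have he' := hnb he
        simp only [Pi.add_apply, he, he', if_true, if_false, u2.2 he', zero_add]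
        rcases Nat.le_one_iff_eq_zero_or_eq_one.1 u1.1 with h4 | h4
        · rw [h4, zero_add]; exact hx2
        · rw [h4, add_comm]; exact hx3
      · by_cases he' : e' ∈ I
        · simp only [Pi.add_apply, he, he', hne.symm, if_true, if_false, u1.2 he, zero_add]
          rcases Nat.le_one_iff_eq_zero_or_eq_one.1 u2.1 with h4 | h4
          · rw [h4, zero_add]; exact hy2
          · rw [h4, add_comm]; exact hy3
        · simpa [he, he', u1.2 he, u2.2 he'] using h2
    · by_cases hd : f ∈ I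
      · simp [hd, hfe, hfe', (hu f).1]
      · simp [hd, (hu f).2 hd, h3 f hf hfe hfe']
    · funext d
      by_cases hd : d ∈ I
      · simp only [Pi.add_apply, hd, if_true]
        split_ifs with h4 h5
        · subst h4; omega
        · subst h5; omega
        · rfl
      · simp [hd]

theorem cancel {I : Finset D} (hI : c.Good I) {Y : Set (D → ℕ)} (h : K I + Y = c.A) :
    Y = c.R I :=
  cube_cancel I (fun _ he => c.noThree (fun hh => hI.1 (hh ▸ he))) h (c.KR hI)

/-- Every splitting of `A` whose first part has level zero is a cube inside one block. -/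
theorem struct {X Y : Set (D → ℕ)} (hX : 0 ∈ X) (hY : 0 ∈ Y) (h : X + Y = c.A)
    (hz : ∀ x ∈ X, x c.z = 0) : ∃ I, c.Good I ∧ X = K I ∧ Y = c.R I := by
  have h0 : X + {y | y ∈ Y ∧ y c.z = 0} = K (Finset.univ.erase c.z) := by
    ext a
    constructor
    · rintro ⟨x, hx, y, hy, rfl⟩
      refine c.lev0 (h ▸ Set.add_mem_add hx hy.1) ?_
      simp [hz x hx, hy.2]
    · intro ha
      have h1 : a ∈ X + Y := h ▸ c.K_sub (by simp) ha
      obtain ⟨x, hx, y, hy, rfl⟩ := h1
      refine ⟨x, hx, y, ⟨hy, ?_⟩, rfl⟩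
      have := (ha c.z).2 (by simp)
      simp only [Pi.add_apply] at this
      omega
  obtain ⟨I, hI, rfl, -⟩ := K_split hX (show (0 : D → ℕ) ∈ {y | y ∈ Y ∧ y c.z = 0} from ⟨hY, rfl⟩) h0
  have hzI : c.z ∉ I := fun hh => by simpa using hI hh
  have hG : c.Good I := by
    refine ⟨hzI, fun e he e' he' => ?_⟩
    by_contra hne
    have hB : c.Bad e e' := ⟨fun hh => hzI (hh ▸ he), fun hh => hzI (hh ▸ he'), hne⟩
    have hee := hB.ne
    have h1 : (fun d => if d = c.z then c.lam e e' else if d = e then 2 else if d = e' then 1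
        else 0) ∈ K I + Y := by
      rw [h]
      refine Or.inr ⟨e, e', hB, by simp, ?_, fun f h1 h2 h3 => by simp [h1, h2, h3]⟩
      simp [hB.1, hB.2.1, hee.symm, gad]
    obtain ⟨u, hu, y, hy, huy⟩ := h1
    have a1 := congrFun huy c.z
    have a2 := congrFun huy e
    have a3 := congrFun huy e'
    simp only [Pi.add_apply, if_true, hB.1, hB.2.1, hee.symm, if_false, (hu c.z).2 hzI,
      zero_add] at a1 a2 a3
    have key : ∀ v ∈ K I, gad (v e + y e) (v e' + y e') := fun v hv =>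
      c.gad_of (x := v + y) (h ▸ Set.add_mem_add hv hy) (by simp [(hv c.z).2 hzI, a1])
    have b1 := key 0 (zero_mem_K I)
    have b2 := key _ (single_mem_K.2 he)
    have b3 := key _ (single_mem_K.2 he')
    have b4 := key (fun d => if d ∈ I then 1 else 0) (fun d => by
      by_cases hd : d ∈ I <;> simp [hd])
    simp only [Pi.zero_apply, Pi.single_eq_same, Pi.single_eq_of_ne hee,
      Pi.single_eq_of_ne hee.symm, he, he', if_true] at b1 b2 b3 b4
    have u1 := (hu e).1
    have u2 := (hu e').1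
    unfold gad at b1 b2 b3 b4
    omega
  exact ⟨I, hG, rfl, c.cancel hG h⟩

theorem R_zero {I : Finset D} (hI : c.Good I) : (0 : D → ℕ) ∈ c.R I :=
  fun u hu => by rw [add_zero]; exact c.K_sub hI.1 hu

theorem R_ne {I : Finset D} (hI : c.Good I) : c.R I ≠ {0} := by
  intro h
  have h1 := c.KR hI
  rw [h, add_sing] at h1
  have h2 : (Pi.single c.z c.N : D → ℕ) ∈ K I := h1 ▸ c.top_mem
  have := (h2 c.z).2 hI.1
  have := c.hN
  simp only [Pi.single_eq_same] at *
  omega

/-- Splitting a cofactor. -/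
theorem R_split {I : Finset D} (hI : c.Good I) {X Y : Set (D → ℕ)} (hX : 0 ∈ X) (hY : 0 ∈ Y)
    (h : X + Y = c.R I) (hz : ∀ x ∈ X, x c.z = 0) :
    ∃ J, I ⊆ J ∧ c.Good J ∧ X = K (J \ I) ∧ Y = c.R J := by
  have h1 : (K I + X) + Y = c.A := by rw [add_assoc, h, c.KR hI]
  obtain ⟨J, hJ, h2, h3⟩ := c.struct (zero_mem_add (zero_mem_K I) hX) hY h1 (by
    rintro _ ⟨u, hu, x, hx, rfl⟩
    simp [(hu c.z).2 hI.1, hz x hx])
  obtain ⟨I', h4, h5, h6⟩ := K_split (zero_mem_K I) hX h2
  obtain rfl : I = I' := Finset.Subset.antisymm (K_inj h5.subset) (K_inj h5.symm.subset)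
  exact ⟨J, h4, hJ, h6, h3⟩

theorem R_sub {I : Finset D} : c.R I ⊆ c.A := fun y hy => by
  simpa using hy 0 (zero_mem_K I)

theorem Mx.eq {c : Dat D} {I J : Finset D} (hI : c.Mx I) (hJ : c.Good J) (h : I ⊆ J) : J = I :=
  Finset.Subset.antisymm
    (fun f hf => hI.2 f (fun hh => hJ.1 (hh ▸ hf)) fun e he => hJ.2 e (h he) f hf) h

theorem atm_R {I : Finset D} (hI : c.Good I) : Atm (c.R I) ↔ c.Mx I := by
  constructor
  · rintro ⟨-, -, h⟩
    refine ⟨hI, fun f hf hb => ?_⟩
    by_contra hn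
    have hG : c.Good (insert f I) := by
      refine ⟨by simp [hI.1, hf.symm], fun e he e' he' => ?_⟩
      rcases Finset.mem_insert.1 he with rfl | h1 <;> rcases Finset.mem_insert.1 he' with rfl | h2
      · rfl
      · exact (hb _ h2).symm
      · exact hb _ h1
      · exact hI.2 _ h1 _ h2
    have h1 : K I + (K {f} + c.R (insert f I)) = c.A := by
      rw [← add_assoc, K_add_K (by simpa using hn), ← c.KR hG]
      congr 2
      ext d
      simp
    rcases h _ _ (zero_mem_K _) (c.R_zero hG) (c.cancel hI h1) with h2 | h2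
    · exact K_ne (Finset.singleton_nonempty f) h2
    · exact c.R_ne hG h2
  · intro hM
    have key : ∀ U V : Set (D → ℕ), 0 ∈ U → 0 ∈ V → U + V = c.R I → (∀ x ∈ U, x c.z = 0) →
        U = {0} := by
      intro U V hU hV h hz
      obtain ⟨J, h1, h2, h3, -⟩ := c.R_split hI hU hV h hz
      rw [h3, hM.eq h2 h1, Finset.sdiff_self, K_empty]
    refine ⟨c.R_zero hI, c.R_ne hI, fun U V hU hV h => ?_⟩
    rcases c.level (h ▸ c.R_sub) hU hV with h1 | h1
    · exact Or.inl (key U V hU hV h h1)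
    · exact Or.inr (key V U hV hU (by rw [add_comm, h]) h1)

theorem len_R : ∀ (k : ℕ) (I : Finset D), c.Good I → Len k (c.R I) →
    ∃ J, c.Mx J ∧ k + I.card = J.card + 1
  | 0, _, hI, h => absurd h (c.R_ne hI)
  | k + 1, I, hI, ⟨X, Y, h1, h2, h3⟩ => by
    rcases c.level (h3 ▸ c.R_sub) h1.zero_mem h2.1 with h4 | h4
    · obtain ⟨J, a1, a2, rfl, rfl⟩ := c.R_split hI h1.zero_mem h2.1 h3 h4
      have b1 := (len_K _ _).1 h1
      have b2 := Finset.card_sdiff_add_card_eq_card a1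
      exact ⟨J, (c.atm_R a2).1 h2, by omega⟩
    · obtain ⟨J, a1, a2, rfl, rfl⟩ :=
        c.R_split hI h2.1 h1.zero_mem (by rw [add_comm, h3]) h4
      have b1 := atm_K.1 h2
      have b2 := Finset.card_sdiff_add_card_eq_card a1
      obtain ⟨J', b3, b4⟩ := len_R k J a2 h1
      exact ⟨J', b3, by omega⟩

theorem len_A (k : ℕ) : Len k c.A ↔ ∃ J, c.Mx J ∧ k = J.card + 1 := by
  constructor
  · intro h
    have hG : c.Good ∅ := ⟨Finset.notMem_empty _, by simp⟩
    have h1 : c.A = c.R ∅ := c.cancel hG (by rw [K_empty, sing_add])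
    rw [h1] at h
    simpa using c.len_R k ∅ hG h
  · rintro ⟨J, hJ, rfl⟩
    exact ⟨K J, c.R J, (len_K _ _).2 rfl, (c.atm_R hJ.1).2 hJ, c.KR hJ.1⟩

theorem mx_iff (h0 : ∃ e, e ≠ c.z) (J : Finset D) :
    c.Mx J ↔ ∃ e, e ≠ c.z ∧ J = Finset.univ.filter (fun f => f ≠ c.z ∧ c.β f = c.β e) := by
  constructor
  · intro hJ
    obtain ⟨e, he⟩ : J.Nonempty := by
      rw [Finset.nonempty_iff_ne_empty]
      rintro rfl
      obtain ⟨e, he⟩ := h0
      simpa using hJ.2 e he (by simp)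
    refine ⟨e, fun hh => hJ.1.1 (hh ▸ he), ?_⟩
    ext f
    simp only [Finset.mem_filter, Finset.mem_univ, true_and]
    exact ⟨fun hf => ⟨fun hh => hJ.1.1 (hh ▸ hf), hJ.1.2 f hf e he⟩,
      fun hf => hJ.2 f hf.1 fun e' he' => (hJ.1.2 e' he' e he).trans hf.2.symm⟩
  · rintro ⟨e, he, rfl⟩
    refine ⟨⟨by simp, fun f hf f' hf' => ?_⟩, fun f hf hb => ?_⟩
    · simp only [Finset.mem_filter] at hf hf'
      exact hf.2.2.trans hf'.2.2.symm
    · simp only [Finset.mem_filter, Finset.mem_univ, true_and] at hb ⊢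
      exact ⟨hf, (hb e ⟨he, rfl⟩).symm⟩

theorem rigid_aux {X Y X' Y' : Set (D → ℕ)} (hX : 0 ∈ X) (hY : 0 ∈ Y) (h1 : X ⊆ X')
    (h2 : Y ⊆ Y') (h : X + Y = c.A) (h' : X' + Y' = c.A) (hz : ∀ x ∈ X', x c.z = 0) :
    X = X' ∧ Y = Y' := by
  obtain ⟨I, hI, rfl, rfl⟩ := c.struct hX hY h (fun x hx => hz x (h1 hx))
  obtain ⟨J, hJ, rfl, rfl⟩ := c.struct (h1 hX) (h2 hY) h' hz
  obtain rfl : I = J := by
    refine Finset.Subset.antisymm (K_inj h1) fun f hf => ?_
    by_contra hn
    have hfz : f ≠ c.z := fun hh => hJ.1 (hh ▸ hf)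
    have a1 : (Pi.single f 1 : D → ℕ) ∈ c.R I := by
      intro u hu
      refine c.K_sub (I := I ∪ {f}) (by simp [hI.1, hfz.symm]) ?_
      rw [← K_add_K (by simpa using hn)]
      exact Set.add_mem_add hu (single_mem_K.2 (by simp))
    have a2 := h2 a1 _ (single_mem_K.2 hf)
    have a3 := (c.lev0 a2 (by simp [hfz.symm]) f).1
    simp at a3
  exact ⟨rfl, rfl⟩

/-- Two nested splittings of `A` coincide. -/
theorem rigid {X Y X' Y' : Set (D → ℕ)} (hX : 0 ∈ X) (hY : 0 ∈ Y) (h1 : X ⊆ X')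
    (h2 : Y ⊆ Y') (h : X + Y = c.A) (h' : X' + Y' = c.A) : X = X' := by
  rcases c.level h'.subset (h1 hX) (h2 hY) with hz | hz
  · exact (c.rigid_aux hX hY h1 h2 h h' hz).1
  · exact (c.rigid_aux hY hX h2 h1 (by rw [add_comm, h]) (by rw [add_comm, h']) hz).2

end Dat

/-- Every finite nonempty set of integers `≥ 2` is the set of lengths of some `A`. -/
theorem exists_dat (L : Finset ℕ) (hL : L.Nonempty) (h2 : ∀ l ∈ L, 2 ≤ l) :
    ∃ c : Dat (Option (Σ l : L, Fin (l.1 - 1))), ∀ k, Len k c.A ↔ k ∈ L := by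
  classical
  let D := Option (Σ l : L, Fin (l.1 - 1))
  let c : Dat D :=
    { z := none
      β := fun d => d.elim 0 fun e => e.1.1
      lam := fun e e' => Fintype.card (D × D) + 2 + (Fintype.equivFin (D × D) (e, e')).1
      N := Fintype.card (D × D) + 1
      hN := Nat.succ_pos _
      h1 := fun e e' => by
        have := (Fintype.equivFin (D × D) (e, e')).2
        omega
      h2 := fun e e' f f' h => by
        have h1 : Fintype.equivFin (D × D) (e, e') = Fintype.equivFin (D × D) (f, f') :=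
          Fin.ext (by omega)
        simpa using (Fintype.equivFin (D × D)).injective h1 }
  have hcard : ∀ l : L, (Finset.univ.filter (fun f : D => f ≠ c.z ∧ c.β f = l.1)).card
      = l.1 - 1 := by
    intro l
    have : Finset.univ.filter (fun f : D => f ≠ c.z ∧ c.β f = l.1) =
        Finset.univ.image (fun i : Fin (l.1 - 1) => (some ⟨l, i⟩ : D)) := by
      ext f
      simp only [Finset.mem_filter, Finset.mem_univ, true_and, Finset.mem_image]
      constructor
      · rintro ⟨h3, h4⟩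
        cases f with
        | none => exact absurd rfl h3
        | some e =>
          obtain ⟨l', i⟩ := e
          obtain rfl : l' = l := Subtype.ext h4
          exact ⟨i, rfl⟩
      · rintro ⟨i, rfl⟩
        exact ⟨Option.some_ne_none _, rfl⟩
    rw [this, Finset.card_image_of_injective, Finset.card_univ, Fintype.card_fin]
    intro i j hij
    have h3 := Option.some.inj hij
    simpa using h3
  have hex : ∀ l : L, ∃ e : D, e ≠ c.z ∧ c.β e = l.1 := fun l =>
    ⟨some ⟨l, ⟨0, by have := h2 l.1 l.2; omega⟩⟩, Option.some_ne_none _, rfl⟩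
  have h0 : ∃ e : D, e ≠ c.z := by
    obtain ⟨l, hl⟩ := hL
    obtain ⟨e, he, -⟩ := hex ⟨l, hl⟩
    exact ⟨e, he⟩
  refine ⟨c, fun k => ?_⟩
  rw [c.len_A]
  constructor
  · rintro ⟨J, hJ, rfl⟩
    obtain ⟨e, he, rfl⟩ := (c.mx_iff h0 J).1 hJ
    cases e with
    | none => exact absurd rfl he
    | some e =>
      have h3 := hcard e.1
      have h4 := h2 e.1.1 e.1.2
      have h5 : c.β (some e) = e.1.1 := rfl
      rw [h5, h3, Nat.sub_add_cancel (by omega)]
      exact e.1.2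
  · intro hk
    obtain ⟨e, he, hb⟩ := hex ⟨k, hk⟩
    refine ⟨_, (c.mx_iff h0 _).2 ⟨e, he, rfl⟩, ?_⟩
    have h3 := hcard ⟨k, hk⟩
    have h4 := h2 k hk
    rw [hb, h3]
    simp only
    omega

end Pool.Agent.Lib.MP_1d41ea_nt.H68
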