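import Mathlib
import Pool.Agent.Lib.MP_1d41ea_nt.H68Set

set_option autoImplicit false

namespace Pool.Agent.Lib.MP_1d41ea_nt.H68

open scoped Pointwise

/-- `n` is the lunar product of `a` and `c` in base `b`. -/
def LP (b a c n : ℕ) : Prop :=
  ∀ m : ℕ, n / b ^ m % b =
    (Finset.range (m + 1)).sup (fun i => min (a / b ^ i % b) (c / b ^ (m - i) % b))

/-- `n` is a lunar prime in base `b`. -/
def LPrime (b n : ℕ) : Prop := n ≠ b - 1 ∧ ∀ a c : ℕ, LP b a c n → a = b - 1 ∨ c = b - 1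

/-- `n` is a lunar product of `k` lunar primes in base `b`. -/
def Ch (b k n : ℕ) : Prop :=
  ∃ p s : ℕ → ℕ, s 0 = b - 1 ∧ s k = n ∧ ∀ j < k, LPrime b (p j) ∧ LP b (s j) (p j) (s (j + 1))

theorem ch_zero {b n : ℕ} : Ch b 0 n ↔ n = b - 1 := by
  constructor
  · rintro ⟨p, s, h1, h2, -⟩
    rw [← h2, h1]
  · rintro rfl
    exact ⟨fun _ => 0, fun _ => b - 1, rfl, rfl, fun j hj => absurd hj (Nat.not_lt_zero j)⟩

theorem ch_succ {b k n : ℕ} :
    Ch b (k + 1) n ↔ ∃ a q, Ch b k a ∧ LPrime b q ∧ LP b a q n := by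
  constructor
  · rintro ⟨p, s, h1, h2, h3⟩
    exact ⟨s k, p k, ⟨p, s, h1, rfl, fun j hj => h3 j (by omega)⟩, (h3 k (by omega)).1,
      h2 ▸ (h3 k (by omega)).2⟩
  · rintro ⟨a, q, ⟨p, s, h1, h2, h3⟩, h4, h5⟩
    refine ⟨fun j => if j = k then q else p j, fun j => if j = k + 1 then n else s j,
      by simpa using h1, by simp, fun j hj => ?_⟩
    by_cases hk : j = k
    · subst hk
      simpa [h2] using ⟨h4, h5⟩
    · have h6 : j ≠ k + 1 := by omega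
      simpa [hk, h6] using h3 j (by omega)

theorem exists_digits {b : ℕ} (hb : 2 ≤ b) : ∀ (B : ℕ) (f : ℕ → ℕ), (∀ m, f m < b) →
    (∀ m, B ≤ m → f m = 0) → ∃ n, ∀ m, n / b ^ m % b = f m
  | 0, f, _, h => ⟨0, fun m => by simp [h m (Nat.zero_le m)]⟩
  | B + 1, f, h1, h2 => by
    obtain ⟨n, hn⟩ := exists_digits hb B (fun m => f (m + 1)) (fun m => h1 _)
      (fun m hm => h2 _ (by omega))
    refine ⟨f 0 + b * n, fun m => ?_⟩
    cases m with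
    | zero => simp [Nat.mod_eq_of_lt (h1 0)]
    | succ m =>
      rw [pow_succ', ← Nat.div_div_eq_div_mul, Nat.add_mul_div_left _ _ (by omega),
        Nat.div_eq_of_lt (h1 0), zero_add, hn]

theorem eq_of_digits {b n n' : ℕ} (hb : 2 ≤ b) (h : ∀ m, n / b ^ m % b = n' / b ^ m % b) :
    n = n' := by
  have h1 : ∀ m, n % b ^ m = n' % b ^ m := by
    intro m
    induction m with
    | zero => simp [Nat.mod_one]
    | succ m ih => rw [Nat.mod_pow_succ, Nat.mod_pow_succ, ih, h]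
  have h2 := h1 (n + n')
  have h3 : n + n' < b ^ (n + n') := Nat.lt_pow_self (by omega)
  rwa [Nat.mod_eq_of_lt (by omega), Nat.mod_eq_of_lt (by omega)] at h2

/-- The digits of `n` are `b - 1` on `T` and `0` elsewhere. -/
def Rep (b : ℕ) (T : Set ℕ) (n : ℕ) : Prop :=
  ∀ m, (m ∈ T → n / b ^ m % b = b - 1) ∧ (m ∉ T → n / b ^ m % b = 0)

theorem exists_rep {b : ℕ} (hb : 2 ≤ b) {T : Set ℕ} {B : ℕ} (hT : ∀ m ∈ T, m < B) :
    ∃ n, Rep b T n := by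
  classical
  obtain ⟨n, hn⟩ := exists_digits hb B (fun m => if m ∈ T then b - 1 else 0)
    (fun m => by split_ifs <;> omega)
    (fun m hm => if_neg fun hh => absurd (hT m hh) (by omega))
  exact ⟨n, fun m => ⟨fun h => by rw [hn, if_pos h], fun h => by rw [hn, if_neg h]⟩⟩

theorem rep_unit {b : ℕ} (hb : 2 ≤ b) : Rep b {0} (b - 1) := by
  intro m
  constructor
  · rintro rfl
    simp [Nat.mod_eq_of_lt (show b - 1 < b by omega)]
  · intro hm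
    have h1 : b ^ 1 ≤ b ^ m := Nat.pow_le_pow_right (by omega) (Nat.pos_of_ne_zero hm)
    rw [pow_one] at h1
    rw [Nat.div_eq_of_lt (by omega), Nat.zero_mod]

theorem Rep.eq_unit {b n : ℕ} (hb : 2 ≤ b) {T : Set ℕ} (h : Rep b T n) :
    n = b - 1 ↔ T = {0} := by
  constructor
  · rintro rfl
    ext m
    have h1 := h m
    have h2 := rep_unit hb m
    by_cases a1 : m ∈ T <;> by_cases a2 : m ∈ ({0} : Set ℕ)
    · exact iff_of_true a1 a2
    · have := h1.1 a1; have := h2.2 a2; omega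
    · have := h1.2 a1; have := h2.1 a2; omega
    · exact iff_of_false a1 a2
  · rintro rfl
    refine eq_of_digits hb fun m => ?_
    by_cases a2 : m ∈ ({0} : Set ℕ)
    · rw [(h m).1 a2, (rep_unit hb m).1 a2]
    · rw [(h m).2 a2, (rep_unit hb m).2 a2]

theorem Rep.lp {b a c n : ℕ} (hb : 2 ≤ b) {X Y : Set ℕ} (ha : Rep b X a) (hc : Rep b Y c)
    (hn : Rep b (X + Y) n) : LP b a c n := by
  intro m
  by_cases hm : m ∈ X + Y
  · rw [(hn m).1 hm]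
    obtain ⟨i, hi, j, hj, rfl⟩ := hm
    refine le_antisymm ?_ (Finset.sup_le fun i _ => ?_)
    · refine le_trans ?_ (Finset.le_sup (f := fun i' => min (a / b ^ i' % b)
        (c / b ^ (i + j - i') % b)) (b := i) (Finset.mem_range.2 (by simp only; omega)))
      simp only [Nat.add_sub_cancel_left, (ha i).1 hi, (hc j).1 hj, min_self, le_refl]
    · have := Nat.mod_lt (a / b ^ i) (show 0 < b by omega)
      exact le_trans (min_le_left _ _) (by omega)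
  · rw [(hn m).2 hm]
    refine le_antisymm (Nat.zero_le _) (Finset.sup_le fun i hi => ?_)
    have hi' := Finset.mem_range.1 hi
    by_cases a1 : i ∈ X
    · have a2 : m - i ∉ Y := fun hh => hm ⟨i, a1, m - i, hh, by simp only; omega⟩
      rw [(hc _).2 a2]
      exact min_le_right _ _
    · rw [(ha _).2 a1]
      exact min_le_left _ _

theorem LP.cut {b a c n t : ℕ} {T : Set ℕ} (h : LP b a c n) (hn : Rep b T n) (h1 : 0 < t)
    (h2 : t ≤ b - 1) : {i | t ≤ a / b ^ i % b} + {j | t ≤ c / b ^ j % b} = T := by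
  ext m
  have h3 : m ∈ T ↔ t ≤ n / b ^ m % b := by
    by_cases hm : m ∈ T
    · rw [(hn m).1 hm]; exact iff_of_true hm h2
    · rw [(hn m).2 hm]; exact iff_of_false hm (by omega)
  rw [h3, h m, Finset.le_sup_iff (show ⊥ < t from h1)]
  constructor
  · rintro ⟨i, hi, j, hj, rfl⟩
    refine ⟨i, Finset.mem_range.2 (by simp only; omega), le_min hi ?_⟩
    simp only [Nat.add_sub_cancel_left]
    exact hj
  · rintro ⟨i, hi, h4⟩
    have hi' := Finset.mem_range.1 hi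
    exact ⟨i, (le_min_iff.1 h4).1, m - i, (le_min_iff.1 h4).2, by simp only; omega⟩

section Transfer

variable {M : Type} [AddCommMonoid M] {A : Set M} {ψ : M →+ ℕ} {b B : ℕ}

/-- Divisors of `A`. -/
def Dv (A Z : Set M) : Prop := 0 ∈ Z ∧ ∃ W : Set M, 0 ∈ W ∧ Z + W = A

theorem Dv.sub {Z : Set M} (h : Dv A Z) : Z ⊆ A := by
  obtain ⟨-, W, h1, rfl⟩ := h
  exact sub_left h1

theorem Dv.left {X Y : Set M} (h : Dv A (X + Y)) (hX : 0 ∈ X) (hY : 0 ∈ Y) : Dv A X := by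
  obtain ⟨-, W, h1, h2⟩ := h
  exact ⟨hX, Y + W, zero_mem_add hY h1, by rw [← add_assoc, h2]⟩

theorem Dv.right {X Y : Set M} (h : Dv A (X + Y)) (hX : 0 ∈ X) (hY : 0 ∈ Y) : Dv A Y :=
  Dv.left (by rwa [add_comm]) hY hX

theorem lift (hψ : Set.InjOn ψ (A + A)) {Z : Set M} (hZ : Dv A Z) {U V : Set ℕ}
    (h : U + V = ψ '' Z) :
    0 ∈ Z ∩ ψ ⁻¹' U ∧ 0 ∈ Z ∩ ψ ⁻¹' V ∧ Z ∩ ψ ⁻¹' U + Z ∩ ψ ⁻¹' V = Z ∧
      ψ '' (Z ∩ ψ ⁻¹' U) = U ∧ ψ '' (Z ∩ ψ ⁻¹' V) = V := by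
  have h0 : (0 : ℕ) ∈ U + V := h ▸ ⟨0, hZ.1, map_zero ψ⟩
  obtain ⟨u, hu, v, hv, huv⟩ := h0
  obtain rfl : u = 0 := by simp only at huv; omega
  obtain rfl : v = 0 := by simp only at huv; omega
  have hU : ψ '' (Z ∩ ψ ⁻¹' U) = U := by
    rw [Set.image_inter_preimage, ← h]
    exact Set.inter_eq_right.2 (sub_left hv)
  have hV : ψ '' (Z ∩ ψ ⁻¹' V) = V := by
    rw [Set.image_inter_preimage, ← h]
    exact Set.inter_eq_right.2 (sub_right hu)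
  refine ⟨⟨hZ.1, by simpa using hu⟩, ⟨hZ.1, by simpa using hv⟩, ?_, hU, hV⟩
  refine (hψ.image_eq_image_iff ?_ ?_).1 ?_
  · exact Set.add_subset_add (fun x hx => hZ.sub hx.1) fun x hx => hZ.sub hx.1
  · exact fun x hx => sub_left (hZ.sub hZ.1) (hZ.sub hx)
  · rw [Set.image_add, hU, hV, h]

theorem img_unit (hψ : Set.InjOn ψ (A + A)) {Z : Set M} (hZ : Dv A Z) :
    ψ '' Z = {0} ↔ Z = {0} := by
  have h0 : ψ '' ({0} : Set M) = {0} := by simp
  rw [← h0]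
  refine hψ.image_eq_image_iff (fun x hx => sub_left (hZ.sub hZ.1) (hZ.sub hx)) ?_
  rintro x rfl
  exact zero_mem_add (hZ.sub hZ.1) (hZ.sub hZ.1)

/-- Nested splittings coincide. -/
def Rigid (A : Set M) : Prop :=
  ∀ X Y X' Y' : Set M, 0 ∈ X → 0 ∈ Y → X ⊆ X' → Y ⊆ Y' → X + Y = A → X' + Y' = A → X = X'

theorem Rigid.dv (hR : Rigid A) {Z : Set M} (hZ : Dv A Z) : Rigid Z := by
  obtain ⟨-, W, h1, h2⟩ := hZ
  intro X Y X' Y' a1 a2 a3 a4 a5 a6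
  exact hR X (Y + W) X' (Y' + W) a1 (zero_mem_add a2 h1) a3 (Set.add_subset_add_right a4)
    (by rw [← add_assoc, a5, h2]) (by rw [← add_assoc, a6, h2])

theorem rep_of_cut {a : ℕ} (hb : 2 ≤ b)
    (h : {i | b - 1 ≤ a / b ^ i % b} = {i | 1 ≤ a / b ^ i % b}) :
    Rep b {i | b - 1 ≤ a / b ^ i % b} a := by
  intro m
  have := Nat.mod_lt (a / b ^ m) (show 0 < b by omega)
  constructor
  · intro hm
    have : b - 1 ≤ a / b ^ m % b := hm
    omega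
  · intro hm
    rw [h] at hm
    have : ¬ 1 ≤ a / b ^ m % b := hm
    omega

theorem split_lp (hb : 2 ≤ b) (hψ : Set.InjOn ψ (A + A)) (hR : Rigid A) {Z : Set M}
    (hZ : Dv A Z) {a c n : ℕ} (hn : Rep b (ψ '' Z) n) (h : LP b a c n) :
    ∃ X Y : Set M, 0 ∈ X ∧ 0 ∈ Y ∧ X + Y = Z ∧ Rep b (ψ '' X) a ∧ Rep b (ψ '' Y) c := by
  obtain ⟨a1, a2, a3, a4, a5⟩ := lift hψ hZ (h.cut hn (show 0 < b - 1 by omega) le_rfl)
  obtain ⟨-, -, b3, b4, b5⟩ := lift hψ hZ (h.cut hn Nat.one_pos (by omega))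
  have s1 : ∀ x : ℕ, Z ∩ ψ ⁻¹' {i | b - 1 ≤ x / b ^ i % b} ⊆ Z ∩ ψ ⁻¹' {i | 1 ≤ x / b ^ i % b} :=
    fun x y hy => ⟨hy.1, le_trans (show 1 ≤ b - 1 by omega) hy.2⟩
  have e1 := hR.dv hZ _ _ _ _ a1 a2 (s1 a) (s1 c) a3 b3
  have e2 := hR.dv hZ _ _ _ _ a2 a1 (s1 c) (s1 a) (by rw [add_comm, a3]) (by rw [add_comm, b3])
  refine ⟨_, _, a1, a2, a3, ?_, ?_⟩
  · rw [a4]
    exact rep_of_cut hb (by rw [← a4, e1, b4])
  · rw [a5]
    exact rep_of_cut hb (by rw [← a5, e2, b5])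

theorem dv_rep (hb : 2 ≤ b) (hB : ∀ x ∈ A, ψ x < B) {Z : Set M} (hZ : Dv A Z) :
    ∃ n, Rep b (ψ '' Z) n :=
  exists_rep hb (B := B) (by
    rintro _ ⟨x, hx, rfl⟩
    exact hB x (hZ.sub hx))

theorem prime_iff (hb : 2 ≤ b) (hψ : Set.InjOn ψ (A + A)) (hR : Rigid A)
    (hB : ∀ x ∈ A, ψ x < B) {Z : Set M} (hZ : Dv A Z) {n : ℕ} (hn : Rep b (ψ '' Z) n) :
    LPrime b n ↔ Atm Z := by
  constructor
  · rintro ⟨h1, h2⟩
    refine ⟨hZ.1, fun hh => h1 ((hn.eq_unit hb).2 ((img_unit hψ hZ).2 hh)), ?_⟩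
    rintro U V hU hV rfl
    obtain ⟨a, ha⟩ := dv_rep hb hB (hZ.left hU hV)
    obtain ⟨c, hc⟩ := dv_rep hb hB (hZ.right hU hV)
    rcases h2 a c (ha.lp hb hc (by rwa [← Set.image_add])) with h3 | h3
    · exact Or.inl ((img_unit hψ (hZ.left hU hV)).1 ((ha.eq_unit hb).1 h3))
    · exact Or.inr ((img_unit hψ (hZ.right hU hV)).1 ((hc.eq_unit hb).1 h3))
  · rintro ⟨-, h1, h2⟩
    refine ⟨fun hh => h1 ((img_unit hψ hZ).1 ((hn.eq_unit hb).1 hh)), fun a c h => ?_⟩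
    obtain ⟨X, Y, hX, hY, h3, h4, h5⟩ := split_lp hb hψ hR hZ hn h
    rcases h2 X Y hX hY h3 with rfl | rfl
    · exact Or.inl ((h4.eq_unit hb).2 (by simp))
    · exact Or.inr ((h5.eq_unit hb).2 (by simp))

theorem ch_iff (hb : 2 ≤ b) (hψ : Set.InjOn ψ (A + A)) (hR : Rigid A)
    (hB : ∀ x ∈ A, ψ x < B) : ∀ (k : ℕ) {Z : Set M}, Dv A Z → ∀ {n : ℕ}, Rep b (ψ '' Z) n →
      (Ch b k n ↔ Len k Z)
  | 0, Z, hZ, n, hn => by
    rw [ch_zero, hn.eq_unit hb, img_unit hψ hZ]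
    rfl
  | k + 1, Z, hZ, n, hn => by
    rw [ch_succ]
    constructor
    · rintro ⟨a, q, h1, h2, h3⟩
      obtain ⟨X, Y, hX, hY, rfl, h4, h5⟩ := split_lp hb hψ hR hZ hn h3
      exact ⟨X, Y, (ch_iff hb hψ hR hB k (hZ.left hX hY) h4).1 h1,
        (prime_iff hb hψ hR hB (hZ.right hX hY) h5).1 h2, rfl⟩
    · rintro ⟨X, Y, h1, h2, rfl⟩
      have hX := h1.zero_mem
      have hY := h2.1
      obtain ⟨a, ha⟩ := dv_rep hb hB (hZ.left hX hY)
      obtain ⟨c, hc⟩ := dv_rep hb hB (hZ.right hX hY)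
      exact ⟨a, c, (ch_iff hb hψ hR hB k (hZ.left hX hY) ha).2 h1,
        (prime_iff hb hψ hR hB (hZ.right hX hY) hc).2 h2,
        ha.lp hb hc (by rwa [← Set.image_add])⟩

end Transfer

theorem exists_hom {D : Type} [Fintype D] (Q : ℕ) :
    ∃ (ψ : (D → ℕ) →+ ℕ) (B : ℕ), Set.InjOn ψ {x | ∀ d, x d < Q} ∧
      ∀ x : D → ℕ, (∀ d, x d < Q) → ψ x < B := by
  let e := Fintype.equivFin D
  let ψ : (D → ℕ) →+ ℕ :=
    { toFun := fun x => ∑ i : Fin (Fintype.card D), x (e.symm i) * Q ^ (i : ℕ)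
      map_zero' := by simp
      map_add' := fun x y => by simp [add_mul, Finset.sum_add_distrib] }
  have key : ∀ (x : D → ℕ) (hx : ∀ d, x d < Q),
      ψ x = (finFunctionFinEquiv (fun i => (⟨x (e.symm i), hx _⟩ : Fin Q)) : ℕ) := by
    intro x hx
    rw [finFunctionFinEquiv_apply]
    rfl
  refine ⟨ψ, Q ^ Fintype.card D, fun x hx y hy h => ?_, fun x hx => ?_⟩
  · rw [key x hx, key y hy] at h
    have h1 := finFunctionFinEquiv.injective (Fin.ext h)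
    funext d
    have h2 := congrArg Fin.val (congrFun h1 (e d))
    simpa using h2
  · rw [key x hx]
    exact Fin.isLt _

theorem lunar_lengths (b : ℕ) (hb : 2 ≤ b) (L : Finset ℕ) (hL : L.Nonempty)
    (h2 : ∀ l ∈ L, 2 ≤ l) : ∃ n : ℕ, n % b = b - 1 ∧ ∀ k : ℕ, k ∈ L ↔ Ch b k n := by
  classical
  obtain ⟨c, hc⟩ := exists_dat L hL h2
  obtain ⟨ψ, B, h3, h4⟩ := exists_hom (D := Option (Σ l : L, Fin (l.1 - 1))) (4 * c.N + 7)
  have hψ : Set.InjOn ψ (c.A + c.A) := h3.mono (by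
    rintro _ ⟨x, hx, y, hy, rfl⟩ d
    have a1 := c.bound hx d
    have a2 := c.bound hy d
    simp only [Pi.add_apply]
    omega)
  have hB : ∀ x ∈ c.A, ψ x < B := fun x hx => h4 x fun d => by
    have := c.bound hx d
    omega
  have hR : Rigid c.A := fun _ _ _ _ a1 a2 a3 a4 a5 a6 => c.rigid a1 a2 a3 a4 a5 a6
  have hA : Dv c.A c.A := ⟨c.zero_mem, {0}, rfl, add_sing _⟩
  obtain ⟨n, hn⟩ := dv_rep hb hB hA
  refine ⟨n, ?_, fun k => ?_⟩
  · simpa using (hn 0).1 ⟨0, c.zero_mem, map_zero ψ⟩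
  · rw [ch_iff hb hψ hR hB k hA hn, hc]

end Pool.Agent.Lib.MP_1d41ea_nt.H68
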