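import Mathlib
import Pool.Agent.Lib.MP_1d41ea_nt.H68Lunar

set_option autoImplicit false
set_option linter.unusedSectionVars false

namespace Pool.Agent.Lib.MP_1d41ea_nt.H68

open scoped Pointwise

section Gen
variable {M : Type} [AddCommMonoid M]

/-- `Q` is a multiset of atoms with sum `Z`. -/
def Fac (Q : Multiset (Set M)) (Z : Set M) : Prop := (∀ X ∈ Q, Atm X) ∧ Q.sum = Z

theorem zero_mem_sum (Q : Multiset (Set M)) : (∀ X ∈ Q, Atm X) → 0 ∈ Q.sum := by
  induction Q using Multiset.induction_on with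
  | empty => intro _; rfl
  | cons X Q ih =>
    intro h
    rw [Multiset.sum_cons]
    exact zero_mem_add (h X (Multiset.mem_cons_self _ _)).1
      (ih fun Y hY => h Y (Multiset.mem_cons_of_mem hY))

theorem fac_cons {X Z : Set M} {Q : Multiset (Set M)} :
    Fac (X ::ₘ Q) Z ↔ Atm X ∧ Fac Q Q.sum ∧ X + Q.sum = Z := by
  unfold Fac
  simp only [Multiset.mem_cons, forall_eq_or_imp, Multiset.sum_cons, and_true, and_assoc]

theorem Fac.dv {A Z : Set M} {Q : Multiset (Set M)} (h : Fac Q Z) (hZ : Dv A Z) :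
    ∀ Y ∈ Q, Dv A Y := by
  intro Y hY
  obtain ⟨Q', rfl⟩ := Multiset.exists_cons_of_mem hY
  obtain ⟨h1, h2, rfl⟩ := fac_cons.1 h
  exact hZ.left h1.1 (zero_mem_sum _ h2.1)

end Gen

section Cube
variable {D : Type} [DecidableEq D]

/-- The edges of the cube on `I`. -/
def edges (I : Finset D) : Multiset (Set (D → ℕ)) := I.val.map fun e => K {e}

theorem edges_insert {I : Finset D} {e : D} (h : e ∉ I) :
    edges (insert e I) = K {e} ::ₘ edges I := by
  unfold edges
  rw [Finset.insert_val_of_notMem h, Multiset.map_cons]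

theorem fac_edges (I : Finset D) : Fac (edges I) (K I) := by
  induction I using Finset.induction_on with
  | empty => exact ⟨fun X hX => by simp [edges] at hX, by rw [K_empty]; rfl⟩
  | insert e I he ih =>
    rw [edges_insert he, fac_cons, ih.2, K_add_K (by simpa using he)]
    exact ⟨atm_K.2 (by simp), ih, rfl⟩

theorem fac_K (Q : Multiset (Set (D → ℕ))) : ∀ I : Finset D, Fac Q (K I) → Q = edges I := by
  induction Q using Multiset.induction_on with
  | empty =>
    intro I h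
    obtain rfl : I = ∅ := by
      by_contra hh
      exact K_ne (Finset.nonempty_iff_ne_empty.2 hh) h.2.symm
    rfl
  | cons X Q ih =>
    intro I h
    obtain ⟨h1, h2, h3⟩ := fac_cons.1 h
    obtain ⟨J, hJ, rfl, h4⟩ := K_split h1.1 (zero_mem_sum _ h2.1) h3
    obtain ⟨e, rfl⟩ := Finset.card_eq_one.1 (atm_K.1 h1)
    have he : e ∈ I := hJ (Finset.mem_singleton_self e)
    rw [ih _ (h4 ▸ h2), ← edges_insert (by simp)]
    congr 1
    ext d
    by_cases hd : d = e <;> simp [hd, he]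

end Cube

namespace Dat
variable {D : Type} [Fintype D] [DecidableEq D] (c : Dat D)

theorem fac_R (Q : Multiset (Set (D → ℕ))) : ∀ I : Finset D, c.Good I → Fac Q (c.R I) →
    ∃ J, c.Mx J ∧ I ⊆ J ∧ Q = c.R J ::ₘ edges (J \ I) := by
  induction Q using Multiset.induction_on with
  | empty => intro I hI h; exact absurd h.2.symm (c.R_ne hI)
  | cons X Q ih =>
    intro I hI h
    obtain ⟨h1, h2, h3⟩ := fac_cons.1 h
    have h0 := zero_mem_sum _ h2.1
    rcases c.level (h3 ▸ c.R_sub) h1.1 h0 with h4 | h4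
    · obtain ⟨J, a1, a2, rfl, a3⟩ := c.R_split hI h1.1 h0 h3 h4
      obtain ⟨e, he⟩ := Finset.card_eq_one.1 (atm_K.1 h1)
      obtain ⟨J', b1, b2, rfl⟩ := ih J a2 (a3 ▸ h2)
      have he' : ∀ d, (d ∈ J ∧ d ∉ I) ↔ d = e := fun d => by
        rw [← Finset.mem_sdiff, he, Finset.mem_singleton]
      have heJ := (he' e).2 rfl
      refine ⟨J', b1, a1.trans b2, ?_⟩
      rw [he, Multiset.cons_swap, ← edges_insert (by simp [heJ.1])]
      congr 2
      ext d
      simp only [Finset.mem_insert, Finset.mem_sdiff]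
      constructor
      · rintro (rfl | ⟨c1, c2⟩)
        · exact ⟨b2 heJ.1, heJ.2⟩
        · exact ⟨c1, fun hh => c2 (a1 hh)⟩
      · rintro ⟨c1, c2⟩
        by_cases hd : d ∈ J
        · exact Or.inl ((he' d).1 ⟨hd, c2⟩)
        · exact Or.inr ⟨c1, hd⟩
    · obtain ⟨J, a1, a2, a3, rfl⟩ := c.R_split hI h0 h1.1 (by rw [add_comm, h3]) h4
      exact ⟨J, (c.atm_R a2).1 h1, a1, by rw [fac_K Q _ (a3 ▸ h2)]⟩

theorem fac_A (Q : Multiset (Set (D → ℕ))) :
    Fac Q c.A ↔ ∃ J, c.Mx J ∧ Q = c.R J ::ₘ edges J := by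
  constructor
  · intro h
    have hG : c.Good ∅ := ⟨Finset.notMem_empty _, by simp⟩
    have h1 : c.A = c.R ∅ := c.cancel hG (by rw [K_empty, sing_add])
    rw [h1] at h
    simpa using c.fac_R Q ∅ hG h
  · rintro ⟨J, hJ, rfl⟩
    rw [fac_cons, (fac_edges J).2, add_comm]
    exact ⟨(c.atm_R hJ.1).2 hJ, fac_edges J, c.KR hJ.1⟩

theorem mem_of_edge {J : Finset D} (hJ : c.Good J) {e : D} (he : e ≠ c.z)
    (h : K {e} ∈ c.R J ::ₘ edges J) : e ∈ J := by
  rcases Multiset.mem_cons.1 h with h1 | h1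
  · exfalso
    have h2 : (Pi.single c.z c.N : D → ℕ) ∈ K J + c.R J := c.KR hJ ▸ c.top_mem
    rw [← h1] at h2
    obtain ⟨u, hu, v, hv, huv⟩ := h2
    have a1 := congrFun huv c.z
    have a2 := (hu c.z).2 hJ.1
    have a3 := (hv c.z).2 (by simpa using he.symm)
    have a4 := c.hN
    simp only [Pi.add_apply, Pi.single_eq_same] at a1
    omega
  · obtain ⟨e', h2, h3⟩ := Multiset.mem_map.1 h1
    have h4 := K_inj h3.symm.subset (Finset.mem_singleton_self e)
    rw [Finset.mem_singleton.1 h4]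
    exact h2

end Dat

/-- Blocks of prescribed sizes. -/
theorem exists_blocks {T : Type} [Fintype T] [DecidableEq T] [Nonempty T] (w : T → ℕ)
    (hw : ∀ t, 2 ≤ w t) :
    ∃ (c : Dat (Option (Σ t : T, Fin (w t - 1))))
      (blk : T → Finset (Option (Σ t : T, Fin (w t - 1)))),
      Function.Injective blk ∧ (∀ J, c.Mx J ↔ ∃ t, J = blk t) ∧ ∀ t, (blk t).card + 1 = w t := by
  let D := Option (Σ t : T, Fin (w t - 1))
  let c : Dat D :=
    { z := none
      β := fun d => d.elim 0 fun e => (Fintype.equivFin T e.1).1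
      lam := fun e e' => Fintype.card (D × D) + 2 + (Fintype.equivFin (D × D) (e, e')).1
      N := Fintype.card (D × D) + 1
      hN := Nat.succ_pos _
      h1 := fun e e' => by
        have := (Fintype.equivFin (D × D) (e, e')).2
        omega
      h2 := fun e e' f f' h => by
        have h1 : Fintype.equivFin (D × D) (e, e') = Fintype.equivFin (D × D) (f, f') :=
          Fin.ext (by omega)
        simpa using (Fintype.equivFin (D × D)).injective h1 }
  let blk : T → Finset D := fun t =>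
    Finset.univ.image (fun i : Fin (w t - 1) => (some ⟨t, i⟩ : D))
  have hblk : ∀ t : T, Finset.univ.filter
      (fun f : D => f ≠ c.z ∧ c.β f = (Fintype.equivFin T t).1) = blk t := by
    intro t
    ext f
    simp only [blk, Finset.mem_filter, Finset.mem_univ, true_and, Finset.mem_image]
    constructor
    · rintro ⟨h3, h4⟩
      cases f with
      | none => exact absurd rfl h3
      | some e =>
        obtain ⟨t', i⟩ := e
        obtain rfl : t' = t := (Fintype.equivFin T).injective (Fin.ext h4)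
        exact ⟨i, rfl⟩
    · rintro ⟨i, rfl⟩
      exact ⟨Option.some_ne_none _, rfl⟩
  have hex : ∀ t : T, ∃ i : Fin (w t - 1), True := fun t =>
    ⟨⟨0, by have := hw t; omega⟩, trivial⟩
  have h0 : ∃ e : D, e ≠ c.z := by
    obtain ⟨t⟩ : Nonempty T := inferInstance
    obtain ⟨i, -⟩ := hex t
    exact ⟨some ⟨t, i⟩, Option.some_ne_none _⟩
  refine ⟨c, blk, fun t t' h => ?_, fun J => ?_, fun t => ?_⟩
  · obtain ⟨i, -⟩ := hex t
    have h1 : (some ⟨t, i⟩ : D) ∈ blk t' := h ▸ Finset.mem_image.2 ⟨i, Finset.mem_univ _, rfl⟩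
    obtain ⟨j, -, h2⟩ := Finset.mem_image.1 h1
    exact (congrArg Sigma.fst (Option.some.inj h2)).symm
  · rw [c.mx_iff h0]
    constructor
    · rintro ⟨e, he, rfl⟩
      cases e with
      | none => exact absurd rfl he
      | some e => exact ⟨e.1, hblk e.1⟩
    · rintro ⟨t, rfl⟩
      obtain ⟨i, -⟩ := hex t
      exact ⟨some ⟨t, i⟩, Option.some_ne_none _, (hblk t).symm⟩
  · have h1 := hw t
    have h2 : (blk t).card = w t - 1 := by
      rw [Finset.card_image_of_injective, Finset.card_univ, Fintype.card_fin]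
      intro i j hij
      have h3 := Option.some.inj hij
      simpa using h3
    omega

/-- `n` is the lunar product of the `k` lunar primes listed with multiplicity in `P`. -/
def ChM (b k : ℕ) (P : Multiset ℕ) (n : ℕ) : Prop :=
  ∃ p s : ℕ → ℕ, P = (Multiset.range k).map p ∧ s 0 = b - 1 ∧ s k = n ∧
    ∀ j < k, LPrime b (p j) ∧ LP b (s j) (p j) (s (j + 1))

theorem chM_zero {b n : ℕ} {P : Multiset ℕ} : ChM b 0 P n ↔ P = 0 ∧ n = b - 1 := by
  constructor
  · rintro ⟨p, s, h0, h1, h2, -⟩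
    exact ⟨by simpa using h0, by rw [← h2, h1]⟩
  · rintro ⟨rfl, rfl⟩
    exact ⟨fun _ => 0, fun _ => b - 1, by simp, rfl, rfl,
      fun j hj => absurd hj (Nat.not_lt_zero j)⟩

theorem chM_succ {b k n : ℕ} {P : Multiset ℕ} :
    ChM b (k + 1) P n ↔ ∃ a q P', P = q ::ₘ P' ∧ ChM b k P' a ∧ LPrime b q ∧ LP b a q n := by
  constructor
  · rintro ⟨p, s, h0, h1, h2, h3⟩
    exact ⟨s k, p k, _, by rw [h0, Multiset.range_succ, Multiset.map_cons],
      ⟨p, s, rfl, h1, rfl, fun j hj => h3 j (by omega)⟩, (h3 k (by omega)).1,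
      h2 ▸ (h3 k (by omega)).2⟩
  · rintro ⟨a, q, P', rfl, ⟨p, s, rfl, h1, h2, h3⟩, h4, h5⟩
    refine ⟨fun j => if j = k then q else p j, fun j => if j = k + 1 then n else s j, ?_,
      by simpa using h1, by simp, fun j hj => ?_⟩
    · rw [Multiset.range_succ, Multiset.map_cons, if_pos rfl]
      congr 1
      exact Multiset.map_congr rfl fun j hj =>
        (if_neg (Nat.ne_of_lt (Multiset.mem_range.1 hj))).symm
    by_cases hk : j = k
    · subst hk
      simpa [h2] using ⟨h4, h5⟩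
    · have h6 : j ≠ k + 1 := by omega
      simpa [hk, h6] using h3 j (by omega)

theorem Rep.uniq {b n n' : ℕ} (hb : 2 ≤ b) {T : Set ℕ} (h : Rep b T n) (h' : Rep b T n') :
    n = n' := by
  refine eq_of_digits hb fun m => ?_
  by_cases a : m ∈ T
  · rw [(h m).1 a, (h' m).1 a]
  · rw [(h m).2 a, (h' m).2 a]

theorem Rep.uniq_set {b n : ℕ} (hb : 2 ≤ b) {T T' : Set ℕ} (h : Rep b T n) (h' : Rep b T' n) :
    T = T' := by
  ext m
  by_cases a1 : m ∈ T <;> by_cases a2 : m ∈ T'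
  · exact iff_of_true a1 a2
  · have := (h m).1 a1; have := (h' m).2 a2; omega
  · have := (h m).2 a1; have := (h' m).1 a2; omega
  · exact iff_of_false a1 a2

section Transfer

variable {M : Type} [AddCommMonoid M] {A : Set M} {ψ : M →+ ℕ} {b B : ℕ}

theorem chM_iff (hb : 2 ≤ b) (hψ : Set.InjOn ψ (A + A)) (hR : Rigid A)
    (hB : ∀ x ∈ A, ψ x < B) {ν : Set M → ℕ} (hν : ∀ Z, Dv A Z → Rep b (ψ '' Z) (ν Z)) :
    ∀ (k : ℕ) (P : Multiset ℕ) {Z : Set M}, Dv A Z →
      (ChM b k P (ν Z) ↔ ∃ Q, Fac Q Z ∧ Q.card = k ∧ P = Q.map ν)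
  | 0, P, Z, hZ => by
    rw [chM_zero, (hν Z hZ).eq_unit hb, img_unit hψ hZ]
    constructor
    · rintro ⟨rfl, rfl⟩
      exact ⟨0, ⟨by simp, rfl⟩, rfl, rfl⟩
    · rintro ⟨Q, h1, h2, rfl⟩
      obtain rfl := Multiset.card_eq_zero.1 h2
      exact ⟨rfl, h1.2.symm⟩
  | k + 1, P, Z, hZ => by
    rw [chM_succ]
    constructor
    · rintro ⟨a, q, P', rfl, h1, h2, h3⟩
      obtain ⟨X, Y, hX, hY, rfl, h4, h5⟩ := split_lp hb hψ hR hZ (hν _ hZ) h3
      obtain rfl := h4.uniq hb (hν _ (hZ.left hX hY))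
      obtain rfl := h5.uniq hb (hν _ (hZ.right hX hY))
      obtain ⟨Q, a1, a2, rfl⟩ := (chM_iff hb hψ hR hB hν k P' (hZ.left hX hY)).1 h1
      refine ⟨Y ::ₘ Q, fac_cons.2 ⟨(prime_iff hb hψ hR hB (hZ.right hX hY) h5).1 h2,
        ⟨a1.1, rfl⟩, by rw [a1.2, add_comm]⟩, by rw [Multiset.card_cons, a2], by simp⟩
    · rintro ⟨Q, h1, h2, rfl⟩
      obtain ⟨Y, hY0⟩ := Multiset.card_pos_iff_exists_mem.1 (show 0 < Q.card by omega)
      obtain ⟨Q', rfl⟩ := Multiset.exists_cons_of_mem hY0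
      have h3 : Q'.card = k := by simpa using h2
      obtain ⟨a1, a2, rfl⟩ := fac_cons.1 h1
      have hX := zero_mem_sum _ a2.1
      have hY := a1.1
      refine ⟨ν Q'.sum, ν Y, Q'.map ν, by simp,
        (chM_iff hb hψ hR hB hν k _ (hZ.right hY hX)).2 ⟨Q', a2, h3, rfl⟩,
        (prime_iff hb hψ hR hB (hZ.left hY hX) (hν _ (hZ.left hY hX))).2 a1,
        (hν _ (hZ.right hY hX)).lp hb (hν _ (hZ.left hY hX)) ?_⟩
      rw [← Set.image_add, add_comm]
      exact hν _ hZ

end Transfer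

theorem lunar_blocks (b : ℕ) (hb : 2 ≤ b) {T : Type} [Fintype T] [Nonempty T] (w : T → ℕ)
    (hw : ∀ t, 2 ≤ w t) : ∃ n : ℕ, n % b = b - 1 ∧
      ∀ k : ℕ, {P : Multiset ℕ | ChM b k P n}.encard = {t | w t = k}.encard := by
  classical
  obtain ⟨c, blk, h1, h2, h3⟩ := exists_blocks w hw
  obtain ⟨ψ, B, h4, h5⟩ := exists_hom (D := Option (Σ t : T, Fin (w t - 1))) (4 * c.N + 7)
  have hψ : Set.InjOn ψ (c.A + c.A) := h4.mono (by
    rintro _ ⟨x, hx, y, hy, rfl⟩ d
    have a1 := c.bound hx d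
    have a2 := c.bound hy d
    simp only [Pi.add_apply]
    omega)
  have hB : ∀ x ∈ c.A, ψ x < B := fun x hx => h5 x fun d => by
    have := c.bound hx d
    omega
  have hR : Rigid c.A := fun _ _ _ _ a1 a2 a3 a4 a5 a6 => c.rigid a1 a2 a3 a4 a5 a6
  have hA : Dv c.A c.A := ⟨c.zero_mem, {0}, rfl, add_sing _⟩
  have hex : ∀ Z, ∃ n, Dv c.A Z → Rep b (ψ '' Z) n := fun Z => by
    by_cases hZ : Dv c.A Z
    · obtain ⟨n, hn⟩ := dv_rep hb hB hZ
      exact ⟨n, fun _ => hn⟩
    · exact ⟨0, fun h => absurd h hZ⟩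
  choose ν hν using hex
  have hinj : ∀ X Y, Dv c.A X → Dv c.A Y → ν X = ν Y → X = Y := by
    intro X Y hX hY h
    refine (hψ.image_eq_image_iff (fun x hx => sub_left c.zero_mem (hX.sub hx))
      (fun x hx => sub_left c.zero_mem (hY.sub hx))).1 ?_
    exact (hν X hX).uniq_set hb (h ▸ hν Y hY)
  have hMx : ∀ t, c.Mx (blk t) := fun t => (h2 _).2 ⟨t, rfl⟩
  have hF : ∀ t, Fac (c.R (blk t) ::ₘ edges (blk t)) c.A := fun t =>
    (c.fac_A _).2 ⟨_, hMx t, rfl⟩
  have hcard : ∀ t, (c.R (blk t) ::ₘ edges (blk t)).card = w t := fun t => by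
    rw [← h3 t]
    simp [edges]
  have hsub : ∀ t t', (c.R (blk t) ::ₘ edges (blk t)).map ν =
      (c.R (blk t') ::ₘ edges (blk t')).map ν → blk t ⊆ blk t' := by
    intro t t' h e he
    have a1 : K {e} ∈ c.R (blk t) ::ₘ edges (blk t) :=
      Multiset.mem_cons_of_mem (Multiset.mem_map_of_mem (fun e => K {e}) he)
    have a2 := Multiset.mem_map_of_mem ν a1
    rw [h] at a2
    obtain ⟨Y, a3, a4⟩ := Multiset.mem_map.1 a2
    obtain rfl := hinj _ _ ((hF t').dv hA Y a3) ((hF t).dv hA _ a1) a4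
    exact c.mem_of_edge (hMx t').1 (fun hh => (hMx t).1.1 (hh ▸ he)) a3
  refine ⟨ν c.A, ?_, fun k => ?_⟩
  · simpa using (hν _ hA 0).1 ⟨0, c.zero_mem, map_zero ψ⟩
  · have hset : {P : Multiset ℕ | ChM b k P (ν c.A)} =
        (fun t => (c.R (blk t) ::ₘ edges (blk t)).map ν) '' {t | w t = k} := by
      ext P
      refine (chM_iff hb hψ hR hB hν k P hA).trans ?_
      constructor
      · rintro ⟨Q, a1, a2, rfl⟩
        obtain ⟨J, a3, rfl⟩ := (c.fac_A Q).1 a1
        obtain ⟨t, rfl⟩ := (h2 J).1 a3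
        exact ⟨t, (hcard t).symm.trans a2, rfl⟩
      · rintro ⟨t, ht, rfl⟩
        exact ⟨_, hF t, (hcard t).trans ht, rfl⟩
    rw [hset]
    exact Set.InjOn.encard_image fun t _ t' _ h =>
      h1 (Finset.Subset.antisymm (hsub t t' h) (hsub t' t h.symm))

theorem lunar_mult (b : ℕ) (hb : 2 ≤ b) (f : ℕ →₀ ℕ) (hf : f ≠ 0) (h0 : f 0 = 0)
    (h1 : f 1 = 0) : ∃ n : ℕ, n % b = b - 1 ∧
      ∀ k : ℕ, {P : Multiset ℕ | ChM b k P n}.encard = (f k : ℕ∞) := by
  classical
  have hne : Nonempty (Σ l : f.support, Fin (f l.1)) := by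
    obtain ⟨l, hl⟩ := Finsupp.support_nonempty_iff.2 hf
    exact ⟨⟨⟨l, hl⟩, ⟨0, Nat.pos_of_ne_zero (Finsupp.mem_support_iff.1 hl)⟩⟩⟩
  obtain ⟨n, h2, h3⟩ := lunar_blocks b hb (T := Σ l : f.support, Fin (f l.1)) (fun t => t.1.1)
    (fun t => by
      have a1 := Finsupp.mem_support_iff.1 t.1.2
      by_contra hh
      have a2 : t.1.1 = 0 ∨ t.1.1 = 1 := by omega
      rcases a2 with a2 | a2
      · exact a1 (a2 ▸ h0)
      · exact a1 (a2 ▸ h1))
  refine ⟨n, h2, fun k => (h3 k).trans ?_⟩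
  by_cases hk : k ∈ f.support
  · have a1 : {t : Σ l : f.support, Fin (f l.1) | t.1.1 = k} =
        (fun i : Fin (f k) => (⟨⟨k, hk⟩, i⟩ : Σ l : f.support, Fin (f l.1))) '' Set.univ := by
      ext ⟨⟨l, hl⟩, i⟩
      constructor
      · intro h
        obtain rfl : l = k := h
        exact ⟨i, trivial, rfl⟩
      · rintro ⟨j, -, h⟩
        exact (congrArg (fun t : Σ l : f.support, Fin (f l.1) => t.1.1) h).symm
    rw [a1, Function.Injective.encard_image (fun i j h => by simpa using h)]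
    simp
  · have a1 : {t : Σ l : f.support, Fin (f l.1) | t.1.1 = k} = ∅ := by
      ext t
      constructor
      · intro h
        exact hk ((show t.1.1 = k from h) ▸ t.1.2)
      · exact False.elim
    rw [a1, Finsupp.notMem_support_iff.1 hk]
    simp

end Pool.Agent.Lib.MP_1d41ea_nt.H68
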