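import Mathlib

set_option autoImplicit false

/-! Sets with few representations of every nonzero difference fill at most half of a sumset. -/

namespace Pool.Agent.Lib.MP_1d41ea_nt.H84

open Finset

variable {G : Type*} [AddCommGroup G] [DecidableEq G]

/-- Every nonzero difference has at most `τ` representations. -/
def FewDiff (S : Finset G) (τ : ℕ) : Prop :=
  ∀ d : G, d ≠ 0 → #{p ∈ S ×ˢ S | p.1 - p.2 = d} ≤ τ

theorem few_fib {S : Finset G} {τ : ℕ} (hS : FewDiff S τ) {α β : Type*} [DecidableEq β]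
    (Q : Finset α) (t : Finset β) (φ : α → β) (ψ₁ ψ₂ : α → G) (dd : β → G)
    (hφ : ∀ x ∈ Q, φ x ∈ t) (h1 : ∀ x ∈ Q, ψ₁ x ∈ S) (h2 : ∀ x ∈ Q, ψ₂ x ∈ S)
    (hne : ∀ x ∈ Q, ψ₁ x ≠ ψ₂ x) (hd : ∀ x ∈ Q, ψ₁ x - ψ₂ x = dd (φ x))
    (hinj : ∀ x ∈ Q, ∀ y ∈ Q, φ x = φ y → ψ₁ x = ψ₁ y → ψ₂ x = ψ₂ y → x = y) :
    #Q ≤ τ * #t := by
  refine card_le_mul_card_image_of_maps_to hφ τ fun b _ => ?_
  by_cases h0 : dd b = 0
  · have : ({a ∈ Q | φ a = b} : Finset α) = ∅ := by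
      refine filter_eq_empty_iff.2 fun x hx hb => hne x hx ?_
      have := hd x hx
      rw [hb, h0] at this
      exact sub_eq_zero.1 this
    simp [this]
  · refine le_trans ?_ (hS _ h0)
    refine card_le_card_of_injOn (fun x => (ψ₁ x, ψ₂ x)) ?_ ?_
    · intro x hx
      obtain ⟨hx, hb⟩ := mem_filter.1 (mem_coe.1 hx)
      exact mem_coe.2 (mem_filter.2 ⟨mem_product.2 ⟨h1 x hx, h2 x hx⟩, by rw [← hb]; exact hd x hx⟩)
    · intro x hx y hy hxy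
      obtain ⟨hx, hb⟩ := mem_filter.1 (mem_coe.1 hx)
      obtain ⟨hy, hb'⟩ := mem_filter.1 (mem_coe.1 hy)
      obtain ⟨e1, e2⟩ := Prod.mk.inj hxy
      exact hinj x hx y hy (hb.trans hb'.symm) e1 e2

theorem mul_card_le_sigma {α β : Type*} (I : Finset α) (F : α → Finset β) (n : ℕ)
    (h : ∀ x ∈ I, n ≤ #(F x)) : n * #I ≤ #(I.sigma fun x => F x) := by
  rw [card_sigma, mul_comm]
  exact card_nsmul_le_sum I _ n h

/-- Pairs whose sum has many representations are rare. -/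
theorem typeI {S U V : Finset G} {τ : ℕ} (hS : FewDiff S τ) (hV : V ⊆ S) (σ : ℕ) :
    σ * #{p ∈ U ×ˢ V | σ < #{p' ∈ U ×ˢ V | p'.1 + p'.2 = p.1 + p.2}} ≤ #U * #V + τ * (#U * #U) := by
  classical
  set I : Finset (G × G) := {p ∈ U ×ˢ V | σ < #{p' ∈ U ×ˢ V | p'.1 + p'.2 = p.1 + p.2}} with hI
  refine (mul_card_le_sigma I (fun p => {p' ∈ U ×ˢ V | p'.1 + p'.2 = p.1 + p.2}) σ
    fun p hp => (mem_filter.1 hp).2.le).trans ?_
  set Q := I.sigma fun p => ({p' ∈ U ×ˢ V | p'.1 + p'.2 = p.1 + p.2} : Finset (G × G)) with hQ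
  have hm : ∀ x ∈ Q, (x.1.1 ∈ U ∧ x.1.2 ∈ V) ∧ (x.2.1 ∈ U ∧ x.2.2 ∈ V) ∧
      x.2.1 + x.2.2 = x.1.1 + x.1.2 := by
    intro x hx
    obtain ⟨a, b⟩ := mem_sigma.1 hx
    exact ⟨mem_product.1 (mem_filter.1 a).1, mem_product.1 (mem_filter.1 b).1, (mem_filter.1 b).2⟩
  rw [← card_filter_add_card_filter_not (s := Q) (fun x => x.1.1 = x.2.1)]
  refine add_le_add ?_ ?_
  · rw [← card_product]
    refine card_le_card_of_injOn (fun x => x.1) ?_ ?_
    · intro x hx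
      exact mem_coe.2 (mem_product.2 (hm x (mem_filter.1 (mem_coe.1 hx)).1).1)
    · rintro ⟨⟨a, b⟩, ⟨c, d⟩⟩ hx ⟨⟨a', b'⟩, ⟨c', d'⟩⟩ hy hxy
      obtain ⟨hx, e1⟩ := mem_filter.1 (mem_coe.1 hx)
      obtain ⟨hy, e2⟩ := mem_filter.1 (mem_coe.1 hy)
      have e3 := (hm _ hx).2.2
      have e4 := (hm _ hy).2.2
      obtain ⟨e5, e6⟩ := Prod.mk.inj hxy
      simp only at e1 e2 e3 e4
      subst e1 e2 e5 e6
      rw [add_left_cancel e3, add_left_cancel e4]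
  · rw [← card_product]
    refine few_fib hS _ _ (fun x => (x.1.1, x.2.1)) (fun x => x.2.2) (fun x => x.1.2)
      (fun b => b.1 - b.2) ?_ ?_ ?_ ?_ ?_ ?_
    · intro x hx
      have := hm x (mem_filter.1 hx).1
      exact mem_product.2 ⟨this.1.1, this.2.1.1⟩
    · intro x hx
      exact hV (hm x (mem_filter.1 hx).1).2.1.2
    · intro x hx
      exact hV (hm x (mem_filter.1 hx).1).1.2
    · intro x hx he
      have := (hm x (mem_filter.1 hx).1).2.2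
      rw [he] at this
      exact (mem_filter.1 hx).2 (add_right_cancel this).symm
    · intro x hx
      have := (hm x (mem_filter.1 hx).1).2.2
      simp only
      rw [sub_eq_sub_iff_add_eq_add, add_comm, this]
    · rintro ⟨⟨a, b⟩, ⟨c, d⟩⟩ _ ⟨⟨a', b'⟩, ⟨c', d'⟩⟩ _ e1 e2 e3
      obtain ⟨e5, e6⟩ := Prod.mk.inj e1
      simp only at e2 e3 e5 e6
      subst e2 e3 e5 e6
      rfl

/-- Pairs whose cross sum has few representations. -/
theorem typeII {A U V : Finset G} (f g : G → G) {p q : ℕ} (R : ℕ)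
    (hA : ∀ s ∈ U, ∀ t ∈ V, f s + g t ∈ A)
    (hp : ∀ b, #{s ∈ U | f s = b} ≤ p) (hq : ∀ c, #{t ∈ V | g t = c} ≤ q) :
    #{x ∈ U ×ˢ V | #{y ∈ U.image f ×ˢ V.image g | y.1 + y.2 = f x.1 + g x.2} ≤ R} ≤
      p * q * (R * #A) := by
  classical
  set P : Finset (G × G) := {z ∈ U.image f ×ˢ V.image g |
    #{y ∈ U.image f ×ˢ V.image g | y.1 + y.2 = z.1 + z.2} ≤ R} with hP
  have h1 : #P ≤ R * #A := by
    refine card_le_mul_card_image_of_maps_to (f := fun z => z.1 + z.2) ?_ R fun e _ => ?_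
    · intro z hz
      obtain ⟨a, b⟩ := mem_product.1 (mem_filter.1 hz).1
      obtain ⟨s, hs, e1⟩ := mem_image.1 a
      obtain ⟨t, ht, e2⟩ := mem_image.1 b
      rw [← e1, ← e2]
      exact hA s hs t ht
    · rcases ({z ∈ P | z.1 + z.2 = e} : Finset (G × G)).eq_empty_or_nonempty with h | ⟨z, hz⟩
      · simp [h]
      · obtain ⟨hz, he⟩ := mem_filter.1 hz
        refine le_trans (card_le_card fun y hy => ?_) (mem_filter.1 hz).2
        obtain ⟨hy, he'⟩ := mem_filter.1 hy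
        exact mem_filter.2 ⟨(mem_filter.1 hy).1, he'.trans he.symm⟩
  refine le_trans ?_ (Nat.mul_le_mul_left _ h1)
  refine card_le_mul_card_image_of_maps_to (f := fun x => (f x.1, g x.2)) ?_ _ fun z _ => ?_
  · intro x hx
    obtain ⟨hx, hr⟩ := mem_filter.1 hx
    obtain ⟨a, b⟩ := mem_product.1 hx
    exact mem_filter.2 ⟨mem_product.2 ⟨mem_image_of_mem _ a, mem_image_of_mem _ b⟩, hr⟩
  · refine le_trans ?_ (Nat.mul_le_mul (hp z.1) (hq z.2))
    rw [← card_product]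
    refine card_le_card fun x hx => ?_
    obtain ⟨hx, he⟩ := mem_filter.1 hx
    obtain ⟨a, b⟩ := mem_product.1 (mem_filter.1 hx).1
    exact mem_product.2 ⟨mem_filter.2 ⟨a, congrArg Prod.fst he⟩, mem_filter.2 ⟨b, congrArg Prod.snd he⟩⟩

/-- The amplification: every representation of the cross sum writes `s + t` as a sum of two
elements of `A`. -/
theorem typeIII {A T U V : Finset G} (f g : G → G) (σ R : ℕ) (hU : U ⊆ T) (hV : V ⊆ T)
    (hfg : ∀ s ∈ T, f s + g s = s) (hA : ∀ s ∈ T, ∀ t ∈ T, f s + g t ∈ A) :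
    R * #{x ∈ U ×ˢ V | #{p' ∈ U ×ˢ V | p'.1 + p'.2 = x.1 + x.2} ≤ σ ∧
      R < #{y ∈ U.image f ×ˢ V.image g | y.1 + y.2 = f x.1 + g x.2}} ≤ σ * (#A * #A) := by
  classical
  set I : Finset (G × G) := {x ∈ U ×ˢ V | #{p' ∈ U ×ˢ V | p'.1 + p'.2 = x.1 + x.2} ≤ σ ∧
      R < #{y ∈ U.image f ×ˢ V.image g | y.1 + y.2 = f x.1 + g x.2}} with hI
  refine (mul_card_le_sigma I (fun x => {y ∈ U.image f ×ˢ V.image g | y.1 + y.2 = f x.1 + g x.2}) R
    fun p hp => (mem_filter.1 hp).2.2.le).trans ?_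
  set Q := I.sigma fun x =>
    ({y ∈ U.image f ×ˢ V.image g | y.1 + y.2 = f x.1 + g x.2} : Finset (G × G)) with hQ
  have hm : ∀ x ∈ Q, (x.1.1 ∈ U ∧ x.1.2 ∈ V) ∧ (x.2.1 ∈ U.image f ∧ x.2.2 ∈ V.image g) ∧
      (x.2.1 + g x.1.1) + (f x.1.2 + x.2.2) = x.1.1 + x.1.2 ∧
      #{p' ∈ U ×ˢ V | p'.1 + p'.2 = x.1.1 + x.1.2} ≤ σ := by
    intro x hx
    obtain ⟨a, b⟩ := mem_sigma.1 hx
    have a1 := mem_product.1 (mem_filter.1 a).1
    refine ⟨a1, mem_product.1 (mem_filter.1 b).1, ?_, (mem_filter.1 a).2.1⟩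
    have e := (mem_filter.1 b).2
    have e1 := hfg _ (hU a1.1)
    have e2 := hfg _ (hV a1.2)
    calc _ = (x.2.1 + x.2.2) + (g x.1.1 + f x.1.2) := by abel
      _ = (f x.1.1 + g x.1.1) + (f x.1.2 + g x.1.2) := by rw [e]; abel
      _ = _ := by rw [e1, e2]
  rw [← card_product]
  refine card_le_mul_card_image_of_maps_to
    (f := fun x => (x.2.1 + g x.1.1, f x.1.2 + x.2.2)) ?_ σ fun z _ => ?_
  · intro x hx
    obtain ⟨⟨a, b⟩, ⟨c, d⟩, -⟩ := hm x hx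
    obtain ⟨s, hs, e1⟩ := mem_image.1 c
    obtain ⟨t, ht, e2⟩ := mem_image.1 d
    refine mem_product.2 ⟨?_, ?_⟩
    · simp only
      rw [← e1]
      exact hA s (hU hs) _ (hU a)
    · simp only
      rw [← e2]
      exact hA _ (hV b) t (hV ht)
  · rcases ({x ∈ Q | (x.2.1 + g x.1.1, f x.1.2 + x.2.2) = z}).eq_empty_or_nonempty with h | ⟨x₀, h₀⟩
    · simp [h]
    · obtain ⟨h₀, e₀⟩ := mem_filter.1 h₀
      refine le_trans ?_ (hm _ h₀).2.2.2
      refine card_le_card_of_injOn (fun x => x.1) ?_ ?_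
      · intro x hx
        obtain ⟨hx, e⟩ := mem_filter.1 (mem_coe.1 hx)
        refine mem_coe.2 (mem_filter.2 ⟨mem_product.2 (hm _ hx).1, ?_⟩)
        obtain ⟨e1, e2⟩ := Prod.mk.inj (e.trans e₀.symm)
        rw [← (hm _ hx).2.2.1, ← (hm _ h₀).2.2.1, e1, e2]
      · rintro ⟨⟨a, b⟩, ⟨c, d⟩⟩ hx ⟨⟨a', b'⟩, ⟨c', d'⟩⟩ hy hxy
        obtain ⟨-, e1⟩ := mem_filter.1 (mem_coe.1 hx)
        obtain ⟨-, e2⟩ := mem_filter.1 (mem_coe.1 hy)
        obtain ⟨e3, e4⟩ := Prod.mk.inj (e1.trans e2.symm)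
        obtain ⟨e5, e6⟩ := Prod.mk.inj hxy
        simp only at e3 e4
        subst e5 e6
        rw [add_right_cancel e3, add_left_cancel e4]

/-- The counting lemma. -/
theorem counting {S A T U V : Finset G} {τ v m p q : ℕ} (hS : FewDiff S τ) (f g : G → G)
    (hT : T ⊆ S) (hU : U ⊆ T) (hV : V ⊆ T)
    (hfg : ∀ s ∈ T, f s + g s = s) (hA : ∀ s ∈ T, ∀ t ∈ T, f s + g t ∈ A)
    (hp : ∀ b, #{s ∈ U | f s = b} ≤ p) (hq : ∀ c, #{t ∈ V | g t = c} ≤ q)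
    (hpq : p * q ≤ v ^ 24) (hτ : τ ≤ v) (hN : v ^ 26 ≤ #S) (ha : #A ≤ 2 * #S)
    (hm : 0 < m) (hv : 512 * m ^ 6 < v) : m * #U < #S ∨ m * #V < #S := by
  classical
  by_contra hc
  push Not at hc
  obtain ⟨c1, c2⟩ := hc
  have v0 : 0 < v := by omega
  have h1 := typeI (U := U) hS (hV.trans hT) (8 * m ^ 2 * v)
  have h2 := typeII f g (128 * m ^ 4 * v) (fun s hs t ht => hA s (hU hs) t (hV ht)) hp hq
  have h3 := typeIII f g (8 * m ^ 2 * v) (128 * m ^ 4 * v) hU hV hfg hA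
  set x := #{p ∈ U ×ˢ V | 8 * m ^ 2 * v < #{p' ∈ U ×ˢ V | p'.1 + p'.2 = p.1 + p.2}} with hx
  set y := #{x ∈ U ×ˢ V |
    #{y ∈ U.image f ×ˢ V.image g | y.1 + y.2 = f x.1 + g x.2} ≤ 128 * m ^ 4 * v} with hy
  set z := #{x ∈ U ×ˢ V | #{p' ∈ U ×ˢ V | p'.1 + p'.2 = x.1 + x.2} ≤ 8 * m ^ 2 * v ∧
      128 * m ^ 4 * v < #{y ∈ U.image f ×ˢ V.image g | y.1 + y.2 = f x.1 + g x.2}} with hz
  have h4 : #U * #V ≤ x + y + z := by
    rw [← card_product, hx, hy, hz]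
    refine le_trans (card_le_card fun w hw => ?_)
      ((card_union_le _ _).trans (Nat.add_le_add_right (card_union_le _ _) _))
    simp only [mem_union, mem_filter]
    by_cases a : 8 * m ^ 2 * v < #{p' ∈ U ×ˢ V | p'.1 + p'.2 = w.1 + w.2}
    · exact Or.inl (Or.inl ⟨hw, a⟩)
    · by_cases b : #{y ∈ U.image f ×ˢ V.image g | y.1 + y.2 = f w.1 + g w.2} ≤ 128 * m ^ 4 * v
      · exact Or.inl (Or.inr ⟨hw, b⟩)
      · exact Or.inr ⟨hw, not_lt.1 a, not_le.1 b⟩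
  have u1 : #U ≤ #S := card_le_card (hU.trans hT)
  have u2 : #V ≤ #S := card_le_card (hV.trans hT)
  clear hx hy hz
  generalize #S = N at *
  generalize #U = u at *
  generalize #V = w at *
  generalize #A = a at *
  have N0 : 0 < N := lt_of_lt_of_le (by positivity) hN
  have k1 : 4 * m ^ 2 * x ≤ N * N := by
    have : (2 * v) * (4 * m ^ 2 * x) ≤ (2 * v) * (N * N) := by
      calc _ = 8 * m ^ 2 * v * x := by ring
        _ ≤ u * w + τ * (u * u) := h1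
        _ ≤ v * (N * N) + v * (N * N) := by
            refine add_le_add ?_ (Nat.mul_le_mul hτ (Nat.mul_le_mul u1 u1))
            exact (Nat.mul_le_mul u1 u2).trans (Nat.le_mul_of_pos_left _ v0)
        _ = _ := by ring
    exact Nat.le_of_mul_le_mul_left this (by omega)
  have k3 : 4 * m ^ 2 * z ≤ N * N := by
    have : (32 * m ^ 2 * v) * (4 * m ^ 2 * z) ≤ (32 * m ^ 2 * v) * (N * N) := by
      calc _ = 128 * m ^ 4 * v * z := by ring
        _ ≤ 8 * m ^ 2 * v * (a * a) := h3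
        _ ≤ 8 * m ^ 2 * v * ((2 * N) * (2 * N)) := Nat.mul_le_mul_left _ (Nat.mul_le_mul ha ha)
        _ = _ := by ring
    exact Nat.le_of_mul_le_mul_left this (by positivity)
  have k2 : 4 * m ^ 2 * y < 2 * (N * N) := by
    calc _ ≤ 4 * m ^ 2 * (v ^ 24 * (128 * m ^ 4 * v * (2 * N))) :=
          Nat.mul_le_mul_left _ (h2.trans (Nat.mul_le_mul hpq (Nat.mul_le_mul_left _ ha)))
      _ = 2 * ((512 * m ^ 6 * v ^ 25) * N) := by ring
      _ < 2 * ((v * v ^ 25) * N) := by gcongr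
      _ = 2 * (v ^ 26 * N) := by ring
      _ ≤ _ := by gcongr
  have k4 : N * N ≤ m ^ 2 * (x + y + z) := by
    calc _ ≤ (m * u) * (m * w) := Nat.mul_le_mul c1 c2
      _ = m ^ 2 * (u * w) := by ring
      _ ≤ _ := Nat.mul_le_mul_left _ h4
  nlinarith

end Pool.Agent.Lib.MP_1d41ea_nt.H84
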