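import Pool.Agent.Lib.MP_1d41ea_nt.H84Pow

set_option autoImplicit false

namespace Pool.Agent.Lib.MP_1d41ea_nt.H84

open Finset Filter

theorem ncard_symm (A S : Finset ℕ) (Z : Set ℕ) (h : ∀ n, n ∈ Z ↔ ¬ (n ∈ A ↔ n ∈ S)) :
    Z.ncard = #(A \ S) + #(S \ A) := by
  rw [← card_union_of_disjoint disjoint_sdiff_sdiff, ← Set.ncard_coe_finset]
  congr 1
  ext n
  simp only [h, coe_union, coe_sdiff, Set.mem_union, Set.mem_sdiff, mem_coe]
  tauto

/-- The conjecture of Erdos on perturbed powers, with the sharp constant. -/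
theorem erdos {k : ℕ} (hk : 2 ≤ k) (B C : Set ℕ) (hB : B.Nontrivial) (hC : C.Nontrivial) {ε : ℝ}
    (hε : 0 < ε) : ∀ᶠ X : ℕ in atTop, (1 - ε) * (X : ℝ) ^ (k : ℝ)⁻¹ ≤
      ({n : ℕ | n ≤ X ∧ ¬ ((∃ b ∈ B, ∃ c ∈ C, b + c = n) ↔ ∃ m : ℕ, m ^ k = n)} : Set ℕ).ncard := by
  classical
  obtain ⟨b₁, m1, b₂, m2, hb⟩ := hB
  obtain ⟨c₁, m3, c₂, m4, hc⟩ := hC
  have k0 : k ≠ 0 := by omega
  obtain ⟨M, hM⟩ := exists_nat_gt (6 / ε)
  have M1 : (0 : ℝ) < M := lt_of_le_of_lt (by positivity) hM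
  have M0 : 0 < M := Nat.cast_pos.1 M1
  obtain ⟨N₀, h⟩ := natver M (ε := ε / 3) (by positivity)
  obtain ⟨K, hK⟩ := pw_few hk
  filter_upwards [eventually_ge_atTop ((N₀ + K + M) ^ k),
    eventually_ge_atTop (M * (b₁ + b₂ + c₁ + c₂ + 1))] with X h1 h2
  obtain ⟨r, r1, r2, r3⟩ : ∃ r : ℕ, r ^ k ≤ X ∧ X < (r + 1) ^ k ∧ N₀ + K + M ≤ r :=
    ⟨_, Nat.pow_nthRoot_le (Or.inl k0), Nat.lt_pow_nthRoot_add_one k0 X, (Nat.le_nthRoot_iff k0).2 h1⟩
  obtain ⟨l, l1, l2, l3⟩ : ∃ l : ℕ, X < M * l ∧ M * l ≤ 2 * X ∧ b₁ + b₂ + c₁ + c₂ ≤ l := by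
    refine ⟨X / M + 1, Nat.lt_mul_div_succ X M0, ?_, ?_⟩
    · have := Nat.mul_div_le X M
      have : M ≤ X := (Nat.le_mul_of_pos_right _ (by omega)).trans h2
      rw [mul_add]
      omega
    · have : b₁ + b₂ + c₁ + c₂ + 1 ≤ X / M := (Nat.le_div_iff_mul_le M0).2 (by rwa [mul_comm])
      omega
  have l0 : 0 < l := Nat.pos_of_ne_zero fun h0 => by simp [h0] at l1
  set A : Finset ℕ := {n ∈ range (X + 1) | ∃ b ∈ B, ∃ c ∈ C, b + c = n} with hAdef
  have hA : ∀ n, n ∈ A ↔ n ≤ X ∧ ∃ b ∈ B, ∃ c ∈ C, b + c = n := fun n => by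
    simp only [hAdef, mem_filter, mem_range, Nat.lt_succ_iff]
  have hS : ∀ n, n ∈ pw k r ↔ n ≤ X ∧ ∃ m : ℕ, m ^ k = n := fun n => by
    simp only [pw, mem_image, mem_range, Nat.lt_succ_iff]
    constructor
    · rintro ⟨m, a, rfl⟩
      exact ⟨(Nat.pow_le_pow_left a _).trans r1, m, rfl⟩
    · rintro ⟨a, m, rfl⟩
      exact ⟨m, Nat.lt_succ_iff.1 (lt_of_pow_lt_pow_left₀ k (Nat.zero_le _) (a.trans_lt r2)), rfl⟩
  rw [ncard_symm A (pw k r) _ fun n => by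
    simp only [hA, hS, Set.mem_ofPred_eq]
    by_cases e : n ≤ X <;> simp only [e, true_and, false_and, iff_self, not_true_eq_false]]
  have cS := card_pw k0 r
  have x1 : (X : ℝ) ^ (k : ℝ)⁻¹ ≤ #(pw k r) := by
    rw [cS, Real.rpow_inv_le_iff_of_pos (Nat.cast_nonneg _) (Nat.cast_nonneg _)
      (Nat.cast_pos.2 (by omega)), Real.rpow_natCast]
    exact_mod_cast r2.le
  have x0 : 0 ≤ (X : ℝ) ^ (k : ℝ)⁻¹ := by positivity
  have s0 : (0 : ℝ) ≤ #(pw k r) := Nat.cast_nonneg _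
  suffices hh : (1 - ε) * #(pw k r) ≤ #(A \ pw k r) + #(pw k r \ A) by
    push_cast
    rcases le_total ε 1 with e | e
    · exact (mul_le_mul_of_nonneg_left x1 (by linarith)).trans hh
    · exact (mul_nonpos_of_nonpos_of_nonneg (by linarith) x0).trans (by positivity)
  by_cases ha : #A ≤ 2 * #(pw k r)
  swap
  · have e1 := le_card_sdiff (pw k r) A
    have e2 : (#(pw k r) : ℝ) ≤ #(A \ pw k r) := by
      exact_mod_cast (by omega : #(pw k r) ≤ #(A \ pw k r))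
    have e3 : (0 : ℝ) ≤ #(pw k r \ A) := Nat.cast_nonneg _
    nlinarith
  set T : Finset ℕ := {s ∈ pw k r | s ∈ A ∧ s + l ≤ X} with hT
  have hr : ∀ s ∈ T, ∃ b c, b ∈ B ∧ c ∈ C ∧ b + c = s ∧ s + l ≤ X := fun s hs => by
    obtain ⟨b, hb, c, hc, e⟩ := ((hA s).1 (mem_filter.1 hs).2.1).2
    exact ⟨b, c, hb, hc, e, (mem_filter.1 hs).2.2⟩
  choose! f g q1 q2 q3 q4 using hr
  have key := h (pw k r) A T f g (fun s => f s / l) b₁ b₂ c₁ c₂ (hK r (by omega)) (by omega) ha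
    (filter_subset _ _) q3
    (fun s hs => (Nat.div_lt_iff_lt_mul l0).2 (by have := q3 s hs; have := q4 s hs; omega))
    (fun s hs t ht e => (hA _).2 ⟨by
      have a1 := Nat.lt_mul_div_succ (f s) l0
      have a2 := Nat.mul_div_le (f t) l
      have := q3 t ht
      have := q4 t ht
      rw [e, mul_add] at a1
      omega, _, q1 s hs, _, q2 t ht, rfl⟩) hb hc
    (fun s hs => by
      have := q3 s hs
      have := q4 s hs
      exact ⟨(hA _).2 ⟨by omega, _, m1, _, q2 s hs, rfl⟩, (hA _).2 ⟨by omega, _, m2, _, q2 s hs, rfl⟩⟩)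
    (fun s hs => by
      have := q3 s hs
      have := q4 s hs
      exact ⟨(hA _).2 ⟨by omega, _, q1 s hs, _, m3, rfl⟩, (hA _).2 ⟨by omega, _, q1 s hs, _, m4, rfl⟩⟩)
  have t1 : #(pw k r) ≤ #T + #(pw k r \ A) + #{s ∈ pw k r | X < s + l} := by
    refine le_trans (card_le_card fun s hs => ?_)
      ((card_union_le _ _).trans (Nat.add_le_add_right (card_union_le _ _) _))
    rcases le_or_gt (s + l) X with e | e
    · by_cases a : s ∈ A
      · exact mem_union_left _ (mem_union_left _ (mem_filter.2 ⟨hs, a, e⟩))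
      · exact mem_union_left _ (mem_union_right _ (Finset.mem_sdiff.2 ⟨hs, a⟩))
    · exact mem_union_right _ (mem_filter.2 ⟨hs, e⟩)
  have t2 : (#(pw k r) : ℝ) ≤ #T + #(pw k r \ A) + (2 * r / M + 1) := by
    have a1 := t1.trans (Nat.add_le_add_left (pw_top hk M0 r1 l2) _)
    have a2 : ((2 * r / M : ℕ) : ℝ) ≤ 2 * r / M := by
      have := Nat.cast_div_le (α := ℝ) (m := 2 * r) (n := M)
      push_cast at this
      exact this
    have a3 := (Nat.cast_le (α := ℝ)).2 a1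
    push_cast at a3
    linarith
  have t3 : (#(pw k r) : ℝ) = r + 1 := by rw [cS]; push_cast; rfl
  have t4 : (M : ℝ) ≤ r := Nat.cast_le.2 (by omega)
  rw [div_lt_iff₀ hε] at hM
  have t5 : 2 * (r : ℝ) / M ≤ ε / 3 * r := by
    rw [div_le_iff₀ M1]
    nlinarith
  have t6 : 6 ≤ (r : ℝ) * ε := hM.le.trans (mul_le_mul_of_nonneg_right t4 hε.le)
  rw [t3] at key t2 ⊢
  linarith

theorem eq_zero_of_digits {b : ℕ} (hb : 2 ≤ b) (x : ℕ) (h : ∀ i, x / b ^ i % b = 0) : x = 0 := by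
  induction x using Nat.strong_induction_on with
  | _ x ih =>
    by_contra h0
    have h1 := ih (x / b) (Nat.div_lt_self (by omega) (by omega)) fun i => by
      rw [Nat.div_div_eq_div_mul, ← pow_succ']
      exact h _
    have h2 := h 0
    have h3 := Nat.div_add_mod x b
    rw [pow_zero, Nat.div_one] at h2
    rw [h1, h2] at h3
    omega

theorem unit_of_triv {b x j : ℕ} (hb : 2 ≤ b) (h0 : x / b ^ 0 % b ≠ 0)
    (ht : ¬ ({i | x / b ^ i % b ≠ 0} : Set ℕ).Nontrivial) (hj : b - 1 ≤ x / b ^ j % b) :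
    x = b - 1 := by
  have h1 : ∀ i, i ≠ 0 → x / b ^ i % b = 0 := fun i hi => by
    by_contra h
    exact ht ⟨i, h, 0, h0, hi⟩
  have h2 : x / b = 0 := eq_zero_of_digits hb _ fun i => by
    rw [Nat.div_div_eq_div_mul, ← pow_succ']
    exact h1 _ (by omega)
  have h3 : j = 0 := by
    by_contra h
    have := h1 j h
    omega
  have h4 := Nat.div_add_mod x b
  have h5 := Nat.mod_lt x (by omega : 0 < b)
  rw [h3, pow_zero, Nat.div_one] at hj
  rw [h2] at h4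
  omega

/-- Numbers whose digit support is close to a set with few repeated differences are lunar primes. -/
theorem lunar {ε : ℝ} (hε : 0 < ε) : ∃ N₀ : ℕ, ∀ b : ℕ, 2 ≤ b → ∀ S : Finset ℕ, N₀ ≤ #S →
    (∀ d, 0 < d → #{s ∈ S | s + d ∈ S} ^ 26 ≤ #S) → ∀ n : ℕ, n % b ≠ 0 →
    (∃ i, n / b ^ i % b = b - 1) →
    (({i : ℕ | ¬ (n / b ^ i % b ≠ 0 ↔ i ∈ S)} : Set ℕ).ncard : ℝ) ≤ (1 - ε) * #S →
    n ≠ b - 1 ∧ ∀ a c : ℕ, (∀ m : ℕ, n / b ^ m % b = (Finset.range (m + 1)).sup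
      (fun i => min (a / b ^ i % b) (c / b ^ (m - i) % b))) → a = b - 1 ∨ c = b - 1 := by
  classical
  obtain ⟨N₀, h⟩ := fin_far (half_pos hε)
  obtain ⟨N₁, h₁⟩ := exists_nat_gt (1 / ε)
  refine ⟨N₀ + N₁, fun b hb S h0 hS n hn ⟨j, hj⟩ hd => ?_⟩
  set A : Finset ℕ := {i ∈ range n | n / b ^ i % b ≠ 0} with hAdef
  have hA : ∀ i, i ∈ A ↔ n / b ^ i % b ≠ 0 := fun i => by
    refine ⟨fun hi => (mem_filter.1 hi).2, fun hi => mem_filter.2 ⟨mem_range.2 ?_, hi⟩⟩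
    by_contra hl
    have : n < b ^ i := (not_lt.1 hl).trans_lt (Nat.lt_pow_self (by omega))
    exact hi (by rw [Nat.div_eq_of_lt this, Nat.zero_mod])
  rw [ncard_symm A S _ fun i => by simp only [hA, Set.mem_ofPred_eq]] at hd
  push_cast at hd
  have s1 : 1 < ε * #S := by
    rw [div_lt_iff₀ hε] at h₁
    have : (N₁ : ℝ) ≤ #S := Nat.cast_le.2 (by omega)
    nlinarith
  constructor
  · intro he
    have a1 : A ⊆ {0} := fun i hi => mem_singleton.2 (by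
      by_contra h0
      have : b ≤ b ^ i := Nat.le_self_pow h0 b
      exact (hA i).1 hi (by rw [Nat.div_eq_of_lt (by omega), Nat.zero_mod]))
    have a2 := card_le_card a1
    have a3 := le_card_sdiff A S
    have a4 : (#S : ℝ) ≤ #(S \ A) + 1 := by
      rw [card_singleton] at a2
      exact_mod_cast (by omega : #S ≤ #(S \ A) + 1)
    have a5 : (0 : ℝ) ≤ #(A \ S) := Nat.cast_nonneg _
    linarith
  · intro a c hm
    have hs : ∀ m t, 0 < t → (t ≤ n / b ^ m % b ↔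
        ∃ i, i ≤ m ∧ t ≤ a / b ^ i % b ∧ t ≤ c / b ^ (m - i) % b) := fun m t ht => by
      rw [hm m, Finset.le_sup_iff ht]
      simp only [mem_range, Nat.lt_succ_iff, le_min_iff]
    obtain ⟨i₀, z1, z2, z3⟩ := (hs 0 1 Nat.one_pos).1 (by rw [pow_zero, Nat.div_one]; omega)
    obtain rfl : i₀ = 0 := by omega
    obtain ⟨i, -, y2, y3⟩ := (hs j (b - 1) (by omega)).1 hj.ge
    by_contra hc
    have hB : ({i | a / b ^ i % b ≠ 0} : Set ℕ).Nontrivial := by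
      by_contra ht
      exact hc (Or.inl (unit_of_triv hb (by omega) ht y2))
    have hC : ({i | c / b ^ i % b ≠ 0} : Set ℕ).Nontrivial := by
      by_contra ht
      exact hc (Or.inr (unit_of_triv hb (by rw [Nat.sub_self] at z3; omega) ht y3))
    have key := h S A _ _ (by omega) hS hB hC fun m => by
      rw [hA, ← Nat.one_le_iff_ne_zero, hs m 1 Nat.one_pos]
      constructor
      · rintro ⟨i, a1, a2, a3⟩
        exact ⟨i, Nat.one_le_iff_ne_zero.1 a2, m - i, Nat.one_le_iff_ne_zero.1 a3, by omega⟩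
      · rintro ⟨i, a1, i', a2, rfl⟩
        exact ⟨i, by omega, Nat.one_le_iff_ne_zero.2 a1, by
          rw [Nat.add_sub_cancel_left]; exact Nat.one_le_iff_ne_zero.2 a2⟩
    linarith

end Pool.Agent.Lib.MP_1d41ea_nt.H84
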