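import Pool.Agent.Lib.MP_1d41ea_nt.H84Core

set_option autoImplicit false

namespace Pool.Agent.Lib.MP_1d41ea_nt.H84

open Finset

variable {G : Type*} [AddCommGroup G] [DecidableEq G]

/-- Edges between two small vertex sets are few. -/
theorem edges_le {S W B₁ C₁ : Finset G} {τ : ℕ} (hS : FewDiff S τ) (f g : G → G) (hW : W ⊆ S)
    (hfg : ∀ s ∈ W, f s + g s = s) (hB : ∀ s ∈ W, f s ∈ B₁) (hC : ∀ s ∈ W, g s ∈ C₁) (j : ℕ) :
    j * #W ≤ j * (j * #C₁) + τ * (#B₁ * #B₁) := by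
  classical
  rw [← card_filter_add_card_filter_not (s := W) (fun s => #{t ∈ W | g t = g s} ≤ j), mul_add]
  refine add_le_add (Nat.mul_le_mul_left _ ?_) ?_
  · refine card_le_mul_card_image_of_maps_to (f := g) (fun s hs => hC s (mem_filter.1 hs).1) j
      fun c _ => ?_
    rcases ({s ∈ {s ∈ W | #{t ∈ W | g t = g s} ≤ j} | g s = c} : Finset G).eq_empty_or_nonempty
      with h | ⟨s, hs⟩
    · rw [h]; simp
    · obtain ⟨hs, he⟩ := mem_filter.1 hs
      refine le_trans (card_le_card fun t ht => ?_) (mem_filter.1 hs).2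
      obtain ⟨ht, he'⟩ := mem_filter.1 ht
      exact mem_filter.2 ⟨(mem_filter.1 ht).1, he'.trans he.symm⟩
  · refine (mul_card_le_sigma _ (fun s => ({t ∈ W | g t = g s} : Finset G).erase s) j
      fun s hs => ?_).trans ?_
    · obtain ⟨hs, h⟩ := mem_filter.1 hs
      have : s ∈ ({t ∈ W | g t = g s} : Finset G) := mem_filter.2 ⟨hs, rfl⟩
      rw [card_erase_of_mem this]
      omega
    · rw [← card_product]
      have hm : ∀ x ∈ ({s ∈ W | ¬ #{t ∈ W | g t = g s} ≤ j} : Finset G).sigma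
          fun s => ({t ∈ W | g t = g s} : Finset G).erase s,
          x.1 ∈ W ∧ x.2 ∈ W ∧ x.2 ≠ x.1 ∧ g x.2 = g x.1 := by
        intro x hx
        obtain ⟨a, b⟩ := mem_sigma.1 hx
        obtain ⟨b, c⟩ := mem_erase.1 b
        exact ⟨(mem_filter.1 a).1, (mem_filter.1 c).1, b, (mem_filter.1 c).2⟩
      refine few_fib hS _ _ (fun x => (f x.1, f x.2)) (fun x => x.1) (fun x => x.2)
        (fun b => b.1 - b.2) ?_ ?_ ?_ ?_ ?_ ?_
      · intro x hx
        exact mem_product.2 ⟨hB _ (hm x hx).1, hB _ (hm x hx).2.1⟩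
      · intro x hx
        exact hW (hm x hx).1
      · intro x hx
        exact hW (hm x hx).2.1
      · intro x hx
        exact (hm x hx).2.2.1.symm
      · intro x hx
        obtain ⟨a, b, -, d⟩ := hm x hx
        have e1 := hfg _ a
        have e2 := hfg _ b
        calc x.1 - x.2 = (f x.1 + g x.1) - (f x.2 + g x.2) := by rw [e1, e2]
          _ = f x.1 - f x.2 := by rw [d]; abel
      · rintro ⟨a, b⟩ _ ⟨a', b'⟩ _ - e2 e3
        simp only at e2 e3
        subst e2 e3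
        rfl

/-- The values of `f` with more than `k` preimages. -/
def big (T : Finset G) (f : G → G) (k : ℕ) : Finset G := {b ∈ T.image f | k < #{s ∈ T | f s = b}}

theorem big_card (T : Finset G) (f : G → G) (k : ℕ) : k * #(big T f k) ≤ #T := by
  classical
  refine le_trans (mul_card_image_le_card_of_maps_to (f := f) (s := {s ∈ T | f s ∈ big T f k})
    (fun s hs => (mem_filter.1 hs).2) k fun b hb => ?_) (card_filter_le _ _)
  refine (mem_filter.1 hb).2.le.trans (card_le_card fun s hs => ?_)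
  obtain ⟨h1, h2⟩ := mem_filter.1 hs
  exact mem_filter.2 ⟨mem_filter.2 ⟨h1, h2 ▸ hb⟩, h2⟩

theorem fib_le (T : Finset G) (f : G → G) (k : ℕ) (b : G) :
    #{s ∈ {s ∈ T | f s ∉ big T f k} | f s = b} ≤ k := by
  classical
  rcases ({s ∈ {s ∈ T | f s ∉ big T f k} | f s = b} : Finset G).eq_empty_or_nonempty
    with h | ⟨s, hs⟩
  · rw [h]; simp
  · obtain ⟨hs, he⟩ := mem_filter.1 hs
    obtain ⟨hs, hb⟩ := mem_filter.1 hs
    have : ¬ k < #{t ∈ T | f t = f s} := fun h => hb (mem_filter.2 ⟨mem_image_of_mem _ hs, h⟩)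
    refine le_trans (card_le_card fun t ht => ?_) (not_lt.1 this)
    obtain ⟨ht, he'⟩ := mem_filter.1 ht
    exact mem_filter.2 ⟨(mem_filter.1 ht).1, he'.trans he.symm⟩

/-- Almost all edges have an end in a small set `H`. -/
theorem core {S A T : Finset G} {τ v m L : ℕ} (hS : FewDiff S τ) (f g : G → G) (hT : T ⊆ S)
    (hfg : ∀ s ∈ T, f s + g s = s) (hA : ∀ s ∈ T, ∀ t ∈ T, f s + g t ∈ A)
    (hτ : τ ≤ v) (hN : v ^ 26 ≤ #S) (hN' : #S ≤ L * v ^ 26) (ha : #A ≤ 2 * #S)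
    (hm : 0 < m) (hv : 512 * m ^ 6 < v) :
    ∃ H : Finset G, #H ≤ 2 * (L * v ^ 12) ∧
      m * #{s ∈ T | f s ∉ H ∧ g s ∉ H} ≤ 2 * #S + m * ((L + L * L) * v ^ 25) := by
  classical
  have v0 : 0 < v := by omega
  have hTS : #T ≤ L * v ^ 26 := (card_le_card hT).trans hN'
  have b14 : ∀ f : G → G, #(big T f (v ^ 14)) ≤ L * v ^ 12 := fun f =>
    Nat.le_of_mul_le_mul_left (((big_card T f (v ^ 14)).trans hTS).trans
      (le_of_eq (by ring : L * v ^ 26 = v ^ 14 * (L * v ^ 12)))) (by positivity)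
  have b10 : ∀ f : G → G, #(big T f (v ^ 10)) ≤ L * v ^ 16 := fun f =>
    Nat.le_of_mul_le_mul_left (((big_card T f (v ^ 10)).trans hTS).trans
      (le_of_eq (by ring : L * v ^ 26 = v ^ 10 * (L * v ^ 16)))) (by positivity)
  refine ⟨big T f (v ^ 14) ∪ big T g (v ^ 14),
    (card_union_le _ _).trans (by have := b14 f; have := b14 g; omega), ?_⟩
  set Z : Finset G := {s ∈ T | f s ∉ big T f (v ^ 14) ∪ big T g (v ^ 14) ∧
    g s ∉ big T f (v ^ 14) ∪ big T g (v ^ 14)} with hZ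
  have z1 : #Z ≤ #{s ∈ T | f s ∉ big T f (v ^ 14)} := card_le_card fun s hs => by
    obtain ⟨a, b, -⟩ := mem_filter.1 hs
    exact mem_filter.2 ⟨a, fun h => b (mem_union_left _ h)⟩
  have z2 : #Z ≤ #{s ∈ T | g s ∉ big T g (v ^ 14)} := card_le_card fun s hs => by
    obtain ⟨a, -, b⟩ := mem_filter.1 hs
    exact mem_filter.2 ⟨a, fun h => b (mem_union_right _ h)⟩
  have z3 : #Z ≤ #T := card_filter_le _ _
  rcases counting hS f g hT (filter_subset _ _) (filter_subset _ _) hfg hA (fib_le T f (v ^ 14))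
    (fib_le T g (v ^ 10)) (le_of_eq (by ring)) hτ hN ha hm hv with h1 | h1
  · have := Nat.mul_le_mul_left m z1
    omega
  rcases counting hS f g hT (filter_subset _ _) (filter_subset _ _) hfg hA (fib_le T f (v ^ 10))
    (fib_le T g (v ^ 14)) (le_of_eq (by ring)) hτ hN ha hm hv with h2 | h2
  swap
  · have := Nat.mul_le_mul_left m z2
    omega
  set W : Finset G := {s ∈ T | f s ∈ big T f (v ^ 10) ∧ g s ∈ big T g (v ^ 10)} with hW
  have w1 := edges_le hS f g (W := W) ((filter_subset _ _).trans hT)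
    (fun s hs => hfg s (mem_filter.1 hs).1) (fun s hs => (mem_filter.1 hs).2.1)
    (fun s hs => (mem_filter.1 hs).2.2) (v ^ 8)
  have w2 : #W ≤ (L + L * L) * v ^ 25 := by
    refine Nat.le_of_mul_le_mul_left (w1.trans ?_) (by positivity : 0 < v ^ 8)
    calc _ ≤ v ^ 8 * (v ^ 8 * (L * v ^ 16)) + v * ((L * v ^ 16) * (L * v ^ 16)) :=
          add_le_add (Nat.mul_le_mul_left _ (Nat.mul_le_mul_left _ (b10 g)))
            (Nat.mul_le_mul hτ (Nat.mul_le_mul (b10 f) (b10 f)))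
      _ = v ^ 8 * (L * v ^ 24 * 1 + L * L * v ^ 25) := by ring
      _ ≤ v ^ 8 * (L * v ^ 24 * v + L * L * v ^ 25) := by gcongr; omega
      _ = _ := by ring
  have w3 : #T ≤ #{s ∈ T | f s ∉ big T f (v ^ 10)} + #{s ∈ T | g s ∉ big T g (v ^ 10)} + #W := by
    refine le_trans (card_le_card fun s hs => ?_)
      ((card_union_le _ _).trans (Nat.add_le_add_right (card_union_le _ _) _))
    simp only [hW, mem_union, mem_filter]
    tauto
  calc m * #Z ≤ m * (#{s ∈ T | f s ∉ big T f (v ^ 10)} + #{s ∈ T | g s ∉ big T g (v ^ 10)} + #W) :=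
        Nat.mul_le_mul_left _ (z3.trans w3)
    _ ≤ _ := by
        have := Nat.mul_le_mul_left m w2
        rw [mul_add, mul_add]
        omega

/-- Shifting the elements of `T` by nonzero elements of a small set produces almost `#T` elements
outside `S`. -/
theorem shift {S A T D : Finset G} {τ : ℕ} (hS : FewDiff S τ) (hT : T ⊆ S)
    (h : ∀ s ∈ T, ∃ δ ∈ D, δ ≠ 0 ∧ s + δ ∈ A) :
    #T ≤ #(A \ S) + τ * #D + τ * (#D * #D) := by
  classical
  choose! δ h1 h2 h3 using h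
  have k1 : #{s ∈ T | s + δ s ∈ S} ≤ τ * #D := by
    refine few_fib hS _ _ δ (fun s => s + δ s) (fun s => s) (fun d => d)
      (fun s hs => h1 s (mem_filter.1 hs).1) (fun s hs => (mem_filter.1 hs).2)
      (fun s hs => hT (mem_filter.1 hs).1) (fun s hs he => h2 s (mem_filter.1 hs).1 ?_)
      (fun s _ => by simp) (fun _ _ _ _ _ _ e => e)
    simpa using he
  have k2 : #{s ∈ T | ∃ t ∈ T, t ≠ s ∧ t + δ t = s + δ s} ≤ τ * (#D * #D) := by
    have := mul_card_le_sigma {s ∈ T | ∃ t ∈ T, t ≠ s ∧ t + δ t = s + δ s}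
      (fun s => ({t ∈ T | t ≠ s ∧ t + δ t = s + δ s} : Finset G)) 1 fun s hs => by
        obtain ⟨t, a, b⟩ := (mem_filter.1 hs).2
        exact card_pos.2 ⟨t, mem_filter.2 ⟨a, b⟩⟩
    rw [one_mul] at this
    refine this.trans ?_
    rw [← card_product]
    have hm : ∀ x ∈ ({s ∈ T | ∃ t ∈ T, t ≠ s ∧ t + δ t = s + δ s} : Finset G).sigma
        fun s => ({t ∈ T | t ≠ s ∧ t + δ t = s + δ s} : Finset G),
        x.1 ∈ T ∧ x.2 ∈ T ∧ x.2 ≠ x.1 ∧ x.2 + δ x.2 = x.1 + δ x.1 := by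
      intro x hx
      obtain ⟨a, b⟩ := mem_sigma.1 hx
      exact ⟨(mem_filter.1 a).1, (mem_filter.1 b).1, (mem_filter.1 b).2⟩
    refine few_fib hS _ _ (fun x => (δ x.1, δ x.2)) (fun x => x.1) (fun x => x.2)
      (fun b => b.2 - b.1) ?_ ?_ ?_ ?_ ?_ ?_
    · intro x hx
      exact mem_product.2 ⟨h1 _ (hm x hx).1, h1 _ (hm x hx).2.1⟩
    · intro x hx
      exact hT (hm x hx).1
    · intro x hx
      exact hT (hm x hx).2.1
    · intro x hx
      exact (hm x hx).2.2.1.symm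
    · intro x hx
      simp only
      rw [sub_eq_sub_iff_add_eq_add, ← (hm x hx).2.2.2, add_comm]
    · rintro ⟨a, b⟩ _ ⟨a', b'⟩ _ - e2 e3
      simp only at e2 e3
      subst e2 e3
      rfl
  have k3 : #{s ∈ T | s + δ s ∉ S ∧ ¬ ∃ t ∈ T, t ≠ s ∧ t + δ t = s + δ s} ≤ #(A \ S) := by
    refine card_le_card_of_injOn (fun s => s + δ s) ?_ ?_
    · intro s hs
      obtain ⟨a, b, -⟩ := mem_filter.1 (mem_coe.1 hs)
      exact mem_coe.2 (mem_sdiff.2 ⟨h3 s a, b⟩)
    · intro s hs t ht he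
      by_contra hne
      exact (mem_filter.1 (mem_coe.1 ht)).2.2 ⟨s, (mem_filter.1 (mem_coe.1 hs)).1, hne, he⟩
  refine le_trans (card_le_card fun s hs => ?_) ((card_union_le _ _).trans
    (add_le_add ((card_union_le _ _).trans (add_le_add k3 k1)) k2))
  simp only [mem_union, mem_filter]
  tauto

/-- The finite inequality, with `M` classes. -/
theorem classes {S A T : Finset G} {τ v m L M : ℕ} (hS : FewDiff S τ) (f g : G → G) (cls : G → ℕ)
    (hT : T ⊆ S) (hfg : ∀ s ∈ T, f s + g s = s) (hM : ∀ s ∈ T, cls s < M)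
    (hA : ∀ s ∈ T, ∀ t ∈ T, cls s = cls t → f s + g t ∈ A)
    {b₁ b₂ c₁ c₂ : G} (hb : b₁ ≠ b₂) (hc : c₁ ≠ c₂)
    (hB : ∀ s ∈ T, b₁ + g s ∈ A ∧ b₂ + g s ∈ A) (hC : ∀ s ∈ T, f s + c₁ ∈ A ∧ f s + c₂ ∈ A)
    (hτ : τ ≤ v) (hN : v ^ 26 ≤ #S) (hN' : #S ≤ L * v ^ 26) (ha : #A ≤ 2 * #S)
    (hm : 0 < m) (hv : 512 * m ^ 6 < v) :
    m * #T ≤ m * #(A \ S) + M * (2 * #S) +
      m * ((2 * (2 + 4 * M * L) ^ 2 + M * (L + L * L)) * v ^ 25) := by
  classical
  have v0 : 0 < v := by omega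
  have hc' : ∀ i : ℕ, ∃ H : Finset G, #H ≤ 2 * (L * v ^ 12) ∧
      m * #{s ∈ {s ∈ T | cls s = i} | f s ∉ H ∧ g s ∉ H} ≤ 2 * #S + m * ((L + L * L) * v ^ 25) :=
    fun i => core hS f g ((filter_subset _ _).trans hT) (fun s hs => hfg s (mem_filter.1 hs).1)
      (fun s hs t ht => hA s (mem_filter.1 hs).1 t (mem_filter.1 ht).1
        ((mem_filter.1 hs).2.trans (mem_filter.1 ht).2.symm)) hτ hN hN' ha hm hv
  choose H h1 h2 using hc'
  set K : Finset G := (range M).biUnion H with hK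
  have k1 : #K ≤ M * (2 * (L * v ^ 12)) := by
    refine card_biUnion_le.trans ((sum_le_card_nsmul _ _ _ fun i _ => h1 i).trans ?_)
    simp
  have k2 : m * #{s ∈ T | f s ∉ K ∧ g s ∉ K} ≤ M * (2 * #S + m * ((L + L * L) * v ^ 25)) := by
    have : ({s ∈ T | f s ∉ K ∧ g s ∉ K} : Finset G) ⊆
        (range M).biUnion fun i => {s ∈ {s ∈ T | cls s = i} | f s ∉ H i ∧ g s ∉ H i} := by
      intro s hs
      obtain ⟨a, b, c⟩ := mem_filter.1 hs
      have hi := mem_range.2 (hM s a)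
      exact mem_biUnion.2 ⟨cls s, hi, mem_filter.2 ⟨mem_filter.2 ⟨a, rfl⟩,
        fun h => b (mem_biUnion.2 ⟨_, hi, h⟩), fun h => c (mem_biUnion.2 ⟨_, hi, h⟩)⟩⟩
    refine (Nat.mul_le_mul_left m ((card_le_card this).trans card_biUnion_le)).trans ?_
    rw [mul_sum]
    refine (sum_le_card_nsmul _ _ _ fun i _ => h2 i).trans ?_
    simp
  set D : Finset G := insert (b₂ - b₁) (insert (c₂ - c₁)
    (K.image (fun x => b₁ - x) ∪ K.image (fun x => c₁ - x))) with hD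
  have d1 : #D ≤ (2 + 4 * M * L) * v ^ 12 := by
    have e1 : #D ≤ #K + #K + 1 + 1 :=
      (card_insert_le _ _).trans (Nat.add_le_add_right ((card_insert_le _ _).trans
        (Nat.add_le_add_right ((card_union_le _ _).trans (add_le_add card_image_le card_image_le)) _)) _)
    have e2 : 1 ≤ v ^ 12 := Nat.one_le_pow _ _ v0
    nlinarith
  have k3 := shift (A := A) (T := {s ∈ T | ¬ (f s ∉ K ∧ g s ∉ K)}) (D := D) hS
    ((filter_subset _ _).trans hT) fun s hs => by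
      obtain ⟨a, b⟩ := mem_filter.1 hs
      have e := hfg s a
      by_cases h : f s ∈ K
      · by_cases h' : f s = b₁
        · refine ⟨b₂ - b₁, mem_insert_self _ _, sub_ne_zero.2 hb.symm, ?_⟩
          convert (hB s a).2 using 1
          rw [← h']
          conv_lhs => rw [← e]
          rw [e]
          calc s + (b₂ - f s) = (f s + g s) + (b₂ - f s) := by rw [e]
            _ = _ := by abel
        · refine ⟨b₁ - f s, mem_insert_of_mem (mem_insert_of_mem (mem_union_left _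
            (mem_image_of_mem _ h))), sub_ne_zero.2 (Ne.symm h'), ?_⟩
          convert (hB s a).1 using 1
          calc s + (b₁ - f s) = (f s + g s) + (b₁ - f s) := by rw [e]
            _ = _ := by abel
      · have h : g s ∈ K := by tauto
        by_cases h' : g s = c₁
        · refine ⟨c₂ - c₁, mem_insert_of_mem (mem_insert_self _ _), sub_ne_zero.2 hc.symm, ?_⟩
          convert (hC s a).2 using 1
          rw [← h']
          calc s + (c₂ - g s) = (f s + g s) + (c₂ - g s) := by rw [e]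
            _ = _ := by abel
        · refine ⟨c₁ - g s, mem_insert_of_mem (mem_insert_of_mem (mem_union_right _
            (mem_image_of_mem _ h))), sub_ne_zero.2 (Ne.symm h'), ?_⟩
          convert (hC s a).1 using 1
          calc s + (c₁ - g s) = (f s + g s) + (c₁ - g s) := by rw [e]
            _ = _ := by abel
  have k4 : τ * #D + τ * (#D * #D) ≤ 2 * (2 + 4 * M * L) ^ 2 * v ^ 25 := by
    set P := (2 + 4 * M * L) * v ^ 12 with hP
    have p1 : 1 ≤ P := Nat.mul_pos (by omega) (by positivity)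
    calc _ ≤ v * (P * P) + v * (P * P) :=
          add_le_add (Nat.mul_le_mul hτ (d1.trans (Nat.le_mul_of_pos_left _ p1)))
            (Nat.mul_le_mul hτ (Nat.mul_le_mul d1 d1))
      _ = _ := by rw [hP]; ring
  have k5 := card_filter_add_card_filter_not (s := T) (fun s => f s ∉ K ∧ g s ∉ K)
  have k6 := Nat.mul_le_mul_left m (k3.trans (by
    rw [add_assoc]; exact Nat.add_le_add_left k4 _ :
      _ ≤ #(A \ S) + 2 * (2 + 4 * M * L) ^ 2 * v ^ 25))
  rw [← k5]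
  nlinarith

theorem exists_root (e : ℕ) (he : e ≠ 0) (n : ℕ) :
    ∃ v : ℕ, v ^ e ≤ n ∧ (∀ a : ℕ, a ^ e ≤ n → a ≤ v) ∧ (0 < v → n ≤ 2 ^ e * v ^ e) := by
  refine ⟨Nat.nthRoot e n, Nat.pow_nthRoot_le (Or.inl he), fun a ha => (Nat.le_nthRoot_iff he).2 ha,
    fun h => (Nat.lt_pow_nthRoot_add_one he n).le.trans ?_⟩
  rw [← mul_pow]
  exact Nat.pow_le_pow_left (by omega) _

theorem arith {ε x y N m M c w v p : ℝ} (hε : 0 < ε) (m1 : 0 < m) (hN : 0 ≤ N) (hp : 0 ≤ p)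
    (key : m * x ≤ m * y + M * (2 * N) + m * (c * p)) (hm : 4 * M / ε < m) (hw : 2 * c / ε < w)
    (a1 : w ≤ v) (a2 : v * p ≤ N) : x ≤ y + ε * N := by
  rw [div_lt_iff₀ hε] at hm hw
  have e1 : M * (2 * N) ≤ m * (ε / 2 * N) := by nlinarith
  have a3 : c ≤ ε / 2 * v := by nlinarith
  have e2 : c * p ≤ ε / 2 * N := by
    calc _ ≤ ε / 2 * v * p := mul_le_mul_of_nonneg_right a3 hp
      _ = ε / 2 * (v * p) := by ring
      _ ≤ _ := mul_le_mul_of_nonneg_left a2 (by positivity)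
  refine le_of_mul_le_mul_left ?_ m1
  have := mul_le_mul_of_nonneg_left e2 m1.le
  nlinarith

/-- The asymptotic form. -/
theorem abstract (M : ℕ) {ε : ℝ} (hε : 0 < ε) : ∃ N₀ : ℕ, ∀ (S A T : Finset G) (τ : ℕ)
    (f g : G → G) (cls : G → ℕ) (b₁ b₂ c₁ c₂ : G), FewDiff S τ → N₀ ≤ #S → τ ^ 26 ≤ #S →
    #A ≤ 2 * #S → T ⊆ S → (∀ s ∈ T, f s + g s = s) → (∀ s ∈ T, cls s < M) →
    (∀ s ∈ T, ∀ t ∈ T, cls s = cls t → f s + g t ∈ A) → b₁ ≠ b₂ → c₁ ≠ c₂ →
    (∀ s ∈ T, b₁ + g s ∈ A ∧ b₂ + g s ∈ A) → (∀ s ∈ T, f s + c₁ ∈ A ∧ f s + c₂ ∈ A) →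
    (#T : ℝ) ≤ #(A \ S) + ε * #S := by
  obtain ⟨m, hm⟩ := exists_nat_gt (4 * M / ε)
  have m1 : (0 : ℝ) < m := lt_of_le_of_lt (by positivity) hm
  have m0 : 0 < m := Nat.cast_pos.1 m1
  obtain ⟨L, hL⟩ : ∃ L : ℕ, L = 2 ^ 26 := ⟨_, rfl⟩
  obtain ⟨c, hc⟩ : ∃ c : ℕ, c = 2 * (2 + 4 * M * L) ^ 2 + M * (L + L * L) := ⟨_, rfl⟩
  obtain ⟨w, hw⟩ := exists_nat_gt (2 * c / ε)
  obtain ⟨u, u1, u2⟩ : ∃ u : ℕ, 512 * m ^ 6 < u ∧ w ≤ u := ⟨512 * m ^ 6 + 1 + w, by omega, by omega⟩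
  refine ⟨u ^ 26, ?_⟩
  intro S A T τ f g cls b₁ b₂ c₁ c₂ hS h0 hτ ha hT hfg hM hA hb hc' hB hC
  obtain ⟨v, v1, v2, v3⟩ := exists_root 26 (by norm_num) #S
  have v4 := u1.trans_le (v2 u h0)
  have v5 := v3 ((Nat.zero_le _).trans_lt v4)
  rw [← hL] at v5
  have key := classes hS f g cls hT hfg hM hA hb hc' hB hC (v2 τ hτ) v1 v5 ha m0 v4
  rw [← hc] at key
  refine arith (p := (v : ℝ) ^ 25) (v := v) hε m1 (Nat.cast_nonneg _) (by positivity) ?_ hm hw
    (Nat.cast_le.2 (u2.trans (v2 u h0))) ?_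
  · have := (Nat.cast_le (α := ℝ)).2 key
    push_cast at this
    exact this
  · have := (Nat.cast_le (α := ℝ)).2 v1
    rw [Nat.cast_pow] at this
    rw [← pow_succ']
    exact this

end Pool.Agent.Lib.MP_1d41ea_nt.H84
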