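import Pool.Agent.Lib.MP_1d41ea_nt.H84Main

set_option autoImplicit false

namespace Pool.Agent.Lib.MP_1d41ea_nt.H84

open Finset Filter

theorem succ_le_mul_pow {s : ℝ} (hs : 1 < s) (a : ℕ) :
    (a : ℝ) + 1 ≤ (1 + 1 / (s - 1)) * s ^ a := by
  have h0 : 0 < s - 1 := by linarith
  have h1 : 1 + (a : ℝ) * (s - 1) ≤ s ^ a := by
    have := one_add_mul_le_pow (a := s - 1) (by linarith) a
    simpa using this
  have h2 : 0 < 1 / (s - 1) := by positivity
  have ha : (0 : ℝ) ≤ a := Nat.cast_nonneg a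
  have h3 : (1 + 1 / (s - 1)) * (1 + (a : ℝ) * (s - 1))
      = 1 + a * (s - 1) + 1 / (s - 1) + a := by field_simp; ring
  calc (a : ℝ) + 1 ≤ (1 + 1 / (s - 1)) * (1 + (a : ℝ) * (s - 1)) := by
        rw [h3]; nlinarith [mul_nonneg ha h0.le]
    _ ≤ _ := mul_le_mul_of_nonneg_left h1 (by linarith)

theorem succ_le_two_pow (a : ℕ) : (a : ℝ) + 1 ≤ 2 ^ a := by
  have : a + 1 ≤ 2 ^ a := Nat.lt_two_pow_self
  exact_mod_cast this

/-- The divisor bound. -/
theorem divisor_bound {η : ℝ} (hη : 0 < η) :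
    ∃ C : ℝ, 1 ≤ C ∧ ∀ n : ℕ, (#n.divisors : ℝ) ≤ C * (n : ℝ) ^ η := by
  classical
  have hs : (1 : ℝ) < 2 ^ η := Real.one_lt_rpow (by norm_num) hη
  set K : ℝ := 1 + 1 / ((2 : ℝ) ^ η - 1) with hK
  have K1 : 1 ≤ K := by
    have : 0 < 1 / ((2 : ℝ) ^ η - 1) := one_div_pos.2 (by linarith)
    linarith
  set N : ℕ := ⌈(2 : ℝ) ^ (1 / η)⌉₊ with hN
  refine ⟨K ^ N, one_le_pow₀ K1, fun n => ?_⟩
  rcases eq_or_ne n 0 with rfl | hn
  · simp [Real.zero_rpow hη.ne']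
  have e1 : (#n.divisors : ℝ) = ∏ p ∈ n.primeFactors, ((n.factorization p : ℝ) + 1) := by
    rw [Nat.card_divisors hn]; push_cast; rfl
  have e2 : (n : ℝ) ^ η = ∏ p ∈ n.primeFactors, ((p : ℝ) ^ η) ^ n.factorization p := by
    conv_lhs => rw [← Nat.prod_factorization_pow_eq_self hn]
    rw [Finsupp.prod, Nat.support_factorization, Nat.cast_prod,
      ← Real.finsetProd_rpow _ _ (fun _ _ => Nat.cast_nonneg _)]
    refine prod_congr rfl fun p _ => ?_
    rw [Nat.cast_pow, ← Real.rpow_natCast, ← Real.rpow_natCast,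
      ← Real.rpow_mul (Nat.cast_nonneg _), ← Real.rpow_mul (Nat.cast_nonneg _), mul_comm]
  have e3 : ∏ p ∈ n.primeFactors, (if p < N then K else 1) ≤ K ^ N := by
    rw [prod_ite, prod_const, prod_const_one, mul_one]
    refine pow_le_pow_right₀ K1 ?_
    calc _ ≤ #(range N) := card_le_card fun p hp => mem_range.2 (mem_filter.1 hp).2
      _ = N := card_range N
  rw [e1, e2]
  calc _ ≤ ∏ p ∈ n.primeFactors,
        ((if p < N then K else 1) * ((p : ℝ) ^ η) ^ n.factorization p) := by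
        refine prod_le_prod (fun _ _ => by positivity) fun p hp => ?_
        have p2 : (2 : ℝ) ≤ p := by exact_mod_cast (Nat.prime_of_mem_primeFactors hp).two_le
        split_ifs with h
        · refine (succ_le_mul_pow hs _).trans (mul_le_mul_of_nonneg_left ?_ (by linarith))
          exact pow_le_pow_left₀ (by positivity) (Real.rpow_le_rpow (by norm_num) p2 hη.le) _
        · rw [one_mul]
          refine (succ_le_two_pow _).trans (pow_le_pow_left₀ (by norm_num) ?_ _)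
          have h1 : (2 : ℝ) ^ (1 / η) ≤ p :=
            (Nat.le_ceil _).trans (by exact_mod_cast not_lt.1 h)
          calc (2 : ℝ) = ((2 : ℝ) ^ (1 / η)) ^ η := by
                rw [← Real.rpow_mul (by norm_num), one_div_mul_cancel hη.ne', Real.rpow_one]
            _ ≤ _ := Real.rpow_le_rpow (by positivity) h1 hη.le
    _ ≤ _ := by
        rw [prod_mul_distrib]
        exact mul_le_mul_of_nonneg_right e3 (prod_nonneg fun _ _ => by positivity)

theorem divisor_pow {e : ℕ} (he : e ≠ 0) : ∃ K : ℕ, ∀ n : ℕ, #n.divisors ^ e ≤ K * n := by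
  have e0 : (0 : ℝ) < e := Nat.cast_pos.2 (Nat.pos_of_ne_zero he)
  obtain ⟨C, C1, hC⟩ := divisor_bound (inv_pos.2 e0)
  obtain ⟨K, hK⟩ := exists_nat_ge (C ^ e)
  refine ⟨K, fun n => (Nat.cast_le (α := ℝ)).1 ?_⟩
  push_cast
  calc (#n.divisors : ℝ) ^ e ≤ (C * (n : ℝ) ^ (e : ℝ)⁻¹) ^ e :=
        pow_le_pow_left₀ (Nat.cast_nonneg _) (hC n) e
    _ = C ^ e * n := by rw [mul_pow, Real.rpow_inv_natCast_pow (Nat.cast_nonneg _) he]
    _ ≤ _ := mul_le_mul_of_nonneg_right hK (Nat.cast_nonneg _)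

/-- The asymptotic inequality for sets of natural numbers. -/
theorem natver (M : ℕ) {ε : ℝ} (hε : 0 < ε) : ∃ N₀ : ℕ, ∀ (S A T : Finset ℕ)
    (f g cls : ℕ → ℕ) (b₁ b₂ c₁ c₂ : ℕ), (∀ d, 0 < d → #{s ∈ S | s + d ∈ S} ^ 26 ≤ #S) →
    N₀ ≤ #S → #A ≤ 2 * #S → T ⊆ S → (∀ s ∈ T, f s + g s = s) → (∀ s ∈ T, cls s < M) →
    (∀ s ∈ T, ∀ t ∈ T, cls s = cls t → f s + g t ∈ A) → b₁ ≠ b₂ → c₁ ≠ c₂ →
    (∀ s ∈ T, b₁ + g s ∈ A ∧ b₂ + g s ∈ A) → (∀ s ∈ T, f s + c₁ ∈ A ∧ f s + c₂ ∈ A) →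
    (#T : ℝ) ≤ #(A \ S) + ε * #S := by
  classical
  obtain ⟨N₀, h⟩ := abstract (G := ℤ) M hε
  refine ⟨N₀, ?_⟩
  intro S A T f g cls b₁ b₂ c₁ c₂ hS h0 ha hT hfg hM hA hb hc hB hC
  obtain ⟨v, v1, v2, -⟩ := exists_root 26 (by norm_num) #S
  have inj : Function.Injective (Nat.cast : ℕ → ℤ) := Nat.cast_injective
  have hm : ∀ (U : Finset ℕ) (n : ℕ), (n : ℤ) ∈ U.image (Nat.cast : ℕ → ℤ) ↔ n ∈ U :=
    fun U n => inj.mem_finset_image
  have key := h (S.image Nat.cast) (A.image Nat.cast) (T.image Nat.cast) v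
    (fun z => f z.toNat) (fun z => g z.toNat) (fun z => cls z.toNat) b₁ b₂ c₁ c₂ ?_
    (by rwa [card_image_of_injective _ inj]) (by rwa [card_image_of_injective _ inj])
    (by rwa [card_image_of_injective _ inj, card_image_of_injective _ inj]) (image_subset_image hT)
    ?_ ?_ ?_ (inj.ne hb) (inj.ne hc) ?_ ?_
  · rwa [← image_sdiff _ _ inj, card_image_of_injective _ inj, card_image_of_injective _ inj,
      card_image_of_injective _ inj] at key
  · intro d hd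
    refine le_trans ?_ (v2 _ (hS d.natAbs (Int.natAbs_pos.2 hd)))
    refine card_le_card_of_injOn (fun p => min p.1.toNat p.2.toNat) ?_ ?_
    · intro p hp
      obtain ⟨a, e⟩ := mem_filter.1 (mem_coe.1 hp)
      obtain ⟨s, hs, e1⟩ := mem_image.1 (mem_product.1 a).1
      obtain ⟨t, ht, e2⟩ := mem_image.1 (mem_product.1 a).2
      refine mem_coe.2 (mem_filter.2 ?_)
      simp only
      rcases le_total s t with l | l
      · rw [show min p.1.toNat p.2.toNat = s by omega, show s + d.natAbs = t by omega]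
        exact ⟨hs, ht⟩
      · rw [show min p.1.toNat p.2.toNat = t by omega, show t + d.natAbs = s by omega]
        exact ⟨ht, hs⟩
    · intro p hp q hq he
      obtain ⟨a, e⟩ := mem_filter.1 (mem_coe.1 hp)
      obtain ⟨s, -, e1⟩ := mem_image.1 (mem_product.1 a).1
      obtain ⟨t, -, e2⟩ := mem_image.1 (mem_product.1 a).2
      obtain ⟨a', e'⟩ := mem_filter.1 (mem_coe.1 hq)
      obtain ⟨s', -, e3⟩ := mem_image.1 (mem_product.1 a').1
      obtain ⟨t', -, e4⟩ := mem_image.1 (mem_product.1 a').2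
      simp only at he
      exact Prod.ext (by omega) (by omega)
  · intro z hz
    obtain ⟨s, hs, rfl⟩ := mem_image.1 hz
    simp only [Int.toNat_natCast]
    exact_mod_cast hfg s hs
  · intro z hz
    obtain ⟨s, hs, rfl⟩ := mem_image.1 hz
    simpa using hM s hs
  · intro z hz w hw
    obtain ⟨s, hs, rfl⟩ := mem_image.1 hz
    obtain ⟨t, ht, rfl⟩ := mem_image.1 hw
    simp only [Int.toNat_natCast, ← Nat.cast_add, hm]
    exact hA s hs t ht
  · intro z hz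
    obtain ⟨s, hs, rfl⟩ := mem_image.1 hz
    simp only [Int.toNat_natCast, ← Nat.cast_add, hm]
    exact hB s hs
  · intro z hz
    obtain ⟨s, hs, rfl⟩ := mem_image.1 hz
    simp only [Int.toNat_natCast, ← Nat.cast_add, hm]
    exact hC s hs

/-- A finite sumset is far from every set with few repeated differences. -/
theorem fin_far {ε : ℝ} (hε : 0 < ε) : ∃ N₀ : ℕ, ∀ (S A : Finset ℕ) (B C : Set ℕ), N₀ ≤ #S →
    (∀ d, 0 < d → #{s ∈ S | s + d ∈ S} ^ 26 ≤ #S) → B.Nontrivial → C.Nontrivial →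
    (∀ n, n ∈ A ↔ ∃ b ∈ B, ∃ c ∈ C, b + c = n) → (1 - ε) * #S ≤ #(A \ S) + #(S \ A) := by
  classical
  obtain ⟨N₀, h⟩ := natver 1 hε
  refine ⟨N₀, fun S A B C h0 hS ⟨b₁, m1, b₂, m2, hb⟩ ⟨c₁, m3, c₂, m4, hc⟩ hA => ?_⟩
  have s0 : (0 : ℝ) ≤ #S := Nat.cast_nonneg _
  by_cases ha : #A ≤ 2 * #S
  · have hr : ∀ s ∈ S ∩ A, ∃ b c, b ∈ B ∧ c ∈ C ∧ b + c = s := fun s hs => by
      obtain ⟨b, hb, c, hc, e⟩ := (hA s).1 (mem_inter.1 hs).2
      exact ⟨b, c, hb, hc, e⟩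
    choose! f g r1 r2 r3 using hr
    have key := h S A (S ∩ A) f g (fun _ => 0) b₁ b₂ c₁ c₂ hS h0 ha inter_subset_left r3
      (fun _ _ => Nat.one_pos) (fun s hs t ht _ => (hA _).2 ⟨_, r1 s hs, _, r2 t ht, rfl⟩) hb hc
      (fun s hs => ⟨(hA _).2 ⟨_, m1, _, r2 s hs, rfl⟩, (hA _).2 ⟨_, m2, _, r2 s hs, rfl⟩⟩)
      (fun s hs => ⟨(hA _).2 ⟨_, r1 s hs, _, m3, rfl⟩, (hA _).2 ⟨_, r1 s hs, _, m4, rfl⟩⟩)
    have e : (#(S \ A) : ℝ) + #(S ∩ A) = #S := by exact_mod_cast card_sdiff_add_card_inter S A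
    linarith
  · have e1 := le_card_sdiff S A
    have e2 : (#S : ℝ) ≤ #(A \ S) := by exact_mod_cast (by omega : #S ≤ #(A \ S))
    have e3 : (0 : ℝ) ≤ #(S \ A) := Nat.cast_nonneg _
    nlinarith

/-- The `k`-th powers of `0, …, r`. -/
def pw (k r : ℕ) : Finset ℕ := (range (r + 1)).image (· ^ k)

theorem card_pw {k : ℕ} (hk : k ≠ 0) (r : ℕ) : #(pw k r) = r + 1 := by
  rw [pw, card_image_of_injective _ (Nat.pow_left_injective hk), card_range]

theorem pow_diff (k h y : ℕ) :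
    (∑ i ∈ range k, (h + y) ^ i * y ^ (k - 1 - i)) * h + y ^ k = (h + y) ^ k :=
  (Commute.all h y).geom_sum₂_mul_add k

theorem sum_strict {k : ℕ} (hk : 2 ≤ k) (h : ℕ) :
    StrictMono fun y : ℕ => ∑ i ∈ range k, (h + y) ^ i * y ^ (k - 1 - i) := by
  intro y z hyz
  refine sum_lt_sum (fun i _ => by gcongr) ⟨k - 1, mem_range.2 (by omega), ?_⟩
  simp only [Nat.sub_self, pow_zero, mul_one]
  exact Nat.pow_lt_pow_left (by omega) (by omega)

theorem pw_diff {k : ℕ} (hk : 2 ≤ k) (r : ℕ) {d : ℕ} (hd : 0 < d) :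
    #{s ∈ pw k r | s + d ∈ pw k r} ≤ #d.divisors := by
  classical
  have hr : ∀ s ∈ ({s ∈ pw k r | s + d ∈ pw k r} : Finset ℕ), ∃ y h, y ^ k = s ∧
      (∑ i ∈ range k, (h + y) ^ i * y ^ (k - 1 - i)) * h = d := by
    intro s hs
    obtain ⟨y, -, e1⟩ := mem_image.1 (mem_filter.1 hs).1
    obtain ⟨x, -, e2⟩ := mem_image.1 (mem_filter.1 hs).2
    have : y < x := lt_of_pow_lt_pow_left₀ k (Nat.zero_le _) (by omega)
    obtain ⟨h, rfl⟩ : ∃ h, x = h + y := ⟨x - y, by omega⟩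
    have := pow_diff k h y
    exact ⟨y, h, e1, by omega⟩
  choose! y h r1 r2 using hr
  refine card_le_card_of_injOn h ?_ ?_
  · intro s hs
    exact mem_coe.2 (Nat.mem_divisors.2 ⟨Dvd.intro_left _ (r2 s (mem_coe.1 hs)), hd.ne'⟩)
  · intro s hs t ht he
    have e1 := r2 s (mem_coe.1 hs)
    have e2 := r2 t (mem_coe.1 ht)
    have h0 : 0 < h t := Nat.pos_of_ne_zero fun h0 => by
      rw [h0, mul_zero] at e2
      omega
    rw [he, ← e2] at e1
    rw [← r1 s (mem_coe.1 hs), ← r1 t (mem_coe.1 ht),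
      (sum_strict hk (h t)).injective (Nat.eq_of_mul_eq_mul_right h0 e1)]

theorem pw_few {k : ℕ} (hk : 2 ≤ k) : ∃ K : ℕ, ∀ r, K ≤ r → ∀ d, 0 < d →
    #{s ∈ pw k r | s + d ∈ pw k r} ^ 26 ≤ #(pw k r) := by
  obtain ⟨K, hK⟩ := divisor_pow (e := 26 * (2 * k)) (by omega)
  refine ⟨K, fun r hr d hd => ?_⟩
  rw [card_pw (by omega)]
  rcases ({s ∈ pw k r | s + d ∈ pw k r} : Finset ℕ).eq_empty_or_nonempty with h | ⟨s, hs⟩
  · rw [h]; simp
  obtain ⟨x, hx, e⟩ := mem_image.1 (mem_filter.1 hs).2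
  have d1 : d ≤ (r + 1) ^ k :=
    (Nat.le_add_left d s).trans (e.ge.trans (Nat.pow_le_pow_left (mem_range.1 hx).le _))
  refine (Nat.pow_le_pow_left (pw_diff hk r hd) _).trans ?_
  refine le_of_pow_le_pow_left₀ (n := 2 * k) (by omega) (Nat.zero_le _) ?_
  rw [← pow_mul]
  refine (hK d).trans ?_
  rw [two_mul, pow_add]
  exact Nat.mul_le_mul ((Nat.le_succ_of_le hr).trans (Nat.le_self_pow (by omega) _)) d1

theorem pw_top {k r X M l : ℕ} (hk : 2 ≤ k) (hM : 0 < M) (hX : r ^ k ≤ X) (hl : M * l ≤ 2 * X) :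
    #{s ∈ pw k r | X < s + l} ≤ 2 * r / M + 1 := by
  classical
  have : ({s ∈ pw k r | X < s + l} : Finset ℕ) ⊆
      (range (2 * r / M + 1)).image fun j => (r - j) ^ k := by
    intro s hs
    obtain ⟨a, b⟩ := mem_filter.1 hs
    obtain ⟨y, hy, rfl⟩ := mem_image.1 a
    obtain ⟨j, rfl⟩ : ∃ j, r = y + j := ⟨r - y, by have := mem_range.1 hy; omega⟩
    refine mem_image.2 ⟨j, mem_range.2 (Nat.lt_succ_of_le ((Nat.le_div_iff_mul_le hM).2 ?_)), by simp⟩
    obtain ⟨k, rfl⟩ : ∃ k', k = k' + 1 := ⟨k - 1, by omega⟩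
    have e1 : (y + j) * y ^ (k + 1) ≤ y * X := by
      calc _ = y * (y ^ k * (y + j)) := by ring
        _ ≤ y * ((y + j) ^ k * (y + j)) := by gcongr; omega
        _ ≤ _ := by rw [← pow_succ]; gcongr
    have e2 : (y + j) * X ≤ (y + j) * (y ^ (k + 1) + l) := Nat.mul_le_mul_left _ b.le
    have e3 : j * X ≤ (y + j) * l := by nlinarith
    rcases Nat.eq_zero_or_pos X with h | h
    · subst h
      have : y + j = 0 := pow_eq_zero_iff (by omega) |>.1 (Nat.le_zero.1 hX)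
      have : j = 0 := by omega
      simp [this]
    · refine Nat.le_of_mul_le_mul_right ?_ h
      calc j * M * X = M * (j * X) := by ring
        _ ≤ M * ((y + j) * l) := Nat.mul_le_mul_left _ e3
        _ = (y + j) * (M * l) := by ring
        _ ≤ (y + j) * (2 * X) := Nat.mul_le_mul_left _ hl
        _ = _ := by ring
  exact (card_le_card this).trans (card_image_le.trans (card_range _).le)

end Pool.Agent.Lib.MP_1d41ea_nt.H84
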