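import Pool.Agent.Lib.MP_1d41ea_nt.H84Pow

set_option autoImplicit false

namespace Pool.Agent.Lib.MP_1d41ea_nt.H84

open Finset

theorem mem_pw {k r X : ℕ} (r1 : r ^ k ≤ X) (r2 : X < (r + 1) ^ k) (n : ℕ) :
    n ∈ pw k r ↔ n ≤ X ∧ ∃ m : ℕ, m ^ k = n := by
  simp only [pw, mem_image, mem_range, Nat.lt_succ_iff]
  constructor
  · rintro ⟨m, a, rfl⟩
    exact ⟨(Nat.pow_le_pow_left a _).trans r1, m, rfl⟩
  · rintro ⟨a, m, rfl⟩
    exact ⟨m, Nat.lt_succ_iff.1 (lt_of_pow_lt_pow_left₀ k (Nat.zero_le _) (a.trans_lt r2)), rfl⟩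

/-- Sumsets are far from the `k`-th powers, uniformly in the two summands. -/
theorem uniform {k : ℕ} (hk : 2 ≤ k) {ε : ℝ} (hε : 0 < ε) : ∃ X₀ : ℕ, ∀ X : ℕ, X₀ ≤ X →
    ∀ y : ℕ, y ≤ X → ∀ B C : Set ℕ, (B ∩ Set.Iic y).Nontrivial → (C ∩ Set.Iic y).Nontrivial →
      (1 - ε) * (X : ℝ) ^ (k : ℝ)⁻¹ ≤
        (({n : ℕ | n ≤ X + y ∧ (∃ b ∈ B, ∃ c ∈ C, b + c = n) ∧ ¬ ∃ m : ℕ, m ^ k = n} :
          Set ℕ).ncard : ℝ) +
        (({n : ℕ | n ≤ X ∧ (∃ m : ℕ, m ^ k = n) ∧ ¬ ∃ b ∈ B, ∃ c ∈ C, b + c = n} :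
          Set ℕ).ncard : ℝ) := by
  classical
  have k0 : k ≠ 0 := by omega
  obtain ⟨M, hM⟩ := exists_nat_gt (6 / ε)
  have M1 : (0 : ℝ) < M := lt_of_le_of_lt (by positivity) hM
  have M0 : 0 < M := Nat.cast_pos.1 M1
  obtain ⟨N₀, h⟩ := natver M (ε := ε / 6) (by positivity)
  obtain ⟨K, hK⟩ := pw_few hk
  refine ⟨(N₀ + K + M) ^ k, ?_⟩
  rintro X h1 y hy B C ⟨b₁, ⟨m1, n1⟩, b₂, ⟨m2, n2⟩, hb⟩ ⟨c₁, ⟨m3, n3⟩, c₂, ⟨m4, n4⟩, hc⟩
  rw [Set.mem_Iic] at n1 n2 n3 n4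
  obtain ⟨r, r1, r2, r3⟩ : ∃ r : ℕ, r ^ k ≤ X ∧ X < (r + 1) ^ k ∧ N₀ + K + M ≤ r :=
    ⟨_, Nat.pow_nthRoot_le (Or.inl k0), Nat.lt_pow_nthRoot_add_one k0 X, (Nat.le_nthRoot_iff k0).2 h1⟩
  obtain ⟨R, R1, R2, R3⟩ : ∃ R : ℕ, R ^ k ≤ X + y ∧ X + y < (R + 1) ^ k ∧ r ≤ R :=
    ⟨_, Nat.pow_nthRoot_le (Or.inl k0), Nat.lt_pow_nthRoot_add_one k0 _,
      (Nat.le_nthRoot_iff k0).2 (r1.trans (Nat.le_add_right _ _))⟩
  have R4 : R < 2 * (r + 1) := by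
    refine lt_of_pow_lt_pow_left₀ k (Nat.zero_le _) (R1.trans_lt ?_)
    have : 2 ≤ 2 ^ k := Nat.le_self_pow k0 2
    rw [mul_pow]
    calc X + y < 2 * (r + 1) ^ k := by omega
      _ ≤ _ := Nat.mul_le_mul_right _ this
  obtain ⟨l, l1, l2⟩ : ∃ l : ℕ, X < M * l ∧ M * l ≤ 2 * X := by
    refine ⟨X / M + 1, Nat.lt_mul_div_succ X M0, ?_⟩
    have := Nat.mul_div_le X M
    have : M ≤ X := ((by omega : M ≤ r).trans (Nat.le_self_pow k0 r)).trans r1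
    rw [mul_add]
    omega
  have l0 : 0 < l := Nat.pos_of_ne_zero fun h0 => by simp [h0] at l1
  set A : Finset ℕ := {n ∈ range (X + y + 1) | ∃ b ∈ B, ∃ c ∈ C, b + c = n} with hAdef
  have hA : ∀ n, n ∈ A ↔ n ≤ X + y ∧ ∃ b ∈ B, ∃ c ∈ C, b + c = n := fun n => by
    simp only [hAdef, mem_filter, mem_range, Nat.lt_succ_iff]
  have hS := mem_pw r1 r2
  have hS' := mem_pw R1 R2
  have e1 : ({n : ℕ | n ≤ X + y ∧ (∃ b ∈ B, ∃ c ∈ C, b + c = n) ∧ ¬ ∃ m : ℕ, m ^ k = n} : Set ℕ) =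
      ↑(A \ pw k R) := by
    ext n
    simp only [coe_sdiff, Set.mem_sdiff, mem_coe, hA, hS', Set.mem_ofPred_eq]
    exact ⟨fun a => ⟨⟨a.1, a.2.1⟩, fun b => a.2.2 b.2⟩, fun a => ⟨a.1.1, a.1.2, fun b => a.2 ⟨a.1.1, b⟩⟩⟩
  have e2 : ({n : ℕ | n ≤ X ∧ (∃ m : ℕ, m ^ k = n) ∧ ¬ ∃ b ∈ B, ∃ c ∈ C, b + c = n} : Set ℕ) =
      ↑(pw k r \ A) := by
    ext n
    simp only [coe_sdiff, Set.mem_sdiff, mem_coe, hA, hS, Set.mem_ofPred_eq]
    exact ⟨fun a => ⟨⟨a.1, a.2.1⟩, fun b => a.2.2 b.2⟩,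
      fun a => ⟨a.1.1, a.1.2, fun b => a.2 ⟨a.1.1.trans (Nat.le_add_right _ _), b⟩⟩⟩
  rw [e1, e2, Set.ncard_coe_finset, Set.ncard_coe_finset]
  have cS := card_pw k0 r
  have cS' := card_pw k0 R
  have x1 : (X : ℝ) ^ (k : ℝ)⁻¹ ≤ r + 1 := by
    rw [Real.rpow_inv_le_iff_of_pos (Nat.cast_nonneg _) (by positivity)
      (Nat.cast_pos.2 (by omega)), Real.rpow_natCast]
    exact_mod_cast r2.le
  have x0 : 0 ≤ (X : ℝ) ^ (k : ℝ)⁻¹ := by positivity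
  have s0 : (0 : ℝ) ≤ r := Nat.cast_nonneg _
  suffices hh : (1 - ε) * (r + 1) ≤ #(A \ pw k R) + #(pw k r \ A) by
    rcases le_total ε 1 with e | e
    · exact (mul_le_mul_of_nonneg_left x1 (by linarith)).trans hh
    · exact (mul_nonpos_of_nonpos_of_nonneg (by linarith) x0).trans (by positivity)
  by_cases ha : #A ≤ 2 * #(pw k R)
  swap
  · have e1 := le_card_sdiff (pw k R) A
    have e2 : (r : ℝ) + 1 ≤ #(A \ pw k R) := by
      exact_mod_cast (by omega : r + 1 ≤ #(A \ pw k R))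
    have e3 : (0 : ℝ) ≤ #(pw k r \ A) := Nat.cast_nonneg _
    nlinarith
  set T : Finset ℕ := {s ∈ pw k r | s ∈ A ∧ s + l ≤ X} with hT
  have hr : ∀ s ∈ T, ∃ b c, b ∈ B ∧ c ∈ C ∧ b + c = s ∧ s + l ≤ X := fun s hs => by
    obtain ⟨b, hb, c, hc, e⟩ := ((hA s).1 (mem_filter.1 hs).2.1).2
    exact ⟨b, c, hb, hc, e, (mem_filter.1 hs).2.2⟩
  choose! f g q1 q2 q3 q4 using hr
  have key := h (pw k R) A T f g (fun s => f s / l) b₁ b₂ c₁ c₂ (hK R (by omega)) (by omega) ha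
    (fun s hs => by
      have := (hS s).1 (mem_filter.1 hs).1
      exact (hS' s).2 ⟨this.1.trans (Nat.le_add_right _ _), this.2⟩) q3
    (fun s hs => (Nat.div_lt_iff_lt_mul l0).2 (by have := q3 s hs; have := q4 s hs; omega))
    (fun s hs t ht e => (hA _).2 ⟨by
      have a1 := Nat.lt_mul_div_succ (f s) l0
      have a2 := Nat.mul_div_le (f t) l
      have := q3 t ht
      have := q4 t ht
      rw [e, mul_add] at a1
      omega, _, q1 s hs, _, q2 t ht, rfl⟩) hb hc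
    (fun s hs => by
      have := q3 s hs
      have := q4 s hs
      exact ⟨(hA _).2 ⟨by omega, _, m1, _, q2 s hs, rfl⟩, (hA _).2 ⟨by omega, _, m2, _, q2 s hs, rfl⟩⟩)
    (fun s hs => by
      have := q3 s hs
      have := q4 s hs
      exact ⟨(hA _).2 ⟨by omega, _, q1 s hs, _, m3, rfl⟩, (hA _).2 ⟨by omega, _, q1 s hs, _, m4, rfl⟩⟩)
  have t1 : #(pw k r) ≤ #T + #(pw k r \ A) + #{s ∈ pw k r | X < s + l} := by
    refine le_trans (card_le_card fun s hs => ?_)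
      ((card_union_le _ _).trans (Nat.add_le_add_right (card_union_le _ _) _))
    rcases le_or_gt (s + l) X with e | e
    · by_cases a : s ∈ A
      · exact mem_union_left _ (mem_union_left _ (mem_filter.2 ⟨hs, a, e⟩))
      · exact mem_union_left _ (mem_union_right _ (Finset.mem_sdiff.2 ⟨hs, a⟩))
    · exact mem_union_right _ (mem_filter.2 ⟨hs, e⟩)
  have t2 : (r : ℝ) + 1 ≤ #T + #(pw k r \ A) + (2 * r / M + 1) := by
    have a1 := t1.trans (Nat.add_le_add_left (pw_top hk M0 r1 l2) _)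
    have a2 : ((2 * r / M : ℕ) : ℝ) ≤ 2 * r / M := by
      have := Nat.cast_div_le (α := ℝ) (m := 2 * r) (n := M)
      push_cast at this
      exact this
    rw [cS] at a1
    have a3 := (Nat.cast_le (α := ℝ)).2 a1
    push_cast at a3
    linarith
  have t3 : (#(pw k R) : ℝ) ≤ 2 * (r + 1) := by
    rw [cS']
    exact_mod_cast R4
  have t4 : (M : ℝ) ≤ r := Nat.cast_le.2 (by omega)
  rw [div_lt_iff₀ hε] at hM
  have t5 : 2 * (r : ℝ) / M ≤ ε / 3 * r := by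
    rw [div_le_iff₀ M1]
    nlinarith
  have t6 : 6 ≤ (r : ℝ) * ε := hM.le.trans (mul_le_mul_of_nonneg_right t4 hε.le)
  have t7 := mul_le_mul_of_nonneg_left t3 (by positivity : 0 ≤ ε / 6)
  linarith

end Pool.Agent.Lib.MP_1d41ea_nt.H84
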