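import Pool.Agent.Lib.MP_1d41ea_nt.LBasic

/-!
The cubic and the asymptotics of the chain counts.
-/

set_option autoImplicit false

open Finset Function Filter

namespace Pool.Agent.Lib.MP_1d41ea_nt.L

open Classical

theorem exists_lam {β : ℕ} (hβ : 2 ≤ β) : ∃ lam : ℝ, mu β < lam ∧ lam < β + 1 ∧
    lam * (lam - 1) * (lam - β) = β := by
  have hb : (2 : ℝ) ≤ β := by exact_mod_cast hβ
  have hb0 : (0 : ℝ) < β := by linarith
  obtain ⟨t, ht⟩ : ∃ t : ℝ, t = 1 / β := ⟨_, rfl⟩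
  have ht0 : 0 < t := by rw [ht]; positivity
  have ht1 : t * β = 1 := by rw [ht]; field_simp
  have ht2 : t ≤ 1 / 2 := by nlinarith
  have hmu : mu β = β + t := by rw [mu, ht]
  have hle : mu β ≤ β + 1 := by rw [hmu]; linarith
  have hc : ContinuousOn (fun x : ℝ => x * (x - 1) * (x - β)) (Set.Icc (mu β) (β + 1)) := by
    fun_prop
  have hmem : (β : ℝ) ∈ Set.Ioo ((fun x : ℝ => x * (x - 1) * (x - β)) (mu β))
      ((fun x : ℝ => x * (x - 1) * (x - β)) (β + 1)) := by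
    constructor
    · simp only [hmu]
      have e : ((β : ℝ) + t) * (β + t - 1) * (β + t - β) = β - t * (β - 2 + t - t * t) := by
        have : ((β : ℝ) + t) * (β + t - 1) * (β + t - β) =
          (t * β) * β + 2 * t * (t * β) + t * t * t - t * β - t * t := by ring
        rw [this, ht1]
        have : t * ((β : ℝ) - 2 + t - t * t) = t * β - 2 * t + t * t - t * t * t := by ring
        rw [this, ht1]
        ring
      rw [e]
      have : 0 < t * ((β : ℝ) - 2 + t - t * t) := mul_pos ht0 (by nlinarith)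
      linarith
    · simp only
      nlinarith
  obtain ⟨x, hx, hx'⟩ := intermediate_value_Ioo hle hc hmem
  exact ⟨x, hx.1, hx.2, hx'⟩

theorem vec_nonneg (β L : ℕ) : 0 ≤ (vec β L).1 ∧ 0 ≤ (vec β L).2.1 ∧ 0 ≤ (vec β L).2.2 := by
  induction L with
  | zero => simp [vec]
  | succ L ih =>
    obtain ⟨h1, h2, h3⟩ := ih
    simp only [vec]
    refine ⟨by positivity, by positivity, by positivity⟩

theorem LAsym_rec (β L : ℕ) : (vec β (L + 3)).1 =
    (β + 1) * (vec β (L + 2)).1 - β * (vec β (L + 1)).1 + β * (vec β L).1 := by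
  simp only [vec]
  ring

theorem LAsym_bdd {y : ℕ → ℝ} {p q : ℝ} (hp : p ^ 2 ≤ 1) (hq : 2 / 3 ≤ q) (hq1 : q ≤ 1)
    (h : ∀ L, y (L + 2) = -p * y (L + 1) - q * y L) : ∃ C, ∀ L, |y L| ≤ C := by
  have hE : ∀ L, y L ^ 2 / 3 ≤ y (L + 1) ^ 2 + p * y (L + 1) * y L + q * y L ^ 2 := by
    intro L
    nlinarith [sq_nonneg (y (L + 1) + p * y L / 2), sq_nonneg (y L),
      mul_nonneg (sub_nonneg.2 hp) (sq_nonneg (y L)),
      mul_nonneg (sub_nonneg.2 hq) (sq_nonneg (y L))]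
  have hI : ∀ L, y (L + 1) ^ 2 + p * y (L + 1) * y L + q * y L ^ 2 ≤
      y 1 ^ 2 + p * y 1 * y 0 + q * y 0 ^ 2 := by
    intro L
    induction L with
    | zero => simp
    | succ L ih =>
      have e : y (L + 1 + 1) ^ 2 + p * y (L + 1 + 1) * y (L + 1) + q * y (L + 1) ^ 2 =
          q * (y (L + 1) ^ 2 + p * y (L + 1) * y L + q * y L ^ 2) := by
        rw [h L]
        ring
      rw [e]
      have h0 : 0 ≤ y (L + 1) ^ 2 + p * y (L + 1) * y L + q * y L ^ 2 :=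
        le_trans (by positivity) (hE L)
      exact (mul_le_of_le_one_left h0 hq1).trans ih
  refine ⟨1 + 3 * (y 1 ^ 2 + p * y 1 * y 0 + q * y 0 ^ 2), fun L => ?_⟩
  have h1 := (hE L).trans (hI L)
  have h2 : |y L| ≤ 1 + y L ^ 2 := by
    rw [← sq_abs]
    nlinarith [sq_nonneg (|y L| - 1), abs_nonneg (y L)]
  linarith

theorem vec_tendsto {β : ℕ} (hβ : 2 ≤ β) {lam : ℝ} (h1 : (β : ℝ) < lam) (h2 : lam < β + 1)
    (h3 : lam * (lam - 1) * (lam - β) = β) :
    Tendsto (fun L => (vec β L).1 / lam ^ L) atTop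
      (nhds ((lam ^ 2 + β) / (lam ^ 2 + β + β * (lam ^ 2 - 2 * lam + 2)))) := by
  have hb : (2 : ℝ) ≤ β := by exact_mod_cast hβ
  have hl : 0 < lam := by linarith
  obtain ⟨p, hp⟩ : ∃ p : ℝ, p = lam - β - 1 := ⟨_, rfl⟩
  obtain ⟨q, hq⟩ : ∃ q : ℝ, q = β / lam := ⟨_, rfl⟩
  have hql : q * lam = β := by rw [hq]; field_simp
  have hqp : q - lam * p = β := by
    refine mul_right_cancel₀ hl.ne' ?_
    rw [sub_mul, hql, hp]
    linear_combination -h3
  obtain ⟨z, hz⟩ : ∃ z : ℕ → ℝ, z = fun L => (vec β L).1 := ⟨_, rfl⟩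
  have hrec : ∀ L, z (L + 3) = (lam - p) * z (L + 2) - (q - lam * p) * z (L + 1) +
      q * lam * z L := by
    intro L
    rw [hqp, hql, hp, hz]
    simp only [LAsym_rec]
    ring
  have hJ : ∀ L, z (L + 2) + p * z (L + 1) + q * z L = (lam + q) * lam ^ L := by
    intro L
    induction L with
    | zero =>
      rw [hz, hp]
      simp only [vec]
      ring
    | succ L ih =>
      rw [pow_succ, ← mul_assoc, ← ih, hrec L]
      ring
  obtain ⟨C, hC⟩ := LAsym_bdd (y := fun L => z (L + 1) - lam * z L) (p := p) (q := q)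
    (by rw [hp]; nlinarith) (by rw [hq, le_div_iff₀ hl]; linarith)
    (by rw [hq, div_le_one hl]; linarith) (fun L => by
      have := hrec L
      simp only [add_assoc]
      norm_num
      rw [this]
      ring)
  have hD : lam * (lam ^ 2 + p * lam + q) = lam ^ 2 + β + β * (lam ^ 2 - 2 * lam + 2) := by
    rw [hp]
    linear_combination hql + 2 * h3
  have hDpos : 0 < lam ^ 2 + p * lam + q := by
    refine (mul_pos_iff_of_pos_left hl).1 ?_
    rw [hD]
    have : 0 < lam ^ 2 - 2 * lam + 2 := by nlinarith [sq_nonneg (lam - 1)]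
    positivity
  have hlim : (lam ^ 2 + β) / (lam ^ 2 + β + β * (lam ^ 2 - 2 * lam + 2)) =
      (lam + q - 0) / (lam ^ 2 + p * lam + q) := by
    rw [← hD, ← hql]
    field_simp
    ring
  rw [hlim]
  have hinv : Tendsto (fun L : ℕ => (lam ^ L)⁻¹) atTop (nhds 0) :=
    tendsto_inv_atTop_zero.comp (tendsto_pow_atTop_atTop_of_one_lt (by linarith))
  have herr : Tendsto (fun L : ℕ => ((lam + p) * (z (L + 1) - lam * z L) +
      (z (L + 1 + 1) - lam * z (L + 1))) * (lam ^ L)⁻¹) atTop (nhds 0) := by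
    refine bdd_le_mul_tendsto_zero' (|lam + p| * C + C) (Eventually.of_forall fun L => ?_) hinv
    refine (abs_add_le _ _).trans (add_le_add ?_ (hC (L + 1)))
    rw [abs_mul]
    exact mul_le_mul_of_nonneg_left (hC L) (abs_nonneg _)
  refine ((tendsto_const_nhds.sub herr).div_const _).congr fun L => ?_
  have hL : lam ^ L ≠ 0 := by positivity
  have hzL : (vec β L).1 = z L := by rw [hz]
  rw [hzL, div_eq_div_iff hDpos.ne' hL, sub_mul, ← hJ L, mul_assoc _ _ (lam ^ L),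
    inv_mul_cancel₀ hL]
  simp only [add_assoc]
  norm_num
  ring

theorem vec_le {β : ℕ} (hβ : 2 ≤ β) {lam : ℝ} (h1 : (β : ℝ) < lam) (h2 : lam < β + 1)
    (h3 : lam * (lam - 1) * (lam - β) = β) :
    ∃ θ : ℝ, 0 ≤ θ ∧ θ < 1 ∧ ∀ L, 1 ≤ L → (vec β L).1 ≤ θ * lam ^ L := by
  have hb : (2 : ℝ) ≤ β := by exact_mod_cast hβ
  have hl : 0 < lam := by linarith
  obtain ⟨e, he⟩ : ∃ e : ℝ, e = lam - β := ⟨_, rfl⟩
  rw [← he] at h3
  have he0 : 0 < e := by linarith
  have he1 : e < 1 := by linarith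
  obtain ⟨θ, hθ⟩ : ∃ θ : ℝ, θ = max (1 / lam) (max e (e * (β + 1) / lam)) := ⟨_, rfl⟩
  have a1 : 1 ≤ θ * lam := by rw [← div_le_iff₀ hl, hθ]; exact le_max_left _ _
  have a2 : e ≤ θ := by rw [hθ]; exact (le_max_left _ _).trans (le_max_right _ _)
  have a3 : e * (β + 1) ≤ θ * lam := by
    rw [← div_le_iff₀ hl, hθ]; exact (le_max_right _ _).trans (le_max_right _ _)
  have a4 : θ < 1 := by
    rw [hθ]
    refine max_lt ?_ (max_lt he1 ?_)
    · rw [div_lt_one hl]; linarith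
    · rw [div_lt_one hl]; nlinarith
  have hll : 0 < lam * (lam - 1) := mul_pos hl (by linarith)
  refine ⟨θ, he0.le.trans a2, a4, fun L hL => ?_⟩
  suffices h : (vec β L).1 ≤ θ * lam ^ L ∧ (vec β L).2.1 ≤ (lam - 1) * (θ * lam ^ L) ∧
      e * (vec β L).2.2 ≤ θ * lam ^ L from h.1
  induction L, hL using Nat.le_induction with
  | base =>
    simp only [vec, pow_one]
    refine ⟨by linarith, ?_, by linarith⟩
    have := mul_le_mul_of_nonneg_left a2 hll.le
    linarith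
  | succ L hL ih =>
    obtain ⟨i1, i2, i3⟩ := ih
    simp only [vec, pow_succ]
    refine ⟨by linarith, ?_, ?_⟩
    · have := mul_le_mul_of_nonneg_left i3 hll.le
      have e2 : lam * (lam - 1) * (e * (vec β L).2.2) = β * (vec β L).2.2 := by
        rw [← mul_assoc, h3]
      linarith
    · have j1 := mul_le_mul_of_nonneg_left i1 he0.le
      have j2 := mul_le_mul_of_nonneg_left i3 (by linarith : (0 : ℝ) ≤ β)
      have e2 : θ * (lam ^ L * lam) = e * (θ * lam ^ L) + β * (θ * lam ^ L) := by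
        rw [he]; ring
      linarith

/-- the size of the advice -/
def adv (k : ℕ) : ℕ := 3 * (Nat.sqrt (Nat.sqrt k) + 1) ^ 2

theorem adv_pos (k : ℕ) : 1 ≤ adv k := by
  unfold adv
  have : 0 < (Nat.sqrt (Nat.sqrt k) + 1) ^ 2 := by positivity
  omega

theorem LAsym_lt (k : ℕ) : k + 1 ≤ (Nat.sqrt (Nat.sqrt k) + 1) ^ 4 := by
  have h1 : k + 1 ≤ (Nat.sqrt k + 1) ^ 2 := Nat.lt_succ_sqrt' k
  have h2 : Nat.sqrt k + 1 ≤ (Nat.sqrt (Nat.sqrt k) + 1) ^ 2 := Nat.lt_succ_sqrt' _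
  refine h1.trans ((Nat.pow_le_pow_left h2 2).trans (le_of_eq ?_))
  ring

theorem LAsym_le (k : ℕ) : Nat.sqrt (Nat.sqrt k) ^ 4 ≤ k := by
  have h1 : Nat.sqrt k ^ 2 ≤ k := Nat.sqrt_le' k
  have h2 : Nat.sqrt (Nat.sqrt k) ^ 2 ≤ Nat.sqrt k := Nat.sqrt_le' _
  refine le_trans (le_of_eq ?_) ((Nat.pow_le_pow_left h2 2).trans h1)
  ring

theorem adv_sq (k : ℕ) : 5 * k ≤ adv k * adv k := by
  have h := LAsym_lt k
  have e : adv k * adv k = 9 * (Nat.sqrt (Nat.sqrt k) + 1) ^ 4 := by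
    unfold adv
    ring
  omega

theorem adv_tendsto {ρ : ℝ} (h0 : 0 ≤ ρ) (h1 : ρ < 1) :
    Tendsto (fun k : ℕ => ((k : ℝ) + 1) ^ (4 * adv k) * ρ ^ k) atTop (nhds 0) := by
  have hi : Tendsto (fun k : ℕ => Nat.sqrt (Nat.sqrt k)) atTop atTop := by
    refine tendsto_atTop.2 fun b => ?_
    filter_upwards [eventually_ge_atTop (b * b * (b * b))] with k hk
    exact Nat.le_sqrt.2 (Nat.le_sqrt.2 hk)
  have hg : Tendsto (fun k : ℕ => (2 : ℝ) ^ 192 * ρ ^ Nat.sqrt (Nat.sqrt k)) atTop (nhds 0) := by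
    simpa using ((tendsto_pow_atTop_nhds_zero_of_lt_one h0 h1).comp hi).const_mul ((2 : ℝ) ^ 192)
  refine squeeze_zero' (Eventually.of_forall fun k => by positivity) ?_ hg
  filter_upwards [hg.eventually (eventually_le_nhds zero_lt_one), hi.eventually_ge_atTop 1]
    with k hk hk1
  have a1 := LAsym_lt k
  have a2 := LAsym_le k
  unfold adv
  generalize Nat.sqrt (Nat.sqrt k) = i at *
  have b1 : k + 1 ≤ 2 ^ (i * 4) := by
    rw [pow_mul]
    exact a1.trans (Nat.pow_le_pow_left (Nat.lt_two_pow_self) 4)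
  have b2 : i * 4 * (4 * (3 * (i + 1) ^ 2)) ≤ 192 * i ^ 3 := by
    have : (i + 1) ^ 2 ≤ (2 * i) ^ 2 := Nat.pow_le_pow_left (by omega) 2
    calc i * 4 * (4 * (3 * (i + 1) ^ 2)) ≤ i * 4 * (4 * (3 * (2 * i) ^ 2)) := by gcongr
      _ = 192 * i ^ 3 := by ring
  have b3 : ((k : ℝ) + 1) ^ (4 * (3 * (i + 1) ^ 2)) ≤ ((2 : ℝ) ^ 192) ^ i ^ 3 := by
    have c1 : (k : ℝ) + 1 ≤ 2 ^ (i * 4) := by exact_mod_cast b1
    refine (pow_le_pow_left₀ (by positivity) c1 _).trans ?_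
    rw [← pow_mul, ← pow_mul]
    exact pow_le_pow_right₀ one_le_two b2
  have b4 : ρ ^ k ≤ (ρ ^ i) ^ i ^ 3 := by
    rw [← pow_mul]
    refine pow_le_pow_of_le_one h0 h1.le (le_trans (le_of_eq ?_) a2)
    ring
  refine (mul_le_mul b3 b4 (by positivity) (by positivity)).trans ?_
  rw [← mul_pow]
  exact pow_le_of_le_one (by positivity) hk (by positivity)

end Pool.Agent.Lib.MP_1d41ea_nt.L
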