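import Pool.Agent.Lib.MP_1d41ea_nt.LTwo

/-!
Factors with three digits on the two top levels.
-/

set_option autoImplicit false

open Finset Function

namespace Pool.Agent.Lib.MP_1d41ea_nt.L

open Classical

theorem three_fibre {β : ℕ} (hβ : 2 ≤ β) (k : ℕ) {c₁ c₂ : ℕ} (Ψ : (ℕ → ℕ) → ℕ → Prop)
    {X : ℕ → ℕ} (hX : X ∈ W 2 k) :
    (((W (β + 1) k).filter fun w => (∀ y, w y = β ↔ Ψ X y) ∧
      ∀ y, X y = 1 ∨ X (y + c₁) = 1 ∨ X (y + c₂) = 1 → β - 1 ≤ w y).card : ℝ) ≤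
      ∏ y ∈ range k,
        (if 1 ≤ X y ∨ (1 ≤ X (y + c₁) ∨ 1 ≤ X (y + c₂)) then (1 : ℝ) else (β : ℝ)) := by
  have hX1 : ∀ i, X i ≤ 1 := fun i => le_of_mem_W (β := 1) hX i
  refine card_le_prod (filter_subset _ _)
    (fun y a => (a = β ↔ Ψ X y) ∧
      (1 ≤ X y ∨ (1 ≤ X (y + c₁) ∨ 1 ≤ X (y + c₂)) → β - 1 ≤ a)) _ ?_ ?_
  · intro w hw y _
    obtain ⟨_, h1, h2⟩ := mem_filter.1 hw
    refine ⟨h1 y, fun h => h2 y ?_⟩
    have a1 := hX1 y
    have a2 := hX1 (y + c₁)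
    have a3 := hX1 (y + c₂)
    omega
  · intro y _
    have hb : (1 : ℝ) ≤ β := by exact_mod_cast (by omega : 1 ≤ β)
    by_cases hΨ : Ψ X y
    · have h1 : (((range (β + 1)).filter fun a => (a = β ↔ Ψ X y) ∧
          (1 ≤ X y ∨ (1 ≤ X (y + c₁) ∨ 1 ≤ X (y + c₂)) → β - 1 ≤ a)).card : ℝ) ≤ 1 := by
        have : ((range (β + 1)).filter fun a => (a = β ↔ Ψ X y) ∧
          (1 ≤ X y ∨ (1 ≤ X (y + c₁) ∨ 1 ≤ X (y + c₂)) → β - 1 ≤ a)) ⊆ {β} := by
          intro a ha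
          exact mem_singleton.2 ((mem_filter.1 ha).2.1.2 hΨ)
        exact_mod_cast (card_le_card this).trans (card_singleton β).le
      refine le_trans (le_trans (le_of_eq (by congr)) h1) ?_
      split_ifs
      · exact le_rfl
      · exact hb
    · split_ifs with hcov
      · have : ((range (β + 1)).filter fun a => (a = β ↔ Ψ X y) ∧
          (1 ≤ X y ∨ (1 ≤ X (y + c₁) ∨ 1 ≤ X (y + c₂)) → β - 1 ≤ a)) ⊆ {β - 1} := by
          intro a ha
          obtain ⟨h0, h1, h2⟩ := mem_filter.1 ha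
          have h3 := mem_range.1 h0
          have h4 : a ≠ β := fun e => hΨ (h1.1 e)
          have h5 := h2 hcov
          exact mem_singleton.2 (by omega)
        have h6 := (card_le_card this).trans (card_singleton (β - 1)).le
        refine le_trans ?_ (show (((range (β + 1)).filter fun a => (a = β ↔ Ψ X y) ∧
          (1 ≤ X y ∨ (1 ≤ X (y + c₁) ∨ 1 ≤ X (y + c₂)) → β - 1 ≤ a)).card : ℝ) ≤ 1 by
            exact_mod_cast h6)
        exact le_of_eq (by congr)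
      · have : ((range (β + 1)).filter fun a => (a = β ↔ Ψ X y) ∧
          (1 ≤ X y ∨ (1 ≤ X (y + c₁) ∨ 1 ≤ X (y + c₂)) → β - 1 ≤ a)) ⊆ range β := by
          intro a ha
          obtain ⟨h0, h1, _⟩ := mem_filter.1 ha
          have h3 := mem_range.1 h0
          have h4 : a ≠ β := fun e => hΨ (h1.1 e)
          exact mem_range.2 (by omega)
        have h6 := (card_le_card this).trans (card_range β).le
        refine le_trans ?_ (show (((range (β + 1)).filter fun a => (a = β ↔ Ψ X y) ∧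
          (1 ≤ X y ∨ (1 ≤ X (y + c₁) ∨ 1 ≤ X (y + c₂)) → β - 1 ≤ a)).card : ℝ) ≤ β by
            exact_mod_cast h6)
        exact le_of_eq (by congr)

theorem three_sum {β : ℕ} (hβ : 2 ≤ β) (k : ℕ) {c₁ c₂ : ℕ} (hc₁ : 1 ≤ c₁) (hc : c₁ < c₂) :
    ∑ X ∈ (W 2 k).filter (fun X => ∀ y < c₂, X y = 0), ∏ y ∈ range k,
      (if 1 ≤ X y ∨ (1 ≤ X (y + c₁) ∨ 1 ≤ X (y + c₂)) then (1 : ℝ) else (β : ℝ)) ≤ mu β ^ k := by
  have hB : (2 : ℝ) ≤ β := by exact_mod_cast hβ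
  set B : ℝ := (β : ℝ) with hBdef
  have hB0 : 0 < B := by linarith
  have hs : 0 < B ^ 2 - B + 1 := by nlinarith
  have ht : 0 < B ^ 2 - B + 2 := by nlinarith
  have hq : 0 < B ^ 2 + 1 := by positivity
  have hmu : mu β = (B ^ 2 + 1) / B := by
    unfold mu
    rw [← hBdef]
    field_simp
  have hae : (B ^ 2 + 1) / (B * (B ^ 2 - B + 2)) *
      (B ^ 2 * (B ^ 2 - B + 2) / ((B ^ 2 - B + 1) * (B ^ 2 + 1))) = B / (B ^ 2 - B + 1) := by
    have gen : ∀ s t q : ℝ, s ≠ 0 → t ≠ 0 → q ≠ 0 →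
        q / (B * t) * (B ^ 2 * t / (s * q)) = B / s := by
      intro s t q h1 h2 h3
      field_simp
    exact gen _ _ _ hs.ne' ht.ne' hq.ne'
  have haae : (B ^ 2 + 1) / (B * (B ^ 2 - B + 2)) * ((B ^ 2 + 1) / (B * (B ^ 2 - B + 2))) *
      (B ^ 2 * (B ^ 2 - B + 2) / ((B ^ 2 - B + 1) * (B ^ 2 + 1))) =
      (B ^ 2 + 1) / ((B ^ 2 - B + 2) * (B ^ 2 - B + 1)) := by
    have gen : ∀ s t q : ℝ, s ≠ 0 → t ≠ 0 → q ≠ 0 →
        q / (B * t) * (q / (B * t)) * (B ^ 2 * t / (s * q)) = q / (t * s) := by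
      intro s t q h1 h2 h3
      field_simp
    exact gen _ _ _ hs.ne' ht.ne' hq.ne'
  have key := two_off (b := 2) (k := k) (θ := 1) le_rfl hc₁ hc
    (S := (W 2 k).filter fun X => ∀ y < c₂, X y = 0) (filter_subset _ _)
    (fun w hw y hy => by rw [(mem_filter.1 hw).2 y hy]; exact zero_lt_one)
    (fun i p => if 1 ≤ i ∨ p then (1 : ℝ) else B)
    (fun i p => by split_ifs; exacts [zero_le_one, hB0.le])
    (x := 1) (z := B) (α := (B ^ 2 + 1) / (B * (B ^ 2 - B + 2)))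
    (η := B ^ 2 * (B ^ 2 - B + 2) / ((B ^ 2 - B + 1) * (B ^ 2 + 1))) (μ := mu β)
    (fun p u _ => by
      by_cases hp : p <;> simp [sum_range_succ, hp, add_comm])
    (by positivity)
    (by
      rw [le_div_iff₀ (by positivity)]
      nlinarith)
    (by
      rw [haae, hmu, one_mul]
      have e : (B ^ 2 + 1) / B = 1 / B + B := by field_simp; ring
      rw [e]
      have : (B ^ 2 + 1) / ((B ^ 2 - B + 2) * (B ^ 2 - B + 1)) ≤ 1 / B := by
        rw [div_le_div_iff₀ (by positivity) hB0]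
        obtain ⟨r, hr⟩ : ∃ r, B = r + 2 := ⟨B - 2, by ring⟩
        have hr0 : 0 ≤ r := by linarith
        rw [hr]
        nlinarith [pow_nonneg hr0 2, pow_nonneg hr0 3, pow_nonneg hr0 4]
      linarith)
    (by
      rw [haae, hmu, one_mul, div_add_one (by positivity), div_mul_div_comm,
        div_le_div_iff₀ (by positivity) (by positivity)]
      obtain ⟨r, hr⟩ : ∃ r, B = r + 2 := ⟨B - 2, by ring⟩
      have hr0 : 0 ≤ r := by linarith
      rw [hr]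
      have : 0 ≤ ((r + 2) ^ 2 + 1) * ((r + 2) ^ 2 + 1) *
          (((r + 2) ^ 2 - (r + 2) + 2) * ((r + 2) ^ 2 - (r + 2) + 1)) -
          ((r + 2) ^ 2 + 1 + ((r + 2) ^ 2 - (r + 2) + 2) * ((r + 2) ^ 2 - (r + 2) + 1)) *
          ((r + 2) * ((r + 2) * ((r + 2) ^ 2 - (r + 2) + 2))) := by
        ring_nf
        positivity
      linarith)
    (by
      rw [hae, hmu, one_mul]
      have gen : ∀ s t q : ℝ, s ≠ 0 → q ≠ 0 → t = s + 1 →
          B / s + B = q / B * (B ^ 2 * t / (s * q)) := by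
        intro s t q h1 h3 h2
        rw [h2]
        field_simp
        ring
      exact (gen _ _ _ hs.ne' hq.ne' (by ring)).le)
    (by
      rw [hae, hmu, one_mul]
      have gen : ∀ s q : ℝ, s ≠ 0 → q = B + s → B / s + 1 = q / B * (B / s) := by
        intro s q h1 h2
        rw [h2]
        field_simp
      exact (gen _ _ hs.ne' (by ring)).le)
  refine le_trans (le_of_eq ?_) key
  refine sum_congr rfl fun X _ => prod_congr rfl fun y _ => ?_
  congr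

theorem card_three {β : ℕ} (hβ : 2 ≤ β) (k : ℕ) {c₁ c₂ : ℕ} (hc₁ : 1 ≤ c₁) (hc : c₁ < c₂)
    (Ψ : (ℕ → ℕ) → ℕ → Prop) :
    (((W (β + 1) k).filter (Three β k c₁ c₂ Ψ)).card : ℝ) ≤ mu β ^ k := by
  have hsub : (W (β + 1) k).filter (Three β k c₁ c₂ Ψ) ⊆
      ((W 2 k).filter (fun X => ∀ y < c₂, X y = 0)).biUnion fun X =>
        (W (β + 1) k).filter fun w => (∀ y, w y = β ↔ Ψ X y) ∧
          ∀ y, X y = 1 ∨ X (y + c₁) = 1 ∨ X (y + c₂) = 1 → β - 1 ≤ w y := by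
    intro w hw
    obtain ⟨h0, X, hX, h1, h2⟩ := mem_filter.1 hw
    exact mem_biUnion.2 ⟨X, mem_filter.2 ⟨hX, h1⟩, mem_filter.2 ⟨h0, h2⟩⟩
  have h2 : (((W (β + 1) k).filter (Three β k c₁ c₂ Ψ)).card : ℝ) ≤
      ∑ X ∈ (W 2 k).filter (fun X => ∀ y < c₂, X y = 0),
        (((W (β + 1) k).filter fun w => (∀ y, w y = β ↔ Ψ X y) ∧
          ∀ y, X y = 1 ∨ X (y + c₁) = 1 ∨ X (y + c₂) = 1 → β - 1 ≤ w y).card : ℝ) := by
    exact_mod_cast (card_le_card hsub).trans card_biUnion_le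
  exact h2.trans ((sum_le_sum fun X hX => three_fibre hβ k Ψ (mem_filter.1 hX).1).trans
    (three_sum hβ k hc₁ hc))

end Pool.Agent.Lib.MP_1d41ea_nt.L
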