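import Pool.Agent.Lib.MP_1d41ea_nt.LBasic

/-!
Factors with two digits on the two top levels.
-/

set_option autoImplicit false

open Finset Function

namespace Pool.Agent.Lib.MP_1d41ea_nt.L

open Classical

theorem LTop_mu {e : ℕ} (he : 1 ≤ e) :
    0 < mu (e + 1) ∧ 5 / 2 ≤ mu (e + 1) ∧ (e : ℝ) + 1 ≤ mu (e + 1) ∧
      (e = 1 → mu (e + 1) = 5 / 2) ∧ (e = 2 → mu (e + 1) = 10 / 3) ∧
      (2 ≤ e → 10 / 3 ≤ mu (e + 1)) := by
  have h0 : (e : ℝ) + 1 ≤ mu (e + 1) := by simpa using le_mu (e + 1)
  have h1 : e = 1 → mu (e + 1) = 5 / 2 := by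
    rintro rfl
    norm_num [mu]
  have h2 : e = 2 → mu (e + 1) = 10 / 3 := by
    rintro rfl
    norm_num [mu]
  have h3 : 2 ≤ e → 10 / 3 ≤ mu (e + 1) := by
    intro h
    rcases h.eq_or_lt with h | h
    · exact (h2 h.symm).ge
    · have : (3 : ℝ) ≤ e := by exact_mod_cast h
      linarith
  have h4 : 5 / 2 ≤ mu (e + 1) := by
    rcases he.eq_or_lt with h | h
    · exact (h1 h.symm).ge
    · linarith [h3 h]
  exact ⟨by linarith, h4, h0, h1, h2, h3⟩

theorem LTop_pos {e : ℕ} (he : 2 ≤ e) (k : ℕ) {d : ℕ} (hd : 1 ≤ d) :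
    (((W (e + 1 + 1) k).filter fun w => Sup d e (e + 1) w ∧ NoIso d e w).card : ℝ) ≤
      mu (e + 1) ^ k := by
  obtain ⟨m0, -, m2, -, m4, m5⟩ := LTop_mu (e := e) (by omega)
  have m6 := m5 he
  have hd0 : d ≠ 0 := by omega
  have hdd : d + d ≠ 0 := by omega
  have he' : (2 : ℝ) ≤ e := by exact_mod_cast he
  refine card_pot3 (filter_subset _ _)
    (fun h => (h d < e → h 0 < e + 1) ∧ ¬(h (d + d) < e ∧ e ≤ h d ∧ h 0 < e))
    (fun h => if e ≤ h 0 ∧ e ≤ h d then 3 / 2 else 1) (fun _ => 1) (fun _ => 1) hd le_rfl le_rfl
    _ ?_ (fun h => by split_ifs <;> norm_num) (fun _ => one_pos) (fun _ => one_pos) ?_ rfl rfl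
    (fun w _ y _ => by split_ifs <;> norm_num) (fun _ _ _ _ => le_rfl) (fun _ _ _ _ => le_rfl) ?_
  · intro w hw y
    obtain ⟨-, h1, h2⟩ := mem_filter.1 hw
    simp only [sh_apply, add_zero]
    refine ⟨fun h => ?_, fun h => ?_⟩
    · by_contra h'
      obtain ⟨z, hz, hz'⟩ := h1 y (by omega)
      have : z = y + d := by omega
      subst this
      omega
    · rcases h2 (y + d) h.2.1 with h' | h'
      · rw [add_assoc] at h'
        omega
      · rw [Nat.add_sub_cancel] at h'
        omega
  · have : ¬ (e ≤ 0) := by omega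
    simp [this]
  · intro h
    simp only [update_self, update_of_ne hd0, update_of_ne hdd, sh_apply, add_zero, mul_one]
    by_cases h1 : h d < e
    · rw [sum3 (a := e) (by omega) _ (A := 1) (B := 1) (C := 0)]
      · rw [if_neg (by omega)]
        linarith
      · intro i hi
        rw [if_pos (by omega), if_neg (by omega)]
        norm_num
      · rw [if_pos (by omega), if_neg (by omega)]
        norm_num
      · intro i hi
        rw [if_neg (by omega)]
        norm_num
    · by_cases h2 : h (d + d) < e
      · rw [sum3 (a := e) (by omega) _ (A := 0) (B := 3 / 2) (C := 3 / 2)]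
        · rw [if_neg (by omega)]
          push_cast
          linarith
        · intro i hi
          rw [if_neg (by omega)]
          norm_num
        · rw [if_pos (by omega), if_pos (by omega)]
          norm_num
        · intro i hi
          rw [if_pos (by omega), if_pos (by omega)]
          norm_num
      · rw [sum3 (a := e) (by omega) _ (A := 1) (B := 3 / 2) (C := 3 / 2)]
        · rw [if_pos (by omega)]
          push_cast
          rcases he.eq_or_lt with h3 | h3
          · rw [m4 h3.symm, ← h3]
            norm_num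
          · have : (3 : ℝ) ≤ e := by exact_mod_cast h3
            linarith
        · intro i hi
          rw [if_pos (by omega), if_neg (by omega)]
          norm_num
        · rw [if_pos (by omega), if_pos (by omega)]
          norm_num
        · intro i hi
          rw [if_pos (by omega), if_pos (by omega)]
          norm_num

theorem card_top1 {β : ℕ} (hβ : 3 ≤ β) (k : ℕ) {c : ℤ} (hc : c ≠ 0) :
    (((W (β + 1) k).filter fun w =>
      Sup c (β - 1) β w ∧ NoIso c.natAbs (β - 1) w).card : ℝ) ≤ mu β ^ k := by
  obtain ⟨e, rfl⟩ : ∃ e, β = e + 1 := ⟨β - 1, by omega⟩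
  simp only [Nat.add_sub_cancel]
  have hd : 1 ≤ c.natAbs := by omega
  refine le_trans ?_ (LTop_pos (e := e) (by omega) k hd)
  rcases lt_or_gt_of_ne hc with h | h
  · have hc' : ((c.natAbs : ℕ) : ℤ) = -c := by omega
    have := card_le_of_rev (b := e + 1 + 1) (k := k)
      (p := fun w => Sup c e (e + 1) w ∧ NoIso c.natAbs e w)
      (q := fun w => Sup (c.natAbs : ℕ) e (e + 1) w ∧ NoIso c.natAbs e w)
      fun w hw hp => ⟨hc' ▸ hp.1.rev hw (by omega) (by omega), hp.2.rev hw (by omega)⟩
    refine Nat.cast_le.2 ?_
    convert this using 3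
  · have : ((c.natAbs : ℕ) : ℤ) = c := by omega
    rw [this]

theorem card_top2 {β : ℕ} (hβ : 2 ≤ β) (k : ℕ) {d : ℕ} (hd : 1 ≤ d) :
    (((W (β + 1) k).filter fun w => NoIso d β w ∧ NoIso d (β - 1) w).card : ℝ) ≤ mu β ^ k := by
  obtain ⟨e, rfl⟩ : ∃ e, β = e + 1 := ⟨β - 1, by omega⟩
  simp only [Nat.add_sub_cancel]
  have he : 1 ≤ e := by omega
  obtain ⟨m0, m1, m2, m3, -, m5⟩ := LTop_mu he
  have hd0 : d ≠ 0 := by omega
  have hdd : d + d ≠ 0 := by omega
  have he' : (1 : ℝ) ≤ e := by exact_mod_cast he
  obtain ⟨m, hm, hm0, hm1, hm2⟩ : ∃ m : ℝ, mu (e + 1) * m = 1 ∧ 0 < m ∧ m ≤ 2 / 5 ∧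
      (2 ≤ e → m ≤ 3 / 10) := by
    refine ⟨(mu (e + 1))⁻¹, mul_inv_cancel₀ m0.ne', inv_pos.2 m0, ?_, fun h => ?_⟩
    · rw [inv_le_comm₀ m0 (by norm_num)]
      linarith
    · rw [inv_le_comm₀ m0 (by norm_num)]
      linarith [m5 h]
  have hcase : (e : ℝ) = 1 ∧ mu (e + 1) = 5 / 2 ∨ (2 : ℝ) ≤ e ∧ m ≤ 3 / 10 ∧ 10 / 3 ≤ mu (e + 1) := by
    rcases he.eq_or_lt with h | h
    · exact Or.inl ⟨by exact_mod_cast h.symm, m3 h.symm⟩
    · exact Or.inr ⟨by exact_mod_cast h, hm2 h, m5 h⟩
  have hint : (e : ℝ) ≤ 2 ∨ (3 : ℝ) ≤ e := by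
    rcases le_or_gt e 2 with h | h
    · exact Or.inl (by exact_mod_cast h)
    · exact Or.inr (by exact_mod_cast h)
  refine card_pot3 (filter_subset _ _)
    (fun h => ¬(h (d + d) < e + 1 ∧ e + 1 ≤ h d ∧ h 0 < e + 1) ∧
      ¬(h (d + d) < e ∧ e ≤ h d ∧ h 0 < e))
    (fun h => if h 0 < e then 1 else if h 0 < e + 1 then (if h d < e then 9 / 5 * m else 6 / 5)
      else (if h d < e + 1 then 3 / 2 * m else 3 / 2))
    (fun _ => 1) (fun _ => 1) hd le_rfl le_rfl
    _ ?_ (fun h => by split_ifs <;> positivity) (fun _ => one_pos) (fun _ => one_pos) ?_ rfl rfl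
    ?_ (fun _ _ _ _ => le_rfl) (fun _ _ _ _ => le_rfl) ?_
  · intro w hw y
    obtain ⟨-, h1, h2⟩ := mem_filter.1 hw
    simp only [sh_apply, add_zero]
    refine ⟨fun h => ?_, fun h => ?_⟩
    · rcases h1 (y + d) h.2.1 with h' | h'
      · rw [add_assoc] at h'
        omega
      · rw [Nat.add_sub_cancel] at h'
        omega
    · rcases h2 (y + d) h.2.1 with h' | h'
      · rw [add_assoc] at h'
        omega
      · rw [Nat.add_sub_cancel] at h'
        omega
  · have : 0 < e := by omega
    simp [this]
  · intro w hw y hy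
    obtain ⟨-, h1, h2⟩ := mem_filter.1 hw
    simp only [sh_apply, add_zero]
    have h1' := h1 y
    have h2' := h2 y
    split_ifs with a1 a2 a3 a4
    · exact le_rfl
    · omega
    · norm_num
    · omega
    · norm_num
  · intro h
    simp only [update_self, update_of_ne hd0, update_of_ne hdd, sh_apply, add_zero, mul_one]
    by_cases h1 : h d < e
    · rw [sum3 (a := e) (by omega) _ (A := 1) (B := 9 / 5 * m) (C := 3 / 2 * m)]
      · rw [if_pos h1]
        push_cast
        rcases hcase with h3 | h3 <;> linarith [h3.1, h3.2]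
      · intro i hi
        rw [if_pos (by omega), if_pos hi]
        norm_num
      · rw [if_pos (by omega), if_neg (by omega), if_pos (by omega), if_pos h1]
        norm_num
      · intro i hi
        rw [if_pos (by omega), if_neg (by omega), if_neg (by omega), if_pos (by omega)]
        norm_num
    · by_cases h2 : h d < e + 1
      · by_cases h3 : h (d + d) < e
        · rw [sum3 (a := e) (by omega) _ (A := 0) (B := 6 / 5) (C := 3 / 2 * m)]
          · rw [if_neg h1, if_pos h2, if_pos h3]
            push_cast
            linarith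
          · intro i hi
            rw [if_neg (by omega)]
            norm_num
          · rw [if_pos (by omega), if_neg (by omega), if_pos (by omega), if_neg h1]
            norm_num
          · intro i hi
            rw [if_pos (by omega), if_neg (by omega), if_neg (by omega), if_pos h2]
            norm_num
        · rw [sum3 (a := e) (by omega) _ (A := 1) (B := 6 / 5) (C := 3 / 2 * m)]
          · rw [if_neg h1, if_pos h2, if_neg h3]
            push_cast
            rcases hcase with h4 | h4
            · linarith [h4.1, h4.2]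
            · rcases hint with h5 | h5 <;> linarith [h4.1, h4.2.1, h4.2.2]
          · intro i hi
            rw [if_pos (by omega), if_pos hi]
            norm_num
          · rw [if_pos (by omega), if_neg (by omega), if_pos (by omega), if_neg h1]
            norm_num
          · intro i hi
            rw [if_pos (by omega), if_neg (by omega), if_neg (by omega), if_pos h2]
            norm_num
      · by_cases h3 : h (d + d) < e + 1
        · rw [sum3 (a := e) (by omega) _ (A := 0) (B := 0) (C := 3 / 2)]
          · rw [if_neg h1, if_neg h2, if_pos h3]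
            push_cast
            linarith
          · intro i hi
            rw [if_neg (by omega)]
            norm_num
          · rw [if_neg (by omega)]
            norm_num
          · intro i hi
            rw [if_pos (by omega), if_neg (by omega), if_neg (by omega), if_neg h2]
            norm_num
        · rw [sum3 (a := e) (by omega) _ (A := 1) (B := 6 / 5) (C := 3 / 2)]
          · rw [if_neg h1, if_neg h2, if_neg h3]
            push_cast
            rcases hcase with h4 | h4
            · linarith [h4.1, h4.2]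
            · rcases hint with h5 | h5 <;> linarith [h4.1, h4.2.1, h4.2.2]
          · intro i hi
            rw [if_pos (by omega), if_pos hi]
            norm_num
          · rw [if_pos (by omega), if_neg (by omega), if_pos (by omega), if_neg h1]
            norm_num
          · intro i hi
            rw [if_pos (by omega), if_neg (by omega), if_neg (by omega), if_neg h2]
            norm_num

end Pool.Agent.Lib.MP_1d41ea_nt.L
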