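import Pool.Agent.Lib.MP_1d41ea_nt.LCont
import Pool.Agent.Lib.MP_1d41ea_nt.LThree
import Pool.Agent.Lib.MP_1d41ea_nt.LTop

/-!
The exceptional words are few.
-/

set_option autoImplicit false

open Finset Function

namespace Pool.Agent.Lib.MP_1d41ea_nt.L

open Classical

theorem LBad_mono {α : Type} {S : Finset α} {p q : α → Prop} {_ : DecidablePred p}
    {_ : DecidablePred q} {x : ℝ} (hq : ((S.filter q).card : ℝ) ≤ x) (h : ∀ w, p w → q w) :
    ((S.filter p).card : ℝ) ≤ x := by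
  refine le_trans ?_ hq
  exact_mod_cast card_le_card fun w hw =>
    mem_filter.2 ⟨(mem_filter.1 hw).1, h w (mem_filter.1 hw).2⟩

theorem LBad_or {α : Type} {S : Finset α} {p q : α → Prop} {_ : DecidablePred p}
    {_ : DecidablePred q} {x y : ℝ}
    (hp : ((S.filter p).card : ℝ) ≤ x) (hq : ((S.filter q).card : ℝ) ≤ y) :
    ((S.filter fun w => p w ∨ q w).card : ℝ) ≤ x + y := by
  refine le_trans ?_ (add_le_add hp hq)
  have : (S.filter fun w => p w ∨ q w) ⊆ S.filter p ∪ S.filter q := fun w hw => by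
    rcases mem_filter.1 hw with ⟨h1, h2 | h2⟩
    · exact mem_union_left _ (mem_filter.2 ⟨h1, h2⟩)
    · exact mem_union_right _ (mem_filter.2 ⟨h1, h2⟩)
  exact_mod_cast (card_le_card this).trans (card_union_le _ _)

theorem LBad_wit {α : Type} {S : Finset α} {p : α → Prop} {_ : DecidablePred p} {x : ℝ}
    (hx : 0 ≤ x) (h : ∀ w, p w → ((S.filter p).card : ℝ) ≤ x) : ((S.filter p).card : ℝ) ≤ x := by
  by_cases he : ∃ w, p w
  · obtain ⟨w, hw⟩ := he
    exact h w hw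
  · rw [filter_eq_empty_iff.2 fun w _ hw => he ⟨w, hw⟩]
    simpa using hx

theorem LBad_off (k : ℕ) : (Off k).card = 2 * k := by
  rw [Off, card_erase_of_mem (by simp), Int.card_Icc]
  omega

theorem LBad_ne {k : ℕ} {c : ℤ} (h : c ∈ Off k) : c ≠ 0 := (mem_erase.1 h).1

theorem card_bad {β : ℕ} (hβ : 2 ≤ β) {k m : ℕ} (hm : 1 ≤ m) (hk : 5 * k ≤ m * m) :
    (((W (β + 1) k).filter (Bad β k m)).card : ℝ) ≤
      (12 + 2 * β) * (((k : ℝ) + 1) ^ (4 * m) * mu β ^ k) := by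
  have hβ0 : (0 : ℝ) ≤ β := Nat.cast_nonneg β
  have hk0 : (0 : ℝ) ≤ k := Nat.cast_nonneg k
  have hμ : 0 ≤ mu β ^ k := pow_nonneg (hβ0.trans (le_mu β)) k
  have h1 : (((W (β + 1) k).filter fun w => ∀ y, w y ≠ β).card : ℝ) ≤ mu β ^ k := by
    refine (card_le_prod (S := (W (β + 1) k).filter fun w => ∀ y, w y ≠ β) (filter_subset _ _)
      (fun _ a => a ≠ β) (fun _ => (β : ℝ))
      (fun w hw y _ => (mem_filter.1 hw).2 y) fun y _ => ?_).trans ?_
    · refine le_trans (Nat.cast_le.2 (card_le_card (t := range β) fun a ha => ?_)) (by simp)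
      simp only [mem_filter, mem_range] at ha ⊢
      omega
    · rw [prod_const, card_range]
      exact pow_le_pow_left₀ hβ0 (le_mu β) k
  have h2 := card_exists_le (Off k ×ˢ Off k) (W (β + 1) k)
    (fun c w => c.1 ≠ c.2 ∧ Sup c.1 1 2 w ∧ Sup c.2 1 2 w) (M := mu β ^ k) fun c hc =>
      LBad_wit hμ fun w hw => LBad_mono (card_two hβ k (LBad_ne (mem_product.1 hc).1)
        (LBad_ne (mem_product.1 hc).2) hw.1) fun _ h => h.2
  have h3 := card_exists_le (range β ×ˢ Off k) (W (β + 1) k)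
    (fun c w => 2 ≤ c.1 ∧ c.1 + 2 ≤ β ∧ Sup c.2 c.1 (c.1 + 1) w) (M := mu β ^ k) fun c hc =>
      LBad_wit hμ fun w hw => LBad_mono (card_mid hw.1 hw.2.1 k (LBad_ne (mem_product.1 hc).2))
        fun _ h => h.2.2
  have h4 := card_exists_le (Off k) (W (β + 1) k)
    (fun c w => 3 ≤ β ∧ Sup c (β - 1) β w ∧ NoIso c.natAbs (β - 1) w) (M := mu β ^ k) fun c hc =>
      LBad_wit hμ fun w hw => LBad_mono (card_top1 hw.1 k (LBad_ne hc)) fun _ h => h.2
  have h5 := card_exists_le (range k) (W (β + 1) k)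
    (fun d w => 1 ≤ d ∧ NoIso d β w ∧ NoIso d (β - 1) w) (M := mu β ^ k) fun c _ =>
      LBad_wit hμ fun w hw => LBad_mono (card_top2 hβ k hw.1) fun _ h => h.2
  have h6 := card_exists_le (Sub k m ×ˢ range k ×ˢ range k ×ˢ range k) (W (β + 1) k)
    (fun c w => 1 ≤ c.2.2.1 ∧ c.2.2.1 < c.2.2.2 ∧
      Three β k c.2.2.1 c.2.2.2 (Psi c.1 c.2.1) w) (M := mu β ^ k) fun c _ =>
      LBad_wit hμ fun w hw => LBad_mono (card_three hβ k hw.1 hw.2.1 (Psi c.1 c.2.1))
        fun _ h => h.2.2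
  have h7 := card_big hβ hm hk
  have hN : ∀ j ≤ 4 * m, (k : ℝ) ^ j ≤ ((k : ℝ) + 1) ^ (4 * m) := fun j hj =>
    (pow_le_pow_left₀ hk0 (by linarith) j).trans (pow_le_pow_right₀ (by linarith) hj)
  have n0 := hN 0 (by omega)
  have n1 := hN 1 (by omega)
  have n2 := hN 2 (by omega)
  have n3 : ((Sub k m).card : ℝ) * (k * (k * k)) ≤ ((k : ℝ) + 1) ^ (4 * m) := by
    have h8 : ((Sub k m).card : ℝ) ≤ ((k : ℝ) + 1) ^ m := by exact_mod_cast card_Sub k m
    calc _ ≤ ((k : ℝ) + 1) ^ m * ((k + 1) * ((k + 1) * (k + 1))) := by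
          gcongr <;> linarith
      _ = ((k : ℝ) + 1) ^ (m + 3) := by ring
      _ ≤ _ := pow_le_pow_right₀ (by linarith) (by omega)
  simp only [card_product, card_range, LBad_off] at h2 h3 h4 h5 h6
  push_cast at h2 h3 h4 h5 h6
  have g := LBad_or h1 (LBad_or h2 (LBad_or h3 (LBad_or h4 (LBad_or h5 (LBad_or h6 h7)))))
  refine (LBad_mono g fun _ h => h).trans ?_
  clear g h1 h2 h3 h4 h5 h6 h7 hN
  generalize ((k : ℝ) + 1) ^ (4 * m) = N at *
  generalize mu β ^ k = x at *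
  rw [pow_zero] at n0
  rw [pow_one] at n1
  have a0 := mul_le_mul_of_nonneg_right n0 hμ
  have a1 := mul_le_mul_of_nonneg_right n1 hμ
  have a2 := mul_le_mul_of_nonneg_right n2 hμ
  have a3 := mul_le_mul_of_nonneg_right n3 hμ
  have a4 := mul_le_mul_of_nonneg_left a1 hβ0
  nlinarith

theorem sum_card_le {ι α : Type} (I : Finset ι) (S : ι → Finset α) {M : ℝ} (hM : 0 ≤ M)
    (h : ∀ i ∈ I, ∀ j ∈ I, i ≠ j → ((S i ∩ S j).card : ℝ) ≤ M) :
    ∑ i ∈ I, ((S i).card : ℝ) ≤ (I.biUnion S).card + (I.card : ℝ) ^ 2 * M := by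
  induction I using Finset.induction_on with
  | empty => simp
  | insert a I ha ih =>
    have h1 := ih fun i hi j hj => h i (mem_insert_of_mem hi) j (mem_insert_of_mem hj)
    have h2 : ((S a ∪ I.biUnion S).card : ℝ) + (S a ∩ I.biUnion S).card =
        (S a).card + (I.biUnion S).card := by exact_mod_cast card_union_add_card_inter _ _
    have h3 : ((S a ∩ I.biUnion S).card : ℝ) ≤ I.card * M := by
      rw [inter_biUnion]
      have h4 : ((I.biUnion fun j => S a ∩ S j).card : ℝ) ≤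
          ∑ j ∈ I, ((S a ∩ S j).card : ℝ) := by exact_mod_cast card_biUnion_le
      refine h4.trans ((sum_le_sum fun j hj => h a (mem_insert_self _ _) j (mem_insert_of_mem hj)
        fun e => ha (e ▸ hj)).trans (le_of_eq ?_))
      simp
    rw [sum_insert ha, biUnion_insert, card_insert_of_notMem ha]
    push_cast
    have h5 : 0 ≤ (I.card : ℝ) * M := mul_nonneg (Nat.cast_nonneg _) hM
    nlinarith

end Pool.Agent.Lib.MP_1d41ea_nt.L
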