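import Pool.Agent.Lib.MP_1d41ea_nt.LBasic

/-!
Both factors have many top digits: containers.
-/

set_option autoImplicit false

open Finset Function

namespace Pool.Agent.Lib.MP_1d41ea_nt.L

open Classical

theorem exists_container {k m : ℕ} (hm : 1 ≤ m) (hk : 5 * k ≤ m * m) {A B : Finset ℕ}
    (hA : m ≤ A.card) (hAB : ∀ a ∈ A, ∀ f ∈ B, a + f < k) (hB : B.Nonempty) :
    ∃ A₀ ∈ Sub k m, ∃ J ∈ Sub k m, A₀ ⊆ A ∧ J ⊆ B ∧ A₀.card = m ∧
      ∀ f ∈ B, 4 * m ≤ 5 * (A₀.filter fun a => a + f ∈ image₂ (· + ·) A₀ J).card := by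
  obtain ⟨A₀, hA₀, hc⟩ := exists_subset_card_eq hA
  obtain ⟨f₀, hf₀⟩ := hB
  have hne : A₀.Nonempty := card_pos.1 (by omega)
  obtain ⟨a₀, ha₀⟩ := hne
  obtain ⟨J, hJ, hmax⟩ := exists_max_image
    (B.powerset.filter fun J => m * J.card ≤ 5 * (image₂ (· + ·) A₀ J).card) card
    ⟨∅, by simp⟩
  obtain ⟨hJB, hJ⟩ := mem_filter.1 hJ
  have hJB : J ⊆ B := mem_powerset.1 hJB
  have hsub : image₂ (· + ·) A₀ J ⊆ range k := by
    intro y hy
    obtain ⟨a, ha, f, hf, rfl⟩ := mem_image₂.1 hy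
    exact mem_range.2 (hAB a (hA₀ ha) f (hJB hf))
  have hcard : (image₂ (· + ·) A₀ J).card ≤ k := by simpa using card_le_card hsub
  refine ⟨A₀, mem_filter.2 ⟨mem_powerset.2 fun a ha => mem_range.2 ?_, hc.le⟩, J,
    mem_filter.2 ⟨mem_powerset.2 fun f hf => mem_range.2 ?_, ?_⟩, hA₀, hJB, hc, fun f hf => ?_⟩
  · have := hAB a (hA₀ ha) f₀ hf₀
    omega
  · have := hAB a₀ (hA₀ ha₀) f (hJB hf)
    omega
  · exact Nat.le_of_mul_le_mul_left (c := m) (by omega) (by omega)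
  by_cases hfJ : f ∈ J
  · rw [filter_true_of_mem fun a ha => mem_image₂_of_mem ha hfJ, hc]
    omega
  have hnot : ¬ m * (insert f J).card ≤ 5 * (image₂ (· + ·) A₀ (insert f J)).card := by
    intro h
    have := hmax (insert f J) (mem_filter.2 ⟨mem_powerset.2 (insert_subset hf hJB), h⟩)
    rw [card_insert_of_notMem hfJ] at this
    omega
  rw [card_insert_of_notMem hfJ] at hnot
  have hsplit := card_filter_add_card_filter_not (s := A₀)
    (fun a => a + f ∈ image₂ (· + ·) A₀ J)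
  have hnew : (image₂ (· + ·) A₀ J).card +
      (A₀.filter fun a => ¬ a + f ∈ image₂ (· + ·) A₀ J).card ≤
        (image₂ (· + ·) A₀ (insert f J)).card := by
    rw [← card_image_of_injective (A₀.filter fun a => ¬ a + f ∈ image₂ (· + ·) A₀ J)
      (add_left_injective f), ← card_union_of_disjoint]
    · refine card_le_card (union_subset (image₂_subset_left (subset_insert _ _)) fun y hy => ?_)
      obtain ⟨a, ha, rfl⟩ := mem_image.1 hy
      exact mem_image₂_of_mem (mem_filter.1 ha).1 (mem_insert_self _ _)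
    · refine disjoint_left.2 fun y hy hy' => ?_
      obtain ⟨a, ha, rfl⟩ := mem_image.1 hy'
      exact (mem_filter.1 ha).2 hy
  rw [mul_add] at hnot
  omega

theorem card_container (k m : ℕ) (hm : 1 ≤ m) (A₀ U : Finset ℕ) (hA : A₀.card = m) :
    4 * ((range k).filter fun f => 4 * m ≤ 5 * (A₀.filter fun a => a + f ∈ U).card).card ≤
      5 * U.card := by
  set C := (range k).filter fun f => 4 * m ≤ 5 * (A₀.filter fun a => a + f ∈ U).card with hC
  have h1 : C.card * (4 * m) ≤ ∑ f ∈ C, 5 * (A₀.filter fun a => a + f ∈ U).card := by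
    rw [← smul_eq_mul]
    exact card_nsmul_le_sum _ _ _ fun f hf => (mem_filter.1 hf).2
  have h2 : ∑ f ∈ C, (A₀.filter fun a => a + f ∈ U).card =
      ∑ a ∈ A₀, (C.filter fun f => a + f ∈ U).card := by
    simp only [card_filter]
    exact sum_comm
  have h3 : ∑ a ∈ A₀, (C.filter fun f => a + f ∈ U).card ≤ A₀.card • U.card := by
    refine sum_le_card_nsmul _ _ _ fun a _ => ?_
    exact card_le_card_of_injOn (fun f => a + f) (fun f hf => (mem_filter.1 (mem_coe.1 hf)).2)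
      fun f _ f' _ e => Nat.add_left_cancel e
  rw [← mul_sum, h2] at h1
  rw [hA, smul_eq_mul] at h3
  refine Nat.le_of_mul_le_mul_left (c := m) ?_ (by omega)
  calc m * (4 * C.card) = C.card * (4 * m) := by ring
    _ ≤ 5 * (m * U.card) := h1.trans (Nat.mul_le_mul_left 5 h3)
    _ = m * (5 * U.card) := by ring

theorem cont_bern {γ : ℕ} (hγ : 1 ≤ γ) :
    (((γ + 1 : ℕ) : ℝ) + 1) * ((γ + 1 : ℕ) : ℝ) ^ γ ≤ mu (γ + 1) ^ (γ + 1) := by
  have hb : (0 : ℝ) < ((γ + 1 : ℕ) : ℝ) := by positivity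
  unfold mu
  generalize hβ : ((γ + 1 : ℕ) : ℝ) = b at hb
  have e : b + 1 / b = b * (1 + 1 / b ^ 2) := by field_simp
  have h0 : (0 : ℝ) ≤ 1 / b ^ 2 := by positivity
  have h1 := one_add_mul_le_pow (a := 1 / b ^ 2) (by linarith) (γ + 1)
  rw [hβ] at h1
  rw [e, mul_pow]
  refine le_trans (le_of_eq ?_) (mul_le_mul_of_nonneg_left h1 (by positivity))
  field_simp
  ring

theorem cont_six {γ : ℕ} (hγ : 1 ≤ γ) : (6 : ℝ) ^ γ ≤ mu (γ + 1) ^ (γ + 1) := by
  by_cases h : γ ≤ 4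
  · unfold mu
    interval_cases γ <;> norm_num
  have h6 : (6 : ℝ) ≤ mu (γ + 1) := by
    refine le_trans ?_ (le_mu _)
    exact_mod_cast (by omega : 6 ≤ γ + 1)
  calc (6 : ℝ) ^ γ ≤ 6 ^ (γ + 1) := pow_le_pow_right₀ (by norm_num) (by omega)
    _ ≤ _ := pow_le_pow_left₀ (by norm_num) h6 _

theorem min_le_mu {β : ℕ} (hβ : 2 ≤ β) {k u : ℕ} (hu : u ≤ k) {x : ℝ} (hx : 0 ≤ x)
    (h1 : x ≤ ((β : ℝ) + 1) ^ (k - u)) (h2 : x ≤ 6 ^ u * (β : ℝ) ^ (k - u)) : x ≤ mu β ^ k := by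
  obtain ⟨γ, rfl⟩ : ∃ γ, β = γ + 1 := ⟨β - 1, by omega⟩
  obtain ⟨r, rfl⟩ := Nat.exists_eq_add_of_le hu
  rw [Nat.add_sub_cancel_left] at h1 h2
  have hγ : 1 ≤ γ := by omega
  have hmu : 0 ≤ mu (γ + 1) := (Nat.cast_nonneg _).trans (le_mu _)
  refine le_of_pow_le_pow_left₀ (n := γ + 1) (by omega) (pow_nonneg hmu _) ?_
  calc x ^ (γ + 1) = x * x ^ γ := by ring
    _ ≤ (((γ + 1 : ℕ) : ℝ) + 1) ^ r * (6 ^ u * ((γ + 1 : ℕ) : ℝ) ^ r) ^ γ :=
      mul_le_mul h1 (pow_le_pow_left₀ hx h2 _) (pow_nonneg hx _) (by positivity)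
    _ = ((6 : ℝ) ^ γ) ^ u * ((((γ + 1 : ℕ) : ℝ) + 1) * ((γ + 1 : ℕ) : ℝ) ^ γ) ^ r := by
      simp only [mul_pow, ← pow_mul]
      ring
    _ ≤ (mu (γ + 1) ^ (γ + 1)) ^ u * (mu (γ + 1) ^ (γ + 1)) ^ r :=
      mul_le_mul (pow_le_pow_left₀ (by positivity) (cont_six hγ) _)
        (pow_le_pow_left₀ (by positivity) (cont_bern hγ) _) (by positivity) (by positivity)
    _ = (mu (γ + 1) ^ (u + r)) ^ (γ + 1) := by
      simp only [← pow_mul, ← pow_add]
      congr 1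
      ring

theorem cont_prod {k : ℕ} {U : Finset ℕ} (hU : U ⊆ range k) (c : ℝ) :
    ∏ y ∈ range k, (if y ∈ U then (1 : ℝ) else c) = c ^ (k - U.card) := by
  rw [prod_ite, prod_const_one, one_mul, prod_const, filter_not, filter_mem_eq_inter,
    inter_eq_right.2 hU, card_sdiff_of_subset hU, card_range]

theorem cont_one {b β : ℕ} (T : ℕ → Prop) {_ : DecidablePred T} (hT : ∀ a, T a → a = β) :
    (((range b).filter T).card : ℝ) ≤ 1 := by
  have : ((range b).filter T).card ≤ 1 :=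
    card_le_one.2 fun a ha a' ha' =>
      (hT a (mem_filter.1 ha).2).trans (hT a' (mem_filter.1 ha').2).symm
  exact_mod_cast this

theorem cont_lt {b c : ℕ} (T : ℕ → Prop) {_ : DecidablePred T} (hT : ∀ a < b, T a → a < c) :
    (((range b).filter T).card : ℝ) ≤ c := by
  have : ((range b).filter T).card ≤ (range c).card :=
    card_le_card fun d hd =>
      mem_range.2 (hT d (mem_range.1 (mem_filter.1 hd).1) (mem_filter.1 hd).2)
  rw [card_range] at this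
  exact_mod_cast this

theorem cont_cover {ι α : Type} (I : Finset ι) (S : Finset α) (p : ι → α → Prop) {M : ℝ}
    (hS : ∀ w ∈ S, ∃ i ∈ I, p i w)
    (h : ∀ i ∈ I, ∀ T ⊆ S, (∀ w ∈ T, p i w) → (T.card : ℝ) ≤ M) :
    (S.card : ℝ) ≤ I.card * M := by
  have h1 := card_exists_le (M := M) I S p fun i hi =>
    h i hi _ (filter_subset _ _) fun w hw => (mem_filter.1 hw).2
  rwa [filter_true_of_mem hS] at h1

/-- the words with top digits on `U` whose top level set is a sum set from the two containers -/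
theorem cont_fibre {β : ℕ} (hβ : 2 ≤ β) {k : ℕ} {U CA CB : Finset ℕ} (hU : U ⊆ range k)
    (hA : 4 * CA.card ≤ 5 * U.card) (hB : 4 * CB.card ≤ 5 * U.card) {S : Finset (ℕ → ℕ)}
    (hS : S ⊆ W (β + 1) k) (h1 : ∀ w ∈ S, ∀ y ∈ U, w y = β)
    (h2 : ∀ w ∈ S, ∃ i ∈ CA.powerset ×ˢ CB.powerset,
      ∀ y, w y = β ↔ ∃ a ∈ i.1, ∃ f ∈ i.2, a + f = y) : (S.card : ℝ) ≤ mu β ^ k := by
  have hu : U.card ≤ k := by simpa using card_le_card hU
  refine min_le_mu hβ hu (Nat.cast_nonneg _) ?_ ?_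
  · rw [← cont_prod hU]
    refine card_le_prod hS (fun y a => y ∈ U → a = β) _ (fun w hw y _ hy => h1 w hw y hy)
      fun y _ => ?_
    split_ifs with hy
    · exact cont_one _ fun a ha => ha hy
    · refine (cont_lt (c := β + 1) _ fun a ha _ => ha).trans (le_of_eq ?_)
      push_cast
      rfl
  · refine (cont_cover (M := (β : ℝ) ^ (k - U.card)) _ S _ h2 fun i _ T hT hp => ?_).trans
      (mul_le_mul_of_nonneg_right ?_ (by positivity))
    · rw [← cont_prod hU]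
      refine card_le_prod (hT.trans hS)
        (fun y d => (y ∈ U → d = β) ∧ (d = β ↔ ∃ a ∈ i.1, ∃ f ∈ i.2, a + f = y)) _
        (fun w hw y _ => ⟨h1 w (hT hw) y, hp w hw y⟩) fun y _ => ?_
      split_ifs with hy
      · exact cont_one _ fun a ha => ha.1 hy
      · by_cases hs : ∃ a ∈ i.1, ∃ f ∈ i.2, a + f = y
        · refine (cont_one (β := β) _ fun a ha => ha.2.2 hs).trans ?_
          exact_mod_cast (by omega : 1 ≤ β)
        · refine cont_lt _ fun d hd hd' => ?_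
          have h3 : d ≠ β := fun e => hs (hd'.2.1 e)
          omega
    · have : (CA.powerset ×ˢ CB.powerset).card ≤ 6 ^ U.card := by
        rw [card_product, card_powerset, card_powerset, ← pow_add]
        refine le_of_pow_le_pow_left₀ (n := 2) (by omega) (by positivity) ?_
        calc (2 ^ (CA.card + CB.card)) ^ 2 = 2 ^ (2 * (CA.card + CB.card)) := by ring
          _ ≤ 2 ^ (5 * U.card) := Nat.pow_le_pow_right (by omega) (by omega)
          _ = 32 ^ U.card := by rw [pow_mul]; norm_num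
          _ ≤ 36 ^ U.card := Nat.pow_le_pow_left (by omega) _
          _ = (6 ^ U.card) ^ 2 := by rw [← pow_mul, mul_comm, pow_mul]; norm_num
      exact_mod_cast this

theorem card_big {β : ℕ} (hβ : 2 ≤ β) {k m : ℕ} (hm : 1 ≤ m) (hk : 5 * k ≤ m * m) :
    (((W (β + 1) k).filter (Big β m)).card : ℝ) ≤ ((k : ℝ) + 1) ^ (4 * m) * mu β ^ k := by
  let U : (Finset ℕ × Finset ℕ) × Finset ℕ × Finset ℕ → Finset ℕ := fun j =>
    image₂ (· + ·) j.1.1 j.1.2 ∪ image₂ (· + ·) j.2.1 j.2.2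
  let C : Finset ℕ → Finset ℕ → Finset ℕ := fun A₀ V =>
    (range k).filter fun f => 4 * m ≤ 5 * (A₀.filter fun a => a + f ∈ V).card
  let p : (Finset ℕ × Finset ℕ) × Finset ℕ × Finset ℕ → (ℕ → ℕ) → Prop := fun j w =>
    (j.1.1.card = m ∧ j.2.1.card = m ∧ U j ⊆ range k) ∧ (∀ y ∈ U j, w y = β) ∧
      ∃ i ∈ (C j.2.1 (U j)).powerset ×ˢ (C j.1.1 (U j)).powerset,
        ∀ y, w y = β ↔ ∃ a ∈ i.1, ∃ f ∈ i.2, a + f = y
  have hmu : 0 ≤ mu β ^ k := pow_nonneg ((Nat.cast_nonneg _).trans (le_mu _)) _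
  have h1 : ∀ w ∈ (W (β + 1) k).filter (Big β m),
      ∃ j ∈ (Sub k m ×ˢ Sub k m) ×ˢ Sub k m ×ˢ Sub k m, p j w := by
    intro w hw
    obtain ⟨hw, A, B, hA, hB, hAB⟩ := mem_filter.1 hw
    have hlt : ∀ a ∈ A, ∀ f ∈ B, a + f < k := fun a ha f hf =>
      lt_of_mem_W hw (by rw [(hAB _).2 ⟨a, ha, f, hf, rfl⟩]; omega)
    obtain ⟨a₀, ha₀⟩ : A.Nonempty := card_pos.1 (by omega)
    obtain ⟨f₀, hf₀⟩ : B.Nonempty := card_pos.1 (by omega)
    obtain ⟨A₀, hA₀, J, hJ, s1, s2, c1, t1⟩ := exists_container hm hk hA hlt ⟨f₀, hf₀⟩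
    obtain ⟨B₀, hB₀, J', hJ', s3, s4, c2, t2⟩ := exists_container hm hk hB
      (fun f hf a ha => by rw [add_comm]; exact hlt a ha f hf) ⟨a₀, ha₀⟩
    have hU : ∀ y ∈ U ((A₀, J), B₀, J'), ∃ a ∈ A, ∃ f ∈ B, a + f = y := by
      intro y hy
      rcases mem_union.1 hy with hy | hy
      · obtain ⟨a, ha, f, hf, rfl⟩ := mem_image₂.1 hy
        exact ⟨a, s1 ha, f, s2 hf, rfl⟩
      · obtain ⟨f, hf, a, ha, rfl⟩ := mem_image₂.1 hy
        exact ⟨a, s4 ha, f, s3 hf, add_comm _ _⟩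
    refine ⟨((A₀, J), B₀, J'),
      mem_product.2 ⟨mem_product.2 ⟨hA₀, hJ⟩, mem_product.2 ⟨hB₀, hJ'⟩⟩, ⟨c1, c2, fun y hy => ?_⟩,
      fun y hy => (hAB y).2 (hU y hy),
      (A, B), mem_product.2 ⟨mem_powerset.2 fun a ha => ?_, mem_powerset.2 fun f hf => ?_⟩, hAB⟩
    · obtain ⟨a, ha, f, hf, rfl⟩ := hU y hy
      exact mem_range.2 (hlt a ha f hf)
    · refine mem_filter.2 ⟨mem_range.2 (by have := hlt a ha f₀ hf₀; omega), (t2 a ha).trans ?_⟩
      exact Nat.mul_le_mul_left 5 (card_le_card (monotone_filter_right _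
        fun b _ hb => mem_union_right _ hb))
    · refine mem_filter.2 ⟨mem_range.2 (by have := hlt a₀ ha₀ f hf; omega), (t1 f hf).trans ?_⟩
      exact Nat.mul_le_mul_left 5 (card_le_card (monotone_filter_right _
        fun b _ hb => mem_union_left _ hb))
  refine (cont_cover (M := mu β ^ k) _ _ p h1 fun j _ T hT hp => ?_).trans
    (mul_le_mul_of_nonneg_right ?_ hmu)
  · rcases T.eq_empty_or_nonempty with rfl | ⟨w, hw⟩
    · simpa using hmu
    · obtain ⟨c1, c2, hU⟩ := (hp w hw).1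
      exact cont_fibre hβ hU (card_container k m hm _ _ c2) (card_container k m hm _ _ c1)
        (hT.trans (filter_subset _ _)) (fun w hw => (hp w hw).2.1) fun w hw => (hp w hw).2.2
  · have h := card_Sub k m
    have : ((Sub k m ×ˢ Sub k m) ×ˢ Sub k m ×ˢ Sub k m).card ≤ (k + 1) ^ (4 * m) := by
      simp only [card_product]
      calc _ ≤ ((k + 1) ^ m * (k + 1) ^ m) * ((k + 1) ^ m * (k + 1) ^ m) :=
            Nat.mul_le_mul (Nat.mul_le_mul h h) (Nat.mul_le_mul h h)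
        _ = _ := by ring
    exact_mod_cast this

end Pool.Agent.Lib.MP_1d41ea_nt.L
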