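import Pool.Agent.Lib.MP_1d41ea_nt.LBasic

/-!
Exact count of the main families.
-/

set_option autoImplicit false

open Finset Function

namespace Pool.Agent.Lib.MP_1d41ea_nt.L

open Classical

/-- the transfer map -/
def lcM (β : ℕ) (v : ℝ × ℝ × ℝ) : ℝ × ℝ × ℝ := (v.1 + v.2.1, β * v.2.2, v.1 + β * v.2.2)

/-- the value of a weight vector at two consecutive chain digits -/
def lcEv (v : ℝ × ℝ × ℝ) (x y : ℕ) : ℝ := if x = 0 then v.1 else if y = 0 then v.2.1 else v.2.2

/-- the local condition on three consecutive chain digits -/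
def lcOk (a x y : ℕ) : Prop := (x = 0 → a ≤ 1) ∧ ¬ (y = 0 ∧ 1 ≤ x ∧ a = 0)

/-- the local condition holds at every position -/
def lcAll (d : ℕ) (w : ℕ → ℕ) : Prop := ∀ y, lcOk (w y) (w (y + d)) (w (y + 2 * d))

theorem lc_vec (β : ℕ) : ∀ L, (lcM β)^[L] (1, 0, 1) = vec β L
  | 0 => rfl
  | L + 1 => by rw [iterate_succ_apply', lc_vec β L]; rfl

theorem lc_step {β : ℕ} (hβ : 1 ≤ β) (v : ℝ × ℝ × ℝ) (x y : ℕ) :
    ∑ a ∈ range (β + 1), (if lcOk a x y then (1 : ℝ) else 0) * lcEv v a x =
      lcEv (lcM β v) x y := by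
  rw [sum_range_succ']
  by_cases hx : x = 0
  · obtain ⟨γ, rfl⟩ : ∃ γ, β = γ + 1 := ⟨β - 1, by omega⟩
    rw [sum_range_succ', sum_eq_zero]
    · simp [lcOk, lcEv, lcM, hx, add_comm]
    · intro a _
      have : ¬ lcOk (a + 1 + 1) x y := fun h => by have := h.1 hx; omega
      simp [this]
  · have h1 : ∀ a ∈ range β, (if lcOk (a + 1) x y then (1 : ℝ) else 0) * lcEv v (a + 1) x
        = v.2.2 := by
      intro a _
      have : lcOk (a + 1) x y := ⟨fun h => absurd h hx, fun h => by omega⟩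
      simp [this, lcEv, hx]
    rw [sum_congr rfl h1, sum_const, card_range, nsmul_eq_mul]
    by_cases hy : y = 0
    · have : ¬ lcOk 0 x y := fun h => h.2 ⟨hy, by omega, rfl⟩
      rw [if_neg this]
      simp [lcEv, lcM, hx, hy]
    · have : lcOk 0 x y := ⟨fun _ => by omega, fun h => hy h.1⟩
      simp [this, lcEv, lcM, hx, hy, add_comm]

theorem lcAll_cons (e a : ℕ) (h : ℕ → ℕ) :
    lcAll (e + 1) (cons a h) ↔ lcOk a (h e) (h (e + (e + 1))) ∧ lcAll (e + 1) h := by
  constructor
  · intro H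
    refine ⟨?_, fun y => ?_⟩
    · have := H 0
      rwa [show 0 + (e + 1) = e + 1 by omega,
        show 0 + 2 * (e + 1) = (e + (e + 1)) + 1 by omega] at this
    · have := H (y + 1)
      rwa [show y + 1 + (e + 1) = (y + (e + 1)) + 1 by omega,
        show y + 1 + 2 * (e + 1) = (y + 2 * (e + 1)) + 1 by omega] at this
  · rintro ⟨H0, H⟩ y
    cases y with
    | zero =>
      rw [show 0 + (e + 1) = e + 1 by omega, show 0 + 2 * (e + 1) = (e + (e + 1)) + 1 by omega]
      exact H0
    | succ y =>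
      rw [show y + 1 + (e + 1) = (y + (e + 1)) + 1 by omega,
        show y + 1 + 2 * (e + 1) = (y + 2 * (e + 1)) + 1 by omega]
      exact H y

theorem lc_sum {β : ℕ} (hβ : 1 ≤ β) (e : ℕ) : ∀ (k : ℕ) (g : ℕ → ℝ × ℝ × ℝ),
    ∑ w ∈ W (β + 1) k, (if lcAll (e + 1) w then (1 : ℝ) else 0) *
      ∏ j ∈ range (e + 1), lcEv (g j) (w j) (w (j + (e + 1))) =
    ∏ j ∈ range (e + 1), ((lcM β)^[(k + (e - j)) / (e + 1)] (g j)).1
  | 0, g => by
    have h0 : lcAll (e + 1) 0 := fun y => ⟨fun _ => by simp, fun h => by simp at h⟩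
    simp only [W, sum_singleton, h0, if_true, one_mul]
    refine prod_congr rfl fun j _ => ?_
    have : (0 + (e - j)) / (e + 1) = 0 := Nat.div_eq_of_lt (by omega)
    rw [this]
    simp [lcEv]
  | k + 1, g => by
    have ih := lc_sum hβ e k (fun j => if j < e then g (j + 1) else lcM β (g 0))
    rw [sum_W_succ]
    have key : ∀ h ∈ W (β + 1) k, ∑ a ∈ range (β + 1),
        (if lcAll (e + 1) (cons a h) then (1 : ℝ) else 0) *
          ∏ j ∈ range (e + 1), lcEv (g j) (cons a h j) (cons a h (j + (e + 1))) =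
        (if lcAll (e + 1) h then (1 : ℝ) else 0) *
          ∏ j ∈ range (e + 1), lcEv (if j < e then g (j + 1) else lcM β (g 0)) (h j)
            (h (j + (e + 1))) := by
      intro h _
      have hp : ∀ a, ∏ j ∈ range (e + 1), lcEv (g j) (cons a h j) (cons a h (j + (e + 1))) =
          (∏ j ∈ range e, lcEv (g (j + 1)) (h j) (h (j + (e + 1)))) * lcEv (g 0) a (h e) := by
        intro a
        rw [prod_range_succ']
        congr 1
        · refine prod_congr rfl fun j _ => ?_
          rw [show j + 1 + (e + 1) = (j + (e + 1)) + 1 by omega]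
          rfl
        · rw [show 0 + (e + 1) = e + 1 by omega]
          rfl
      have hq : ∏ j ∈ range (e + 1), lcEv (if j < e then g (j + 1) else lcM β (g 0)) (h j)
            (h (j + (e + 1))) = (∏ j ∈ range e, lcEv (g (j + 1)) (h j) (h (j + (e + 1)))) *
            lcEv (lcM β (g 0)) (h e) (h (e + (e + 1))) := by
        rw [prod_range_succ, if_neg (lt_irrefl e)]
        congr 1
        exact prod_congr rfl fun j hj => by rw [if_pos (mem_range.1 hj)]
      rw [hq, ← lc_step hβ, mul_sum, mul_sum]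
      refine sum_congr rfl fun a _ => ?_
      rw [hp a]
      by_cases h1 : lcAll (e + 1) h <;> by_cases h2 : lcOk a (h e) (h (e + (e + 1))) <;>
        simp [lcAll_cons, h1, h2]
    rw [sum_congr rfl key, ih, prod_range_succ, prod_range_succ' (n := e)]
    congr 1
    · refine prod_congr rfl fun j hj => ?_
      have hj := mem_range.1 hj
      rw [if_pos hj, show k + 1 + (e - (j + 1)) = k + (e - j) by omega]
    · rw [if_neg (lt_irrefl e), Nat.sub_self, Nat.add_zero, Nat.sub_zero,
        show k + 1 + e = k + (e + 1) by omega, Nat.add_div_right _ (Nat.succ_pos e),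
        iterate_succ_apply]

theorem lc_cond {d : ℕ} (w : ℕ → ℕ) :
    (Sup d 1 2 w ∧ NoIso d 1 w) ↔ (lcAll d w ∧ ∀ j < d, w j = 0 ∨ w (j + d) ≠ 0) := by
  constructor
  · rintro ⟨hS, hN⟩
    refine ⟨fun y => ⟨fun h0 => ?_, ?_⟩, fun j hj => ?_⟩
    · by_contra hc
      obtain ⟨z, hz, hz'⟩ := hS y (by omega)
      have : z = y + d := by omega
      rw [this] at hz'
      omega
    · rintro ⟨h2, h1, h0⟩
      rcases hN (y + d) h1 with h | ⟨-, h⟩
      · rw [show y + d + d = y + 2 * d by omega] at h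
        omega
      · rw [show y + d - d = y by omega] at h
        omega
    · by_cases h0 : w j = 0
      · exact Or.inl h0
      · rcases hN j (by omega) with h | ⟨h, -⟩
        · exact Or.inr (by omega)
        · omega
  · rintro ⟨hA, hB⟩
    refine ⟨fun y hy => ⟨y + d, by push_cast; ring, ?_⟩, fun y hy => ?_⟩
    · by_contra hc
      have := (hA y).1 (by omega)
      omega
    · by_cases hd : y < d
      · rcases hB y hd with h | h
        · omega
        · exact Or.inl (by omega)
      · by_contra hc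
        rw [not_or] at hc
        have h1 : w (y + d) = 0 := by omega
        have h2 : w (y - d) = 0 := by
          by_contra h
          exact hc.2 ⟨by omega, by omega⟩
        refine (hA (y - d)).2 ⟨?_, ?_, h2⟩
        · rwa [show y - d + 2 * d = y + d by omega]
        · rwa [show y - d + d = y by omega]

theorem card_H (β : ℕ) (hβ : 1 ≤ β) {d : ℕ} (hd : 1 ≤ d) (k : ℕ) :
    ((H β k d).card : ℝ) = ∏ j ∈ range d, (vec β ((k + j) / d)).1 := by
  obtain ⟨e, rfl⟩ : ∃ e, d = e + 1 := ⟨d - 1, by omega⟩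
  have h := lc_sum hβ e k (fun _ => (1, 0, 1))
  simp only [lc_vec] at h
  rw [← prod_range_reflect (fun j => (vec β ((k + j) / (e + 1))).1) (e + 1)]
  simp only [Nat.add_sub_cancel]
  rw [← h, H, card_filter, Nat.cast_sum]
  refine sum_congr rfl fun w _ => ?_
  rw [if_congr (lc_cond w) rfl rfl]
  by_cases h1 : lcAll (e + 1) w
  · by_cases h2 : ∀ j < e + 1, w j = 0 ∨ w (j + (e + 1)) ≠ 0
    · rw [if_pos ⟨h1, h2⟩, if_pos h1, prod_eq_one]
      · simp
      · intro j hj
        rcases h2 j (mem_range.1 hj) with h | h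
        · simp [lcEv, h]
        · simp [lcEv, h]
    · rw [if_neg fun h => h2 h.2]
      push Not at h2
      obtain ⟨j, hj, h3, h4⟩ := h2
      rw [prod_eq_zero (mem_range.2 hj)]
      · simp
      · simp [lcEv, h3, h4]
  · rw [if_neg fun h => h1 h.1, if_neg h1]
    simp

theorem lc_cons_zero {d : ℕ} (h : ℕ → ℕ) :
    (Sup d 1 2 (cons 0 h) ∧ NoIso d 1 (cons 0 h)) ↔ (Sup d 1 2 h ∧ NoIso d 1 h) := by
  constructor
  · rintro ⟨hS, hN⟩
    refine ⟨fun y hy => ?_, fun y hy => ?_⟩
    · obtain ⟨z, hz, hz'⟩ := hS (y + 1) hy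
      have : z = (y + d) + 1 := by omega
      rw [this] at hz'
      exact ⟨y + d, by push_cast; ring, hz'⟩
    · rcases hN (y + 1) hy with h1 | ⟨h1, h2⟩
      · rw [show y + 1 + d = (y + d) + 1 by omega] at h1
        exact Or.inl h1
      · by_cases h3 : d ≤ y
        · rw [show y + 1 - d = (y - d) + 1 by omega] at h2
          exact Or.inr ⟨h3, h2⟩
        · rw [show y + 1 - d = 0 by omega] at h2
          simp at h2
  · rintro ⟨hS, hN⟩
    refine ⟨fun y hy => ?_, fun y hy => ?_⟩
    · cases y with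
      | zero => simp at hy
      | succ y =>
        obtain ⟨z, hz, hz'⟩ := hS y hy
        exact ⟨z + 1, by push_cast; omega, hz'⟩
    · cases y with
      | zero => simp at hy
      | succ y =>
        rcases hN y hy with h1 | ⟨h1, h2⟩
        · rw [show y + 1 + d = (y + d) + 1 by omega]
          exact Or.inl h1
        · rw [show y + 1 - d = (y - d) + 1 by omega]
          exact Or.inr ⟨by omega, h2⟩

theorem lc_front (β d k : ℕ) :
    ((H β (k + 1) d).filter fun w => w 0 = 0).card = (H β k d).card := by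
  refine card_nbij' (sh 1) (cons 0) (fun w hw => ?_) (fun h hh => ?_) (fun w hw => ?_)
    fun h _ => ?_
  · obtain ⟨h1, h0⟩ := mem_filter.1 (mem_coe.1 hw)
    obtain ⟨h1, h2⟩ := mem_filter.1 h1
    have e : w = cons 0 (sh 1 w) := by rw [← h0]; exact (cons_sh w).symm
    refine mem_coe.2 (mem_filter.2 ⟨mem_W.2 ⟨fun i hi => ?_, fun i hi => ?_⟩, ?_⟩)
    · exact (mem_W.1 h1).1 _ (by omega)
    · exact (mem_W.1 h1).2 _ (by omega)
    · rw [e] at h2
      exact (lc_cons_zero _).1 h2
  · obtain ⟨h1, h2⟩ := mem_filter.1 (mem_coe.1 hh)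
    refine mem_coe.2 (mem_filter.2 ⟨mem_filter.2 ⟨mem_W.2 ⟨fun i hi => ?_, fun i hi => ?_⟩,
      (lc_cons_zero _).2 h2⟩, rfl⟩)
    · cases i with
      | zero => simp
      | succ i => exact (mem_W.1 h1).1 i (by omega)
    · cases i with
      | zero => omega
      | succ i => exact (mem_W.1 h1).2 i (by omega)
  · obtain ⟨-, h0⟩ := mem_filter.1 (mem_coe.1 hw)
    rw [← h0]
    exact cons_sh w
  · rw [show (1 : ℕ) = 0 + 1 from rfl, sh_succ_cons, sh_zero]

theorem lc_back (β d k : ℕ) :
    ((H β (k + 1) d).filter fun w => w k = 0) = H β k d := by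
  ext w
  simp only [H, mem_filter, mem_W]
  constructor
  · rintro ⟨⟨⟨h1, h2⟩, h3⟩, h4⟩
    refine ⟨⟨fun i hi => h1 i (by omega), fun i hi => ?_⟩, h3⟩
    rcases Nat.eq_or_lt_of_le hi with rfl | h
    · exact h4
    · exact h2 i h
  · rintro ⟨⟨h1, h2⟩, h3⟩
    refine ⟨⟨⟨fun i hi => ?_, fun i hi => h2 i (by omega)⟩, h3⟩, h2 k le_rfl⟩
    by_cases h : i < k
    · exact h1 i h
    · rw [h2 i (by omega)]
      omega

theorem card_F (β : ℕ) {d : ℕ} (hd : 1 ≤ d) (k : ℕ) :
    ((F β (k + 2) d).card : ℝ) =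
      (H β (k + 2) d).card - 2 * (H β (k + 1) d).card + (H β k d).card := by
  have _ := hd
  have hF : F β (k + 2) d =
      (H β (k + 2) d).filter fun w => ¬ (w 0 = 0 ∨ w (k + 1) = 0) := by
    ext w
    simp only [F, H, mem_filter, Int.natAbs_natCast, show k + 2 - 1 = k + 1 from rfl]
    constructor
    · rintro ⟨h1, h2, h3, h4⟩
      exact ⟨⟨h1, h4⟩, by omega⟩
    · rintro ⟨⟨h1, h4⟩, h2⟩
      exact ⟨h1, by omega, by omega, h4⟩
  have h1 := card_filter_add_card_filter_not (s := H β (k + 2) d)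
    (fun w => w 0 = 0 ∨ w (k + 1) = 0)
  have h2 := card_union_add_card_inter ((H β (k + 2) d).filter fun w => w 0 = 0)
    ((H β (k + 2) d).filter fun w => w (k + 1) = 0)
  have h3 : ((H β (k + 2) d).filter fun w => w 0 = 0) ∩
      ((H β (k + 2) d).filter fun w => w (k + 1) = 0) =
      (H β (k + 1) d).filter fun w => w 0 = 0 := by
    rw [← lc_back β d (k + 1)]
    ext w
    simp only [mem_inter, mem_filter]
    tauto
  rw [← filter_or, h3, lc_front β d, lc_front β d, lc_back] at h2
  rw [← hF] at h1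
  have h4 : (F β (k + 2) d).card + 2 * (H β (k + 1) d).card =
      (H β (k + 2) d).card + (H β k d).card := by omega
  have h5 : ((F β (k + 2) d).card : ℝ) + 2 * (H β (k + 1) d).card =
      (H β (k + 2) d).card + (H β k d).card := by exact_mod_cast h4
  linarith

theorem card_F_le (β k d : ℕ) : (F β k d).card ≤ (H β k d).card := by
  refine card_le_card fun w hw => ?_
  obtain ⟨h1, -, -, h2, h3⟩ := mem_filter.1 hw
  rw [Int.natAbs_natCast] at h3
  exact mem_filter.2 ⟨h1, h2, h3⟩

theorem lc_F_le (β k : ℕ) (c : ℤ) : (F β k c).card ≤ (F β k (-c)).card := by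
  refine card_le_card_of_injOn (rev k) (fun w hw => ?_) fun w hw w' hw' e => ?_
  · obtain ⟨hw, h0, h1, h2, h3⟩ := mem_filter.1 (mem_coe.1 hw)
    have hk : 0 < k := lt_of_mem_W hw h0
    refine mem_coe.2 (mem_filter.2 ⟨rev_mem hw, ?_, ?_, h2.rev hw le_rfl (by norm_num), ?_⟩)
    · simpa only [rev, if_pos hk, Nat.sub_zero] using h1
    · have h4 : k - 1 < k := by omega
      simpa only [rev, if_pos h4, Nat.sub_self] using h0
    · rw [Int.natAbs_neg]
      exact h3.rev hw le_rfl
  · rw [← rev_rev (mem_filter.1 (mem_coe.1 hw)).1, e, rev_rev (mem_filter.1 (mem_coe.1 hw')).1]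

theorem card_F_neg (β k : ℕ) (c : ℤ) : (F β k (-c)).card = (F β k c).card := by
  refine le_antisymm ?_ (lc_F_le β k c)
  have := lc_F_le β k (-c)
  rwa [neg_neg] at this

theorem sum_div_eq {d : ℕ} (hd : 1 ≤ d) (k : ℕ) : ∑ j ∈ range d, (k + j) / d = k := by
  induction k with
  | zero => exact sum_eq_zero fun j hj => Nat.div_eq_of_lt (by have := mem_range.1 hj; omega)
  | succ k ih =>
    have h1 := sum_range_succ (fun j => (k + j) / d) d
    have h2 := sum_range_succ' (fun j => (k + j) / d) d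
    have h3 : ∑ j ∈ range d, (k + 1 + j) / d = ∑ j ∈ range d, (k + (j + 1)) / d :=
      sum_congr rfl fun j _ => by rw [show k + 1 + j = k + (j + 1) by omega]
    have h4 : (k + d) / d = k / d + 1 := Nat.add_div_right k hd
    rw [h1, ih, h4, show k + 0 = k from rfl, ← h3] at h2
    omega

end Pool.Agent.Lib.MP_1d41ea_nt.L
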