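import Pool.Agent.Lib.MP_1d41ea_nt.LBasic

/-!
The case analysis on the second largest digit of a factor.
-/

set_option autoImplicit false

open Finset Function

namespace Pool.Agent.Lib.MP_1d41ea_nt.L

open Classical

theorem st_unit {β i : ℕ} (hi : 1 ≤ i) : unit β i = 0 := by
  cases i with
  | zero => omega
  | succ i => rfl

theorem st_swap {w P Q : ℕ → ℕ} (h : IsProd w P Q) : IsProd w Q P := by
  refine ⟨fun i j => ?_, fun m => ?_⟩
  · rw [min_comm, add_comm]
    exact h.1 j i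
  · obtain ⟨i, j, h1, h2⟩ := h.2 m
    exact ⟨j, i, by omega, by rwa [min_comm]⟩

theorem st_up {w P Q : ℕ → ℕ} (h : IsProd w P Q) {a i j y : ℕ} (hi : a ≤ P i) (hj : a ≤ Q j)
    (e : i + j = y) : a ≤ w y :=
  e ▸ (le_min hi hj).trans (h.1 i j)

theorem st_dn {w P Q : ℕ → ℕ} (h : IsProd w P Q) {a y : ℕ} (hy : a ≤ w y) :
    ∃ i j, i + j = y ∧ a ≤ P i ∧ a ≤ Q j := by
  obtain ⟨i, j, h1, h2⟩ := h.2 y
  exact ⟨i, j, h1, hy.trans (h2.trans (min_le_left _ _)), hy.trans (h2.trans (min_le_right _ _))⟩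

theorem st_far {β s : ℕ} (hβ : 2 ≤ β) {Q : ℕ → ℕ} (hQ : Q ≠ unit β) (hs : Q s = β) :
    ∃ j, 1 ≤ j ∧ 1 ≤ Q j := by
  by_contra hcon
  push Not at hcon
  apply hQ
  funext j
  cases j with
  | zero =>
    have : s = 0 := by
      by_contra h
      have := hcon s (by omega)
      omega
    rw [← this, hs, this]
    rfl
  | succ j =>
    have := hcon (j + 1) (by omega)
    rw [st_unit (by omega)]
    omega

theorem st_noiso {w P Q : ℕ → ℕ} (h : IsProd w P Q) {a t e : ℕ} (ht : a ≤ P t) (he : a ≤ P e)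
    (hall : ∀ i, a ≤ P i → i = t ∨ i = e) : NoIso ((e : ℤ) - t).natAbs a w := by
  intro y hy
  obtain ⟨i, j, h1, h2, h3⟩ := st_dn h hy
  rcases hall i h2 with rfl | rfl
  · rcases le_total i e with k | k
    · exact Or.inl (st_up h he h3 (by omega))
    · exact Or.inr ⟨by omega, st_up h he h3 (by omega)⟩
  · rcases le_total i t with k | k
    · exact Or.inl (st_up h ht h3 (by omega))
    · exact Or.inr ⟨by omega, st_up h ht h3 (by omega)⟩

theorem st_sup {w P Q : ℕ → ℕ} (h : IsProd w P Q) {lo hi t e : ℕ} (hl : lo ≤ hi) (he : lo ≤ P e)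
    (hall : ∀ i, hi ≤ P i → i = t) : Sup ((e : ℤ) - t) lo hi w := by
  intro y hy
  obtain ⟨i, j, h1, h2, h3⟩ := st_dn h hy
  have := hall i h2
  exact ⟨e + j, by omega, st_up h he (hl.trans h3) rfl⟩

theorem st_off {r : ℕ} {c : ℤ} : c ∈ Off r ↔ c ≠ 0 ∧ -(r : ℤ) ≤ c ∧ c ≤ r := by
  simp [Off]

theorem st_sort {p : ℕ → Prop} {a b c : ℕ} (ha : p a) (hb : p b) (hc : p c) (ab : a ≠ b)
    (ac : a ≠ c) (bc : b ≠ c) : ∃ x y z, x < y ∧ y < z ∧ p x ∧ p y ∧ p z := by
  rcases lt_or_gt_of_ne ab with h1 | h1 <;> rcases lt_or_gt_of_ne ac with h2 | h2 <;>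
    rcases lt_or_gt_of_ne bc with h3 | h3
  · exact ⟨a, b, c, h1, h3, ha, hb, hc⟩
  · exact ⟨a, c, b, h2, h3, ha, hc, hb⟩
  · omega
  · exact ⟨c, a, b, h2, h1, hc, ha, hb⟩
  · exact ⟨b, a, c, h1, h2, hb, ha, hc⟩
  · omega
  · exact ⟨b, c, a, h3, h2, hb, hc, ha⟩
  · exact ⟨c, b, a, h3, h1, hc, hb, ha⟩

theorem st_three {β k : ℕ} (hβ : 2 ≤ β) {w P Q : ℕ → ℕ} (hw : w ∈ W (β + 1) k)
    (hP : ∀ i, P i ≤ β) (hQ : ∀ i, Q i ≤ β) (h : IsProd w P Q) {e₀ e₁ e₂ : ℕ} (h01 : e₀ < e₁)
    (h12 : e₁ < e₂) (p0 : β - 1 ≤ P e₀) (p1 : β - 1 ≤ P e₁) (p2 : β - 1 ≤ P e₂) :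
    Three β k (e₂ - e₁) (e₂ - e₀) (Psi ((range k).filter fun i => P i = β) e₂) w := by
  have hX : ∀ y, (if e₂ ≤ y ∧ Q (y - e₂) = β then 1 else 0) = 1 ↔ e₂ ≤ y ∧ Q (y - e₂) = β := by
    intro y
    split_ifs with c <;> simp [c]
  refine ⟨fun y => if e₂ ≤ y ∧ Q (y - e₂) = β then 1 else 0, mem_W.2 ⟨fun i _ => ?_, fun i hi => ?_⟩,
    fun y hy => if_neg (by omega), fun y => ⟨fun hy => ?_, ?_⟩, fun y hy => ?_⟩
  · split_ifs <;> omega
  · refine if_neg fun c => ?_
    have := lt_of_mem_W hw (st_up h (a := 1) (i := e₂) (j := i - e₂) (y := i) (by omega)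
      (by omega) (by omega))
    omega
  · obtain ⟨i, j, h1, h2, h3⟩ := st_dn h hy.ge
    have hy' : y < k := lt_of_mem_W hw (by omega)
    refine ⟨i, mem_filter.2 ⟨mem_range.2 (by omega), le_antisymm (hP i) h2⟩, j + e₂,
      (hX _).2 ⟨by omega, ?_⟩, by omega⟩
    rw [Nat.add_sub_cancel]
    exact le_antisymm (hQ j) h3
  · rintro ⟨a, ha, z, hz, e⟩
    obtain ⟨z1, z2⟩ := (hX z).1 hz
    exact le_antisymm (le_of_mem_W hw y) (st_up h (mem_filter.1 ha).2.ge z2.ge (by omega))
  · rcases hy with hy | hy | hy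
    · obtain ⟨z1, z2⟩ := (hX _).1 hy
      exact st_up h p2 (j := y - e₂) (by omega) (by omega)
    · obtain ⟨z1, z2⟩ := (hX _).1 hy
      exact st_up h p1 (j := y + (e₂ - e₁) - e₂) (by omega) (by omega)
    · obtain ⟨z1, z2⟩ := (hX _).1 hy
      exact st_up h p0 (j := y + (e₂ - e₀) - e₂) (by omega) (by omega)

theorem st_core {β k m : ℕ} (hβ : 2 ≤ β) {w P Q : ℕ → ℕ} (hw : w ∈ W (β + 1) k) (w0 : 1 ≤ w 0)
    (w1 : 1 ≤ w (k - 1)) (hP : ∀ i, P i ≤ β) (hQ : ∀ i, Q i ≤ β) (nP : P ≠ unit β)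
    (nQ : Q ≠ unit β) (h : IsProd w P Q) {t s : ℕ} (ht : P t = β) (hs : Q s = β)
    (hA : ((range k).filter fun i => P i = β).card ≤ m) :
    (∃ c ∈ Off (k - 2), w ∈ F β k c) ∨ Bad β k m w := by
  obtain ⟨j₀, hj₀, hj₁⟩ := st_far hβ nQ hs
  have supp : ∀ i, 1 ≤ P i → i + 2 ≤ k := fun i hi => by
    have := lt_of_mem_W hw (st_up h hi hj₁ rfl)
    omega
  have tk := supp t (by omega)
  have off : ∀ e, e ≠ t → 1 ≤ P e → (e : ℤ) - t ∈ Off (k - 2) ∧ (e : ℤ) - t ∈ Off k := by
    intro e he he'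
    have := supp e he'
    rw [st_off, st_off]
    omega
  have fam : ∀ e, e ≠ t → 1 ≤ P e → (∀ i, 2 ≤ P i → i = t) → (∀ i, 1 ≤ P i → i = t ∨ i = e) →
      ∃ c ∈ Off (k - 2), w ∈ F β k c := fun e he he' k2 k1 =>
    ⟨_, (off e he he').1, mem_filter.2 ⟨hw, w0, w1, st_sup h (by norm_num) he' k2,
      st_noiso h (by omega) he' k1⟩⟩
  by_cases h2 : ∃ e, e ≠ t ∧ β - 1 ≤ P e
  · obtain ⟨e, he, he'⟩ := h2
    by_cases h3 : ∃ e', e' ≠ t ∧ e' ≠ e ∧ β - 1 ≤ P e'
    · obtain ⟨e', a1, a2, a3⟩ := h3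
      obtain ⟨e₀, e₁, e₂, h01, h12, p0, p1, p2⟩ := st_sort (p := fun i => β - 1 ≤ P i)
        (a := t) (b := e) (c := e') (by omega) he' a3 he.symm a1.symm a2.symm
      have := supp e₂ (by omega)
      refine Or.inr (Or.inr (Or.inr (Or.inr (Or.inr (Or.inr (Or.inl
        ⟨((range k).filter fun i => P i = β, e₂, e₂ - e₁, e₂ - e₀), ?_, ?_, ?_,
          st_three hβ hw hP hQ h h01 h12 p0 p1 p2⟩))))))
      · simp only [mem_product, mem_range, Sub, mem_filter, mem_powerset]
        exact ⟨⟨filter_subset _ _, hA⟩, by omega, by omega, by omega⟩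
      · show 1 ≤ e₂ - e₁
        omega
      · show e₂ - e₁ < e₂ - e₀
        omega
    · have hall : ∀ i, β - 1 ≤ P i → i = t ∨ i = e := fun i hi => by
        by_contra c
        push Not at c
        exact h3 ⟨i, c.1, c.2, hi⟩
      have n1 := st_noiso h (by omega) he' hall
      have ek := supp e (by omega)
      by_cases h4 : P e = β
      · exact Or.inr (Or.inr (Or.inr (Or.inr (Or.inr (Or.inl
          ⟨_, mem_range.2 (by omega), by omega,
            st_noiso h ht.ge h4.ge fun i hi => hall i (by omega), n1⟩)))))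
      have top : ∀ i, β ≤ P i → i = t := fun i hi => by
        rcases hall i (by omega) with c | c
        · exact c
        · exact absurd (le_antisymm (hP e) (c ▸ hi)) h4
      by_cases h5 : 3 ≤ β
      · exact Or.inr (Or.inr (Or.inr (Or.inr (Or.inl
          ⟨_, (off e he (by omega)).2, h5, st_sup h (by omega) he' top, n1⟩))))
      · obtain rfl : β = 2 := by omega
        exact Or.inl (fam e he he' top hall)
  · have low : ∀ i, i ≠ t → P i + 2 ≤ β := fun i hi => by
      by_contra c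
      exact h2 ⟨i, hi, by omega⟩
    by_cases h3 : ∃ e, e ≠ t ∧ 2 ≤ P e
    · obtain ⟨e', a1, a2⟩ := h3
      have := supp e' (by omega)
      obtain ⟨e, he, hmax⟩ := exists_max_image ((range k).erase t) P
        ⟨e', mem_erase.2 ⟨a1, mem_range.2 (by omega)⟩⟩
      have b1 := hmax e' (mem_erase.2 ⟨a1, mem_range.2 (by omega)⟩)
      have b2 := (mem_erase.1 he).1
      have b3 := low e b2
      refine Or.inr (Or.inr (Or.inr (Or.inl ⟨(P e, (e : ℤ) - t),
        mem_product.2 ⟨mem_range.2 (by show P e < β; omega), (off e b2 (by omega)).2⟩,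
        by show 2 ≤ P e; omega, b3, st_sup h (Nat.le_succ _) le_rfl fun i hi => ?_⟩)))
      by_contra c
      have hi' : P e + 1 ≤ P i := hi
      have := supp i (by omega)
      have := hmax i (mem_erase.2 ⟨c, mem_range.2 (by omega)⟩)
      omega
    · have top : ∀ i, 2 ≤ P i → i = t := fun i hi => by
        by_contra c
        exact h3 ⟨i, c, hi⟩
      have ex : ∃ e, e ≠ t ∧ 1 ≤ P e := by
        obtain ⟨i, hi, hi'⟩ := st_far hβ nP ht
        obtain ⟨a, b, c1, c2, -⟩ := st_dn h w0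
        by_cases c : i = t
        · exact ⟨a, by omega, c2⟩
        · exact ⟨i, c, hi'⟩
      obtain ⟨e, he, he'⟩ := ex
      by_cases h4 : ∃ e', e' ≠ t ∧ e' ≠ e ∧ 1 ≤ P e'
      · obtain ⟨e', a1, a2, a3⟩ := h4
        exact Or.inr (Or.inr (Or.inl ⟨((e : ℤ) - t, (e' : ℤ) - t),
          mem_product.2 ⟨(off e he he').2, (off e' a1 a3).2⟩,
          by show (e : ℤ) - t ≠ (e' : ℤ) - t; omega,
          st_sup h (by norm_num) he' top, st_sup h (by norm_num) a3 top⟩))
      · refine Or.inl (fam e he he' top fun i hi => ?_)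
        by_contra c
        push Not at c
        exact h4 ⟨i, c.1, c.2, hi⟩

theorem red_cases {β k m : ℕ} (hβ : 2 ≤ β) {w : ℕ → ℕ} (hw : w ∈ R β k) :
    (∃ c ∈ Off (k - 2), w ∈ F β k c) ∨ Bad β k m w := by
  obtain ⟨hw, w0, w1, P, Q, hP, hQ, nP, nQ, h⟩ := mem_filter.1 hw
  by_cases h0 : ∀ y, w y ≠ β
  · exact Or.inr (Or.inl h0)
  push Not at h0
  obtain ⟨y₀, hy₀⟩ := h0
  obtain ⟨t, s, -, ht, hs⟩ := st_dn h hy₀.ge
  have ht' := le_antisymm (hP t) ht
  have hs' := le_antisymm (hQ s) hs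
  by_cases hA : ((range k).filter fun i => P i = β).card ≤ m
  · exact st_core hβ hw w0 w1 hP hQ nP nQ h ht' hs' hA
  by_cases hB : ((range k).filter fun i => Q i = β).card ≤ m
  · exact st_core hβ hw w0 w1 hQ hP nQ nP (st_swap h) hs' ht' hB
  refine Or.inr (Or.inr (Or.inr (Or.inr (Or.inr (Or.inr (Or.inr
    ⟨_, _, (not_le.1 hA).le, (not_le.1 hB).le, fun y => ⟨fun hy => ?_, ?_⟩⟩))))))
  · obtain ⟨i, j, h1, h2, h3⟩ := st_dn h hy.ge
    have hy' : y < k := lt_of_mem_W hw (by omega)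
    exact ⟨i, mem_filter.2 ⟨mem_range.2 (by omega), le_antisymm (hP i) h2⟩, j,
      mem_filter.2 ⟨mem_range.2 (by omega), le_antisymm (hQ j) h3⟩, h1⟩
  · rintro ⟨a, ha, f, hf, e⟩
    exact le_antisymm (le_of_mem_W hw y)
      (st_up h (mem_filter.1 ha).2.ge (mem_filter.1 hf).2.ge e)

theorem F_subset_R {β k : ℕ} (hβ : 2 ≤ β) {c : ℤ} (hc : c ∈ Off (k - 2)) : F β k c ⊆ R β k := by
  intro w hw
  obtain ⟨hw, w0, w1, hs, hn⟩ := mem_filter.1 hw
  obtain ⟨c0, c1, c2⟩ := st_off.1 hc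
  obtain ⟨d, hd⟩ : ∃ d, c.natAbs = d := ⟨_, rfl⟩
  rw [hd] at hn
  have d1 : 1 ≤ d := by omega
  have d2 : d + 2 ≤ k := by omega
  have le := le_of_mem_W hw
  have last : 1 ≤ w (k - 1 - d) := by
    rcases hn _ w1 with h | h
    · have := lt_of_mem_W hw h
      omega
    · exact h.2
  have e1 : k - 1 - d + d = k - 1 := by omega
  refine mem_filter.2 ⟨hw, w0, w1, ?_⟩
  rcases lt_or_gt_of_ne c0 with hc' | hc'
  · refine ⟨fun i => if i = 0 then 1 else if i = d then β else 0,
      fun j => if 1 ≤ w j then w (j + d) else 0, fun i => by beta_reduce; split_ifs <;> omega,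
      fun j => by beta_reduce; split_ifs; exacts [le _, Nat.zero_le _], fun h => ?_, fun h => ?_,
      fun i j => ?_, fun y => ?_⟩
    · have := congrFun h d
      rw [st_unit d1, if_neg (by omega), if_pos rfl] at this
      omega
    · have := congrFun h (k - 1 - d)
      rw [st_unit (by omega), if_pos last, e1] at this
      omega
    · beta_reduce
      split_ifs with a b b' b
      · subst a
        rw [zero_add]
        omega
      · omega
      · subst b'
        rw [add_comm]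
        omega
      · omega
      · omega
      · omega
    · by_cases a : d ≤ y ∧ 1 ≤ w (y - d)
      · refine ⟨d, y - d, by omega, ?_⟩
        beta_reduce
        rw [if_neg (by omega), if_pos rfl, if_pos a.2, Nat.sub_add_cancel a.1]
        exact le_min (le y) le_rfl
      · have b : w y ≤ 1 := by
          by_contra b
          obtain ⟨z, z1, z2⟩ := hs y (by omega)
          have : z = y - d := by omega
          exact a ⟨by omega, this ▸ z2⟩
        refine ⟨0, y, by omega, ?_⟩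
        beta_reduce
        rw [if_pos rfl]
        split_ifs with b'
        · have := (hn y b').resolve_right a
          omega
        · omega
  · refine ⟨fun i => if i = 0 then β else if i = d then 1 else 0,
      fun j => if 1 ≤ w (j + d) then w j else 0, fun i => by beta_reduce; split_ifs <;> omega,
      fun j => by beta_reduce; split_ifs; exacts [le _, Nat.zero_le _], fun h => ?_, fun h => ?_,
      fun i j => ?_, fun y => ?_⟩
    · have := congrFun h d
      rw [st_unit d1, if_neg (by omega), if_pos rfl] at this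
      omega
    · have := congrFun h (k - 1 - d)
      rw [st_unit (by omega), e1, if_pos w1] at this
      omega
    · beta_reduce
      split_ifs with a b b' b
      · subst a
        rw [zero_add]
        omega
      · omega
      · subst b'
        rw [add_comm]
        omega
      · omega
      · omega
      · omega
    · by_cases a : 1 ≤ w (y + d)
      · refine ⟨0, y, by omega, ?_⟩
        beta_reduce
        rw [if_pos rfl, if_pos a]
        exact le_min (le y) le_rfl
      · have b : w y ≤ 1 := by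
          by_contra b
          obtain ⟨z, z1, z2⟩ := hs y (by omega)
          have : z = y + d := by omega
          exact a (this ▸ z2)
        by_cases b' : 1 ≤ w y
        · have := (hn y b').resolve_left a
          refine ⟨d, y - d, by omega, ?_⟩
          beta_reduce
          rw [if_neg (by omega), if_pos rfl, Nat.sub_add_cancel this.1, if_pos b']
          omega
        · exact ⟨0, y, by omega, by omega⟩

end Pool.Agent.Lib.MP_1d41ea_nt.L
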