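import Pool.Agent.Lib.MP_1d41ea_nt.LBasic

/-!
Words with constraints at one or two offsets.
-/

set_option autoImplicit false

open Finset Function

namespace Pool.Agent.Lib.MP_1d41ea_nt.L

open Classical

theorem two_off {b k θ c₁ c₂ : ℕ} (hθ : 1 ≤ θ) (hc₁ : 1 ≤ c₁) (hc : c₁ < c₂)
    {S : Finset (ℕ → ℕ)} (hS : S ⊆ W b k) (hlow : ∀ w ∈ S, ∀ y < c₂, w y < θ)
    (ρ : ℕ → Prop → ℝ) (hρ0 : ∀ i p, 0 ≤ ρ i p) {x z α η μ : ℝ}
    (hρ : ∀ (p : Prop) (u : ℝ), 0 ≤ u →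
      ∑ i ∈ range b, ρ i p * (if θ ≤ i then u else 1) ≤ x * u + if p then 1 else z)
    (hα : 0 < α) (hη : 1 ≤ η)
    (h1 : x * (α * α * η) + z ≤ μ) (h2 : x * (α * α * η) + 1 ≤ μ * α)
    (h3 : x * (α * η) + z ≤ μ * η) (h4 : x * (α * η) + 1 ≤ μ * (α * η)) :
    ∑ w ∈ S, ∏ y ∈ range k, ρ (w y) (θ ≤ w (y + c₁) ∨ θ ≤ w (y + c₂)) ≤ μ ^ k := by
  obtain ⟨δ, rfl⟩ : ∃ δ, c₂ = c₁ + δ := ⟨c₂ - c₁, by omega⟩
  have hδ : 1 ≤ δ := by omega
  have hη0 : 0 < η := by linarith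
  have hθ0 : ¬ θ ≤ 0 := by omega
  refine pot3 hS (fun h => ρ (h 0) (θ ≤ h c₁ ∨ θ ≤ h (c₁ + δ)))
    (fun h => if θ ≤ h 0 ∧ ¬ θ ≤ h δ then α else 1) (fun h => if θ ≤ h 0 then α else 1)
    (fun h => if θ ≤ h 0 then η else 1) hc₁ (by omega : 1 ≤ c₁ + δ) hδ μ (fun h => hρ0 _ _)
    (fun h => by split_ifs <;> positivity) (fun h => by split_ifs <;> positivity)
    (fun h => by split_ifs <;> positivity) (by simp [hθ0]) (by simp [hθ0]) (by simp [hθ0])
    (fun w hw y hy => ?_) (fun w hw y hy => ?_) (fun w hw y hy => ?_) (fun h => ?_)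
  · have : ¬ θ ≤ w y := not_le.2 (hlow w hw y (by omega))
    simp [this]
  · have : ¬ θ ≤ w y := not_le.2 (hlow w hw y hy)
    simp [this]
  · split_ifs
    · exact hη
    · exact le_rfl
  · have n1 : c₁ ≠ 0 := by omega
    have n2 : c₁ + δ ≠ 0 := by omega
    have n3 : δ ≠ 0 := by omega
    simp only [update_self, update_of_ne n1, update_of_ne n2, update_of_ne n3, sh_apply, add_zero]
    by_cases hB : θ ≤ h δ
    · have e := hρ (θ ≤ h c₁ ∨ θ ≤ h (c₁ + δ)) (α * η) (by positivity)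
      refine le_trans (le_of_eq (sum_congr rfl fun i _ => ?_)) (e.trans ?_)
      · by_cases hi : θ ≤ i <;> simp [hi, hB]
      · by_cases a1 : θ ≤ h c₁ <;> by_cases a2 : θ ≤ h (c₁ + δ) <;>
          simp only [a1, a2, hB, or_true, or_false, or_self, not_true, not_false_iff,
            and_true, and_false, if_true, if_false, one_mul, mul_one] <;> assumption
    · have e := hρ (θ ≤ h c₁ ∨ θ ≤ h (c₁ + δ)) (α * α * η) (by positivity)
      refine le_trans (le_of_eq (sum_congr rfl fun i _ => ?_)) (e.trans ?_)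
      · by_cases hi : θ ≤ i <;> simp [hi, hB]
      · by_cases a1 : θ ≤ h c₁ <;> by_cases a2 : θ ≤ h (c₁ + δ) <;>
          simp only [a1, a2, hB, or_true, or_false, or_self, not_true, not_false_iff,
            and_true, and_false, if_true, if_false, one_mul, mul_one] <;> assumption

theorem ltwo_low {c lo hi : ℕ} {w : ℕ → ℕ} (h : Sup (-(c : ℤ)) lo hi w) {y : ℕ} (hy : y < c) :
    w y < hi := by
  by_contra hh
  obtain ⟨z, hz, -⟩ := h y (not_lt.1 hh)
  omega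

theorem ltwo_back {c lo hi : ℕ} {w : ℕ → ℕ} (h : Sup (-(c : ℤ)) lo hi w) {y : ℕ}
    (hy : hi ≤ w (y + c)) : lo ≤ w y := by
  obtain ⟨z, hz, hz'⟩ := h _ hy
  have : z = y := by
    push_cast at hz
    omega
  rwa [this] at hz'

theorem ltwo_fwd {c lo hi : ℕ} {w : ℕ → ℕ} (h : Sup (c : ℤ) lo hi w) {y : ℕ}
    (hy : hi ≤ w y) : lo ≤ w (y + c) := by
  obtain ⟨z, hz, hz'⟩ := h _ hy
  have : z = y + c := by omega
  rwa [this] at hz'

theorem ltwo_ineq {β : ℝ} (hβ : 2 ≤ β) :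
    5 / 2 ≤ β + 1 / β ∧ 5 / 3 + (β - 1) * (β / (β + 1)) ≤ β + 1 / β ∧
      1 + (β - 1) * (β / (β + 1)) = (β + 1 / β) * (β / (β + 1)) ∧
      2 + (β - 1) * (β / (β + 1)) ≤ 5 / 3 * ((β + 1 / β) * (β / (β + 1))) ∧
      3 / 5 ≤ β / (β + 1) ∧ 0 ≤ (β - 1) * (β / (β + 1)) ∧
      (β - 1) * (β / (β + 1)) ≥ 2 / 3 ∧
      3 / 5 * ((β - 1) * (β / (β + 1))) + 2 ≤ β + 1 / β := by
  have h0 : 0 < β := by linarith
  have h1 : 0 < β + 1 := by linarith
  have e : (β - 1) * (β / (β + 1)) = β - 2 + 2 / (β + 1) := by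
    field_simp
    ring
  have e2 : (β + 1 / β) * (β / (β + 1)) = β - 1 + 2 / (β + 1) := by
    field_simp
    ring
  have a1 : 5 / 2 ≤ β + 1 / β := by
    have : β + 1 / β - 5 / 2 = (β - 2) * (2 * β - 1) / (2 * β) := by
      field_simp
      ring
    have h : 0 ≤ (β - 2) * (2 * β - 1) / (2 * β) :=
      div_nonneg (mul_nonneg (by linarith) (by linarith)) (by linarith)
    linarith
  have a2 : 2 / (β + 1) ≤ 1 / 3 + 1 / β := by
    have : 1 / 3 + 1 / β - 2 / (β + 1) = ((β - 1) ^ 2 + 2) / (3 * β * (β + 1)) := by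
      field_simp
      ring
    have h : 0 ≤ ((β - 1) ^ 2 + 2) / (3 * β * (β + 1)) := by positivity
    linarith
  have a3 : 8 / 3 ≤ β + 2 / (β + 1) := by
    have : β + 2 / (β + 1) - 8 / 3 = (β - 2) * (3 * β + 1) / (3 * (β + 1)) := by
      field_simp
      ring
    have h : 0 ≤ (β - 2) * (3 * β + 1) / (3 * (β + 1)) :=
      div_nonneg (mul_nonneg (by linarith) (by linarith)) (by linarith)
    linarith
  have a4 : 3 / 5 ≤ β / (β + 1) := by
    rw [le_div_iff₀ h1]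
    linarith
  have a5 : 2 / (β + 1) ≤ 2 / 3 := by
    rw [div_le_div_iff₀ h1 (by norm_num)]
    linarith
  have a6 : 2 / (β + 1) ≤ 2 * (1 / β) := by
    rw [mul_one_div, div_le_div_iff₀ h1 h0]
    linarith
  have a7 : 0 < 1 / β := by positivity
  rw [e, e2]
  refine ⟨a1, by linarith, by linarith, by linarith, a4, by linarith, by linarith, ?_⟩
  nlinarith

theorem ltwo_neg {β : ℕ} (hβ : 2 ≤ β) (k : ℕ) {c₁ c₂ : ℕ} (hc₁ : 1 ≤ c₁) (hc : c₁ < c₂) :
    (((W (β + 1) k).filter fun w => Sup (-(c₁ : ℤ)) 1 2 w ∧ Sup (-(c₂ : ℤ)) 1 2 w).card : ℝ) ≤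
      mu β ^ k := by
  have hb : (2 : ℝ) ≤ β := by exact_mod_cast hβ
  obtain ⟨i1, i2, i3, i4, i5, i6, i7, i8⟩ := ltwo_ineq hb
  have key := two_off (b := β + 1) (k := k) (θ := 2) (by norm_num) hc₁ hc
    (S := (W (β + 1) k).filter fun w => Sup (-(c₁ : ℤ)) 1 2 w ∧ Sup (-(c₂ : ℤ)) 1 2 w)
    (filter_subset _ _) (fun w hw y hy => ltwo_low (mem_filter.1 hw).2.2 hy)
    (fun i p => if p ∧ i = 0 then 0 else 1) (fun i p => by split_ifs <;> norm_num)
    (x := (β : ℝ) - 1) (z := 2) (α := 3 / 5) (η := 5 / 3 * (β / (β + 1))) (μ := mu β)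
    (fun p u _ => by
      rw [sum3 (a := 1) (by omega) _ (A := if p then 0 else 1) (B := 1) (C := u)]
      · split_ifs <;> push_cast <;> linarith
      · intro i hi
        have : i = 0 := by omega
        subst this
        by_cases hp : p <;> simp [hp]
      · simp
      · intro i hi
        have h0 : i ≠ 0 := by omega
        have h2 : 2 ≤ i := by omega
        simp [h0, h2])
    (by norm_num) (by linarith) (by unfold mu; linarith) (by unfold mu; linarith)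
    (by unfold mu; linarith) (by unfold mu; linarith)
  refine le_trans (le_of_eq ?_) key
  rw [card_eq_sum_ones, Nat.cast_sum]
  refine sum_congr rfl fun w hw => ?_
  obtain ⟨-, s1, s2⟩ := mem_filter.1 hw
  rw [prod_eq_one, Nat.cast_one]
  intro y _
  rw [if_neg]
  rintro ⟨h | h, h0⟩
  · have := ltwo_back s1 h
    omega
  · have := ltwo_back s2 h
    omega

theorem ltwo_opp {β : ℕ} (hβ : 2 ≤ β) (k : ℕ) {c₁ c₂ : ℕ} (hc₁ : 1 ≤ c₁) (hc₂ : 1 ≤ c₂) :
    (((W (β + 1) k).filter fun w => Sup (-(c₁ : ℤ)) 1 2 w ∧ Sup (c₂ : ℤ) 1 2 w).card : ℝ) ≤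
      mu β ^ k := by
  have hb : (2 : ℝ) ≤ β := by exact_mod_cast hβ
  obtain ⟨i1, i2, i3, i4, i5, i6, i7, i8⟩ := ltwo_ineq hb
  refine card_pot3 (filter_subset _ _) (fun h => (2 ≤ h c₁ → 1 ≤ h 0) ∧ (2 ≤ h 0 → 1 ≤ h c₂))
    (fun h => if 2 ≤ h 0 then (β : ℝ) / (β + 1) else 1) (fun h => if 1 ≤ h 0 then 3 / 2 else 1)
    (fun _ => 1) hc₁ hc₂ le_rfl (mu β) (fun w hw y => ?_)
    (fun h => by split_ifs <;> linarith) (fun h => by split_ifs <;> norm_num)
    (fun _ => one_pos) (by simp) (by simp) rfl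
    (fun w hw y hy => ?_) (fun w hw y hy => by split_ifs <;> norm_num)
    (fun _ _ _ _ => le_rfl) (fun h => ?_)
  · obtain ⟨-, s1, s2⟩ := mem_filter.1 hw
    exact ⟨fun h => ltwo_back s1 h, fun h => ltwo_fwd s2 h⟩
  · have : ¬ 2 ≤ w y := not_le.2 (ltwo_low (mem_filter.1 hw).2.1 hy)
    simp [this]
  · have n1 : c₁ ≠ 0 := by omega
    have n2 : c₂ ≠ 0 := by omega
    simp only [update_self, update_of_ne n1, update_of_ne n2, sh_apply, add_zero, mul_one]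
    rw [sum3 (a := 1) (by omega) _ (A := if 2 ≤ h c₁ then 0 else 1) (B := 3 / 2)
      (C := if 1 ≤ h c₂ then (β : ℝ) / (β + 1) * (3 / 2) else 0)]
    · unfold mu
      split_ifs <;> push_cast <;> linarith
    · intro i hi
      have : i = 0 := by omega
      subst this
      by_cases hp : 2 ≤ h c₁ <;> simp [hp]
    · simp
    · intro i hi
      have h1 : 1 ≤ i := by omega
      have h2 : 2 ≤ i := by omega
      by_cases hp : 1 ≤ h c₂ <;> simp [hp, h1, h2]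

theorem ltwo_comm {b k : ℕ} {c c' : ℤ} :
    ((W b k).filter fun w => Sup c 1 2 w ∧ Sup c' 1 2 w) =
      (W b k).filter fun w => Sup c' 1 2 w ∧ Sup c 1 2 w := by
  simp only [and_comm]

theorem ltwo_neg' {β : ℕ} (hβ : 2 ≤ β) (k : ℕ) {c c' : ℤ} (hc : c < 0) (hc' : c' ≠ 0)
    (hne : c ≠ c') :
    (((W (β + 1) k).filter fun w => Sup c 1 2 w ∧ Sup c' 1 2 w).card : ℝ) ≤ mu β ^ k := by
  obtain ⟨c₁, rfl⟩ : ∃ c₁ : ℕ, c = -(c₁ : ℤ) := ⟨c.natAbs, by omega⟩
  rcases lt_or_gt_of_ne hc' with h | h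
  · obtain ⟨c₂, rfl⟩ : ∃ c₂ : ℕ, c' = -(c₂ : ℤ) := ⟨c'.natAbs, by omega⟩
    rcases lt_or_gt_of_ne hne with h' | h'
    · rw [ltwo_comm]
      exact ltwo_neg hβ k (by omega) (by omega)
    · exact ltwo_neg hβ k (by omega) (by omega)
  · obtain ⟨c₂, rfl⟩ : ∃ c₂ : ℕ, c' = (c₂ : ℤ) := ⟨c'.natAbs, by omega⟩
    exact ltwo_opp hβ k (by omega) (by omega)

theorem card_two {β : ℕ} (hβ : 2 ≤ β) (k : ℕ) {c c' : ℤ} (hc : c ≠ 0) (hc' : c' ≠ 0)
    (hne : c ≠ c') :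
    (((W (β + 1) k).filter fun w => Sup c 1 2 w ∧ Sup c' 1 2 w).card : ℝ) ≤ mu β ^ k := by
  rcases lt_or_gt_of_ne hc with h | h
  · exact ltwo_neg' hβ k h hc' hne
  · refine le_trans ?_ (ltwo_neg' hβ k (c := -c) (c' := -c') (by omega) (by omega) (by omega))
    have := card_le_of_rev (b := β + 1) (k := k) (p := fun w => Sup c 1 2 w ∧ Sup c' 1 2 w)
      (q := fun w => Sup (-c) 1 2 w ∧ Sup (-c') 1 2 w) fun w hw hp =>
      ⟨hp.1.rev hw le_rfl (by norm_num), hp.2.rev hw le_rfl (by norm_num)⟩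
    rw [Nat.cast_le]
    convert this

theorem ltwo_mid {β a : ℕ} (ha : 2 ≤ a) (haβ : a + 2 ≤ β) (k : ℕ) {c : ℤ} (hc : c < 0) :
    (((W (β + 1) k).filter fun w => Sup c a (a + 1) w).card : ℝ) ≤ mu β ^ k := by
  obtain ⟨c₁, rfl⟩ : ∃ c₁ : ℕ, c = -(c₁ : ℤ) := ⟨c.natAbs, by omega⟩
  have hc₁ : 1 ≤ c₁ := by omega
  have hA : (2 : ℝ) ≤ a := by exact_mod_cast ha
  have hB : (a : ℝ) + 2 ≤ β := by exact_mod_cast haβ
  have hA0 : (0 : ℝ) < a := by linarith
  have hmu := le_mu β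
  refine card_pot3 (filter_subset _ _) (fun h => a + 1 ≤ h c₁ → a ≤ h 0)
    (fun h => if a + 1 ≤ h 0 then 1 / (a : ℝ) else 1) (fun _ => 1)
    (fun _ => 1) hc₁ le_rfl le_rfl (mu β) (fun w hw y => ?_)
    (fun h => by split_ifs <;> positivity) (fun _ => one_pos)
    (fun _ => one_pos) (by simp) rfl rfl
    (fun w hw y hy => ?_) (fun _ _ _ _ => le_rfl)
    (fun _ _ _ _ => le_rfl) (fun h => ?_)
  · exact fun h => ltwo_back (mem_filter.1 hw).2 h
  · have : ¬ a + 1 ≤ w y := not_le.2 (ltwo_low (mem_filter.1 hw).2 hy)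
    simp only [sh_apply, add_zero, if_neg this, le_refl]
  · have n1 : c₁ ≠ 0 := by omega
    simp only [update_self, update_of_ne n1, sh_apply, add_zero, mul_one]
    rw [sum3 (a := a) (by omega) _ (A := if a + 1 ≤ h c₁ then 0 else 1) (B := 1)
      (C := 1 / (a : ℝ))]
    · have e : (1 : ℝ) + (β - a) * (1 / a) = β * (1 / a) := by
        field_simp
        ring
      have e2 : ((β : ℝ) - a) * (1 / a) ≤ (β - a) * (1 / 2) :=
        mul_le_mul_of_nonneg_left (one_div_le_one_div_of_le (by norm_num) hA) (by linarith)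
      have e3 : (β : ℝ) * (1 / a) ≤ mu β * (1 / a) :=
        mul_le_mul_of_nonneg_right hmu (by positivity)
      split_ifs <;> linarith
    · intro i hi
      have h1 : ¬ a ≤ i := by omega
      have h2 : ¬ a + 1 ≤ i := by omega
      rw [if_neg h2, mul_one]
      by_cases hp : a + 1 ≤ h c₁
      · rw [if_pos hp, if_neg fun hh => h1 (hh hp)]
      · rw [if_neg hp, if_pos fun hh => absurd hh hp]
    · rw [if_pos fun _ => le_rfl, if_neg (by omega), mul_one]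
    · intro i hi
      have h1 : a ≤ i := by omega
      have h2 : a + 1 ≤ i := by omega
      rw [if_pos fun _ => h1, if_pos h2, one_mul]

theorem card_mid {β a : ℕ} (ha : 2 ≤ a) (haβ : a + 2 ≤ β) (k : ℕ) {c : ℤ} (hc : c ≠ 0) :
    (((W (β + 1) k).filter fun w => Sup c a (a + 1) w).card : ℝ) ≤ mu β ^ k := by
  rcases lt_or_gt_of_ne hc with h | h
  · exact ltwo_mid ha haβ k h
  · refine le_trans ?_ (ltwo_mid ha haβ k (c := -c) (by omega))
    have := card_le_of_rev (b := β + 1) (k := k) (p := fun w => Sup c a (a + 1) w)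
      (q := fun w => Sup (-c) a (a + 1) w) fun w hw hp => hp.rev hw (by omega) (by omega)
    rw [Nat.cast_le]
    convert this

end Pool.Agent.Lib.MP_1d41ea_nt.L
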