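import Pool.Agent.Lib.MP_1d41ea_nt.LBad
import Pool.Agent.Lib.MP_1d41ea_nt.LStruct
import Pool.Agent.Lib.MP_1d41ea_nt.LCount
import Pool.Agent.Lib.MP_1d41ea_nt.LAsym
import Pool.Agent.Lib.MP_1d41ea_nt.LTwo

/-!
The number of reducible words with nonzero end digits.
-/

set_option autoImplicit false

open Finset Function Filter

namespace Pool.Agent.Lib.MP_1d41ea_nt.L

open Classical

theorem fin_sum_Off (g : ℤ → ℝ) : ∀ k : ℕ,
    ∑ c ∈ Off k, g c = ∑ d ∈ range k, (g ((d + 1 : ℕ) : ℤ) + g (-((d + 1 : ℕ) : ℤ)))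
  | 0 => by simp [Off]
  | k + 1 => by
    have e : Off (k + 1) = insert ((k + 1 : ℕ) : ℤ) (insert (-((k + 1 : ℕ) : ℤ)) (Off k)) := by
      ext c
      simp only [Off, mem_erase, mem_Icc, mem_insert]
      omega
    rw [e, sum_insert, sum_insert, sum_range_succ, fin_sum_Off g k]
    · ring
    · simp only [Off, mem_erase, mem_Icc]
      omega
    · simp only [Off, mem_erase, mem_Icc, mem_insert]
      omega

theorem fin_card_Off (k : ℕ) : ((Off k).card : ℝ) = 2 * k := by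
  have := fin_sum_Off (fun _ => 1) k
  simp only [sum_const, card_range, nsmul_eq_mul, mul_one] at this
  rw [this]
  ring

theorem fin_H_div (β : ℕ) (hβ : 1 ≤ β) {d : ℕ} (hd : 1 ≤ d) (k : ℕ) (lam : ℝ) :
    ((H β k d).card : ℝ) / lam ^ k =
      ∏ j ∈ range d, (vec β ((k + j) / d)).1 / lam ^ ((k + j) / d) := by
  rw [prod_div_distrib, prod_pow_eq_pow_sum, sum_div_eq hd, card_H β hβ hd]

theorem fin_H_tendsto {β : ℕ} (hβ : 1 ≤ β) {d : ℕ} (hd : 1 ≤ d) {lam c : ℝ}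
    (hc : Tendsto (fun L => (vec β L).1 / lam ^ L) atTop (nhds c)) :
    Tendsto (fun k => ((H β k d).card : ℝ) / lam ^ k) atTop (nhds (c ^ d)) := by
  simp only [fin_H_div β hβ hd]
  have : c ^ d = ∏ _j ∈ range d, c := by simp
  rw [this]
  refine tendsto_finset_prod _ fun j _ => hc.comp ?_
  exact (Nat.tendsto_div_const_atTop (by omega)).comp (tendsto_add_atTop_nat j)

theorem fin_F_tendsto {β : ℕ} (hβ : 1 ≤ β) {d : ℕ} (hd : 1 ≤ d) {lam c : ℝ} (hl : lam ≠ 0)
    (hc : Tendsto (fun L => (vec β L).1 / lam ^ L) atTop (nhds c)) :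
    Tendsto (fun k => ((F β (k + 2) d).card : ℝ) / lam ^ (k + 2)) atTop
      (nhds ((1 - 1 / lam) ^ 2 * c ^ d)) := by
  have h0 := fin_H_tendsto hβ hd hc
  have h1 := h0.comp (tendsto_add_atTop_nat 1)
  have h2 := h0.comp (tendsto_add_atTop_nat 2)
  have h := (h2.sub (h1.const_mul (2 / lam))).add (h0.const_mul (1 / lam ^ 2))
  have e : (1 - 1 / lam) ^ 2 * c ^ d = c ^ d - 2 / lam * c ^ d + 1 / lam ^ 2 * c ^ d := by
    field_simp
    ring
  rw [e]
  refine h.congr fun k => ?_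
  simp only [comp, card_F β hd]
  field_simp
  ring

theorem fin_F_le {β : ℕ} (hβ : 1 ≤ β) {d k : ℕ} (hd : 1 ≤ d) (hk : d ≤ k) {lam θ : ℝ}
    (hl : 0 < lam) (hθ : ∀ L, 1 ≤ L → (vec β L).1 ≤ θ * lam ^ L) :
    ((F β k d).card : ℝ) / lam ^ k ≤ θ ^ d := by
  have h1 : ((F β k d).card : ℝ) ≤ (H β k d).card := by exact_mod_cast card_F_le β k d
  refine (div_le_div_of_nonneg_right h1 (by positivity)).trans ?_
  rw [fin_H_div β hβ hd]
  calc _ ≤ ∏ _j ∈ range d, θ := by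
        refine prod_le_prod (fun j _ => div_nonneg (vec_nonneg β _).1 (by positivity))
          fun j _ => ?_
        rw [div_le_iff₀ (by positivity)]
        exact hθ _ ((Nat.le_div_iff_mul_le (by omega)).2 (by omega))
    _ = θ ^ d := by simp

theorem fin_T_tendsto {β : ℕ} (hβ : 1 ≤ β) {lam c θ : ℝ} (hl : 0 < lam) (hc0 : 0 ≤ c)
    (hc1 : c < 1) (hc : Tendsto (fun L => (vec β L).1 / lam ^ L) atTop (nhds c))
    (h0 : 0 ≤ θ) (h1 : θ < 1) (hθ : ∀ L, 1 ≤ L → (vec β L).1 ≤ θ * lam ^ L) :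
    Tendsto (fun k => (∑ c ∈ Off k, ((F β (k + 2) c).card : ℝ)) / lam ^ (k + 2)) atTop
      (nhds (2 * ((1 - 1 / lam) ^ 2 * (c / (1 - c))))) := by
  have hs : Summable fun d : ℕ => θ ^ (d + 1) :=
    (summable_nat_add_iff 1).2 (summable_geometric_of_lt_one h0 h1)
  have key := tendsto_tsum_of_dominated_convergence (𝓕 := atTop)
    (f := fun (k d : ℕ) => if d < k then
      ((F β (k + 2) ((d + 1 : ℕ) : ℤ)).card : ℝ) / lam ^ (k + 2) else 0)
    (g := fun d => (1 - 1 / lam) ^ 2 * c ^ (d + 1)) hs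
    (fun d => (fin_F_tendsto hβ (d := d + 1) (by omega) hl.ne' hc).congr' (by
      filter_upwards [eventually_gt_atTop d] with k hk
      rw [if_pos hk]))
    (Eventually.of_forall fun k d => by
      split_ifs with h
      · rw [Real.norm_of_nonneg (by positivity)]
        exact fin_F_le hβ (by omega) (by omega) hl hθ
      · rw [norm_zero]
        positivity)
  have e : ∑' d : ℕ, (1 - 1 / lam) ^ 2 * c ^ (d + 1) = (1 - 1 / lam) ^ 2 * (c / (1 - c)) := by
    rw [tsum_mul_left]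
    simp only [pow_succ, tsum_mul_right, tsum_geometric_of_lt_one hc0 hc1]
    rw [inv_mul_eq_div]
  rw [e] at key
  refine (key.const_mul 2).congr fun k => ?_
  rw [tsum_eq_sum (s := range k) fun d hd => if_neg (by simpa using hd), fin_sum_Off, sum_div,
    mul_sum]
  refine sum_congr rfl fun d hd => ?_
  rw [if_pos (mem_range.1 hd), card_F_neg]
  ring

theorem fin_err {β : ℕ} (hβ : 2 ≤ β) (k : ℕ) :
    |((R β (k + 2)).card : ℝ) - ∑ c ∈ Off k, ((F β (k + 2) c).card : ℝ)| ≤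
      (12 + 2 * β) * (((((k + 2 : ℕ) : ℝ)) + 1) ^ (4 * adv (k + 2)) * mu β ^ (k + 2)) := by
  have hμ : 0 ≤ mu β := (Nat.cast_nonneg β).trans (le_mu β)
  have hb := card_bad hβ (adv_pos (k + 2)) (adv_sq (k + 2))
  have hup : ((R β (k + 2)).card : ℝ) ≤ ∑ c ∈ Off k, ((F β (k + 2) c).card : ℝ) +
      ((W (β + 1) (k + 2)).filter (Bad β (k + 2) (adv (k + 2)))).card := by
    have hs : R β (k + 2) ⊆ (Off k).biUnion (F β (k + 2)) ∪
        (W (β + 1) (k + 2)).filter (Bad β (k + 2) (adv (k + 2))) := fun w hw => by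
      rcases red_cases (m := adv (k + 2)) hβ hw with ⟨c, hc, h⟩ | h
      · exact mem_union_left _ (mem_biUnion.2 ⟨c, hc, h⟩)
      · exact mem_union_right _ (mem_filter.2 ⟨(mem_filter.1 hw).1, h⟩)
    exact_mod_cast (card_le_card hs).trans ((card_union_le _ _).trans
      (Nat.add_le_add_right card_biUnion_le _))
  have hlo := sum_card_le (Off k) (F β (k + 2)) (pow_nonneg hμ (k + 2)) fun c hc c' hc' hne => by
    refine le_trans ?_ (card_two hβ (k + 2) (mem_erase.1 hc).1 (mem_erase.1 hc').1 hne)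
    refine Nat.cast_le.2 (card_le_card fun w hw => ?_)
    obtain ⟨h1, h2⟩ := mem_inter.1 hw
    exact mem_filter.2 ⟨(mem_filter.1 h1).1, (mem_filter.1 h1).2.2.2.1, (mem_filter.1 h2).2.2.2.1⟩
  have hsub : (((Off k).biUnion (F β (k + 2))).card : ℝ) ≤ (R β (k + 2)).card :=
    Nat.cast_le.2 (card_le_card (biUnion_subset.2 fun c hc => F_subset_R hβ hc))
  have hk : ((Off k).card : ℝ) ^ 2 ≤
      (12 + 2 * β) * (((k + 2 : ℕ) : ℝ) + 1) ^ (4 * adv (k + 2)) := by
    have h1 : (((k + 2 : ℕ) : ℝ) + 1) ^ 2 ≤ (((k + 2 : ℕ) : ℝ) + 1) ^ (4 * adv (k + 2)) :=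
      pow_le_pow_right₀ (by linarith [Nat.cast_nonneg (α := ℝ) (k + 2)])
        (by have := adv_pos (k + 2); omega)
    have h2 : (0 : ℝ) ≤ β * (((k + 2 : ℕ) : ℝ) + 1) ^ (4 * adv (k + 2)) := by positivity
    have h3 : (0 : ℝ) ≤ k := Nat.cast_nonneg k
    rw [fin_card_Off]
    push_cast at h1 h2 ⊢
    nlinarith
  have hk' := mul_le_mul_of_nonneg_right hk (pow_nonneg hμ (k + 2))
  rw [abs_le]
  constructor <;> linarith

theorem R_tendsto {β : ℕ} (hβ : 2 ≤ β) {lam : ℝ} (h1 : mu β < lam) (h2 : lam < β + 1)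
    (h3 : lam * (lam - 1) * (lam - β) = β) :
    Tendsto (fun k => ((R β k).card : ℝ) / lam ^ k) atTop
      (nhds (2 * (lam - 1) ^ 2 * (lam ^ 2 + β) / (β * lam ^ 2 * (lam ^ 2 - 2 * lam + 2)))) := by
  have hβ' : (2 : ℝ) ≤ β := by exact_mod_cast hβ
  have h0 : (β : ℝ) < lam := (le_mu β).trans_lt h1
  have hl : 0 < lam := by linarith
  have hμ : 0 ≤ mu β := (Nat.cast_nonneg β).trans (le_mu β)
  obtain ⟨θ, t0, t1, hθ⟩ := vec_le hβ h0 h2 h3
  have hq : 0 < lam ^ 2 - 2 * lam + 2 := by nlinarith [sq_nonneg (lam - 1)]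
  have hn : 0 < lam ^ 2 + β := by positivity
  have hbq : 0 < β * (lam ^ 2 - 2 * lam + 2) := by positivity
  have hT := fin_T_tendsto (by omega) hl (div_pos hn (by linarith)).le
    ((div_lt_one (by linarith)).2 (by linarith)) (vec_tendsto hβ h0 h2 h3) t0 t1 hθ
  have hE := ((adv_tendsto (div_nonneg hμ hl.le) ((div_lt_one hl).2 h1)).comp
    (tendsto_add_atTop_nat 2)).const_mul (12 + 2 * (β : ℝ))
  rw [mul_zero] at hE
  have hD : Tendsto (fun k => (((R β (k + 2)).card : ℝ) -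
      ∑ c ∈ Off k, ((F β (k + 2) c).card : ℝ)) / lam ^ (k + 2)) atTop (nhds 0) := by
    refine squeeze_zero_norm (fun k => ?_) hE
    rw [Real.norm_eq_abs, abs_div, abs_of_pos (pow_pos hl _), div_le_iff₀ (pow_pos hl _)]
    refine (fin_err hβ k).trans (le_of_eq ?_)
    simp only [comp, div_pow]
    field_simp
  rw [← tendsto_add_atTop_iff_nat 2]
  have h := hD.add hT
  rw [zero_add] at h
  convert h using 2
  · ring
  · have e : 1 - (lam ^ 2 + β) / (lam ^ 2 + β + β * (lam ^ 2 - 2 * lam + 2)) =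
        β * (lam ^ 2 - 2 * lam + 2) / (lam ^ 2 + β + β * (lam ^ 2 - 2 * lam + 2)) := by
      rw [one_sub_div (by linarith), add_sub_cancel_left]
    rw [e, div_div_div_cancel_right₀ (by linarith)]
    have : (β : ℝ) ≠ 0 := by linarith
    field_simp

end Pool.Agent.Lib.MP_1d41ea_nt.L
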