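import Pool.Agent.Lib.MP_1d41ea_nt.LBasic

/-!
From numbers to words.
-/

set_option autoImplicit false

open Finset Function

namespace Pool.Agent.Lib.MP_1d41ea_nt.L

open Classical

/-- the digit word of `n` in base `b` -/
def numDig (b n : ℕ) : ℕ → ℕ := fun i => n / b ^ i % b

theorem num_dig_cons {b : ℕ} (n : ℕ) : numDig b n = cons (n % b) (numDig b (n / b)) := by
  funext i
  cases i with
  | zero => simp [numDig]
  | succ i => simp [numDig, Nat.div_div_eq_div_mul, pow_succ']

theorem num_dig_le (β n i : ℕ) : numDig (β + 1) n i ≤ β :=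
  Nat.lt_succ_iff.1 (Nat.mod_lt _ (Nat.succ_pos β))

theorem num_dig_inj {b : ℕ} (hb : 2 ≤ b) : ∀ n m : ℕ, numDig b n = numDig b m → n = m := by
  intro n
  induction n using Nat.strong_induction_on with
  | _ n ih =>
    intro m h
    rw [num_dig_cons n, num_dig_cons m] at h
    have h0 : n % b = m % b := congrFun h 0
    have h1 : numDig b (n / b) = numDig b (m / b) := funext fun i => congrFun h (i + 1)
    rcases Nat.eq_zero_or_pos n with rfl | hn
    · by_contra hm
      have hm0 : m ≠ 0 := fun e => hm e.symm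
      have h2 : numDig b 0 = numDig b m := by
        rw [num_dig_cons 0, num_dig_cons m, h0, h1]
      have h3 := congrFun h2 (Nat.log b m)
      have h4 : b ^ Nat.log b m ≤ m := Nat.pow_log_le_self b hm0
      have h5 : m < b ^ (Nat.log b m + 1) := Nat.lt_pow_succ_log_self (by omega) m
      have h6 : m / b ^ Nat.log b m < b := by
        rw [Nat.div_lt_iff_lt_mul (by positivity), ← pow_succ']
        exact h5
      have h7 : 0 < m / b ^ Nat.log b m := Nat.div_pos h4 (by positivity)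
      simp only [numDig, Nat.zero_div, Nat.zero_mod, Nat.mod_eq_of_lt h6] at h3
      omega
    · have h2 := ih (n / b) (Nat.div_lt_self hn (by omega)) (m / b) h1
      rw [← Nat.div_add_mod n b, ← Nat.div_add_mod m b, h0, h2]

theorem num_dig_mem {b K n : ℕ} (hb : 2 ≤ b) (h : n < b ^ K) : numDig b n ∈ W b K := by
  refine mem_W.2 ⟨fun i _ => Nat.mod_lt _ (by omega), fun i hi => ?_⟩
  have : n < b ^ i := h.trans_le (Nat.pow_le_pow_right (by omega) hi)
  simp [numDig, Nat.div_eq_of_lt this]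

theorem num_dig_image {b : ℕ} (hb : 2 ≤ b) (K : ℕ) : (range (b ^ K)).image (numDig b) = W b K := by
  apply eq_of_subset_of_card_le
  · intro w hw
    obtain ⟨n, hn, rfl⟩ := mem_image.1 hw
    exact num_dig_mem hb (mem_range.1 hn)
  · rw [card_image_of_injective _ (fun n m h => num_dig_inj hb n m h), card_range, card_W]

theorem num_dig_surj {b K : ℕ} (hb : 2 ≤ b) {w : ℕ → ℕ} (hw : w ∈ W b K) :
    ∃ n, n < b ^ K ∧ numDig b n = w := by
  rw [← num_dig_image hb] at hw
  obtain ⟨n, hn, rfl⟩ := mem_image.1 hw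
  exact ⟨n, mem_range.1 hn, rfl⟩

theorem num_dig_small {b a : ℕ} (h : a < b) : numDig b a = cons a 0 := by
  rw [num_dig_cons, Nat.mod_eq_of_lt h, Nat.div_eq_of_lt h]
  congr 1
  funext i
  simp [numDig]

theorem num_dig_unit {β : ℕ} (hβ : 1 ≤ β) (a : ℕ) : numDig (β + 1) a = unit β ↔ a = β := by
  have e : numDig (β + 1) β = unit β := num_dig_small (Nat.lt_succ_self β)
  constructor
  · intro h
    exact num_dig_inj (by omega) _ _ (h.trans e.symm)
  · rintro rfl
    exact e

theorem num_isProd_iff (w P Q : ℕ → ℕ) :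
    (∀ m, w m = (range (m + 1)).sup fun i => min (P i) (Q (m - i))) ↔ IsProd w P Q := by
  constructor
  · intro h
    refine ⟨fun i j => ?_, fun m => ?_⟩
    · rw [h (i + j)]
      have := Finset.le_sup (f := fun t => min (P t) (Q (i + j - t)))
        (mem_range.2 (by omega : i < i + j + 1))
      simpa using this
    · obtain ⟨i, hi, e⟩ := Finset.exists_mem_eq_sup (range (m + 1)) nonempty_range_add_one
        (fun i => min (P i) (Q (m - i)))
      exact ⟨i, m - i, by have := mem_range.1 hi; omega, by rw [h m, e]⟩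
  · rintro ⟨h1, h2⟩ m
    apply le_antisymm
    · obtain ⟨i, j, rfl, h⟩ := h2 m
      have := Finset.le_sup (f := fun t => min (P t) (Q (i + j - t)))
        (mem_range.2 (by omega : i < i + j + 1))
      refine h.trans ?_
      simpa using this
    · refine Finset.sup_le fun i hi => ?_
      have := h1 i (m - i)
      rwa [show i + (m - i) = m by have := mem_range.1 hi; omega] at this

theorem num_top {b K n : ℕ} (hb : 2 ≤ b) (h : n < b ^ (K + 1)) :
    1 ≤ numDig b n K ↔ b ^ K ≤ n := by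
  have h6 : n / b ^ K < b := by
    rw [Nat.div_lt_iff_lt_mul (by positivity), ← pow_succ']
    exact h
  simp only [numDig, Nat.mod_eq_of_lt h6]
  rw [Nat.le_div_iff_mul_le (by positivity), one_mul]

/-- a word with last digit zero is a shift -/
theorem num_shift {β n : ℕ} (h0 : numDig (β + 1) n 0 = 0) :
    IsProd (numDig (β + 1) n) (numDig (β + 1) (β * (β + 1))) (numDig (β + 1) (n / (β + 1))) := by
  have e1 : numDig (β + 1) (β * (β + 1)) = cons 0 (cons β 0) := by
    rw [num_dig_cons, Nat.mul_mod_left, Nat.mul_div_cancel _ (Nat.succ_pos β),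
      num_dig_small (Nat.lt_succ_self β)]
  have e2 : ∀ j, numDig (β + 1) n (j + 1) = numDig (β + 1) (n / (β + 1)) j := by
    intro j
    rw [num_dig_cons n]
    rfl
  rw [e1]
  refine ⟨fun i j => ?_, fun m => ?_⟩
  · rcases i with _ | _ | i
    · simp
    · rw [show 0 + 1 + j = j + 1 by omega, e2]
      exact min_le_right _ _
    · simp
  · rcases m with _ | m
    · exact ⟨0, 0, rfl, by rw [h0]; exact Nat.zero_le _⟩
    · refine ⟨1, m, by omega, ?_⟩
      rw [e2]
      exact le_min (num_dig_le _ _ _) le_rfl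

theorem num_red {β K : ℕ} (hβ : 1 ≤ β) {w : ℕ → ℕ} (hw : w ∈ W (β + 1) K) (h0 : 1 ≤ w 0)
    (h : Red β w) : ∃ a c, a ≠ β ∧ c ≠ β ∧ IsProd w (numDig (β + 1) a) (numDig (β + 1) c) := by
  obtain ⟨P, Q, hP, hQ, nP, nQ, h1, h2⟩ := h
  obtain ⟨i, j, hij, h3⟩ := h2 0
  obtain rfl : i = 0 := by omega
  obtain rfl : j = 0 := by omega
  have hP0 : 1 ≤ P 0 := h0.trans (h3.trans (min_le_left _ _))
  have hQ0 : 1 ≤ Q 0 := h0.trans (h3.trans (min_le_right _ _))
  have mP : P ∈ W (β + 1) K := by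
    refine mem_W.2 ⟨fun i _ => Nat.lt_succ_of_le (hP i), fun i hi => ?_⟩
    have h4 := h1 i 0
    rw [(mem_W.1 hw).2 _ (by omega)] at h4
    omega
  have mQ : Q ∈ W (β + 1) K := by
    refine mem_W.2 ⟨fun i _ => Nat.lt_succ_of_le (hQ i), fun i hi => ?_⟩
    have h4 := h1 0 i
    rw [(mem_W.1 hw).2 _ (by omega)] at h4
    omega
  obtain ⟨a, -, rfl⟩ := num_dig_surj (by omega) mP
  obtain ⟨c, -, rfl⟩ := num_dig_surj (by omega) mQ
  exact ⟨a, c, fun e => nP ((num_dig_unit hβ a).2 e), fun e => nQ ((num_dig_unit hβ c).2 e),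
    h1, h2⟩

theorem num_sum_pos (β : ℕ) : ∑ a ∈ range (β + 1), (if 1 ≤ a then 1 else 0) = β := by
  rw [sum_range_succ']
  simp

theorem num_card_last (β : ℕ) : ∀ j : ℕ,
    ((W (β + 1) (j + 1)).filter fun w => 1 ≤ w j).card = β * (β + 1) ^ j
  | 0 => by
    rw [card_filter, sum_W_succ]
    have e : ∀ h : ℕ → ℕ, ∑ a ∈ range (β + 1), (if 1 ≤ cons a h 0 then 1 else 0) = β :=
      fun h => num_sum_pos β
    rw [sum_congr rfl fun h _ => e h]
    simp [W]
  | j + 1 => by
    have ih := num_card_last β j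
    rw [card_filter] at ih
    rw [card_filter, sum_W_succ]
    have e : ∀ h : ℕ → ℕ, ∑ a ∈ range (β + 1), (if 1 ≤ cons a h (j + 1) then 1 else 0) =
        (β + 1) * (if 1 ≤ h j then 1 else 0) := by
      intro h
      by_cases hh : 1 ≤ h j
      · simp [hh]
      · simp [hh]
    rw [sum_congr rfl fun h _ => e h, ← mul_sum, ih]
    ring

theorem num_card_ends (β j : ℕ) :
    ((W (β + 1) (j + 2)).filter fun w => 1 ≤ w 0 ∧ 1 ≤ w (j + 1)).card =
      β ^ 2 * (β + 1) ^ j := by
  have ih := num_card_last β j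
  rw [card_filter] at ih
  rw [card_filter, sum_W_succ]
  have e : ∀ h : ℕ → ℕ, ∑ a ∈ range (β + 1),
      (if 1 ≤ cons a h 0 ∧ 1 ≤ cons a h (j + 1) then 1 else 0) =
        β * (if 1 ≤ h j then 1 else 0) := by
    intro h
    by_cases hh : 1 ≤ h j
    · simp only [cons_zero, cons_succ, hh, and_true, num_sum_pos, if_true, mul_one]
    · simp [hh]
  rw [sum_congr rfl fun h _ => e h, ← mul_sum, ih]
  ring

theorem card_primes {β : ℕ} (hβ : 1 ≤ β) (k : ℕ) :
    (({n : ℕ | (β + 1) ^ (k + 3 - 1) ≤ n ∧ n < (β + 1) ^ (k + 3) ∧ n ≠ β + 1 - 1 ∧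
        ∀ a c : ℕ,
          (∀ m : ℕ, n / (β + 1) ^ m % (β + 1) =
            (Finset.range (m + 1)).sup
              (fun i => min (a / (β + 1) ^ i % (β + 1)) (c / (β + 1) ^ (m - i) % (β + 1)))) →
          a = β + 1 - 1 ∨ c = β + 1 - 1} : Set ℕ).ncard : ℝ) =
      (β : ℝ) ^ 2 * ((β : ℝ) + 1) ^ (k + 1) - (R β (k + 3)).card := by
  have hb : 2 ≤ β + 1 := by omega
  set E : Finset (ℕ → ℕ) :=
    (W (β + 1) (k + 3)).filter fun w => 1 ≤ w 0 ∧ 1 ≤ w (k + 2) with hE
  have hR : R β (k + 3) = E.filter (Red β) := by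
    ext w
    simp only [R, hE, mem_filter, show k + 3 - 1 = k + 2 from rfl, and_assoc]
  have himg : numDig (β + 1) '' {n : ℕ | (β + 1) ^ (k + 3 - 1) ≤ n ∧ n < (β + 1) ^ (k + 3) ∧
      n ≠ β + 1 - 1 ∧ ∀ a c : ℕ,
          (∀ m : ℕ, n / (β + 1) ^ m % (β + 1) =
            (Finset.range (m + 1)).sup
              (fun i => min (a / (β + 1) ^ i % (β + 1)) (c / (β + 1) ^ (m - i) % (β + 1)))) →
          a = β + 1 - 1 ∨ c = β + 1 - 1} = ↑(E.filter fun w => ¬ Red β w) := by
    ext w
    simp only [Set.mem_image, Set.mem_ofPred_eq, hE, coe_filter, mem_filter,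
      show k + 3 - 1 = k + 2 from rfl, Nat.add_sub_cancel]
    constructor
    · rintro ⟨n, ⟨h1, h2, -, h4⟩, rfl⟩
      have h5 : ∀ a c, IsProd (numDig (β + 1) n) (numDig (β + 1) a) (numDig (β + 1) c) →
          a = β ∨ c = β := fun a c h => h4 a c ((num_isProd_iff _ _ _).2 h)
      have h0 : 1 ≤ numDig (β + 1) n 0 := by
        by_contra h0
        rcases h5 _ _ (num_shift (by omega)) with e | e
        · nlinarith
        · have h6 : (β + 1) ^ (k + 1) ≤ n / (β + 1) := by
            rw [Nat.le_div_iff_mul_le (by omega), ← pow_succ]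
            exact h1
          have h7 : β + 1 ≤ (β + 1) ^ (k + 1) := Nat.le_self_pow (by omega) _
          omega
      refine ⟨⟨num_dig_mem hb h2, h0, (num_top hb h2).2 h1⟩, fun hr => ?_⟩
      obtain ⟨a, c, ha, hc, h⟩ := num_red hβ (num_dig_mem hb h2) h0 hr
      rcases h5 a c h with e | e
      · exact ha e
      · exact hc e
    · rintro ⟨⟨hw, -, h1⟩, hr⟩
      obtain ⟨n, hn, rfl⟩ := num_dig_surj hb hw
      have h2 := (num_top hb hn).1 h1
      refine ⟨n, ⟨h2, hn, ?_, fun a c h => ?_⟩, rfl⟩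
      · have h7 : β + 1 ≤ (β + 1) ^ (k + 2) := Nat.le_self_pow (by omega) _
        omega
      · by_contra hne
        rw [not_or] at hne
        exact hr ⟨numDig (β + 1) a, numDig (β + 1) c, num_dig_le _ _, num_dig_le _ _,
          fun e => hne.1 ((num_dig_unit hβ a).1 e), fun e => hne.2 ((num_dig_unit hβ c).1 e),
          (num_isProd_iff _ _ _).1 h⟩
  rw [← Set.ncard_image_of_injective _ (fun n m h => num_dig_inj hb n m h), himg,
    Set.ncard_coe_finset, hR]
  have h1 := card_filter_add_card_filter_not (s := E) (Red β)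
  have h2 : E.card = β ^ 2 * (β + 1) ^ (k + 1) := num_card_ends β (k + 1)
  rw [h2] at h1
  have h3 := congrArg (Nat.cast : ℕ → ℝ) h1
  push_cast at h3
  linarith

end Pool.Agent.Lib.MP_1d41ea_nt.L
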