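import Mathlib
import Pool.Agent.Lib.MP_1d41ea_nt.LFinal
import Pool.Agent.Lib.MP_1d41ea_nt.LNum

set_option autoImplicit false

namespace Pool.Agent.Lib.MP_1d41ea_nt.L

open Filter

/-- For every base `b ≥ 3` the number of `k`-digit lunar primes is
`(b-1)^2 b^(k-2) - (C + o(1)) lam^k`, where `lam (lam-1) (lam-b+1) = b-1`. -/
theorem second_term_ge_three :
    ∀ b : ℕ, 3 ≤ b → ∃ lam : ℝ, (b : ℝ) - 1 < lam ∧ lam < b ∧
      lam * (lam - 1) * (lam - (b - 1)) = b - 1 ∧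
      Tendsto
        (fun k : ℕ =>
          (((b : ℝ) - 1) ^ 2 * (b : ℝ) ^ ((k : ℤ) - 2) -
            (({n : ℕ | b ^ (k - 1) ≤ n ∧ n < b ^ k ∧ n ≠ b - 1 ∧
              ∀ a c : ℕ,
                (∀ m : ℕ, n / b ^ m % b =
                  (Finset.range (m + 1)).sup
                    (fun i => min (a / b ^ i % b) (c / b ^ (m - i) % b))) →
                a = b - 1 ∨ c = b - 1} : Set ℕ).ncard : ℝ)) / lam ^ k)
        atTop
        (nhds (2 * (lam - 1) ^ 2 * (lam ^ 2 + (b - 1)) /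
          ((b - 1) * lam ^ 2 * (lam ^ 2 - 2 * lam + 2)))) := by
  intro b hb
  obtain ⟨β, rfl⟩ : ∃ β, b = β + 1 := ⟨b - 1, by omega⟩
  have hβ : 2 ≤ β := by omega
  obtain ⟨lam, h1, h2, h3⟩ := exists_lam hβ
  have e : ((β + 1 : ℕ) : ℝ) - 1 = β := by push_cast; ring
  refine ⟨lam, ?_, by exact_mod_cast h2, by rw [e]; exact h3, ?_⟩
  · rw [e]
    exact (le_mu β).trans_lt h1
  · rw [e, ← tendsto_add_atTop_iff_nat 3]
    refine ((tendsto_add_atTop_iff_nat 3).2 (R_tendsto hβ h1 h2 h3)).congr fun k => ?_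
    rw [card_primes (by omega) k]
    have e2 : (((k + 3 : ℕ) : ℤ) - 2) = ((k + 1 : ℕ) : ℤ) := by push_cast; ring
    rw [e2, zpow_natCast]
    push_cast
    ring

end Pool.Agent.Lib.MP_1d41ea_nt.L
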