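import Pool.Agent.Lib.MP_1d41ea_nt.S59Small

/-! Almost all numbers of a long aligned block with nonzero last digit are lunar primes. -/

set_option autoImplicit false

namespace Pool.Agent.Lib.MP_1d41ea_nt.S59

open Finset Classical Filter

variable {b t : ℕ}

/-- `n` is the lunar product of `a` and `c` -/
def Prd (b n a c : ℕ) : Prop := ∀ m : ℕ, n / b ^ m % b =
  (Finset.range (m + 1)).sup fun i => min (a / b ^ i % b) (c / b ^ (m - i) % b)

/-- lunar primes -/
def Pm (b n : ℕ) : Prop := n ≠ b - 1 ∧ ∀ a c : ℕ, Prd b n a c → a = b - 1 ∨ c = b - 1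

lemma Prd.supp {n a c : ℕ} (h : Prd b n a c) (x : ℕ) : n / b ^ x % b ≠ 0 ↔
    ∃ i j, i + j = x ∧ a / b ^ i % b ≠ 0 ∧ c / b ^ j % b ≠ 0 := by
  rw [h x, ← bot_eq_zero, Ne, Finset.sup_eq_bot_iff]
  push Not
  constructor
  · rintro ⟨i, hi, h1⟩
    have := mem_range.1 hi
    rw [bot_eq_zero] at h1 ⊢
    exact ⟨i, x - i, by omega, by omega, by omega⟩
  · rintro ⟨i, j, rfl, h1, h2⟩
    rw [bot_eq_zero] at h1 h2 ⊢
    exact ⟨i, mem_range.2 (by omega), by rw [Nat.add_sub_cancel_left]; omega⟩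

lemma exists_digit (hb : 2 ≤ b) {a : ℕ} (ha : b ≤ a) : ∃ i, 1 ≤ i ∧ a / b ^ i % b ≠ 0 := by
  refine ⟨Nat.log b a, Nat.log_pos (by omega) ha, ?_⟩
  have h1 := Nat.pow_log_le_self b (by omega : a ≠ 0)
  have h2 := Nat.lt_pow_succ_log_self (by omega : 1 < b) a
  rw [Nat.mod_eq_of_lt (Nat.div_lt_of_lt_mul (by rwa [← pow_succ]))]
  exact (Nat.div_pos h1 (by positivity)).ne'

lemma digit_le (a i : ℕ) : a / b ^ i % b ≤ a := (Nat.mod_le _ _).trans (Nat.div_le_self _ _)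

lemma comp (hb : 2 ≤ b) {n : ℕ} (h : ¬ Pm b n) (h1 : n ≠ b - 1) (h0 : n % b ≠ 0) {i : ℕ}
    (hi : n / b ^ i % b = b - 1) : ∃ B C : ℕ → Prop, B 0 ∧ C 0 ∧ (∃ β, 1 ≤ β ∧ B β) ∧
      (∃ γ, 1 ≤ γ ∧ C γ) ∧ ∀ x, (n / b ^ x % b ≠ 0 ↔ ∃ i j, i + j = x ∧ B i ∧ C j) := by
  unfold Pm at h
  push Not at h
  obtain ⟨a, c, hp, ha, hc⟩ := h h1
  obtain ⟨i0, j0, e, u, v⟩ := (hp.supp 0).1 (by simpa using h0)
  obtain ⟨rfl, rfl⟩ : i0 = 0 ∧ j0 = 0 := by omega
  have h2 : b - 1 ≤ a := by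
    rw [← hi, hp i]
    exact Finset.sup_le fun j _ => (min_le_left _ _).trans (digit_le _ _)
  have h3 : b - 1 ≤ c := by
    rw [← hi, hp i]
    exact Finset.sup_le fun j _ => (min_le_right _ _).trans (digit_le _ _)
  exact ⟨fun i => a / b ^ i % b ≠ 0, fun i => c / b ^ i % b ≠ 0, u, v, exists_digit hb (by omega),
    exists_digit hb (by omega), hp.supp⟩

/-- a shift of the support that stays inside the support -/
def F1 (K t : ℕ) (d : ℕ → ℕ) : Prop :=
  ∃ γ ∈ Ico K (t - K + 1), ∀ x < γ, x + γ < t → d x ≠ 0 → d (x + γ) ≠ 0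

/-- a run of zeros near the end -/
def F2 (K t : ℕ) (d : ℕ → ℕ) : Prop := ∀ x ∈ Ico (t - 2 * K) (t - K), d x = 0

/-- the support is compatible with the top pattern `τ` -/
def F3 (w N : ℕ) (τ : ℕ → Prop) (d : ℕ → ℕ) : Prop :=
  (∃ g ∈ range w, ∀ z < N, ¬ τ z → d (z + g) = 0) ∧
    ∀ z < N, τ z → ∃ l, z < l ∧ l < z + w ∧ d l ≠ 0

lemma core {K W k : ℕ} (hk : k ≤ 2 * t + W) (ht : W + 4 * K ≤ t) {D d : ℕ → ℕ}
    (hD : ∀ x, D x ≠ 0 → x < k) (hd : ∀ x < t, d x = D x) {B C : ℕ → Prop} (hB : B 0) (hC : C 0)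
    {β γ : ℕ} (b1 : 1 ≤ β) (b2 : β ≤ γ) (b3 : B β) (c3 : C γ) (hγ : ∀ j, 1 ≤ j → C j → γ ≤ j)
    (h : ∀ x, D x ≠ 0 ↔ ∃ i j, i + j = x ∧ B i ∧ C j) :
    Tr K t d ∨ F1 K t d ∨ F2 K t d ∨
      F3 (W + 3 * K) (t - W - 4 * K) (fun z => D (t + (W + 2 * K + z)) ≠ 0) d := by
  have low : ∀ x < γ, D x ≠ 0 → B x := fun x hx h1 => by
    obtain ⟨i, j, e, u, v⟩ := (h x).1 h1
    have := hγ j
    obtain rfl : j = 0 := by_contra fun hj => by have := this (by omega) v; omega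
    rwa [← e]
  have add : ∀ i j, B i → C j → D (i + j) ≠ 0 := fun i j u v => (h _).2 ⟨i, j, rfl, u, v⟩
  rcases lt_or_ge γ K with h1 | h1
  · exact Or.inl ⟨B, C, hB, hC, ⟨β, b1, by omega, b3⟩, ⟨γ, by omega, h1, c3⟩,
      fun x hx => by rw [hd x hx]; exact h x⟩
  rcases le_or_gt γ (t - K) with h2 | h2
  · refine Or.inr (Or.inl ⟨γ, mem_Ico.2 ⟨h1, by omega⟩, fun x x1 x2 x3 => ?_⟩)
    rw [hd _ (by omega)] at x3
    rw [hd _ x2]
    exact add _ _ (low x x1 x3) c3
  refine Or.inr (Or.inr (or_iff_not_imp_left.2 fun h3 => ?_))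
  unfold F2 at h3
  push Not at h3
  obtain ⟨m, hm, h3⟩ := h3
  obtain ⟨m1, m2⟩ := mem_Ico.1 hm
  rw [hd _ (by omega)] at h3
  have big : ∀ j, C j → m + j < k := fun j v => hD _ (add _ _ (low m (by omega) h3) v)
  have := big γ c3
  refine ⟨⟨t + W + 2 * K - γ, mem_range.2 (by omega), fun z hz h4 => by_contra fun h5 => h4 ?_⟩,
    fun z hz h4 => ?_⟩
  · rw [hd _ (by omega)] at h5
    have := add _ _ (low _ (by omega) h5) c3
    rwa [show z + (t + W + 2 * K - γ) + γ = t + (W + 2 * K + z) by omega] at this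
  · obtain ⟨i, j, e, u, v⟩ := (h _).1 h4
    have h5 := hD _ (add _ _ u c3)
    have h6 := big j v
    have h7 := hγ j (by omega) v
    exact ⟨i, by omega, by omega, by rw [hd _ (by omega)]; exact add i 0 u hC⟩

lemma pr_F1 (hb : 2 ≤ b) (K : ℕ) :
    pr b t (F1 K t) ≤ 2 * (b : ℝ) ^ 2 * (1 - (1 / b) ^ 2) ^ K := by
  have hb1 := inv_le hb
  have hb0 : (0 : ℝ) < 1 / b := by positivity
  set q : ℝ := 1 - (1 / b) ^ 2 with hq
  have q0 : 0 ≤ q := by nlinarith
  have q1 : q < 1 := by nlinarith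
  have h1 : ∀ γ ∈ Ico K (t - K + 1), pr b t (fun d => ∀ x < γ, x + γ < t → d x ≠ 0 → d (x + γ) ≠ 0)
      ≤ q ^ γ + q ^ (t - γ) := fun γ _ => by
    refine le_trans (pr_mono ?_) ((pr_avoid (by omega) (range (min γ (t - γ))) (fun x => {x, x + γ})
      (fun x d => ∀ z ∈ ({x, x + γ} : Finset ℕ), d z ≠ 0 ↔ z = x)
      (fun x _ d d' e h z hz => by rw [← e z hz]; exact h z hz) ?_ (x := (1 / b) ^ 2) ?_).trans ?_)
    · intro d h x hx hG
      have := mem_range.1 hx
      have := (hG (x + γ) (by simp)).1 (h x (by omega) (by omega) ((hG x (by simp)).2 rfl))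
      omega
    · intro x hx y hy hxy
      have := mem_range.1 hx
      have := mem_range.1 hy
      simp only [disjoint_insert_left, disjoint_singleton_left, mem_insert, mem_singleton]
      omega
    · intro x hx
      have := mem_range.1 hx
      refine le_trans (pow_le_pow_of_le_one hb0.le (by linarith) card_le_two)
        (pr_pat hb (fun z hz => ?_) _).1
      simp only [mem_insert, mem_singleton] at hz
      omega
    · rw [card_range]
      rcases min_choice γ (t - γ) with e | e <;> rw [e]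
      · exact le_add_of_nonneg_right (pow_nonneg q0 _)
      · exact le_add_of_nonneg_left (pow_nonneg q0 _)
  have h2 := geom_sum_Ico_le_of_lt_one (m := K) (n := t - K + 1) q0 q1
  have h3 : ∑ γ ∈ Ico K (t - K + 1), q ^ (t - γ) ≤ ∑ γ ∈ Ico K (t - K + 1), q ^ γ := by
    rcases le_or_gt K t with hK | hK
    · refine le_of_eq (sum_nbij' (fun γ => t - γ) (fun γ => t - γ) ?_ ?_ ?_ ?_ fun _ _ => rfl) <;>
        intro γ hγ <;> simp only [mem_Ico] at hγ ⊢ <;> omega
    · rw [Ico_eq_empty (by omega)]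
      simp
  have h4 : q ^ K / (1 - q) = (b : ℝ) ^ 2 * q ^ K := by
    rw [hq, sub_sub_cancel]
    field_simp
  refine (pr_exists _ _).trans ((sum_le_sum h1).trans ?_)
  rw [sum_add_distrib]
  linarith

lemma one_sub_pow_le {x : ℝ} (h0 : 0 ≤ x) (h1 : x ≤ 1) (n : ℕ) : (1 - x) ^ n * (n * x) ≤ 1 := by
  have h2 := one_add_mul_le_pow (a := x) (by linarith) n
  calc _ ≤ (1 - x) ^ n * (1 + x) ^ n :=
        mul_le_mul_of_nonneg_left (by linarith) (pow_nonneg (by linarith) _)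
    _ = ((1 - x) * (1 + x)) ^ n := (mul_pow _ _ _).symm
    _ ≤ 1 := pow_le_one₀ (by nlinarith) (by nlinarith)

lemma sq_le_two_pow (w : ℕ) : w ^ 2 ≤ 2 * 2 ^ w := by
  induction w with
  | zero => simp
  | succ w ih =>
    have : w < 2 ^ w := Nat.lt_two_pow_self
    rcases Nat.lt_or_ge w 3 with h | h
    · interval_cases w <;> norm_num
    · rw [pow_succ 2]
      nlinarith

lemma pr_F3 (hb : 2 ≤ b) {w N K Q : ℕ} (hK : K ≤ w) (hw : 1 ≤ w) (h1 : N + w ≤ t)
    (h2 : t ≤ N + 2 * w) (hQ : 32 ≤ Q) (h3 : Q * b ^ w ≤ t) (τ : ℕ → Prop) :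
    pr b t (F3 w N τ) ≤ (1 / 2) ^ K + 4 / Q := by
  have hb1 := inv_le hb
  have hb0 : (0 : ℝ) < 1 / b := by positivity
  have hw2 : (w : ℝ) * (1 / 2) ^ w ≤ 1 := by
    rw [one_div_pow, mul_one_div, div_le_one (by positivity)]
    exact_mod_cast Nat.lt_two_pow_self.le
  set H := (range N).filter fun z => ¬ τ z with hH
  rcases le_or_gt (w + K) H.card with h4 | h4
  · refine le_trans ?_ (le_add_of_nonneg_right (by positivity))
    refine ((pr_mono fun d h => h.1).trans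
      (pr_exists_le _ _ (x := (1 / 2) ^ (w + K)) fun g hg => ?_)).trans ?_
    · have := mem_range.1 hg
      refine (pr_mono (F := fun d => ∀ i ∈ H.image (· + g), d i = 0) fun d h i hi => ?_).trans ?_
      · obtain ⟨z, hz, rfl⟩ := mem_image.1 hi
        exact h z (mem_range.1 (mem_filter.1 hz).1) (mem_filter.1 hz).2
      · rw [pr_zeros (by omega) fun i hi => ?_, card_image_of_injective _ (add_left_injective g)]
        · exact (pow_le_pow_left₀ hb0.le hb1 _).trans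
            (pow_le_pow_of_le_one (by norm_num) (by norm_num) h4)
        · obtain ⟨z, hz, rfl⟩ := mem_image.1 hi
          have := mem_range.1 (mem_filter.1 hz).1
          omega
    · rw [card_range, pow_add, ← mul_assoc]
      exact mul_le_of_le_one_left (by positivity) hw2
  refine le_trans ?_ (le_add_of_nonneg_left (by positivity))
  set I := (range (N / (2 * w))).filter fun i => ∀ j < w, τ (2 * w * i + j) with hI
  have hN : ∀ i ∈ range (N / (2 * w)), 2 * w * i + 2 * w ≤ N := fun i hi =>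
    (Nat.mul_le_mul_left (2 * w) (mem_range.1 hi)).trans (Nat.mul_div_le _ _)
  have i1 := card_filter_add_card_filter_not (s := range (N / (2 * w)))
    fun i => ∀ j < w, τ (2 * w * i + j)
  have i2 : ((range (N / (2 * w))).filter fun i => ¬ ∀ j < w, τ (2 * w * i + j)).card ≤ H.card := by
    refine (card_le_card fun i hi => ?_).trans (card_image_le (f := fun z => z / (2 * w)))
    obtain ⟨u, v⟩ := mem_filter.1 hi
    push Not at v
    obtain ⟨j, hj, v⟩ := v
    have := hN i u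
    refine mem_image.2 ⟨_, mem_filter.2 ⟨mem_range.2 (by omega), v⟩, ?_⟩
    rw [Nat.mul_add_div (by omega), Nat.div_eq_of_lt (by omega), add_zero]
  have i3 : t ≤ 4 * (I.card * w) := by
    rw [card_range, ← hI] at i1
    have a1 := Nat.lt_mul_div_succ N (by omega : 0 < 2 * w)
    have a2 := sq_le_two_pow w
    have a3 : 32 * 2 ^ w ≤ t := (Nat.mul_le_mul hQ (Nat.pow_le_pow_left hb w)).trans h3
    have a4 : N / (2 * w) ≤ I.card + 2 * w := by omega
    nlinarith [Nat.mul_le_mul_left (2 * w) a4]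
  have hx : (w : ℝ) * (1 / b) ^ w ≤ 1 :=
    (mul_le_mul_of_nonneg_left (pow_le_pow_left₀ hb0.le hb1 _) (by positivity)).trans hw2
  refine le_trans (pr_mono ?_) ((pr_avoid (by omega) I (fun i => Ico (2 * w * i) (2 * w * i + 2 * w))
    (fun i d => ∃ j ∈ range w, ∀ z ∈ Ico (2 * w * i + j) (2 * w * i + j + w),
      d z ≠ 0 ↔ z = 2 * w * i + j) ?_ ?_ (x := w * (1 / b) ^ w) ?_).trans ?_)
  · rintro d h i hi ⟨j, hj, hG⟩
    have := hN i (mem_filter.1 hi).1
    have hj' := mem_range.1 hj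
    obtain ⟨l, l1, l2, l3⟩ := h.2 _ (by omega) ((mem_filter.1 hi).2 j hj')
    have := (hG l (mem_Ico.2 ⟨l1.le, l2⟩)).1 l3
    omega
  · rintro i _ d d' e ⟨j, hj, hG⟩
    have := mem_range.1 hj
    refine ⟨j, hj, fun z hz => ?_⟩
    have := mem_Ico.1 hz
    rw [← e z (mem_Ico.2 ⟨by omega, by omega⟩)]
    exact hG z hz
  · intro i _ j _ hij
    refine disjoint_left.2 fun z z1 z2 => ?_
    have z1 := mem_Ico.1 z1
    have z2 := mem_Ico.1 z2
    rcases lt_or_gt_of_ne hij with h | h <;> have := Nat.mul_le_mul_left (2 * w) h <;>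
      rw [Nat.succ_eq_add_one, mul_add] at this <;> omega
  · intro i hi
    have := hN i (mem_filter.1 hi).1
    rw [pr_exists_eq]
    · refine le_trans (by simp) (card_nsmul_le_sum (range w) _ ((1 / (b : ℝ)) ^ w) fun j hj => ?_)
      have := mem_range.1 hj
      simpa only [Nat.card_Ico, Nat.add_sub_cancel_left] using
        (pr_pat (t := t) hb (Z := Ico (2 * w * i + j) (2 * w * i + j + w))
          (fun z hz => by have := mem_Ico.1 hz; omega) fun z => z = 2 * w * i + j).1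
    · intro j hj j' hj' hne d g1 g2
      have := mem_range.1 hj
      have := mem_range.1 hj'
      rcases lt_or_gt_of_ne hne with h | h
      · have := (g1 _ (mem_Ico.2 ⟨by omega, by omega⟩)).1
          ((g2 _ (mem_Ico.2 ⟨le_rfl, by omega⟩)).2 rfl)
        omega
      · have := (g2 _ (mem_Ico.2 ⟨by omega, by omega⟩)).1
          ((g1 _ (mem_Ico.2 ⟨le_rfl, by omega⟩)).2 rfl)
        omega
  · have a1 := one_sub_pow_le (by positivity) hx I.card
    have a2 : (Q : ℝ) * (b : ℝ) ^ w ≤ 4 * (I.card * w) := by exact_mod_cast h3.trans i3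
    have a3 : (Q : ℝ) ≤ 4 * (I.card * (w * (1 / b) ^ w)) := by
      rw [one_div_pow, ← mul_assoc (I.card : ℝ), ← mul_assoc, mul_one_div,
        le_div_iff₀ (by positivity)]
      exact a2
    rw [le_div_iff₀ (by positivity)]
    nlinarith [mul_le_mul_of_nonneg_left a3 (pow_nonneg (sub_nonneg.2 hx) I.card)]

lemma low_digit (hb : 0 < b) (T u : ℕ) {i : ℕ} (hi : i < t) :
    (T * b ^ t + u) / b ^ i % b = u / b ^ i % b := by
  obtain ⟨j, rfl⟩ := Nat.exists_eq_add_of_lt hi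
  rw [show T * b ^ (i + j + 1) = b ^ i * (b * (T * b ^ j)) by ring, Nat.mul_add_div (by positivity),
    Nat.mul_add_mod]

lemma top_digit (hb : 0 < b) (T : ℕ) {u : ℕ} (hu : u < b ^ t) (j : ℕ) :
    (T * b ^ t + u) / b ^ (t + j) = T / b ^ j := by
  rw [pow_add, ← Nat.div_div_eq_div_mul, mul_comm, Nat.mul_add_div (by positivity),
    Nat.div_eq_of_lt hu, add_zero]

theorem block (hb : 2 ≤ b) {ε : ℝ} (hε : 0 < ε) : ∃ Q : ℕ, ∀ t W k T : ℕ, k ≤ 2 * t + W →
    Q * b ^ W ≤ t → (T + 1) * b ^ t ≤ b ^ k → (((range (b ^ t)).filter fun u =>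
      (T * b ^ t + u) % b ≠ 0 ∧ ¬ Pm b (T * b ^ t + u)).card : ℝ) ≤ ε * (b : ℝ) ^ t := by
  have hb1 := inv_le hb
  have hb0 : (0 : ℝ) < 1 / b := by positivity
  have hb2 : (2 : ℝ) ≤ b := by exact_mod_cast hb
  obtain ⟨K, hK⟩ := exists_pow_lt_of_lt_one (x := ε / 6 / (2 * (b : ℝ) ^ 2))
    (y := 1 - (1 / (b : ℝ)) ^ 2) (by positivity) (by nlinarith)
  rw [lt_div_iff₀ (by positivity)] at hK
  have hK2 : (1 / 2 : ℝ) ^ K ≤ ε / 6 := by
    have h1 : (1 / 2 : ℝ) ^ K ≤ (1 - (1 / (b : ℝ)) ^ 2) ^ K :=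
      pow_le_pow_left₀ (by norm_num) (by nlinarith) _
    exact h1.trans ((le_mul_of_one_le_right (le_trans (by positivity) h1) (by nlinarith)).trans hK.le)
  obtain ⟨t₀, h₀⟩ := small hb K (ε := ε / 6) (by positivity)
  obtain ⟨t₁, h₁⟩ := exists_pow_lt_of_lt_one (x := ε / 6) (y := 1 - 1 / (b : ℝ)) (by positivity)
    (by linarith)
  obtain ⟨Q, hQ⟩ := exists_nat_ge (24 / ε)
  refine ⟨(Q + 32) * b ^ (3 * K + 3) + t₀ + t₁, fun t W k T hk ht hT => ?_⟩
  have p1 : 1 ≤ b ^ W := Nat.one_le_pow _ _ (by omega)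
  have t1 : (Q + 32) * b ^ (W + 1 + 3 * K) ≤ t := by
    refine le_trans ?_ ((Nat.mul_le_mul_right _ (Nat.le_add_right _ (t₀ + t₁))).trans
      (by rwa [← add_assoc]))
    rw [mul_assoc, ← pow_add]
    exact Nat.mul_le_mul_left _ (Nat.pow_le_pow_right (by omega) (by omega))
  have t2 : t₀ + t₁ ≤ t := by nlinarith [Nat.zero_le ((Q + 32) * b ^ (3 * K + 3))]
  have t3 : 32 * (W + 1 + 3 * K) ≤ t :=
    (Nat.mul_le_mul (by omega) (Nat.lt_pow_self (by omega)).le).trans t1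
  have a2 : pr b t (F2 K t) ≤ ε / 6 := by
    unfold F2
    rw [pr_zeros (by omega) fun i hi => by have := mem_Ico.1 hi; omega, Nat.card_Ico,
      show t - K - (t - 2 * K) = K by omega]
    exact (pow_le_pow_left₀ hb0.le hb1 _).trans hK2
  have a0 : pr b t (fun d => ∀ i ∈ range t, d i ≠ b - 1) ≤ ε / 6 := by
    rw [pr_nes (by omega) (fun i hi => mem_range.1 hi) (by omega), card_range]
    exact (pow_le_pow_of_le_one (by linarith) (by linarith) (by omega)).trans h₁.le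
  have a3 := pr_F3 (t := t) hb (N := t - (W + 1) - 4 * K) (K := K) (by omega) (by omega) (by omega)
    (by omega) (by omega : 32 ≤ Q + 32) t1 fun z => T / b ^ (W + 1 + 2 * K + z) % b ≠ 0
  have a4 : (4 : ℝ) / (Q + 32 : ℕ) ≤ ε / 6 := by
    rw [div_le_iff₀ hε] at hQ
    rw [div_le_iff₀ (by positivity)]
    push_cast
    nlinarith
  have a5 := pr_or_le a0 (pr_or_le (h₀ t (by omega)) (pr_or_le (pr_F1 (t := t) hb K)
    (pr_or_le a2 a3)))
  refine (card_le_pr (by omega) fun u hu => ?_).trans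
    (mul_le_mul_of_nonneg_right (a5.trans (by linarith)) (by positivity))
  obtain ⟨u1, u2, u3⟩ := mem_filter.1 hu
  refine ⟨mem_range.1 u1, or_iff_not_imp_left.2 fun h => ?_⟩
  push Not at h
  obtain ⟨i, hi, h⟩ := h
  have u4 := mem_range.1 u1
  have hd : ∀ x < t, u / b ^ x % b = (T * b ^ t + u) / b ^ x % b :=
    fun x hx => (low_digit (by omega) T u hx).symm
  by_cases hn : T * b ^ t + u = b - 1
  · refine Or.inr (Or.inr (Or.inl fun x hx => ?_))
    have := mem_Ico.1 hx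
    have : b ^ 1 ≤ b ^ x := Nat.pow_le_pow_right (by omega) (by omega)
    show u / b ^ x % b = 0
    rw [Nat.div_eq_of_lt (by rw [pow_one] at this; omega), Nat.zero_mod]
  obtain ⟨B, C, hB, hC, hβ, hγ, hs⟩ := comp hb u3 hn u2 ((hd i (mem_range.1 hi)).symm.trans h)
  have hD : ∀ x, (T * b ^ t + u) / b ^ x % b ≠ 0 → x < k := fun x hx => by_contra fun hx' => by
    have : b ^ k ≤ b ^ x := Nat.pow_le_pow_right (by omega) (by omega)
    rw [Nat.div_eq_of_lt (by rw [add_mul, one_mul] at hT; omega), Nat.zero_mod] at hx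
    exact hx rfl
  simp only [← top_digit (by omega : 0 < b) T u4]
  rcases le_total (Nat.find hβ) (Nat.find hγ) with h1 | h1
  · exact core (W := W + 1) (by omega) (by omega) hD hd hB hC (Nat.find_spec hβ).1 h1
      (Nat.find_spec hβ).2 (Nat.find_spec hγ).2 (fun j j1 j2 => Nat.find_le ⟨j1, j2⟩) hs
  · exact core (W := W + 1) (by omega) (by omega) hD hd hC hB (Nat.find_spec hγ).1 h1
      (Nat.find_spec hγ).2 (Nat.find_spec hβ).2 (fun j j1 j2 => Nat.find_le ⟨j1, j2⟩)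
      fun x => (hs x).trans ⟨fun ⟨i, j, e, u, v⟩ => ⟨j, i, by omega, v, u⟩,
        fun ⟨i, j, e, u, v⟩ => ⟨j, i, by omega, v, u⟩⟩

end Pool.Agent.Lib.MP_1d41ea_nt.S59
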