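import Pool.Agent.Lib.MP_1d41ea_nt.S59Block

/-! Lunar primes in short intervals: blocks with many composite numbers, and the threshold. -/

set_option autoImplicit false

namespace Pool.Agent.Lib.MP_1d41ea_nt.S59

open Finset Classical Filter

variable {b t : ℕ}

/-- repunits -/
def rep (b : ℕ) : ℕ → ℕ
  | 0 => 0
  | m + 1 => b * rep b m + 1

lemma rep_digit (hb : 2 ≤ b) (j : ℕ) : ∀ m, rep b m / b ^ j % b = if j < m then 1 else 0 := by
  induction j with
  | zero =>
    rintro (_ | m)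
    · simp [rep]
    · simp [rep, Nat.mod_eq_of_lt (by omega : 1 < b)]
  | succ j ih =>
    rintro (_ | m)
    · simp [rep]
    · rw [pow_succ', ← Nat.div_div_eq_div_mul, rep, Nat.mul_add_div (by omega),
        Nat.div_eq_of_lt (by omega : 1 < b), add_zero, ih]
      simp

lemma rep_bound (hb : 2 ≤ b) (m : ℕ) : b ^ m ≤ rep b (m + 1) ∧ rep b m + 1 ≤ b ^ m := by
  induction m with
  | zero => simp [rep]
  | succ m ih =>
    rw [pow_succ', rep, rep.eq_2 b m]
    constructor <;> nlinarith [ih.1, ih.2, rep.eq_2 b m]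

lemma not_pm (hb : 2 ≤ b) {W u : ℕ} (ht : 2 ≤ t) (hu : u < b ^ t) (h1 : u / b ^ (t - 1) % b ≠ 0)
    (h : ∀ j < t + W, ∃ i < t, i ≤ j ∧ j ≤ i + W ∧ u / b ^ i % b ≠ 0) :
    ¬ Pm b (rep b (t + W) * b ^ t + u) := by
  have b0 : 0 < b := by omega
  have p1 : ∀ j, 1 ≤ j → b ≤ b ^ j := fun j hj => Nat.le_self_pow (by omega) b
  have hc : b - 1 < b ^ t := by have := p1 t (by omega); omega
  have c0 : (rep b (W + 1) * b ^ t + (b - 1)) / b ^ 0 % b = b - 1 := by
    rw [low_digit b0 _ _ (by omega), pow_zero, Nat.div_one, Nat.mod_eq_of_lt (by omega)]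
  have c1 : ∀ j, 1 ≤ j → j < t → (rep b (W + 1) * b ^ t + (b - 1)) / b ^ j % b = 0 :=
    fun j j1 j2 => by
      rw [low_digit b0 _ _ j2, Nat.div_eq_of_lt (by have := p1 j j1; omega), Nat.zero_mod]
  have c2 : ∀ j, t ≤ j → (rep b (W + 1) * b ^ t + (b - 1)) / b ^ j % b =
      if j - t < W + 1 then 1 else 0 := fun j hj => by
    obtain ⟨j, rfl⟩ := Nat.exists_eq_add_of_le hj
    rw [top_digit b0 _ hc, rep_digit hb, Nat.add_sub_cancel_left]
  have u0 : ∀ i, t ≤ i → u / b ^ i % b = 0 := fun i hi => by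
    rw [Nat.div_eq_of_lt (hu.trans_le (Nat.pow_le_pow_right b0 hi)), Nat.zero_mod]
  intro hp
  refine (hp.2 u (rep b (W + 1) * b ^ t + (b - 1)) fun m => ?_).elim (fun e => ?_) fun e => ?_
  rotate_left
  · rw [e, Nat.div_eq_of_lt (by have := p1 (t - 1) (by omega); omega), Nat.zero_mod] at h1
    exact h1 rfl
  · have := c2 t le_rfl
    rw [e, Nat.div_eq_of_lt hc, Nat.zero_mod, if_pos (by omega)] at this
    omega
  rcases lt_or_ge m t with hm | hm
  · rw [low_digit b0 _ _ hm]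
    refine le_antisymm (le_trans ?_ (Finset.le_sup (f := fun i => min (u / b ^ i % b)
      ((rep b (W + 1) * b ^ t + (b - 1)) / b ^ (m - i) % b)) (self_mem_range_succ m)))
      (Finset.sup_le fun i hi => ?_)
    · have := Nat.mod_lt (u / b ^ m) b0
      simp only [Nat.sub_self, c0]
      omega
    · rcases (Nat.lt_succ_iff.1 (mem_range.1 hi)).eq_or_lt with rfl | h2
      · exact min_le_left _ _
      · rw [c1 _ (by omega) (by omega)]
        simp
  · obtain ⟨j, rfl⟩ := Nat.exists_eq_add_of_le hm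
    rw [top_digit b0 _ hu, rep_digit hb]
    refine le_antisymm ?_ (Finset.sup_le fun i _ => ?_)
    · split_ifs with hj
      · obtain ⟨i, i1, i2, i3, i4⟩ := h j hj
        refine le_trans ?_ (Finset.le_sup (f := fun i => min (u / b ^ i % b)
          ((rep b (W + 1) * b ^ t + (b - 1)) / b ^ (t + j - i) % b))
          (mem_range.2 (by omega : i < t + j + 1)))
        rw [c2 _ (by omega), if_pos (by omega)]
        omega
      · exact Nat.zero_le _
    · rcases le_or_gt t i with h2 | h2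
      · rw [u0 i h2]
        simp
      rcases lt_or_ge (t + j - i) t with h3 | h3
      · rw [c1 _ (by omega) h3]
        simp
      · rw [c2 _ h3]
        refine (min_le_right _ _).trans ?_
        split_ifs <;> omega

theorem bad_block (hb : 2 ≤ b) (M : ℕ) : ∃ δ : ℝ, 0 < δ ∧ ∀ t W : ℕ, 2 ≤ t → t ≤ M * b ^ W →
    δ * (b : ℝ) ^ t ≤ ((range (b ^ t)).filter fun u => (rep b (t + W) * b ^ t + u) % b ≠ 0 ∧
      ¬ Pm b (rep b (t + W) * b ^ t + u)).card := by
  refine ⟨1 / 2 * (1 / 2 * Real.exp (-(2 * M))), by positivity, fun t W ht hM => ?_⟩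
  have b0 : 0 < b := by omega
  have hb1 := inv_le hb
  have hb0 : (0 : ℝ) < 1 / b := by positivity
  have up1 : ∀ i, Up fun d => d i ≠ 0 := fun i d d' e h => by have := e i; omega
  have up2 : ∀ z, Up fun d => ¬ ∀ i ∈ Ico z (z + W + 1), d i = 0 :=
    fun z d d' e h h' => h fun i hi => by have := e i; have := h' i hi; omega
  have up3 : Up fun d => ∀ z ∈ range (t - W), ¬ ∀ i ∈ Ico z (z + W + 1), d i = 0 :=
    fun d d' e h z hz => up2 z d d' e (h z hz)
  have a1 : ∀ i < t, 1 / 2 ≤ pr b t fun d => d i ≠ 0 := fun i hi => by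
    rw [pr_ne b0 hi b0]
    linarith
  set x : ℝ := (1 / b) ^ (W + 1) with hx
  have x0 : 0 ≤ x := by positivity
  have x1 : x ≤ 1 / 2 := (pow_le_of_le_one hb0.le (by linarith) (by omega)).trans hb1
  have x2 : ((t - W : ℕ) : ℝ) * x ≤ M := by
    rw [hx, one_div_pow, mul_one_div, div_le_iff₀ (by positivity)]
    exact_mod_cast (Nat.sub_le _ _).trans (hM.trans
      (Nat.mul_le_mul_left _ (Nat.pow_le_pow_right b0 (by omega))))
  have a2 : Real.exp (-(2 * M)) ≤ pr b t fun d =>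
      ∀ z ∈ range (t - W), ¬ ∀ i ∈ Ico z (z + W + 1), d i = 0 := by
    refine le_trans ?_ (pr_fkg_all b0 _ _ up2)
    rw [prod_congr rfl (g := fun _ => 1 - x) fun z hz => by
      have := mem_range.1 hz
      rw [pr_not b0, pr_zeros b0 fun i hi => by have := mem_Ico.1 hi; omega, Nat.card_Ico,
        show z + W + 1 - z = W + 1 by omega], prod_const, card_range]
    have h1 : Real.exp (-(2 * x)) ≤ 1 - x := by
      rw [Real.exp_neg, inv_le_iff_one_le_mul₀ (Real.exp_pos _)]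
      nlinarith [mul_le_mul_of_nonneg_left (Real.add_one_le_exp (2 * x)) (by linarith : 0 ≤ 1 - x)]
    refine le_trans ?_ (pow_le_pow_left₀ (Real.exp_pos _).le h1 _)
    rw [← Real.exp_nat_mul]
    exact Real.exp_le_exp.2 (by linarith)
  have a3 := (mul_le_mul (a1 (t - 1) (by omega)) a2 (by positivity) pr_nonneg).trans
    (pr_fkg b0 (up1 _) up3)
  have a4 := (mul_le_mul (a1 0 (by omega)) a3 (by positivity) pr_nonneg).trans
    (pr_fkg b0 (up1 _) fun d d' e h => ⟨up1 _ d d' e h.1, up3 d d' e h.2⟩)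
  refine (mul_le_mul_of_nonneg_right a4 (by positivity)).trans (pr_le_card b0 ?_)
  rintro u hu ⟨h0, h1, h2⟩
  refine mem_filter.2 ⟨mem_range.2 hu, ?_, not_pm hb ht hu h1 fun j hj => ?_⟩
  · have := low_digit b0 (rep b (t + W)) u (by omega : 0 < t)
    simpa using this.trans_ne h0
  · rcases le_or_gt j W with h3 | h3
    · exact ⟨0, by omega, by omega, by omega, h0⟩
    rcases le_or_gt (t - 1) j with h4 | h4
    · exact ⟨t - 1, by omega, h4, by omega, h1⟩
    have := h2 (j - W) (mem_range.2 (by omega))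
    push Not at this
    obtain ⟨i, hi, h5⟩ := this
    have := mem_Ico.1 hi
    exact ⟨i, by omega, by omega, by omega, h5⟩

lemma not_pm_zero (hb : 2 ≤ b) {n : ℕ} (hn : b ^ 2 ≤ n) (h : n % b = 0) : ¬ Pm b n := by
  have b0 : 0 < b := by omega
  have h1 : b ≤ n / b := (Nat.le_div_iff_mul_le b0).2 (by rwa [← sq])
  have c : ∀ j, b * (b - 1) / b ^ j % b = if j = 1 then b - 1 else 0 := by
    rintro (_ | j)
    · simp
    rw [pow_succ', ← Nat.div_div_eq_div_mul, Nat.mul_div_cancel_left _ b0]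
    rcases j with _ | j
    · simp
    · have : b ≤ b ^ (j + 1) := Nat.le_self_pow (by omega) b
      rw [Nat.div_eq_of_lt (by omega), Nat.zero_mod, if_neg (by omega)]
  intro hp
  refine (hp.2 (n / b) (b * (b - 1)) fun m => ?_).elim (fun e => ?_) fun e => ?_
  rotate_left
  · omega
  · have := c 0
    rw [e, pow_zero, Nat.div_one, Nat.mod_eq_of_lt (by omega), if_neg (by omega)] at this
    omega
  simp only [c]
  rcases m with _ | m
  · simpa using h
  rw [pow_succ', ← Nat.div_div_eq_div_mul]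
  refine le_antisymm (le_trans ?_ (Finset.le_sup (f := fun i => min (n / b / b ^ i % b)
    (if m + 1 - i = 1 then b - 1 else 0)) (mem_range.2 (by omega : m < m + 1 + 1))))
    (Finset.sup_le fun i _ => ?_)
  · have := Nat.mod_lt (n / b / b ^ m) b0
    simp only [Nat.add_sub_cancel_left, if_true]
    omega
  · split_ifs with hi
    · rw [show i = m by omega]
      exact min_le_left _ _
    · simp

/-- primes in an interval -/
noncomputable def cP (b x y : ℕ) : ℕ := ((Ico x (x + y)).filter (Pm b)).card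
/-- multiples of the base in an interval -/
def cZ (b x y : ℕ) : ℕ := ((Ico x (x + y)).filter fun n => n % b = 0).card
/-- exceptions in an interval -/
noncomputable def cE (b x y : ℕ) : ℕ :=
  ((Ico x (x + y)).filter fun n => n % b ≠ 0 ∧ ¬ Pm b n).card

lemma count_add (hb : 2 ≤ b) {x : ℕ} (hx : b ^ 2 ≤ x) (y : ℕ) :
    cP b x y + cZ b x y + cE b x y = y := by
  have h1 := card_filter_add_card_filter_not (s := Ico x (x + y)) (Pm b)
  have h2 := card_filter_add_card_filter_not (s := (Ico x (x + y)).filter fun n => ¬ Pm b n)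
    fun n => n % b = 0
  rw [filter_filter, filter_filter] at h2
  have h3 : cZ b x y = ((Ico x (x + y)).filter fun n => ¬ Pm b n ∧ n % b = 0).card :=
    congrArg card (filter_congr fun n hn =>
      ⟨fun h => ⟨not_pm_zero hb (hx.trans (mem_Ico.1 hn).1) h, h⟩, fun h => h.2⟩)
  have h4 : cE b x y = ((Ico x (x + y)).filter fun n => ¬ Pm b n ∧ ¬ n % b = 0).card :=
    congrArg card (filter_congr fun n _ => and_comm)
  rw [Nat.card_Ico] at h1
  unfold cP
  omega

lemma cZ_eq (hb : 0 < b) (x y : ℕ) : cZ b x y + (x + (b - 1)) / b = (x + (b - 1) + y) / b := by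
  induction y with
  | zero => simp [cZ]
  | succ y ih =>
    rw [← add_assoc, Nat.succ_div, ← ih, cZ, cZ, ← add_assoc,
      Nat.Ico_succ_right_eq_insert_Ico (by omega), filter_insert,
      show x + (b - 1) + y + 1 = x + y + b by omega]
    simp only [Nat.dvd_iff_mod_eq_zero, Nat.add_mod_right]
    split_ifs
    · rw [card_insert_of_notMem (by simp)]
      omega
    · rfl

lemma cZ_bound (hb : 0 < b) (x y : ℕ) : y < b * cZ b x y + b ∧ b * cZ b x y < y + b := by
  have h := congrArg (b * ·) (cZ_eq hb x y)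
  have h1 := Nat.div_add_mod (x + (b - 1)) b
  have h2 := Nat.div_add_mod (x + (b - 1) + y) b
  have h3 := Nat.mod_lt (x + (b - 1)) hb
  have h4 := Nat.mod_lt (x + (b - 1) + y) hb
  simp only [mul_add] at h
  omega

lemma dev (hb : 2 ≤ b) {x : ℕ} (hx : b ^ 2 ≤ x) (y : ℕ) : (cP b x y : ℝ) - ((b : ℝ) - 1) / b * y =
    ((y : ℝ) - b * cZ b x y - b * cE b x y) / b := by
  have h : (cP b x y : ℝ) + cZ b x y + cE b x y = y := by exact_mod_cast count_add hb hx y
  have : (b : ℝ) ≠ 0 := by positivity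
  field_simp
  linear_combination (b : ℝ) * h

lemma cE_le (hb : 0 < b) {x y k : ℕ} {ε : ℝ} (hε : 0 ≤ ε) (hy : b ^ t ≤ y) (hk : x + y + b ^ t ≤ b ^ k)
    (h : ∀ T, (T + 1) * b ^ t ≤ b ^ k → (((range (b ^ t)).filter fun u =>
      (T * b ^ t + u) % b ≠ 0 ∧ ¬ Pm b (T * b ^ t + u)).card : ℝ) ≤ ε * (b : ℝ) ^ t) :
    (cE b x y : ℝ) ≤ 3 * ε * y := by
  have B0 : 0 < b ^ t := by positivity
  have h1 : cE b x y ≤ ∑ T ∈ Icc (x / b ^ t) ((x + y) / b ^ t), ((range (b ^ t)).filter fun u =>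
      (T * b ^ t + u) % b ≠ 0 ∧ ¬ Pm b (T * b ^ t + u)).card := by
    refine le_trans (card_le_card fun n hn => ?_) (card_biUnion_le.trans (sum_le_sum fun T _ =>
      card_image_le (f := fun u => T * b ^ t + u)))
    obtain ⟨n1, n2⟩ := mem_filter.1 hn
    obtain ⟨n3, n4⟩ := mem_Ico.1 n1
    refine mem_biUnion.2 ⟨n / b ^ t, mem_Icc.2 ⟨Nat.div_le_div_right n3, Nat.div_le_div_right n4.le⟩,
      mem_image.2 ⟨n % b ^ t, mem_filter.2 ⟨mem_range.2 (Nat.mod_lt _ B0), ?_⟩,
        Nat.div_add_mod' _ _⟩⟩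
    rwa [Nat.div_add_mod']
  have h2 := sum_le_card_nsmul (Icc (x / b ^ t) ((x + y) / b ^ t)) _ _ fun T hT => h T (by
    have := (Nat.le_div_iff_mul_le B0).1 (mem_Icc.1 hT).2
    rw [add_mul, one_mul]
    omega)
  have h3 : (Icc (x / b ^ t) ((x + y) / b ^ t)).card * b ^ t ≤ 3 * y := by
    have a1 := Nat.div_mul_le_self (x + y) (b ^ t)
    have a2 := Nat.lt_div_mul_add (a := x) B0
    rw [Nat.card_Icc, Nat.sub_mul, add_mul, one_mul]
    omega
  have h4 : ((Icc (x / b ^ t) ((x + y) / b ^ t)).card : ℝ) * (b : ℝ) ^ t ≤ 3 * y := by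
    exact_mod_cast h3
  rw [nsmul_eq_mul, ← Nat.cast_sum] at h2
  nlinarith [(Nat.cast_le (α := ℝ)).2 h1, mul_le_mul_of_nonneg_left h4 hε]

theorem upper (hb : 2 ≤ b) {ε : ℝ} (hε : 0 < ε) : ∃ Q k₀ : ℕ, ∀ k ≥ k₀, ∀ x y : ℕ,
    Q * b ^ k ≤ y ^ 2 * k → 1 ≤ y → b ^ (k - 1) ≤ x → x < b ^ k →
      |(cP b x y : ℝ) - ((b : ℝ) - 1) / b * y| ≤ ε * y := by
  have b0 : 0 < b := by omega
  obtain ⟨Q, hQ⟩ := block hb (ε := ε / 6) (by positivity)
  obtain ⟨q, hq⟩ := exists_nat_ge (2 / ε)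
  refine ⟨b ^ 4 * (2 * (Q + q) + 1), 2 * (Q + q) + 3, fun k hk x y h hy x1 x2 => ?_⟩
  set t := Nat.log b y with ht
  have y1 : b ^ t ≤ y := Nat.pow_log_le_self b (by omega)
  have y2 : y < b ^ (t + 1) := Nat.lt_pow_succ_log_self (by omega) y
  have b2 : ∀ j, 3 * b ^ j ≤ b ^ (j + 2) := fun j => by
    rw [pow_add, mul_comm]
    exact Nat.mul_le_mul_left _ (by nlinarith)
  have key : ∃ k' W, k' ≤ 2 * t + W ∧ (Q + q) * b ^ W ≤ t ∧ x + y + b ^ t ≤ b ^ k' := by
    rcases le_or_gt k t with h1 | h1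
    · have := Nat.pow_le_pow_right b0 (by omega : k ≤ t + 1)
      have := Nat.pow_le_pow_right b0 (by omega : t ≤ t + 1)
      exact ⟨t + 1 + 2, 0, by omega, by rw [pow_zero]; omega, le_trans (by omega) (b2 _)⟩
    have := Nat.pow_le_pow_right b0 (by omega : t + 1 ≤ k)
    have h2 : x + y + b ^ t ≤ b ^ (k + 2) := le_trans (by omega) (b2 _)
    rcases le_or_gt (k + 2) (2 * t) with h3 | h3
    · exact ⟨k + 2, 0, by omega, by rw [pow_zero]; omega, h2⟩
    obtain ⟨W, hW⟩ := Nat.exists_eq_add_of_le h3.le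
    refine ⟨k + 2, W, hW.le, ?_, h2⟩
    have a1 : W < b ^ W := Nat.lt_pow_self (by omega)
    have a2 : b ^ (2 * t + 4) * ((2 * (Q + q) + 1) * b ^ W) ≤ b ^ (2 * t + 4) * k :=
      calc _ = b ^ 4 * (2 * (Q + q) + 1) * b ^ (2 * t + W) := by ring
        _ = b ^ 4 * (2 * (Q + q) + 1) * b ^ k * b ^ 2 := by rw [← hW]; ring
        _ ≤ (b ^ (t + 1)) ^ 2 * k * b ^ 2 := Nat.mul_le_mul_right _
            (h.trans (Nat.mul_le_mul_right _ (Nat.pow_le_pow_left y2.le 2)))
        _ = _ := by ring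
    have a3 := Nat.le_of_mul_le_mul_left a2 (by positivity)
    rw [add_mul, mul_assoc] at a3
    omega
  obtain ⟨k', W, k1, k2, k3⟩ := key
  have p1 : 1 ≤ b ^ W := Nat.one_le_pow _ _ b0
  have h1 := cE_le b0 (by positivity) y1 k3 fun T => hQ t W k' T k1
    ((Nat.mul_le_mul_right _ (Nat.le_add_right _ _)).trans k2)
  have h2 : (q : ℝ) ≤ y := by
    have : t < b ^ t := Nat.lt_pow_self (by omega)
    exact_mod_cast (by nlinarith : q ≤ y)
  have h3 : 2 ≤ ε * y := by
    rw [div_le_iff₀ hε] at hq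
    nlinarith
  obtain ⟨z1, z2⟩ := cZ_bound b0 x y
  have z1' : (y : ℝ) < b * cZ b x y + b := by exact_mod_cast z1
  have z2' : (b : ℝ) * cZ b x y < y + b := by exact_mod_cast z2
  have bp : (0 : ℝ) < b := by positivity
  have e0 : (0 : ℝ) ≤ b * cE b x y := by positivity
  rw [dev hb ((Nat.pow_le_pow_right b0 (by omega)).trans x1), abs_div, abs_of_pos bp,
    div_le_iff₀ bp, abs_le]
  constructor <;> nlinarith [mul_le_mul_of_nonneg_left h1 bp.le, mul_le_mul_of_nonneg_left h3 bp.le]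

theorem lower (hb : 2 ≤ b) (M : ℕ) : ∃ ε : ℝ, 0 < ε ∧ ∃ k₀ : ℕ, ∀ k ≥ k₀, ∀ y : ℕ,
    y ^ 2 * k ≤ M * b ^ k → 1 ≤ y → ∃ x, b ^ (k - 1) ≤ x ∧ x < b ^ k ∧
      ε * y < |(cP b x y : ℝ) - ((b : ℝ) - 1) / b * y| := by
  have b0 : 0 < b := by omega
  have bp : (2 : ℝ) ≤ b := by exact_mod_cast hb
  obtain ⟨δ, hδ, H⟩ := bad_block hb (M * b ^ 2)
  refine ⟨δ / 8 / b, by positivity, M * b + 5, fun k hk y hy y1 => ?_⟩
  have hM : 1 ≤ M := Nat.pos_of_ne_zero fun e => by
    have : 0 < y ^ 2 * k := Nat.mul_pos (by positivity) (by omega)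
    rw [e] at hy
    omega
  have ex : ∃ t, M * b ^ k ≤ b ^ (2 * t) * k := ⟨k + M, by
    have : M < b ^ M := Nat.lt_pow_self (by omega)
    calc M * b ^ k ≤ b ^ M * b ^ k := Nat.mul_le_mul_right _ this.le
      _ ≤ b ^ (2 * (k + M)) := by rw [← pow_add]; exact Nat.pow_le_pow_right b0 (by omega)
      _ ≤ _ := Nat.le_mul_of_pos_right _ (by omega)⟩
  have t1 := Nat.find_spec ex
  set t := Nat.find ex with ht
  have t2 : 2 ≤ t := by_contra fun h => by
    obtain ⟨j, rfl⟩ : ∃ j, k = j + 5 := ⟨k - 5, by omega⟩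
    have a1 : j < b ^ j := Nat.lt_pow_self (by omega)
    have a2 : b ^ (2 * t) ≤ b ^ 2 := Nat.pow_le_pow_right b0 (by omega)
    have a3 : 2 ^ 3 ≤ b ^ 3 := Nat.pow_le_pow_left hb 3
    have a4 : b ^ 2 * (b ^ 3 * b ^ j) ≤ b ^ 2 * (j + 5) :=
      calc _ = 1 * b ^ (j + 5) := by ring
        _ ≤ _ := (Nat.mul_le_mul_right _ hM).trans (t1.trans (Nat.mul_le_mul_right _ a2))
    have := Nat.le_of_mul_le_mul_left a4 (by positivity)
    nlinarith
  have t3 : b ^ (2 * t) * k < M * b ^ 2 * b ^ k := by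
    have := Nat.lt_of_not_le (Nat.find_min ex (by omega : t - 1 < t))
    calc _ = b ^ (2 * (t - 1)) * k * b ^ 2 := by
          rw [show 2 * t = 2 * (t - 1) + 2 by omega]; ring
      _ < M * b ^ k * b ^ 2 := Nat.mul_lt_mul_of_pos_right this (by positivity)
      _ = _ := by ring
  have t4 : 2 * t ≤ k := by_contra fun h => by
    have a1 : b ^ (k + 1) * k < b ^ (k + 1) * (M * b) :=
      calc _ ≤ b ^ (2 * t) * k := Nat.mul_le_mul_right _ (Nat.pow_le_pow_right b0 (by omega))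
        _ < _ := t3
        _ = _ := by ring
    have := Nat.lt_of_mul_lt_mul_left a1
    omega
  obtain ⟨W, hW⟩ := Nat.exists_eq_add_of_le t4
  have t5 : t ≤ M * b ^ 2 * b ^ W := by
    have a1 : b ^ (2 * t) * k < b ^ (2 * t) * (M * b ^ 2 * b ^ W) :=
      t3.trans_eq (by rw [hW]; ring)
    have := Nat.lt_of_mul_lt_mul_left a1
    omega
  have y2 : y ≤ b ^ t := by
    have := Nat.le_of_mul_le_mul_right (hy.trans t1) (by omega)
    rw [mul_comm 2, pow_mul] at this
    exact (Nat.pow_le_pow_iff_left (by norm_num)).1 this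
  have h1 := H t W t2 t5
  set X := rep b (t + W) * b ^ t with hX
  set S := (range (b ^ t)).filter fun u => (X + u) % b ≠ 0 ∧ ¬ Pm b (X + u) with hS
  have X1 : b ^ (k - 1) ≤ X := by
    have := (rep_bound hb (t + W - 1)).1
    rw [show t + W - 1 + 1 = t + W by omega] at this
    rw [show k - 1 = t + W - 1 + t by omega, pow_add]
    exact Nat.mul_le_mul_right _ this
  have X2 : X + b ^ t ≤ b ^ k := by
    rw [show k = t + W + t by omega, pow_add, hX, ← add_one_mul]
    exact Nat.mul_le_mul_right _ (rep_bound hb _).2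
  have yp : (0 : ℝ) < y := by exact_mod_cast y1
  obtain ⟨j, -, hj⟩ := exists_le_of_sum_le (s := range (b ^ t / y + 1)) (by simp)
    (f := fun _ => δ * y / 2) (g := fun j => ((S.filter fun u => u / y = j).card : ℝ)) (by
      rw [← Nat.cast_sum, ← card_eq_sum_card_fiberwise fun u hu => mem_range.2
        (Nat.lt_succ_of_le (Nat.div_le_div_right (mem_range.1 (mem_filter.1 hu).1).le)),
        sum_const, card_range, nsmul_eq_mul]
      have a1 : (b ^ t / y + 1) * y ≤ 2 * b ^ t := by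
        have := Nat.div_mul_le_self (b ^ t) y
        rw [add_mul]
        omega
      have a2 : ((b ^ t / y + 1 : ℕ) : ℝ) * y ≤ 2 * (b : ℝ) ^ t := by exact_mod_cast a1
      nlinarith [mul_le_mul_of_nonneg_left a2 hδ.le])
  have hu : ∀ u ∈ S.filter fun u => u / y = j, j * y ≤ u ∧ u < j * y + y := fun u hu => by
    rw [← (mem_filter.1 hu).2]
    exact ⟨Nat.div_mul_le_self _ _, Nat.lt_div_mul_add y1⟩
  have e1 : δ * y / 2 ≤ cE b (X + j * y) y := by
    refine hj.trans (Nat.cast_le.2 (card_le_card_of_injOn (X + ·) (fun u h => ?_)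
      fun _ _ _ _ e => Nat.add_left_cancel e))
    have := hu u h
    exact mem_coe.2 (mem_filter.2 ⟨mem_Ico.2 (by simp only; omega),
      (mem_filter.1 (mem_filter.1 h).1).2⟩)
  have d0 : 0 < δ * y := by positivity
  obtain ⟨u, u1⟩ := card_pos.1 (Nat.cast_pos.1 (lt_of_lt_of_le (by positivity) hj))
  have u2 := mem_range.1 (mem_filter.1 (mem_filter.1 u1).1).1
  have u3 := hu u u1
  refine ⟨X + j * y, by omega, by omega, lt_of_not_ge fun h => ?_⟩
  rw [dev hb ((Nat.pow_le_pow_right b0 (by omega)).trans (X1.trans (by omega))), abs_div,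
    abs_of_pos (by positivity : (0 : ℝ) < b), div_mul_eq_mul_div,
    div_le_div_iff_of_pos_right (by positivity), abs_le] at h
  have z1 : (y : ℝ) < b * cZ b (X + j * y) y + b := by exact_mod_cast (cZ_bound b0 _ y).1
  rcases le_or_gt 4 (δ * y) with h4 | h4
  · nlinarith [h.1, mul_le_mul_of_nonneg_left e1 (by positivity : (0 : ℝ) ≤ b)]
  · have a1 : y < b * cZ b (X + j * y) y + b * cE b (X + j * y) y + 1 := by
      have : (y : ℝ) < b * cZ b (X + j * y) y + b * cE b (X + j * y) y + 1 := by linarith [h.2]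
      exact_mod_cast this
    have a2 : b * cZ b (X + j * y) y + b * cE b (X + j * y) y < y + 1 := by
      have : (b : ℝ) * cZ b (X + j * y) y + b * cE b (X + j * y) y < y + 1 := by linarith [h.1]
      exact_mod_cast this
    have a3 := cZ_eq b0 (X + j * y) y
    have a4 : y = b * (cZ b (X + j * y) y + cE b (X + j * y) y) := by rw [mul_add]; omega
    have a5 : 0 < cE b (X + j * y) y := Nat.cast_pos.1 (lt_of_lt_of_le (by positivity) e1)
    generalize cZ b (X + j * y) y = Z at a3 a4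
    generalize cE b (X + j * y) y = E at a4 a5
    rw [a4, Nat.add_mul_div_left _ _ b0, ← a4] at a3
    omega

theorem main (hb : 2 ≤ b) (y : ℕ → ℕ) (hy : ∀ k, 1 ≤ y k) :
    (∀ ε : ℝ, 0 < ε → ∀ᶠ k in atTop, ∀ x : ℕ, b ^ (k - 1) ≤ x → x < b ^ k →
      |(cP b x (y k) : ℝ) - ((b : ℝ) - 1) / b * y k| ≤ ε * y k) ↔
    Tendsto (fun k : ℕ => (y k : ℝ) ^ 2 * k / (b : ℝ) ^ k) atTop atTop := by
  have bp : ∀ k : ℕ, (0 : ℝ) < (b : ℝ) ^ k := fun k => by positivity
  constructor
  · intro h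
    refine tendsto_atTop.2 fun r => ?_
    obtain ⟨M, hM⟩ := exists_nat_ge r
    obtain ⟨ε, hε, k₀, H⟩ := lower hb M
    filter_upwards [h ε hε, eventually_ge_atTop k₀] with k h1 h2
    refine hM.trans (le_of_not_gt fun h3 => ?_)
    rw [div_lt_iff₀ (bp k)] at h3
    obtain ⟨x, x1, x2, x3⟩ := H k h2 (y k) (by exact_mod_cast h3.le) (hy k)
    exact absurd (h1 x x1 x2) (not_le.2 x3)
  · intro h ε hε
    obtain ⟨Q, k₀, H⟩ := upper hb hε
    filter_upwards [h.eventually_ge_atTop Q, eventually_ge_atTop k₀] with k h1 h2 x x1 x2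
    rw [le_div_iff₀ (bp k)] at h1
    exact H k h2 x (y k) (by exact_mod_cast h1) (hy k) x1 x2

end Pool.Agent.Lib.MP_1d41ea_nt.S59
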