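import Mathlib

/-! Uniform random digit strings: counting, independence and positive correlation. -/

set_option autoImplicit false

namespace Pool.Agent.Lib.MP_1d41ea_nt.S59

open Finset Classical

variable {b t : ℕ}

/-- the digits of a word, padded with zeros -/
def dg (w : Fin t → Fin b) (i : ℕ) : ℕ := if h : i < t then (w ⟨i, h⟩ : ℕ) else 0

/-- indicator of a proposition -/
noncomputable def ind (P : Prop) : ℝ := if P then 1 else 0

lemma ind_pos {P : Prop} (h : P) : ind P = 1 := if_pos h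
lemma ind_neg {P : Prop} (h : ¬ P) : ind P = 0 := if_neg h
lemma ind_nonneg (P : Prop) : 0 ≤ ind P := by unfold ind; split_ifs <;> norm_num
lemma ind_mono {P Q : Prop} (h : P → Q) : ind P ≤ ind Q := by
  by_cases h1 : P
  · rw [ind_pos h1, ind_pos (h h1)]
  · rw [ind_neg h1]; exact ind_nonneg _
lemma ind_and (P Q : Prop) : ind (P ∧ Q) = ind P * ind Q := by
  by_cases h1 : P <;> by_cases h2 : Q <;> simp [ind, h1, h2]

/-- the proportion of words of length `t` with the property `E` -/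
noncomputable def pr (b t : ℕ) (E : (ℕ → ℕ) → Prop) : ℝ :=
  (∑ w : Fin t → Fin b, ind (E (dg w))) / (b : ℝ) ^ t

/-- `E` depends only on the digits at the positions `S` -/
def Dep (S : Finset ℕ) (E : (ℕ → ℕ) → Prop) : Prop :=
  ∀ d d' : ℕ → ℕ, (∀ i ∈ S, d i = d' i) → E d → E d'

/-- increasing properties -/
def Up (E : (ℕ → ℕ) → Prop) : Prop := ∀ d d' : ℕ → ℕ, (∀ i, d i ≤ d' i) → E d → E d'

variable {E F : (ℕ → ℕ) → Prop}

lemma pr_nonneg : 0 ≤ pr b t E :=
  div_nonneg (sum_nonneg fun _ _ => ind_nonneg _) (by positivity)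

lemma pr_mono (h : ∀ d, E d → F d) : pr b t E ≤ pr b t F :=
  div_le_div_of_nonneg_right (sum_le_sum fun _ _ => ind_mono (h _)) (by positivity)

lemma pr_congr (h : ∀ d, E d ↔ F d) : pr b t E = pr b t F :=
  le_antisymm (pr_mono fun d => (h d).1) (pr_mono fun d => (h d).2)

lemma pr_false (h : ∀ d, ¬ E d) : pr b t E = 0 := by simp [pr, ind, h]

lemma pr_add (h : ∀ d, E d → ¬ F d) : pr b t (fun d => E d ∨ F d) = pr b t E + pr b t F := by
  unfold pr
  rw [← add_div, ← sum_add_distrib]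
  congr 1
  refine sum_congr rfl fun w _ => ?_
  by_cases h1 : E (dg w)
  · simp [ind, h1, h _ h1]
  · simp [ind, h1]

lemma pr_or : pr b t (fun d => E d ∨ F d) ≤ pr b t E + pr b t F := by
  have h1 := pr_add (b := b) (t := t) (E := E) (F := fun d => F d ∧ ¬ E d) fun d h h' => h'.2 h
  have h2 : pr b t (fun d => F d ∧ ¬ E d) ≤ pr b t F := pr_mono fun d h => h.1
  have h3 : pr b t (fun d => E d ∨ F d) ≤ pr b t fun d => E d ∨ F d ∧ ¬ E d :=
    pr_mono fun d h => by tauto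
  linarith

lemma pr_or_le {x y : ℝ} (h1 : pr b t E ≤ x) (h2 : pr b t F ≤ y) :
    pr b t (fun d => E d ∨ F d) ≤ x + y := pr_or.trans (add_le_add h1 h2)

lemma pr_true (hb : 0 < b) (h : ∀ d, E d) : pr b t E = 1 := by
  have : (b : ℝ) ^ t ≠ 0 := by positivity
  simp [pr, ind, h, this]

lemma pr_not (hb : 0 < b) : pr b t (fun d => ¬ E d) = 1 - pr b t E := by
  have h1 := pr_add (b := b) (t := t) (E := E) (F := fun d => ¬ E d) fun d h h' => h' h
  rw [pr_true hb fun d => Classical.em _] at h1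
  linarith

lemma pr_exists {ι : Type} (I : Finset ι) (G : ι → (ℕ → ℕ) → Prop) :
    pr b t (fun d => ∃ i ∈ I, G i d) ≤ ∑ i ∈ I, pr b t (G i) := by
  induction I using Finset.induction_on with
  | empty => simp [pr_false]
  | insert a I ha ih =>
    rw [sum_insert ha]
    exact (pr_mono fun d h => by simpa using h).trans (pr_or_le le_rfl ih)

lemma pr_exists_le {ι : Type} (I : Finset ι) (G : ι → (ℕ → ℕ) → Prop) {x : ℝ}
    (h : ∀ i ∈ I, pr b t (G i) ≤ x) : pr b t (fun d => ∃ i ∈ I, G i d) ≤ I.card * x :=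
  (pr_exists I G).trans (by simpa using sum_le_card_nsmul I _ x h)

lemma pr_exists_eq {ι : Type} (I : Finset ι) (G : ι → (ℕ → ℕ) → Prop)
    (h : ∀ i ∈ I, ∀ j ∈ I, i ≠ j → ∀ d, G i d → ¬ G j d) :
    pr b t (fun d => ∃ i ∈ I, G i d) = ∑ i ∈ I, pr b t (G i) := by
  induction I using Finset.induction_on with
  | empty => simp [pr_false]
  | insert a I ha ih =>
    rw [sum_insert ha, ← ih fun i hi j hj => h i (mem_insert_of_mem hi) j (mem_insert_of_mem hj),
      ← pr_add]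
    · exact pr_congr fun d => by simp
    · rintro d h1 ⟨j, hj, h2⟩
      exact h a (mem_insert_self _ _) j (mem_insert_of_mem hj) (fun e => ha (e ▸ hj)) d h1 h2

lemma pr_and (hb : 0 < b) {S S' : Finset ℕ} (hE : Dep S E) (hF : Dep S' F) (h : Disjoint S S') :
    pr b t (fun d => E d ∧ F d) = pr b t E * pr b t F := by
  let m : (Fin t → Fin b) → (Fin t → Fin b) → Fin t → Fin b :=
    fun w w' i => if (i : ℕ) ∈ S then w i else w' i
  have h1 : ∀ w w', ∀ i ∈ S, dg (m w w') i = dg w i := fun w w' i hi => by simp [dg, m, hi]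
  have h2 : ∀ w w', ∀ i ∈ S', dg (m w w') i = dg w' i := fun w w' i hi => by
    simp [dg, m, disjoint_right.1 h hi]
  let φ : (Fin t → Fin b) × (Fin t → Fin b) → (Fin t → Fin b) × (Fin t → Fin b) :=
    fun p => (m p.1 p.2, m p.2 p.1)
  have hφ : Function.Involutive φ := fun p => by
    ext i <;> simp only [φ, m] <;> split_ifs <;> rfl
  have key := Equiv.sum_comp hφ.toPerm (fun p => ind (E (dg p.1) ∧ F (dg p.1)))
  have e : ∀ p, ind (E (dg (hφ.toPerm φ p).1) ∧ F (dg (hφ.toPerm φ p).1)) =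
      ind (E (dg p.1)) * ind (F (dg p.2)) := by
    intro p
    have a1 : E (dg (m p.1 p.2)) ↔ E (dg p.1) :=
      ⟨hE _ _ (h1 _ _), hE _ _ fun i hi => (h1 _ _ i hi).symm⟩
    have a2 : F (dg (m p.1 p.2)) ↔ F (dg p.2) :=
      ⟨hF _ _ (h2 _ _), hF _ _ fun i hi => (h2 _ _ i hi).symm⟩
    simp only [Function.Involutive.coe_toPerm, φ, a1, a2, ind_and]
  rw [sum_congr rfl fun p _ => e p, Fintype.sum_prod_type, Fintype.sum_prod_type] at key
  dsimp only at key
  rw [← Finset.sum_mul_sum] at key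
  have hb' : (b : ℝ) ^ t ≠ 0 := by positivity
  unfold pr
  rw [div_mul_div_comm, key, div_eq_div_iff hb' (mul_ne_zero hb' hb')]
  simp only [sum_const, card_univ, Fintype.card_pi, Fintype.card_fin, prod_const, nsmul_eq_mul,
    ← mul_sum]
  push_cast
  ring

lemma pr_forall (hb : 0 < b) {ι : Type} (J : Finset ι) (S : ι → Finset ℕ)
    (G : ι → (ℕ → ℕ) → Prop) (hG : ∀ j ∈ J, Dep (S j) (G j))
    (h : ∀ i ∈ J, ∀ j ∈ J, i ≠ j → Disjoint (S i) (S j)) :
    pr b t (fun d => ∀ j ∈ J, G j d) = ∏ j ∈ J, pr b t (G j) := by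
  induction J using Finset.induction_on with
  | empty => simp [pr_true hb]
  | insert a J ha ih =>
    rw [prod_insert ha, ← ih (fun j hj => hG j (mem_insert_of_mem hj))
      fun i hi j hj => h i (mem_insert_of_mem hi) j (mem_insert_of_mem hj),
      ← pr_and hb (hG a (mem_insert_self _ _)) (S' := J.biUnion S)]
    · exact pr_congr fun d => by simp
    · exact fun d d' e H j hj => hG j (mem_insert_of_mem hj) d d'
        (fun i hi => e i (mem_biUnion.2 ⟨j, hj, hi⟩)) (H j hj)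
    · exact (disjoint_biUnion_right _ _ _).2 fun j hj =>
        h a (mem_insert_self _ _) j (mem_insert_of_mem hj) fun e => ha (e ▸ hj)

lemma pr_digit (hb : 0 < b) {i a : ℕ} (hi : i < t) (ha : a < b) :
    pr b t (fun d => d i = a) = 1 / b := by
  have h1 : ∀ c : Fin b, pr b t (fun d => d i = c) = pr b t (fun d => d i = a) := fun c => by
    unfold pr
    congr 1
    refine Fintype.sum_equiv (Equiv.piCongrRight fun _ => Equiv.swap c ⟨a, ha⟩) _ _ fun w => ?_
    congr 1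
    apply propext
    simp only [dg, hi, dif_pos, Equiv.piCongrRight_apply, Pi.map_apply]
    rw [← Fin.ext_iff, show ∀ x : Fin b, (x : ℕ) = a ↔ x = ⟨a, ha⟩ from fun x => (Fin.ext_iff (b := ⟨a, ha⟩)).symm,
      Equiv.swap_apply_eq_iff, Equiv.swap_apply_right]
  have h2 := pr_exists_eq (b := b) (t := t) univ (fun (c : Fin b) d => d i = c)
    fun c _ c' _ hc d e e' => hc (Fin.ext (e.symm.trans e'))
  have h3 : pr b t (fun d => ∃ c ∈ (univ : Finset (Fin b)), d i = c) = 1 := by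
    have : (b : ℝ) ^ t ≠ 0 := by positivity
    simp [pr, ind, dg, hi, this, Fin.val_inj]
  rw [h3, sum_congr rfl fun c _ => h1 c] at h2
  have hb' : (b : ℝ) ≠ 0 := by positivity
  simp only [sum_const, card_univ, Fintype.card_fin, nsmul_eq_mul] at h2
  field_simp
  linarith

lemma pr_ne (hb : 0 < b) {i a : ℕ} (hi : i < t) (ha : a < b) :
    pr b t (fun d => d i ≠ a) = 1 - 1 / b := by
  rw [← pr_digit hb hi ha, ← pr_not hb]

lemma pr_each (hb : 0 < b) (Z : Finset ℕ) (φ : ℕ → ℕ → Prop) :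
    pr b t (fun d => ∀ i ∈ Z, φ i (d i)) = ∏ i ∈ Z, pr b t fun d => φ i (d i) :=
  pr_forall hb Z (fun i => {i}) (fun i d => φ i (d i))
    (fun i _ d d' e h => by simpa only [← e i (mem_singleton_self _)] using h)
    fun _ _ _ _ h => disjoint_singleton.2 h

lemma pr_zeros (hb : 0 < b) {Z : Finset ℕ} (hZ : ∀ i ∈ Z, i < t) :
    pr b t (fun d => ∀ i ∈ Z, d i = 0) = (1 / b) ^ Z.card := by
  rw [pr_each hb Z fun _ a => a = 0, prod_congr rfl fun i hi => pr_digit hb (hZ i hi) hb,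
    prod_const]

lemma pr_nes (hb : 0 < b) {Z : Finset ℕ} (hZ : ∀ i ∈ Z, i < t) {a : ℕ} (ha : a < b) :
    pr b t (fun d => ∀ i ∈ Z, d i ≠ a) = (1 - 1 / b) ^ Z.card := by
  rw [pr_each hb Z fun _ c => c ≠ a, prod_congr rfl fun i hi => pr_ne hb (hZ i hi) ha, prod_const]

lemma inv_le (hb : 2 ≤ b) : (1 : ℝ) / b ≤ 1 / 2 :=
  one_div_le_one_div_of_le (by norm_num) (by exact_mod_cast hb)

lemma pr_iff (hb : 2 ≤ b) {i : ℕ} (hi : i < t) (q : Prop) :
    1 / b ≤ pr b t (fun d => d i ≠ 0 ↔ q) ∧ pr b t (fun d => d i ≠ 0 ↔ q) ≤ 1 - 1 / b := by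
  have h := inv_le hb
  by_cases hq : q
  · rw [pr_congr (F := fun d => d i ≠ 0) (by simp [hq]), pr_ne (by omega) hi (by omega)]
    constructor <;> linarith
  · rw [pr_congr (F := fun d => d i = 0) (by simp [hq]), pr_digit (by omega) hi (by omega)]
    constructor <;> linarith

lemma pr_pat (hb : 2 ≤ b) {Z : Finset ℕ} (hZ : ∀ i ∈ Z, i < t) (q : ℕ → Prop) :
    (1 / b) ^ Z.card ≤ pr b t (fun d => ∀ i ∈ Z, d i ≠ 0 ↔ q i) ∧
      pr b t (fun d => ∀ i ∈ Z, d i ≠ 0 ↔ q i) ≤ (1 - 1 / b) ^ Z.card := by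
  rw [pr_each (by omega) Z fun i a => a ≠ 0 ↔ q i, ← prod_const, ← prod_const]
  exact ⟨prod_le_prod (fun _ _ => by positivity) fun i hi => (pr_iff hb (hZ i hi) _).1,
    prod_le_prod (fun _ _ => pr_nonneg) fun i hi => (pr_iff hb (hZ i hi) _).2⟩

/-- disjoint patterns that are all avoided -/
lemma pr_avoid (hb : 0 < b) {ι : Type} (J : Finset ι) (S : ι → Finset ℕ)
    (G : ι → (ℕ → ℕ) → Prop) (hG : ∀ j ∈ J, Dep (S j) (G j))
    (h : ∀ i ∈ J, ∀ j ∈ J, i ≠ j → Disjoint (S i) (S j)) {x : ℝ} (hx : ∀ j ∈ J, x ≤ pr b t (G j)) :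
    pr b t (fun d => ∀ j ∈ J, ¬ G j d) ≤ (1 - x) ^ J.card := by
  rw [pr_forall hb J S (fun j d => ¬ G j d)
    (fun j hj d d' e h1 h2 => h1 (hG j hj d' d (fun i hi => (e i hi).symm) h2)) h, ← prod_const]
  exact prod_le_prod (fun _ _ => pr_nonneg) fun j hj => by
    rw [pr_not hb]
    linarith [hx j hj]

lemma pr_fkg (hb : 0 < b) (hE : Up E) (hF : Up F) :
    pr b t E * pr b t F ≤ pr b t fun d => E d ∧ F d := by
  have hm : ∀ {G : (ℕ → ℕ) → Prop}, Up G → Monotone fun w : Fin t → Fin b => ind (G (dg w)) :=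
    fun hG w w' hw => ind_mono (hG _ _ fun i => by
      unfold dg
      split_ifs
      · exact hw _
      · exact le_rfl)
  have key := fkg (μ := fun _ => (1 : ℝ)) _ _ (fun _ => zero_le_one) (fun _ => ind_nonneg _)
    (fun _ => ind_nonneg _) (hm hE) (hm hF) fun _ _ => le_rfl
  have hb' : (0 : ℝ) < (b : ℝ) ^ t := by positivity
  unfold pr
  rw [div_mul_div_comm, div_le_div_iff₀ (mul_pos hb' hb') hb']
  simp only [one_mul, sum_const, card_univ, Fintype.card_pi, Fintype.card_fin, prod_const,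
    nsmul_eq_mul, mul_one, Nat.cast_pow, ← ind_and] at key
  refine (mul_le_mul_of_nonneg_right key hb'.le).trans (le_of_eq ?_)
  ring

lemma pr_fkg_all (hb : 0 < b) {ι : Type} (J : Finset ι) (G : ι → (ℕ → ℕ) → Prop)
    (hG : ∀ j, Up (G j)) : ∏ j ∈ J, pr b t (G j) ≤ pr b t fun d => ∀ j ∈ J, G j d := by
  induction J using Finset.induction_on with
  | empty => simp [pr_true hb]
  | insert a J ha ih =>
    rw [prod_insert ha]
    refine (mul_le_mul_of_nonneg_left ih pr_nonneg).trans ((pr_fkg hb (hG a) (F := fun d => ∀ j ∈ J, G j d)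
      fun d d' e H j hj => hG j d d' e (H j hj)).trans (pr_mono fun d h => by simpa using h))

lemma card_eq_pr (hb : 0 < b) (E : (ℕ → ℕ) → Prop) :
    (((range (b ^ t)).filter fun u => E fun i => u / b ^ i % b).card : ℝ) =
      pr b t E * (b : ℝ) ^ t := by
  have hb' : (b : ℝ) ^ t ≠ 0 := by positivity
  rw [pr, div_mul_cancel₀ _ hb', card_filter, sum_range]
  push_cast
  refine Fintype.sum_equiv finFunctionFinEquiv.symm _ _ fun u => ?_
  have : (fun i => (u : ℕ) / b ^ i % b) = dg (finFunctionFinEquiv.symm u) := by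
    funext i
    unfold dg
    split_ifs with h
    · rfl
    · rw [Nat.div_eq_of_lt (u.2.trans_le (Nat.pow_le_pow_right hb (by omega))), Nat.zero_mod]
  rw [this, ind]

lemma card_le_pr (hb : 0 < b) {S : Finset ℕ}
    (h : ∀ u ∈ S, u < b ^ t ∧ E fun i => u / b ^ i % b) : (S.card : ℝ) ≤ pr b t E * (b : ℝ) ^ t := by
  rw [← card_eq_pr hb]
  exact Nat.cast_le.2 (card_le_card fun u hu => mem_filter.2 ⟨mem_range.2 (h u hu).1, (h u hu).2⟩)

lemma pr_le_card (hb : 0 < b) {S : Finset ℕ}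
    (h : ∀ u < b ^ t, (E fun i => u / b ^ i % b) → u ∈ S) : pr b t E * (b : ℝ) ^ t ≤ S.card := by
  rw [← card_eq_pr hb]
  exact Nat.cast_le.2 (card_le_card fun u hu =>
    h u (mem_range.1 (mem_filter.1 hu).1) (mem_filter.1 hu).2)

end Pool.Agent.Lib.MP_1d41ea_nt.S59
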