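import Pool.Agent.Lib.MP_1d41ea_nt.S59Prob

/-! A random digit string is rarely a truncated sumset of two sets with small nonzero elements. -/

set_option autoImplicit false

namespace Pool.Agent.Lib.MP_1d41ea_nt.S59

open Finset Classical Filter

variable {b t : ℕ}

/-- below `t` the support is `B + C`, and both sets have a nonzero element below `K` -/
def Tr (K t : ℕ) (d : ℕ → ℕ) : Prop :=
  ∃ B C : ℕ → Prop, B 0 ∧ C 0 ∧ (∃ β, 1 ≤ β ∧ β < K ∧ B β) ∧ (∃ γ, 1 ≤ γ ∧ γ < K ∧ C γ) ∧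
    ∀ x < t, (d x ≠ 0 ↔ ∃ i j, i + j = x ∧ B i ∧ C j)

lemma greedy {P : Finset ℕ} (hP : P.Nonempty) (S : Finset ℕ) : ∃ X ⊆ S,
    S.card ≤ P.card ^ 2 * X.card ∧
      ∀ x ∈ X, ∀ y ∈ X, x ≠ y → ∀ a ∈ P, ∀ a' ∈ P, x + a ≠ y + a' := by
  induction S using Finset.strongInduction with
  | H S ih =>
    rcases S.eq_empty_or_nonempty with rfl | ⟨x, hx⟩
    · exact ⟨∅, by simp, by simp, by simp⟩
    obtain ⟨a₀, h₀⟩ := hP
    have hn : x ∉ S.filter fun y => ∀ a ∈ P, ∀ a' ∈ P, x + a ≠ y + a' :=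
      fun h => (mem_filter.1 h).2 a₀ h₀ a₀ h₀ rfl
    obtain ⟨X, h1, h2, h3⟩ := ih _ ⟨filter_subset _ _, fun h => hn (h hx)⟩
    have h4 := card_filter_add_card_filter_not (s := S)
      fun y => ∀ a ∈ P, ∀ a' ∈ P, x + a ≠ y + a'
    have h5 : (S.filter fun y => ¬ ∀ a ∈ P, ∀ a' ∈ P, x + a ≠ y + a').card ≤ P.card ^ 2 := by
      rw [sq, ← card_product]
      refine (card_le_card fun y hy => ?_).trans
        (card_image_le (f := fun p : ℕ × ℕ => x + p.1 - p.2))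
      have := (mem_filter.1 hy).2
      push Not at this
      obtain ⟨a, ha, a', ha', e⟩ := this
      exact mem_image.2 ⟨(a, a'), mem_product.2 ⟨ha, ha'⟩, by simp only; omega⟩
    refine ⟨insert x X, insert_subset hx (h1.trans (filter_subset _ _)), ?_, ?_⟩
    · rw [card_insert_of_notMem fun h => hn (h1 h), mul_add]
      omega
    · intro u hu v hv huv a ha a' ha'
      rcases mem_insert.1 hu with rfl | hu' <;> rcases mem_insert.1 hv with rfl | hv'
      · exact absurd rfl huv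
      · exact (mem_filter.1 (h1 hv')).2 a ha a' ha'
      · exact ((mem_filter.1 (h1 hu')).2 a' ha' a ha).symm
      · exact h3 u hu' v hv' huv a ha a' ha'

/-- subsets of `range s` with at most `j` elements -/
def sm (s j : ℕ) : Finset (Finset ℕ) := (range s).powerset.filter fun X => X.card ≤ j

lemma mem_sm {s j : ℕ} {X : Finset ℕ} : X ∈ sm s j ↔ (∀ x ∈ X, x < s) ∧ X.card ≤ j := by
  simp [sm, subset_iff]

lemma card_sm (s j : ℕ) {l : ℝ} (h0 : 0 < l) (h1 : l ≤ 1) :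
    ((sm s j).card : ℝ) ≤ (1 + l) ^ s / l ^ j := by
  rw [le_div_iff₀ (by positivity), ← nsmul_eq_mul, ← sum_const]
  calc _ ≤ ∑ X ∈ sm s j, l ^ X.card :=
        sum_le_sum fun X hX => pow_le_pow_of_le_one h0.le h1 (mem_sm.1 hX).2
    _ ≤ ∑ X ∈ (range s).powerset, l ^ X.card :=
        sum_le_sum_of_subset_of_nonneg (filter_subset _ _) fun _ _ _ => by positivity
    _ = _ := by simpa [add_comm] using sum_pow_mul_eq_add_pow l 1 (range s)

lemma one_add_pow_le {c : ℕ} (hc : 1 ≤ c) : (1 + 1 / (c : ℝ)) ^ c ≤ 3 := by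
  have h : (0 : ℝ) < c := by exact_mod_cast hc
  calc _ ≤ Real.exp (1 / c) ^ c :=
        pow_le_pow_left₀ (by positivity) (by linarith [Real.add_one_le_exp (1 / (c : ℝ))]) _
    _ = Real.exp 1 := by rw [← Real.exp_nat_mul, mul_one_div_cancel h.ne']
    _ ≤ 3 := by linarith [Real.exp_one_lt_d9]

lemma card_sm' {c : ℕ} (hc : 1 ≤ c) (m j : ℕ) :
    ((sm (c * m) j).card : ℝ) ≤ 3 ^ m * (c : ℝ) ^ j := by
  have h : (1 : ℝ) ≤ c := by exact_mod_cast hc
  refine (card_sm _ _ (l := 1 / c) (by positivity) ((div_le_one (by linarith)).2 h)).trans ?_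
  rw [one_div_pow, div_div_eq_mul_div, div_one, pow_mul]
  gcongr
  exact one_add_pow_le hc

lemma pr_few (hb : 2 ≤ b) {s R m β : ℕ} (hs : 2 * s ≤ t) (hm : R ^ 2 * m ≤ s) {B : Finset ℕ}
    (hB : B.card + 1 ≤ R) (h0 : 0 ∈ B) (h1 : 1 ≤ β) (h2 : β < s) :
    pr b t (fun d => ∀ x < s, d x ≠ 0 → d (x + β) ≠ 0 ∨ ∃ i ∈ B, 1 ≤ i ∧ i ≤ x ∧ d (x - i) ≠ 0) ≤
      (1 - (1 / b) ^ R) ^ m := by
  set P := insert (s + β) (B.image fun i => s - i) with hP
  have hPc : P.card ≤ R := (card_insert_le _ _).trans (by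
    have : (B.image fun i => s - i).card ≤ B.card := card_image_le
    omega)
  obtain ⟨X, x1, x2, x3⟩ := greedy (P := P) ⟨_, mem_insert_self _ _⟩ (range s)
  have hX : m ≤ X.card := by
    rw [card_range] at x2
    have := hm.trans (x2.trans (Nat.mul_le_mul_right _ (Nat.pow_le_pow_left hPc 2)))
    exact Nat.le_of_mul_le_mul_left this (pow_pos (by omega) 2)
  let D : ℕ → Finset ℕ := fun x => (range t).filter fun z => ∃ a ∈ P, z + s = x + a
  have hb1 := inv_le hb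
  have hb0 : (0 : ℝ) ≤ 1 / b := by positivity
  have hR : (1 / (b : ℝ)) ^ R ≤ 1 := pow_le_one₀ hb0 (by linarith)
  refine le_trans (pr_mono ?_) ((pr_avoid (by omega) X D (fun x d => ∀ z ∈ D x, d z ≠ 0 ↔ z = x)
    (fun x _ d d' e h z hz => by rw [← e z hz]; exact h z hz) ?_ (x := (1 / b) ^ R) ?_).trans
    (pow_le_pow_of_le_one (by linarith) (by linarith [pow_nonneg hb0 R]) hX))
  · intro d h x hx hG
    have hx' := mem_range.1 (x1 hx)
    have hD : ∀ z a, z < t → a ∈ P → z + s = x + a → z ∈ D x := fun z a z1 z2 z3 =>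
      mem_filter.2 ⟨mem_range.2 z1, a, z2, z3⟩
    rcases h x hx' ((hG x (hD x s (by omega) (mem_insert_of_mem
      (mem_image.2 ⟨0, h0, rfl⟩)) rfl)).2 rfl) with h3 | ⟨i, hi, i1, i2, h3⟩
    · have := (hG _ (hD _ _ (by omega) (mem_insert_self _ _) (by omega))).1 h3
      omega
    · have := (hG _ (hD _ (s - i) (by omega) (mem_insert_of_mem (mem_image.2 ⟨i, hi, rfl⟩))
        (by omega))).1 h3
      omega
  · intro x hx y hy hxy
    refine disjoint_left.2 fun z z1 z2 => ?_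
    obtain ⟨a, ha, e⟩ := (mem_filter.1 z1).2
    obtain ⟨a', ha', e'⟩ := (mem_filter.1 z2).2
    exact x3 x hx y hy hxy a ha a' ha' (e.symm.trans e')
  · intro x _
    refine le_trans (pow_le_pow_of_le_one hb0 (by linarith) ?_)
      (pr_pat hb (fun z hz => mem_range.1 (mem_filter.1 hz).1) _).1
    refine le_trans ((card_le_card fun z hz => ?_).trans
      (card_image_le (s := P) (f := fun a => x + a - s))) hPc
    obtain ⟨a, ha, e⟩ := (mem_filter.1 hz).2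
    exact mem_image.2 ⟨a, ha, by omega⟩

/-- one summand has few elements -/
def E1 (s R : ℕ) (d : ℕ → ℕ) : Prop := ∃ q ∈ (sm s R ×ˢ range s).filter
    fun q => q.1.card + 1 ≤ R ∧ 0 ∈ q.1 ∧ 1 ≤ q.2, ∀ x < s, d x ≠ 0 →
      d (x + q.2) ≠ 0 ∨ ∃ i ∈ q.1, 1 ≤ i ∧ i ≤ x ∧ d (x - i) ≠ 0

/-- many disjoint translates of a fixed set -/
def E2 (s R m : ℕ) (d : ℕ → ℕ) : Prop := ∃ q ∈ (sm s R ×ˢ sm s m).filter
    fun q => (image₂ (· + ·) q.1 q.2).card = R * m, ∀ z ∈ image₂ (· + ·) q.1 q.2, d z ≠ 0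

/-- both summands are sparse -/
def E3 (s j : ℕ) (d : ℕ → ℕ) : Prop := ∃ q ∈ sm s j ×ˢ sm s j,
  ∀ x ∈ range s, d x ≠ 0 ↔ ∃ i ∈ q.1, ∃ j ∈ q.2, i + j = x

lemma toE1 {s R : ℕ} (hs : 2 * s ≤ t) {d : ℕ → ℕ} {B C : ℕ → Prop} (hB : B 0) {β : ℕ} (h1 : 1 ≤ β)
    (h2 : β < s) (h3 : B β) (h : ∀ x < t, (d x ≠ 0 ↔ ∃ i j, i + j = x ∧ B i ∧ C j))
    (hc : ((range s).filter B).card < R) : E1 s R d := by
  refine ⟨((range s).filter B, β), mem_filter.2 ⟨mem_product.2 ⟨mem_sm.2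
    ⟨fun x hx => mem_range.1 (mem_filter.1 hx).1, hc.le⟩, mem_range.2 h2⟩, hc,
    mem_filter.2 ⟨mem_range.2 (by omega), hB⟩, h1⟩, fun x hx hd => ?_⟩
  obtain ⟨i, j, e, hi, hj⟩ := (h x (by omega)).1 hd
  rcases Nat.eq_zero_or_pos i with rfl | hi0
  · exact Or.inl ((h _ (by simp only; omega)).2 ⟨β, j, by simp only; omega, h3, hj⟩)
  · exact Or.inr ⟨i, mem_filter.2 ⟨mem_range.2 (by omega), hi⟩, hi0, by omega,
      (h _ (by omega)).2 ⟨0, j, by omega, hB, hj⟩⟩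

lemma toE2 {s R m : ℕ} (hR : 1 ≤ R) (hs : 2 * s ≤ t) {d : ℕ → ℕ} {B C : ℕ → Prop}
    (h : ∀ x < t, (d x ≠ 0 ↔ ∃ i j, i + j = x ∧ B i ∧ C j))
    (hB : R ≤ ((range s).filter B).card) (hC : R ^ 2 * m ≤ ((range s).filter C).card) :
    E2 s R m d := by
  obtain ⟨P, p1, p2⟩ := exists_subset_card_eq hB
  obtain ⟨X', x1, x2, x3⟩ := greedy (P := P) (card_pos.1 (by omega)) ((range s).filter C)
  obtain ⟨X, y1, y2⟩ := exists_subset_card_eq (s := X') (n := m)
    (Nat.le_of_mul_le_mul_left (hC.trans (p2 ▸ x2)) (by positivity))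
  have hP : ∀ a ∈ P, a < s ∧ B a := fun a ha => by simpa using p1 ha
  have hX : ∀ a ∈ X, a < s ∧ C a := fun a ha => by simpa using x1 (y1 ha)
  refine ⟨(P, X), mem_filter.2 ⟨mem_product.2 ⟨mem_sm.2 ⟨fun a ha => (hP a ha).1, p2.le⟩,
    mem_sm.2 ⟨fun a ha => (hX a ha).1, y2.le⟩⟩, ?_⟩, fun z hz => ?_⟩
  · rw [← p2, ← y2]
    refine card_image₂_iff.2 ?_
    rintro ⟨a, x⟩ ⟨ha, hx⟩ ⟨a', y⟩ ⟨ha', hy⟩ e
    simp only at e
    obtain rfl : x = y := by_contra fun hn => x3 x (y1 hx) y (y1 hy) hn a ha a' ha' (by omega)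
    obtain rfl : a = a' := by omega
    rfl
  · obtain ⟨a, ha, x, hx, rfl⟩ := mem_image₂.1 hz
    have := (hP a ha).1
    have := (hX x hx).1
    exact (h _ (by omega)).2 ⟨a, x, rfl, (hP a ha).2, (hX x hx).2⟩

lemma tr_cases {K s R m : ℕ} (hR : 1 ≤ R) (hK : K ≤ s) (hs : 2 * s ≤ t) {d : ℕ → ℕ}
    (h : Tr K t d) : E1 s R d ∨ E2 s R m d ∨ E3 s (R ^ 2 * m) d := by
  obtain ⟨B, C, hB, hC, ⟨β, b1, b2, b3⟩, ⟨γ, c1, c2, c3⟩, h⟩ := h
  have h' : ∀ x < t, (d x ≠ 0 ↔ ∃ i j, i + j = x ∧ C i ∧ B j) := fun x hx => (h x hx).trans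
    ⟨fun ⟨i, j, e, u, v⟩ => ⟨j, i, by omega, v, u⟩, fun ⟨i, j, e, u, v⟩ => ⟨j, i, by omega, v, u⟩⟩
  rcases lt_or_ge ((range s).filter B).card R with h1 | h1
  · exact Or.inl (toE1 hs hB b1 (by omega) b3 h h1)
  rcases lt_or_ge ((range s).filter C).card R with h2 | h2
  · exact Or.inl (toE1 hs hC c1 (by omega) c3 h' h2)
  rcases le_or_gt (R ^ 2 * m) ((range s).filter C).card with h3 | h3
  · exact Or.inr (Or.inl (toE2 hR hs h h1 h3))
  rcases le_or_gt (R ^ 2 * m) ((range s).filter B).card with h4 | h4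
  · exact Or.inr (Or.inl (toE2 hR hs h' h2 h4))
  refine Or.inr (Or.inr ⟨((range s).filter B, (range s).filter C), mem_product.2
    ⟨mem_sm.2 ⟨fun x hx => mem_range.1 (mem_filter.1 hx).1, h4.le⟩,
      mem_sm.2 ⟨fun x hx => mem_range.1 (mem_filter.1 hx).1, h3.le⟩⟩, fun x hx => ?_⟩)
  have hx' := mem_range.1 hx
  rw [h x (by omega)]
  exact ⟨fun ⟨i, j, e, u, v⟩ => ⟨i, mem_filter.2 ⟨mem_range.2 (by omega), u⟩, j,
    mem_filter.2 ⟨mem_range.2 (by omega), v⟩, e⟩,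
    fun ⟨i, u, j, v, e⟩ => ⟨i, j, e, (mem_filter.1 u).2, (mem_filter.1 v).2⟩⟩

theorem small (hb : 2 ≤ b) (K : ℕ) {ε : ℝ} (hε : 0 < ε) :
    ∃ t₀, ∀ t ≥ t₀, pr b t (Tr K t) ≤ ε := by
  have hb1 := inv_le hb
  have hb0 : (0 : ℝ) < 1 / b := by positivity
  set u : ℝ := 1 / b with hu
  obtain ⟨M', hM'⟩ := exists_pow_lt_of_lt_one (x := (u / 4) ^ 2 / 2) (y := (1 + u / 4) ^ 2 * (1 - u))
    (by positivity) (by nlinarith [mul_pos hb0 hb0, mul_pos (mul_pos hb0 hb0) hb0])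
  have hM : 1 ≤ M' := Nat.pos_of_ne_zero fun e => by
    rw [e, pow_zero] at hM'
    nlinarith
  have l1 := (tendsto_pow_const_mul_const_pow_of_abs_lt_one 2 (r := 1 - u)
    (abs_lt.2 ⟨by linarith, by linarith⟩)).const_mul (3 * (M' : ℝ))
  rw [mul_zero] at l1
  obtain ⟨R, hR, hR1⟩ := ((l1.eventually (gt_mem_nhds (by norm_num : (0 : ℝ) < 1 / 2))).and
    (eventually_ge_atTop 1)).exists
  have huR : u ^ R ≤ 1 / 2 := (pow_le_of_le_one hb0.le (by linarith) (by omega)).trans hb1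
  have huR0 : 0 < u ^ R := by positivity
  set c := M' * R ^ 2 with hc
  have hc1 : 1 ≤ c := Nat.mul_pos hM (by positivity)
  have l2 := (tendsto_pow_const_mul_const_pow_of_abs_lt_one (R + 1) (r := 1 - u ^ R)
    (abs_lt.2 ⟨by linarith, by linarith⟩)).const_mul (7 * (c : ℝ) ^ (R + 1))
  rw [mul_zero] at l2
  obtain ⟨m₀, hm₀⟩ := eventually_atTop.1 (l2.eventually (gt_mem_nhds hε))
  refine ⟨2 * c * (m₀ + K + 1), fun t ht => ?_⟩
  set m := t / (2 * c) with hm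
  have hm1 : m₀ + K + 1 ≤ m := (Nat.le_div_iff_mul_le (by omega)).2 (by rwa [mul_comm])
  have hs : 2 * (c * m) ≤ t := by
    rw [← mul_assoc]
    exact Nat.mul_div_le _ _
  have hms : m ≤ c * m := Nat.le_mul_of_pos_left _ hc1
  set s := c * m with hs'
  have hs1 : (1 : ℝ) ≤ s := by exact_mod_cast (by omega : 1 ≤ s)
  have hsm : ((sm s R).card : ℝ) ≤ 3 * (s : ℝ) ^ R := by
    simpa using card_sm' (c := s) (by omega) 1 R
  have hh : (1 / 2 : ℝ) ^ m ≤ (1 - u ^ R) ^ m := pow_le_pow_left₀ (by norm_num) (by linarith) _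
  have hρ : 0 ≤ (1 - u ^ R) ^ m := pow_nonneg (by linarith) _
  have a1 : pr b t (E1 s R) ≤ 3 * (s : ℝ) ^ (R + 1) * (1 - u ^ R) ^ m := by
    refine (pr_exists_le _ _ fun q hq => ?_).trans (mul_le_mul_of_nonneg_right ?_ hρ)
    · obtain ⟨q1, q2, q3, q4⟩ := mem_filter.1 hq
      refine pr_few hb hs ?_ q2 q3 q4 (mem_range.1 (mem_product.1 q1).2)
      exact Nat.mul_le_mul_right _ (Nat.le_mul_of_pos_left _ hM)
    · refine (Nat.cast_le.2 (card_filter_le _ _)).trans ?_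
      rw [card_product, card_range, Nat.cast_mul (sm s R).card, pow_succ, ← mul_assoc (3 : ℝ)]
      exact mul_le_mul_of_nonneg_right hsm (by positivity)
  have a2 : pr b t (E2 s R m) ≤ 3 * (s : ℝ) ^ (R + 1) * (1 - u ^ R) ^ m := by
    refine (pr_exists_le _ _ (x := (1 - u) ^ (R * m)) fun q hq => ?_).trans ?_
    · obtain ⟨q1, q2⟩ := mem_filter.1 hq
      rw [pr_nes (by omega) (fun z hz => ?_) (by omega), q2]
      obtain ⟨a, ha, x, hx, rfl⟩ := mem_image₂.1 hz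
      have := (mem_sm.1 (mem_product.1 q1).1).1 a ha
      have := (mem_sm.1 (mem_product.1 q1).2).1 x hx
      omega
    · have h1 : (0 : ℝ) ≤ 1 - u := by linarith
      calc _ ≤ (3 * (s : ℝ) ^ R * (3 ^ m * (c : ℝ) ^ m)) * (1 - u) ^ (R * m) := by
            refine mul_le_mul_of_nonneg_right ((Nat.cast_le.2 (card_filter_le _ _)).trans ?_)
              (by positivity)
            rw [card_product]
            push_cast
            exact mul_le_mul hsm (card_sm' hc1 m m) (by positivity) (by positivity)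
        _ = 3 * (s : ℝ) ^ R * (3 * (M' : ℝ) * ((R : ℝ) ^ 2 * (1 - u) ^ R)) ^ m := by
            rw [hc]; push_cast; simp only [mul_pow, pow_mul]; ring
        _ ≤ 3 * (s : ℝ) ^ (R + 1) * (1 / 2) ^ m := by gcongr; omega
        _ ≤ _ := by gcongr
  have a3 : pr b t (E3 s (R ^ 2 * m)) ≤ (s : ℝ) ^ (R + 1) * (1 - u ^ R) ^ m := by
    refine (pr_exists_le _ _ (x := (1 - u) ^ s) fun q hq => ?_).trans ?_
    · simpa only [card_range] using (pr_pat (t := t) hb (Z := range s)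
        (fun i hi => by have := mem_range.1 hi; omega) fun x => ∃ i ∈ q.1, ∃ j ∈ q.2, i + j = x).2
    · have h1 : (0 : ℝ) ≤ 1 - u := by linarith
      have h2 := card_sm s (R ^ 2 * m) (l := u / 4) (by positivity) (by linarith)
      calc _ ≤ ((1 + u / 4) ^ s / (u / 4) ^ (R ^ 2 * m)) ^ 2 * (1 - u) ^ s := by
            rw [card_product, Nat.cast_mul, ← sq]
            gcongr
        _ = (((1 + u / 4) ^ 2 * (1 - u)) ^ M' / (u / 4) ^ 2) ^ (R ^ 2 * m) := by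
            rw [hs', hc, mul_assoc]
            generalize R ^ 2 * m = j
            simp only [div_pow _ ((u / 4) ^ _), mul_pow, ← pow_mul]
            rw [div_mul_eq_mul_div]
            congr 2 <;> ring
        _ ≤ (1 / 2) ^ (R ^ 2 * m) := by
            refine pow_le_pow_left₀ (by positivity) ?_ _
            rw [div_le_iff₀ (by positivity)]
            linarith
        _ ≤ (1 / 2) ^ m := pow_le_pow_of_le_one (by norm_num) (by norm_num)
            (Nat.le_mul_of_pos_left _ (by positivity))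
        _ ≤ _ := hh.trans (le_mul_of_one_le_left hρ (one_le_pow₀ hs1))
  refine ((pr_mono fun d h => tr_cases (m := m) hR1 (by omega) hs h).trans
    (pr_or_le a1 (pr_or_le a2 a3))).trans (le_of_eq_of_le ?_ (hm₀ m (by omega)).le)
  rw [hs']
  push_cast
  ring

end Pool.Agent.Lib.MP_1d41ea_nt.S59
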