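import Pool.Agent.Lib.MP_1d41ea_nt.Check

namespace Pool.Agent.Lib.MP_1d41ea_nt

def rs (x : ℕ → Bool) (k : ℕ) : ℕ → Bool := fun i => x i && decide (i < k)

def lv (x : ℕ → Bool) (l : Lane) : ℕ := look l.dat (mk x l.vars)

def contrib (x : ℕ → Bool) (st : Step) : ℕ :=
  (st.ad.map (lv x)).sum + (st.sb.map (fun l => 65535 - lv x l)).sum

def tot (x : ℕ → Bool) (steps : List Step) : ℕ := (steps.map (contrib x)).sum

def Sat (x : ℕ → Bool) (steps : List Step) : Prop :=
  ∀ st ∈ steps, ∀ l ∈ st.c0 ++ st.c1, mk x l.vars ≠ l.dat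

theorem force_eq {α : Type} (n : ℕ) (k : ℕ → α) : force n k = k n := rfl

theorem mk_drop (f : ℕ → Bool) : ∀ (n : ℕ) (L : List ℕ), mk f L >>> n = mk f (L.drop n)
  | 0, L => by simp
  | n + 1, [] => by simp [mk]
  | n + 1, i :: L => by
    rw [Nat.shiftRight_succ_inside, List.drop_succ_cons, ← mk_drop f n L]
    congr 1
    have : (f i).toNat < 2 := Bool.toNat_lt _
    simp only [mk]
    omega

theorem mk_take (f : ℕ → Bool) : ∀ (k : ℕ) (L : List ℕ), mk f L % 2 ^ k = mk f (L.take k)
  | 0, L => by simp [mk, Nat.mod_one]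
  | k + 1, [] => by simp [mk]
  | k + 1, i :: L => by
    rw [List.take_succ_cons, pow_succ', Nat.mod_mul]
    have : (f i).toNat < 2 := Bool.toNat_lt _
    have h1 : mk f (i :: L) % 2 = (f i).toNat := by simp only [mk]; omega
    have h2 : mk f (i :: L) / 2 = mk f L := by simp only [mk]; omega
    rw [h1, h2, mk_take f k L]
    rfl

theorem mk_congr (f g : ℕ → Bool) : ∀ l : List ℕ, (∀ i ∈ l, f i = g i) → mk f l = mk g l
  | [], _ => rfl
  | i :: l, h => by
    simp only [mk]
    rw [h i (List.mem_cons_self ..), mk_congr f g l (fun j hj => h j (List.mem_cons_of_mem _ hj))]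

theorem mk_step (x : ℕ → Bool) (k : ℕ) : ∀ L : List ℕ,
    mk (rs x (k + 1)) L = mk (rs x k) L + (if x k then mk (fun i => decide (i = k)) L else 0)
  | [] => by simp [mk]
  | i :: L => by
    simp only [mk]
    rw [mk_step x k L]
    by_cases hik : i = k
    · subst hik
      cases hx : x i <;> simp [rs, hx]
      omega
    · have h : decide (i < k + 1) = decide (i < k) := by
        simp only [decide_eq_decide]; omega
      have h' : rs x (k + 1) i = rs x k i := by simp only [rs, h]
      rw [h']
      cases hx : x k <;> simp [hik]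
      omega

theorem mk_rs_zero (x : ℕ → Bool) : ∀ L : List ℕ, mk (rs x 0) L = 0
  | [] => rfl
  | i :: L => by simp only [mk]; rw [mk_rs_zero x L]; simp [rs]

theorem lane_eq (x : ℕ → Bool) (L : List ℕ) (k : ℕ) (l : Lane) (h : laneOK L k l = true) :
    Nat.mod (Nat.shiftRight (mk (rs x (k + 1)) L) l.off) l.md = mk x l.vars := by
  simp only [laneOK, Bool.and_eq_true, decide_eq_true_eq, List.all_eq_true] at h
  obtain ⟨⟨h1, h2⟩, h3⟩ := h
  change (mk (rs x (k + 1)) L >>> l.off) % l.md = _
  rw [mk_drop, h1, mk_take, h2]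
  refine mk_congr _ _ _ (fun i hi => ?_)
  have := h3 i hi
  simp [rs]
  omega

theorem viol_false (x : ℕ → Bool) (L : List ℕ) (k : ℕ) : ∀ ls : List Lane,
    (∀ l ∈ ls, laneOK L k l = true) → (∀ l ∈ ls, mk x l.vars ≠ l.dat) →
    viol (mk (rs x (k + 1)) L) ls = false
  | [], _, _ => rfl
  | l :: ls, h1, h2 => by
    have e := lane_eq x L k l (h1 l (List.mem_cons_self ..))
    have n := h2 l (List.mem_cons_self ..)
    have ih := viol_false x L k ls (fun j hj => h1 j (List.mem_cons_of_mem _ hj))
      (fun j hj => h2 j (List.mem_cons_of_mem _ hj))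
    obtain ⟨off, md, dat, vars⟩ := l
    change Bool.rec (motive := fun _ => Bool) (viol _ ls) true
      (Nat.beq (Nat.mod (Nat.shiftRight _ off) md) dat) = false
    simp only at e n
    have n' : Nat.beq (mk x vars) dat = false := by
      cases h : Nat.beq (mk x vars) dat
      · rfl
      · exact absurd (Nat.eq_of_beq_eq_true h) n
    rw [e, n']
    exact ih

theorem accA_eq (x : ℕ → Bool) (L : List ℕ) (k : ℕ) : ∀ (ls : List Lane) (acc : ℕ),
    (∀ l ∈ ls, laneOK L k l = true) →
    accA (mk (rs x (k + 1)) L) ls acc = acc + (ls.map (lv x)).sum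
  | [], _, _ => rfl
  | l :: ls, acc, h1 => by
    have e := lane_eq x L k l (h1 l (List.mem_cons_self ..))
    have ih := fun acc => accA_eq x L k ls acc (fun j hj => h1 j (List.mem_cons_of_mem _ hj))
    obtain ⟨off, md, dat, vars⟩ := l
    change accA _ ls (Nat.add acc (Nat.mod (Nat.shiftRight dat
      (Nat.mul 16 (Nat.mod (Nat.shiftRight _ off) md))) 65536)) = _
    simp only at e
    rw [e, ih, List.map_cons, List.sum_cons, ← add_assoc]
    rfl

theorem accB_eq (x : ℕ → Bool) (L : List ℕ) (k : ℕ) : ∀ (ls : List Lane) (acc : ℕ),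
    (∀ l ∈ ls, laneOK L k l = true) →
    accB (mk (rs x (k + 1)) L) ls acc = acc + (ls.map (fun l => 65535 - lv x l)).sum
  | [], _, _ => rfl
  | l :: ls, acc, h1 => by
    have e := lane_eq x L k l (h1 l (List.mem_cons_self ..))
    have ih := fun acc => accB_eq x L k ls acc (fun j hj => h1 j (List.mem_cons_of_mem _ hj))
    obtain ⟨off, md, dat, vars⟩ := l
    change accB _ ls (Nat.add acc (Nat.sub 65535 (Nat.mod (Nat.shiftRight dat
      (Nat.mul 16 (Nat.mod (Nat.shiftRight _ off) md))) 65536))) = _
    simp only at e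
    rw [e, ih, List.map_cons, List.sum_cons, ← add_assoc]
    rfl

theorem br_eq {α : Type} (x : ℕ → Bool) (L : List ℕ) (k : ℕ) (st : Step) (cs : List Lane)
    (hcs : ∀ l ∈ cs, l ∈ st.c0 ++ st.c1)
    (hok : (st.c0 ++ st.c1 ++ st.ad ++ st.sb).all (laneOK L k) = true)
    (hsat : ∀ l ∈ st.c0 ++ st.c1, mk x l.vars ≠ l.dat) (acc : ℕ) (d : α) (kf : ℕ → α) :
    br (mk (rs x (k + 1)) L) acc cs st.ad st.sb d kf = kf (acc + contrib x st) := by
  rw [List.all_eq_true] at hok
  have hv := viol_false x L k cs
    (fun l hl => hok l (List.mem_append_left _ (List.mem_append_left _ (hcs l hl))))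
    (fun l hl => hsat l (hcs l hl))
  unfold br
  rw [hv, force_eq,
    accB_eq x L k _ _ (fun l hl => hok l (List.mem_append_right _ hl)),
    accA_eq x L k _ _ (fun l hl => hok l (List.mem_append_left _ (List.mem_append_right _ hl))),
    contrib, add_assoc]

theorem mx_eq (a b : ℕ) : mx a b = max a b := by
  unfold mx
  rw [force_eq, force_eq]
  cases h : Nat.ble a b
  · have : ¬ a ≤ b := fun h' => by rw [Nat.ble_eq_true_of_le h'] at h; exact absurd h (by simp)
    change a = _
    omega
  · have := Nat.le_of_ble_eq_true h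
    change b = _
    omega

theorem fut_cons (st : Step) (r : List Step) (S acc : ℕ) :
    fut (st :: r) S acc = max (br S acc st.c0 st.ad st.sb 0 (fut r S))
      (br (S + st.w) acc st.c1 st.ad st.sb 0 (fut r (S + st.w))) := by
  rw [← mx_eq]
  rfl

/-- the value of the branch followed by `x` -/
theorem branch_eq {α : Type} (x : ℕ → Bool) (L : List ℕ) (k : ℕ) (st : Step) (r : List Step)
    (hok : stepsOK L k (st :: r) = true) (hsat : ∀ l ∈ st.c0 ++ st.c1, mk x l.vars ≠ l.dat)
    (acc : ℕ) (d : α) (kf : ℕ → ℕ → α) :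
    (x k = false → br (mk (rs x k) L) acc st.c0 st.ad st.sb d (kf (mk (rs x k) L)) =
      kf (mk (rs x (k + 1)) L) (acc + contrib x st)) ∧
    (x k = true → br (mk (rs x k) L + st.w) acc st.c1 st.ad st.sb d (kf (mk (rs x k) L + st.w)) =
      kf (mk (rs x (k + 1)) L) (acc + contrib x st)) := by
  simp only [stepsOK, Bool.and_eq_true, decide_eq_true_eq] at hok
  obtain ⟨⟨hw, hl⟩, _⟩ := hok
  have hs := mk_step x k L
  constructor
  · intro hx
    rw [hx] at hs
    simp only [Bool.false_eq_true, if_false, add_zero] at hs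
    rw [← hs]
    exact br_eq x L k st _ (fun l h => List.mem_append_left _ h) hl hsat acc d _
  · intro hx
    rw [hx, ← hw] at hs
    simp only [if_true] at hs
    rw [← hs]
    exact br_eq x L k st _ (fun l h => List.mem_append_right _ h) hl hsat acc d _

theorem stepsOK_tail {L : List ℕ} {k : ℕ} {st : Step} {r : List Step}
    (hok : stepsOK L k (st :: r) = true) : stepsOK L (k + 1) r = true := by
  simp only [stepsOK, Bool.and_eq_true] at hok
  exact hok.2

theorem fut_sound (x : ℕ → Bool) (L : List ℕ) : ∀ (fs : List Step) (k acc : ℕ),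
    stepsOK L k fs = true → Sat x fs → acc + tot x fs ≤ fut fs (mk (rs x k) L) acc
  | [], _, _, _, _ => le_of_eq rfl
  | st :: r, k, acc, hok, hsat => by
    have hb := branch_eq x L k st r hok (hsat st (List.mem_cons_self ..)) acc 0 (fut r)
    have ih := fut_sound x L r (k + 1) (acc + contrib x st) (stepsOK_tail hok)
      (fun s hs => hsat s (List.mem_cons_of_mem _ hs))
    have e : acc + tot x (st :: r) = acc + contrib x st + tot x r := by
      simp [tot, add_assoc]
    rw [fut_cons, e]
    cases hx : x k
    · rw [hb.1 hx]; exact le_max_of_le_left ih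
    · rw [hb.2 hx]; exact le_max_of_le_right ih

theorem past_nil (G c : ℕ) (cur : Step) (fs : List Step) (S acc : ℕ) :
    past G c cur fs [] S acc = kr G c (br S acc cur.c0 cur.ad cur.sb 0 (fut fs S))
      (br (S + cur.w) acc cur.c1 cur.ad cur.sb 0 (fut fs (S + cur.w))) := rfl

theorem past_cons (G c : ℕ) (cur : Step) (fs : List Step) (st : Step) (r : List Step)
    (S acc : ℕ) :
    past G c cur fs (st :: r) S acc = (br S acc st.c0 st.ad st.sb true (past G c cur fs r S) &&
      br (S + st.w) acc st.c1 st.ad st.sb true (past G c cur fs r (S + st.w))) := by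
  change Bool.rec (motive := fun _ => Bool) false
    (br (S + st.w) acc st.c1 st.ad st.sb true (past G c cur fs r (S + st.w)))
    (br S acc st.c0 st.ad st.sb true (past G c cur fs r S)) = _
  cases br S acc st.c0 st.ad st.sb true (past G c cur fs r S) <;> simp

theorem rs_congr (x y : ℕ → Bool) (k : ℕ) (h : ∀ i < k, y i = x i) : rs y k = rs x k := by
  funext i
  by_cases hi : i < k
  · simp [rs, h i hi]
  · simp [rs, hi]

theorem past_sound (G c : ℕ) (cur : Step) (fs : List Step) (x : ℕ → Bool) (L : List ℕ) :
    ∀ (ps : List Step) (k acc : ℕ), stepsOK L k (ps ++ cur :: fs) = true → Sat x ps →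
      past G c cur fs ps (mk (rs x k) L) acc = true →
      ∃ m0 m1 : ℕ, kr G c m0 m1 = true ∧ ∀ y : ℕ → Bool, (∀ i < k + ps.length, y i = x i) →
        Sat y (ps ++ cur :: fs) →
        (y (k + ps.length) = false → acc + tot y (ps ++ cur :: fs) ≤ m0) ∧
        (y (k + ps.length) = true → acc + tot y (ps ++ cur :: fs) ≤ m1)
  | [], k, acc, hok, _, hrun => by
    rw [past_nil] at hrun
    refine ⟨_, _, hrun, fun y hy hsy => ?_⟩
    simp only [List.length_nil, add_zero, List.nil_append] at hy hsy hok ⊢
    rw [← rs_congr x y k hy]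
    have hb := branch_eq y L k cur fs hok (hsy cur (List.mem_cons_self ..)) acc 0 (fut fs)
    have ih := fut_sound y L fs (k + 1) (acc + contrib y cur) (stepsOK_tail hok)
      (fun s hs => hsy s (List.mem_cons_of_mem _ hs))
    have e : acc + tot y (cur :: fs) = acc + contrib y cur + tot y fs := by
      simp [tot, add_assoc]
    rw [e]
    exact ⟨fun hx => by rw [hb.1 hx]; exact ih, fun hx => by rw [hb.2 hx]; exact ih⟩
  | st :: r, k, acc, hok, hsat, hrun => by
    rw [past_cons, Bool.and_eq_true] at hrun
    have hb := branch_eq x L k st (r ++ cur :: fs) hok (hsat st (List.mem_cons_self ..)) acc true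
      (past G c cur fs r)
    have hrun' : past G c cur fs r (mk (rs x (k + 1)) L) (acc + contrib x st) = true := by
      cases hx : x k
      · rw [← hb.1 hx]; exact hrun.1
      · rw [← hb.2 hx]; exact hrun.2
    obtain ⟨m0, m1, hkr, hy⟩ := past_sound G c cur fs x L r (k + 1) (acc + contrib x st)
      (stepsOK_tail hok) (fun s hs => hsat s (List.mem_cons_of_mem _ hs)) hrun'
    refine ⟨m0, m1, hkr, fun y hxy hsy => ?_⟩
    have el : k + (st :: r).length = k + 1 + r.length := by simp only [List.length_cons]; omega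
    rw [el] at hxy ⊢
    have hc : contrib y st = contrib x st := by
      have hok' := hok
      simp only [List.cons_append, stepsOK, Bool.and_eq_true, decide_eq_true_eq] at hok'
      have h1 := br_eq x L k st [] (fun l h => absurd h (by simp)) hok'.1.2
        (hsat st (List.mem_cons_self ..)) 0 0 id
      have h2 := br_eq y L k st [] (fun l h => absurd h (by simp)) hok'.1.2
        (hsy st (List.mem_cons_self ..)) 0 0 id
      rw [rs_congr x y (k + 1) (fun i hi => hxy i (by omega)), h1] at h2
      simpa using h2.symm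
    have e : acc + tot y (st :: r ++ cur :: fs) = acc + contrib x st + tot y (r ++ cur :: fs) := by
      rw [← hc]
      simp [tot, add_assoc]
    rw [e]
    exact hy y hxy (fun s hs => hsy s (List.mem_cons_of_mem _ hs))

theorem br_congr (S acc : ℕ) (cs ad sb : List Lane) (k1 k2 : ℕ → Bool)
    (h : ∀ a, k1 a = true → k2 a = true) :
    br S acc cs ad sb true k1 = true → br S acc cs ad sb true k2 = true := by
  unfold br
  cases viol S cs
  · exact h _
  · exact fun _ => rfl

theorem br_all {β : Type} (S acc : ℕ) (cs ad sb : List Lane) (k1 : β → ℕ → Bool) (k2 : ℕ → Bool)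
    (h : ∀ a, (∀ b, k1 b a = true) → k2 a = true) :
    (∀ b, br S acc cs ad sb true (k1 b) = true) → br S acc cs ad sb true k2 = true := by
  unfold br
  cases viol S cs
  · exact h _
  · exact fun _ => rfl

theorem run_all (G c : ℕ) (cur : Step) (fs : List Step) : ∀ (j : ℕ) (ps : List Step) (S acc : ℕ),
    (∀ pre : List Bool, pre.length = j → run G c cur fs pre ps S acc = true) →
    past G c cur fs ps S acc = true
  | 0, ps, S, acc, h => by simpa [run] using h [] rfl
  | j + 1, [], S, acc, h => by
    simpa [run] using h (true :: List.replicate j true) (by simp)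
  | j + 1, st :: ps, S, acc, h => by
    rw [past_cons, Bool.and_eq_true]
    constructor
    · refine br_all (β := {pre : List Bool // pre.length = j}) S acc _ _ _
        (fun b => run G c cur fs b.1 ps S) _
        (fun a ha => run_all G c cur fs j ps S a (fun pre hp => ha ⟨pre, hp⟩)) (fun b => ?_)
      simpa [run] using h (false :: b.1) (by simp [b.2])
    · refine br_all (β := {pre : List Bool // pre.length = j}) (S + st.w) acc _ _ _
        (fun b => run G c cur fs b.1 ps (S + st.w)) _
        (fun a ha => run_all G c cur fs j ps (S + st.w) a (fun pre hp => ha ⟨pre, hp⟩))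
        (fun b => ?_)
      simpa [run, force_eq] using h (true :: b.1) (by simp [b.2])

end Pool.Agent.Lib.MP_1d41ea_nt
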